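import Mathlib

open MeasureTheory Set Metric Filter Topology

noncomputable section

set_option linter.unusedSectionVars false

namespace Pool.Agent.Helper88.Weyl

section dec

variable {V : Type} [NormedAddCommGroup V] [InnerProductSpace ℝ V] [FiniteDimensional ℝ V]
  [MeasurableSpace V] [BorelSpace V]

/-- orthogonal complement of a direction -/
abbrev Wp (e : V) : Type := ((Submodule.span ℝ {e})ᗮ : Submodule ℝ V)

lemma inner_e {e : V} (y : Wp e) : inner ℝ e (y : V) = 0 :=
  Submodule.mem_orthogonal_singleton_iff_inner_right.mp y.2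

/-- the isometry `(t, y) ↦ t e + y` -/
def isoE (e : V) (he : ‖e‖ = 1) : WithLp 2 (ℝ × Wp e) ≃ₗᵢ[ℝ] V :=
  LinearIsometryEquiv.ofSurjective
    { toFun := fun p => p.fst • e + (p.snd : V)
      map_add' := by
        intro p q
        simp only [WithLp.add_fst, WithLp.add_snd, add_smul, Submodule.coe_add]
        abel
      map_smul' := by
        intro c p
        simp only [WithLp.smul_fst, WithLp.smul_snd, smul_eq_mul, RingHom.id_apply, smul_add,
          smul_smul, Submodule.coe_smul]
      norm_map' := by
        intro p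
        have h1 : ‖p.fst • e + (p.snd : V)‖ ^ 2 = ‖p‖ ^ 2 := by
          rw [WithLp.prod_norm_sq_eq_of_L2, ← real_inner_self_eq_norm_sq, inner_add_left,
            inner_add_right, inner_add_right, inner_smul_left, inner_smul_right, inner_smul_left,
            inner_smul_right, inner_e, real_inner_comm e (p.snd : V), inner_e,
            real_inner_self_eq_norm_sq, real_inner_self_eq_norm_sq, he]
          simp only [conj_trivial, Real.norm_eq_abs, sq_abs, Submodule.coe_norm]
          ring
        have := (pow_left_inj₀ (norm_nonneg _) (norm_nonneg _) two_ne_zero).mp h1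
        exact this }
    (by
      intro x
      have hy : x - inner ℝ e x • e ∈ (Submodule.span ℝ {e})ᗮ := by
        rw [Submodule.mem_orthogonal_singleton_iff_inner_right, inner_sub_right,
          inner_smul_right, real_inner_self_eq_norm_sq, he]
        ring
      refine ⟨WithLp.toLp 2 (inner ℝ e x, ⟨x - inner ℝ e x • e, hy⟩), ?_⟩
      change inner ℝ e x • e + (x - inner ℝ e x • e) = x
      abel)

/-- `Θ (t, y) = t e + y` -/
def Th (e : V) (p : ℝ × Wp e) : V := p.1 • e + (p.2 : V)

lemma Th_mp (e : V) (he : ‖e‖ = 1) :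
    MeasurePreserving (Th e) (volume.prod volume) (volume : Measure V) := by
  have h1 := (isoE e he).measurePreserving
  have h2 := WithLp.volume_preserving_toLp ℝ (Wp e)
  have := h1.comp h2
  exact this

lemma Th_emb (e : V) (he : ‖e‖ = 1) : MeasurableEmbedding (Th e) := by
  have h1 : MeasurableEmbedding (isoE e he) := (isoE e he).toHomeomorph.measurableEmbedding
  have h2 : MeasurableEmbedding (WithLp.toLp 2 : ℝ × Wp e → WithLp 2 (ℝ × Wp e)) :=
    (WithLp.homeomorphProd 2 ℝ (Wp e)).symm.measurableEmbedding
  exact h1.comp h2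

lemma Th_cont (e : V) : Continuous (Th e) := by
  unfold Th
  fun_prop

lemma fub {e : V} (he : ‖e‖ = 1) {H : V → ℝ} (hH : Integrable H) :
    ∫ x, H x = ∫ t : ℝ, ∫ y : Wp e, H (t • e + y) := by
  rw [← (Th_mp e he).integral_comp (Th_emb e he)]
  exact integral_prod (fun p => H (Th e p)) ((Th_mp e he).integrable_comp_emb
    (Th_emb e he) |>.mpr hH)

lemma fub_int {e : V} (he : ‖e‖ = 1) {H : V → ℝ} (hH : Integrable H) :
    Integrable (fun t : ℝ => ∫ y : Wp e, H (t • e + y)) := by
  have : Integrable (fun p => H (Th e p)) (volume.prod volume) :=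
    ((Th_mp e he).integrable_comp_emb (Th_emb e he)).mpr hH
  exact this.integral_prod_left

lemma fub_lint {e : V} (he : ‖e‖ = 1) {H : V → ENNReal} (hH : Measurable H) :
    ∫⁻ x, H x = ∫⁻ t : ℝ, ∫⁻ y : Wp e, H (t • e + y) := by
  rw [← (Th_mp e he).lintegral_comp hH]
  exact lintegral_prod _ (hH.comp (Th_cont e).measurable).aemeasurable

lemma finrank_Wp {e : V} (he : ‖e‖ = 1) {n : ℕ} (hn : Module.finrank ℝ V = n + 1) :
    Module.finrank ℝ (Wp e) = n := by
  have he0 : e ≠ 0 := by
    rintro rfl
    simp at he
  have : Fact (Module.finrank ℝ V = n + 1) := ⟨hn⟩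
  exact Submodule.finrank_orthogonal_span_singleton he0

end dec

end Pool.Agent.Helper88.Weyl
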