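import Mathlib
import Pool.Agent.Helper88.Weyl.Dec

open MeasureTheory Set Metric Filter Topology

noncomputable section

set_option linter.unusedSectionVars false

namespace Pool.Agent.Helper88.Weyl

/-- volume of the unit ball in dimension `n` -/
def om (n : ℕ) : ℝ := √Real.pi ^ n / Real.Gamma (n / 2 + 1)

lemma om_pos (n : ℕ) : 0 < om n := by
  unfold om
  have : 0 < Real.Gamma ((n : ℝ) / 2 + 1) := Real.Gamma_pos_of_pos (by positivity)
  positivity

section vb

variable {V : Type} [NormedAddCommGroup V] [InnerProductSpace ℝ V] [FiniteDimensional ℝ V]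
  [MeasurableSpace V] [BorelSpace V]

lemma vol_ball {n : ℕ} (hn : Module.finrank ℝ V = n) (hn1 : 1 ≤ n) (x : V) {r : ℝ}
    (hr : 0 ≤ r) : volume.real (ball x r) = r ^ n * om n := by
  have : Nontrivial V := Module.nontrivial_of_finrank_pos (R := ℝ) (by omega)
  have h0 := (om_pos n).le
  unfold om at h0 ⊢
  rw [measureReal_def, InnerProductSpace.volume_ball, hn, ENNReal.toReal_mul,
    ENNReal.toReal_pow, ENNReal.toReal_ofReal hr, ENNReal.toReal_ofReal h0]

end vb

/-- `w(s) = √(1-s²)` -/
def wf (s : ℝ) : ℝ := √(1 - s ^ 2)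

lemma wf_cont : Continuous wf := by unfold wf; fun_prop
lemma wf_nonneg (s : ℝ) : 0 ≤ wf s := Real.sqrt_nonneg _
lemma wf_sq {s : ℝ} (hs : s ∈ Ioo (-1) 1) : wf s ^ 2 = 1 - s ^ 2 := by
  unfold wf
  rw [Real.sq_sqrt]
  nlinarith [hs.1, hs.2]
lemma wf_pos {s : ℝ} (hs : s ∈ Ioo (-1) 1) : 0 < wf s := by
  unfold wf
  apply Real.sqrt_pos.mpr
  nlinarith [hs.1, hs.2]
lemma wf_zero {s : ℝ} (hs : s ∉ Ioo (-1) 1) : wf s = 0 := by
  unfold wf
  apply Real.sqrt_eq_zero_of_nonpos
  by_contra h
  push Not at h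
  apply hs
  constructor <;> nlinarith

lemma wf_le_one (s : ℝ) : wf s ≤ 1 := by
  unfold wf
  rw [Real.sqrt_le_one]
  nlinarith [sq_nonneg s]

lemma pf_int {n : ℕ} (hn : 1 ≤ n) : Integrable (fun s => wf s ^ n) := by
  apply Continuous.integrable_of_hasCompactSupport
  · exact wf_cont.pow n
  · apply HasCompactSupport.intro (isCompact_Icc : IsCompact (Icc (-1:ℝ) 1))
    intro x hx
    rw [wf_zero (fun h => hx (Ioo_subset_Icc_self h)), zero_pow (by omega)]

lemma om_succ {n : ℕ} (hn : 1 ≤ n) : om (n + 1) = om n * ∫ s, wf s ^ n := by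
  let V := EuclideanSpace ℝ (Fin (n + 1))
  let e : V := EuclideanSpace.single 0 1
  have he : ‖e‖ = 1 := by
    have := EuclideanSpace.norm_single (𝕜 := ℝ) (0 : Fin (n + 1)) (1 : ℝ)
    rw [norm_one] at this
    exact this
  have hV : Module.finrank ℝ V = n + 1 := finrank_euclideanSpace_fin
  have h1 := vol_ball hV (by omega) (0 : V) zero_le_one
  rw [one_pow, one_mul] at h1
  rw [← h1]
  have h2 : volume.real (ball (0 : V) 1) = ∫ x : V, (ball (0 : V) 1).indicator (fun _ => (1:ℝ)) x := by
    rw [integral_indicator measurableSet_ball, setIntegral_const, smul_eq_mul, mul_one]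
  have hi : Integrable ((ball (0 : V) 1).indicator (fun _ => (1:ℝ))) := by
    rw [integrable_indicator_iff measurableSet_ball]
    exact integrableOn_const measure_ball_lt_top.ne
  rw [h2, fub he hi, ← integral_const_mul]
  congr 1
  funext t
  have hW := finrank_Wp he hV
  have h3 : (fun y : Wp e => (ball (0 : V) 1).indicator (fun _ => (1:ℝ)) (t • e + (y : V))) =
      (ball (0 : Wp e) (wf t)).indicator (fun _ => (1:ℝ)) := by
    funext y
    have hn2 : ‖t • e + (y : V)‖ ^ 2 = t ^ 2 + ‖y‖ ^ 2 := by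
      rw [← real_inner_self_eq_norm_sq, inner_add_left, inner_add_right, inner_add_right,
        inner_smul_left, inner_smul_right, inner_smul_left, inner_smul_right, inner_e,
        real_inner_comm e (y : V), inner_e, real_inner_self_eq_norm_sq,
        real_inner_self_eq_norm_sq, he]
      simp only [conj_trivial, Submodule.coe_norm]
      ring
    have hiff : (t • e + (y : V)) ∈ ball (0 : V) 1 ↔ y ∈ ball (0 : Wp e) (wf t) := by
      rw [mem_ball_zero_iff, mem_ball_zero_iff]
      unfold wf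
      rw [Real.lt_sqrt (norm_nonneg _)]
      constructor
      · intro h
        have : ‖t • e + (y : V)‖ ^ 2 < 1 := by nlinarith [norm_nonneg (t • e + (y : V))]
        linarith
      · intro h
        have : ‖t • e + (y : V)‖ ^ 2 < 1 := by linarith
        nlinarith [norm_nonneg (t • e + (y : V))]
    by_cases h : y ∈ ball (0 : Wp e) (wf t)
    · rw [indicator_of_mem (hiff.mpr h), indicator_of_mem h]
    · rw [indicator_of_notMem (fun h' => h (hiff.mp h')), indicator_of_notMem h]
  rw [h3, integral_indicator measurableSet_ball, setIntegral_const, smul_eq_mul, mul_one,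
    vol_ball hW hn _ (wf_nonneg t)]
  ring

/-- the density of the first marginal of the unit ball of dimension `n+1` -/
def bf (n : ℕ) (s : ℝ) : ℝ := om n / om (n + 1) * wf s ^ n

variable {n : ℕ}

lemma bf_cont (n : ℕ) : Continuous (bf n) := by
  have := wf_cont
  unfold bf
  fun_prop
lemma bf_nonneg (n : ℕ) (s : ℝ) : 0 ≤ bf n s := by
  have h1 := om_pos n
  have h2 := om_pos (n + 1)
  have h3 := wf_nonneg s
  unfold bf
  positivity
lemma bf_pos (n : ℕ) {s : ℝ} (hs : s ∈ Ioo (-1) 1) : 0 < bf n s := by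
  have h1 := om_pos n
  have h2 := om_pos (n + 1)
  have h3 := wf_pos hs
  unfold bf
  positivity

lemma bf_zero (hn : 1 ≤ n) {s : ℝ} (hs : s ∉ Ioo (-1) 1) : bf n s = 0 := by
  unfold bf
  rw [wf_zero hs, zero_pow (by omega), mul_zero]

lemma bf_int (hn : 1 ≤ n) : Integrable (bf n) := (pf_int hn).const_mul _

lemma bf_total (hn : 1 ≤ n) : ∫ s, bf n s = 1 := by
  unfold bf
  rw [integral_const_mul, om_succ hn]
  have h1 := om_pos n
  have h2 : 0 < ∫ s, wf s ^ n := by
    have := om_pos (n + 1)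
    rw [om_succ hn] at this
    exact (pos_iff_pos_of_mul_pos this).mp h1
  field_simp

/-- its distribution function -/
def be (n : ℕ) (s : ℝ) : ℝ := ∫ σ in (-1)..s, bf n σ

lemma be_strict (n : ℕ) (s : ℝ) : HasStrictDerivAt (be n) (bf n s) s :=
  intervalIntegral.integral_hasStrictDerivAt_right ((bf_cont n).intervalIntegrable _ _)
    ((bf_cont n).stronglyMeasurableAtFilter _ _) (bf_cont n).continuousAt

lemma be_deriv (n : ℕ) (s : ℝ) : HasDerivAt (be n) (bf n s) s := (be_strict n s).hasDerivAt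

lemma be_cont (n : ℕ) : Continuous (be n) :=
  continuous_iff_continuousAt.mpr fun s => (be_deriv n s).continuousAt

lemma be_neg (n : ℕ) : be n (-1) = 0 := by unfold be; simp

lemma be_one (hn : 1 ≤ n) : be n 1 = 1 := by
  unfold be
  refine Eq.trans ?_ (bf_total hn)
  rw [intervalIntegral.integral_of_le (by norm_num)]
  apply setIntegral_eq_integral_of_forall_compl_eq_zero
  intro x hx
  apply bf_zero hn
  intro h
  exact hx ⟨h.1, h.2.le⟩

lemma be_smono (n : ℕ) : StrictMonoOn (be n) (Icc (-1) 1) := by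
  apply strictMonoOn_of_deriv_pos (convex_Icc _ _) (be_cont n).continuousOn
  intro s hs
  rw [interior_Icc] at hs
  rw [(be_deriv n s).deriv]
  exact bf_pos n hs

lemma be_mono (n : ℕ) : Monotone (be n) := by
  apply monotone_of_deriv_nonneg
  · exact fun s => (be_deriv n s).differentiableAt
  · intro s
    rw [(be_deriv n s).deriv]
    exact bf_nonneg n s

open Classical in
/-- quantile function -/
def ta (n : ℕ) (y : ℝ) : ℝ := if h : ∃ s ∈ Ioo (-1:ℝ) 1, be n s = y then h.choose else 0

lemma ta_ex (hn : 1 ≤ n) {y : ℝ} (hy : y ∈ Ioo 0 1) : ∃ s ∈ Ioo (-1:ℝ) 1, be n s = y := by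
  have h := intermediate_value_Ioo (by norm_num : (-1:ℝ) ≤ 1) (be_cont n).continuousOn
  rw [be_neg, be_one hn] at h
  obtain ⟨s, hs, hsy⟩ := h hy
  exact ⟨s, hs, hsy⟩

lemma ta_mem (hn : 1 ≤ n) {y : ℝ} (hy : y ∈ Ioo 0 1) : ta n y ∈ Ioo (-1:ℝ) 1 := by
  unfold ta
  rw [dif_pos (ta_ex hn hy)]
  exact (ta_ex hn hy).choose_spec.1

lemma be_ta (hn : 1 ≤ n) {y : ℝ} (hy : y ∈ Ioo 0 1) : be n (ta n y) = y := by
  unfold ta
  rw [dif_pos (ta_ex hn hy)]
  exact (ta_ex hn hy).choose_spec.2

lemma ta_be (hn : 1 ≤ n) {s : ℝ} (hs : s ∈ Ioo (-1) 1) : ta n (be n s) = s := by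
  have hy : be n s ∈ Ioo 0 1 := by
    have h1 := be_smono n (left_mem_Icc.mpr (by norm_num)) (Ioo_subset_Icc_self hs) hs.1
    have h2 := be_smono n (Ioo_subset_Icc_self hs) (right_mem_Icc.mpr (by norm_num)) hs.2
    rw [be_neg] at h1
    rw [be_one hn] at h2
    exact ⟨h1, h2⟩
  exact (be_smono n).injOn (Ioo_subset_Icc_self (ta_mem hn hy)) (Ioo_subset_Icc_self hs)
    (be_ta hn hy)

lemma ta_deriv (hn : 1 ≤ n) {y : ℝ} (hy : y ∈ Ioo 0 1) :
    HasDerivAt (ta n) (bf n (ta n y))⁻¹ y := by
  have hs := ta_mem hn hy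
  have hb := (bf_pos n hs).ne'
  have h1 := (be_strict n (ta n y)).to_localInverse hb
  rw [be_ta hn hy] at h1
  refine h1.hasDerivAt.congr_of_eventuallyEq ?_
  have hc : ContinuousAt ((be_strict n (ta n y)).localInverse (be n) (bf n (ta n y))
      (ta n y) hb) y := h1.hasDerivAt.continuousAt
  have h2 := (be_strict n (ta n y)).hasStrictFDerivAt_equiv hb |>.eventually_right_inverse
  have h3 := (be_strict n (ta n y)).hasStrictFDerivAt_equiv hb |>.localInverse_apply_image
  rw [be_ta hn hy] at h2 h3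
  have hc' : Tendsto ((be_strict n (ta n y)).localInverse (be n) (bf n (ta n y))
      (ta n y) hb) (𝓝 y) (𝓝 (ta n y)) := by
    have := hc.tendsto
    have e : (be_strict n (ta n y)).localInverse (be n) (bf n (ta n y)) (ta n y) hb y =
      ta n y := h3
    rwa [e] at this
  have hev := hc' (Ioo_mem_nhds hs.1 hs.2)
  filter_upwards [hev, h2] with z hz1 hz2
  have : be n ((be_strict n (ta n y)).localInverse (be n) (bf n (ta n y)) (ta n y) hb z) = z :=
    hz2
  rw [← this, ta_be hn hz1, this]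

/-- the one-dimensional transport map -/
lemma exists_T (hn : 1 ≤ n) {M : ℝ → ℝ} (hM : Continuous M) (hM0 : ∀ t, 0 ≤ M t) {R : ℝ}
    (hR : 0 < R) (hMR : ∀ t, t ∉ Icc (-R) R → M t = 0) {m : ℝ} (hm : m = ∫ t, M t)
    (hmp : 0 < m) {ε : ℝ} (hε : 0 < ε) (hε2 : ε < 1 / 2) :
    ∃ T : ℝ → ℝ, ContDiff ℝ 1 T ∧ (∀ t, T t ∈ Ioo (-1:ℝ) 1) ∧
      (∀ t, HasDerivAt T ((1 - 2 * ε) * (M t / m) / bf n (T t)) t) ∧
      ∀ t, be n (T t) = ε + (1 - 2 * ε) * ((∫ σ in (-R)..t, M σ) / m) := by
  set F : ℝ → ℝ := fun t => (∫ σ in (-R)..t, M σ) / m with hF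
  have hFd : ∀ t, HasDerivAt F (M t / m) t := by
    intro t
    exact (intervalIntegral.integral_hasDerivAt_right (hM.intervalIntegrable _ _)
      (hM.stronglyMeasurableAtFilter _ _) hM.continuousAt).div_const m
  have hFm : Monotone F := by
    apply monotone_of_deriv_nonneg (fun t => (hFd t).differentiableAt)
    intro t
    rw [(hFd t).deriv]
    exact div_nonneg (hM0 t) hmp.le
  have hconstR : ∀ t, R ≤ t → F t = 1 := by
    intro t ht
    have h1 : ∫ σ in (-R)..t, M σ = m := by
      rw [intervalIntegral.integral_of_le (by linarith), hm]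
      apply setIntegral_eq_integral_of_ae_compl_eq_zero
      have : ∀ᵐ x : ℝ, x ≠ -R := by
        rw [ae_iff]
        simp
      filter_upwards [this] with x hx hx2
      apply hMR
      intro h
      apply hx2
      exact ⟨lt_of_le_of_ne h.1 (Ne.symm hx), h.2.trans ht⟩
    simp only [hF]
    rw [h1, div_self hmp.ne']
  have hconstL : ∀ t, t ≤ -R → F t = 0 := by
    intro t ht
    have h1 : ∫ σ in (-R)..t, M σ = 0 := by
      rw [intervalIntegral.integral_of_ge ht]
      have : ∫ x in Ioc t (-R), M x = 0 := by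
        apply setIntegral_eq_zero_of_forall_eq_zero
        intro x hx
        rcases eq_or_lt_of_le hx.2 with h | h
        · by_contra hne
          -- continuity at `-R`
          have hev : ∀ᶠ y in 𝓝[<] (-R), M y = 0 := by
            filter_upwards [self_mem_nhdsWithin] with y hy
            exact hMR y (fun h' => absurd h'.1 (not_le.mpr hy))
          have h2 : Tendsto M (𝓝[<] (-R)) (𝓝 (M (-R))) := hM.continuousAt.tendsto.mono_left
            nhdsWithin_le_nhds
          have h3 : Tendsto M (𝓝[<] (-R)) (𝓝 0) := by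
            refine tendsto_const_nhds.congr' ?_
            filter_upwards [hev] with y hy
            exact hy.symm
          have := tendsto_nhds_unique h2 h3
          rw [h] at hne
          exact hne this
        · exact hMR x (fun h' => absurd h'.1 (not_le.mpr h))
      rw [this, neg_zero]
    simp only [hF]
    rw [h1, zero_div]
  have hF0 : ∀ t, 0 ≤ F t := by
    intro t
    rcases le_or_gt t (-R) with h | h
    · rw [hconstL t h]
    · rw [← hconstL (-R) le_rfl]
      exact hFm h.le
  have hF1 : ∀ t, F t ≤ 1 := by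
    intro t
    rcases le_or_gt R t with h | h
    · rw [hconstR t h]
    · rw [← hconstR R le_rfl]
      exact hFm h.le
  have harg : ∀ t, ε + (1 - 2 * ε) * F t ∈ Ioo (0:ℝ) 1 := by
    intro t
    have h0 := hF0 t
    have h1 := hF1 t
    constructor
    · have : 0 ≤ (1 - 2 * ε) * F t := mul_nonneg (by linarith) h0
      linarith
    · have : (1 - 2 * ε) * F t ≤ 1 - 2 * ε := mul_le_of_le_one_right (by linarith) h1
      linarith
  set T : ℝ → ℝ := fun t => ta n (ε + (1 - 2 * ε) * F t) with hT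
  have hTd : ∀ t, HasDerivAt T ((1 - 2 * ε) * (M t / m) / bf n (T t)) t := by
    intro t
    have h1 := ta_deriv hn (harg t)
    have h2 : HasDerivAt (fun t => ε + (1 - 2 * ε) * F t) ((1 - 2 * ε) * (M t / m)) t :=
      ((hFd t).const_mul _).const_add _
    have := h1.comp t h2
    rw [div_eq_mul_inv, mul_comm]
    exact this
  have hTm : ∀ t, T t ∈ Ioo (-1:ℝ) 1 := fun t => ta_mem hn (harg t)
  have hTc : Continuous T := continuous_iff_continuousAt.mpr fun t => (hTd t).continuousAt
  refine ⟨T, ?_, hTm, hTd, fun t => be_ta hn (harg t)⟩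
  rw [contDiff_one_iff_deriv]
  refine ⟨fun t => (hTd t).differentiableAt, ?_⟩
  have : deriv T = fun t => (1 - 2 * ε) * (M t / m) / bf n (T t) := by
    funext t
    exact (hTd t).deriv
  rw [this]
  apply Continuous.div
  · fun_prop
  · exact (bf_cont n).comp hTc
  · intro t
    exact (bf_pos n (hTm t)).ne'

end Pool.Agent.Helper88.Weyl
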