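import Mathlib
import Pool.Agent.Helper88.Weyl.Prof

open MeasureTheory Set Metric Filter Topology

noncomputable section

set_option linter.unusedSectionVars false

namespace Pool.Agent.Helper88.Weyl

variable {V : Type} [NormedAddCommGroup V] [InnerProductSpace ℝ V] [FiniteDimensional ℝ V]
  [MeasurableSpace V] [BorelSpace V]

/-- integration by parts -/
lemma ibp {F H : V → ℝ} (hF : ContDiff ℝ 1 F) (hFc : HasCompactSupport F)
    (hH : ContDiff ℝ 1 H) (v : V) :
    ∫ x, F x * fderiv ℝ H x v = -∫ x, fderiv ℝ F x v * H x := by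
  have hFd : Continuous (fun x => fderiv ℝ F x v) := (hF.continuous_fderiv (by simp)).clm_apply
    continuous_const
  have hHd : Continuous (fun x => fderiv ℝ H x v) := (hH.continuous_fderiv (by simp)).clm_apply
    continuous_const
  have hFdc : HasCompactSupport (fun x => fderiv ℝ F x v) := hFc.fderiv_apply (𝕜 := ℝ) v
  have i1 : Integrable (fun x => fderiv ℝ F x v * H x) :=
    (hFd.mul hH.continuous).integrable_of_hasCompactSupport hFdc.mul_right
  have i2 : Integrable (fun x => F x * fderiv ℝ H x v) :=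
    (hF.continuous.mul hHd).integrable_of_hasCompactSupport hFc.mul_right
  have i3 : Integrable (fun x => F x * H x) :=
    (hF.continuous.mul hH.continuous).integrable_of_hasCompactSupport hFc.mul_right
  exact integral_mul_fderiv_eq_neg_fderiv_mul_of_integrable i1 i2 i3
    (fun x _ => (hF.differentiable (by simp)) x) (fun x _ => (hH.differentiable (by simp)) x)

lemma norm_slice {e : V} (he : ‖e‖ = 1) (t : ℝ) (y : Wp e) :
    ‖t • e + (y : V)‖ ^ 2 = t ^ 2 + ‖y‖ ^ 2 := by
  rw [← real_inner_self_eq_norm_sq, inner_add_left, inner_add_right, inner_add_right,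
    inner_smul_left, inner_smul_right, inner_smul_left, inner_smul_right, inner_e,
    real_inner_comm e (y : V), inner_e, real_inner_self_eq_norm_sq,
    real_inner_self_eq_norm_sq, he]
  simp only [conj_trivial, Submodule.coe_norm]
  ring

lemma inner_slice {e : V} (he : ‖e‖ = 1) (t : ℝ) (y : Wp e) :
    inner ℝ e (t • e + (y : V)) = t := by
  rw [inner_add_right, inner_smul_right, inner_e, real_inner_self_eq_norm_sq, he]
  ring

lemma abs_t_le {e : V} (he : ‖e‖ = 1) (t : ℝ) (y : Wp e) : |t| ≤ ‖t • e + (y : V)‖ := by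
  apply abs_le_of_sq_le_sq _ (norm_nonneg _)
  rw [norm_slice he]
  nlinarith [sq_nonneg ‖y‖]

lemma norm_y_le {e : V} (he : ‖e‖ = 1) (t : ℝ) (y : Wp e) : ‖y‖ ≤ ‖t • e + (y : V)‖ := by
  apply le_of_sq_le_sq _ (norm_nonneg _)
  rw [norm_slice he]
  nlinarith [sq_nonneg t]

/-- continuity of the marginal -/
lemma marg_cont {e : V} (he : ‖e‖ = 1) {H : V → ℝ} (hH : Continuous H) {R : ℝ}
    (hR : ∀ x, R < ‖x‖ → H x = 0) : Continuous (fun t : ℝ => ∫ y : Wp e, H (t • e + y)) := by
  have h1 : ∀ t : ℝ, ∫ y : Wp e, H (t • e + y) =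
      ∫ y in closedBall (0 : Wp e) R, H (t • e + y) := by
    intro t
    symm
    apply setIntegral_eq_integral_of_forall_compl_eq_zero
    intro y hy
    apply hR
    rw [mem_closedBall_zero_iff, not_le] at hy
    exact hy.trans_le (norm_y_le he t y)
  simp_rw [h1]
  apply continuous_parametric_integral_of_continuous _ (isCompact_closedBall _ _)
  simp only [Function.uncurry_def]
  fun_prop

lemma slice_cs {e : V} (he : ‖e‖ = 1) {H : V → ℝ} {R : ℝ}
    (hR : ∀ x, R < ‖x‖ → H x = 0) (t : ℝ) :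
    HasCompactSupport (fun y : Wp e => H (t • e + y)) := by
  apply HasCompactSupport.intro (isCompact_closedBall (0 : Wp e) R)
  intro y hy
  apply hR
  rw [mem_closedBall_zero_iff, not_le] at hy
  exact hy.trans_le (norm_y_le he t y)

lemma slice_int {e : V} (he : ‖e‖ = 1) {H : V → ℝ} (hH : Continuous H) {R : ℝ}
    (hR : ∀ x, R < ‖x‖ → H x = 0) (t : ℝ) :
    Integrable (fun y : Wp e => H (t • e + y)) := by
  apply Continuous.integrable_of_hasCompactSupport _ (slice_cs he hR t)
  fun_prop

lemma cs_int {H : V → ℝ} (hH : Continuous H) {R : ℝ} (hR : ∀ x, R < ‖x‖ → H x = 0) :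
    Integrable H := by
  apply hH.integrable_of_hasCompactSupport
  apply HasCompactSupport.intro (isCompact_closedBall (0 : V) R)
  intro x hx
  apply hR
  rwa [mem_closedBall_zero_iff, not_le] at hx

lemma exists_R {H : V → ℝ} (hH : HasCompactSupport H) : ∃ R : ℝ, 0 < R ∧
    (∀ x, R < ‖x‖ → H x = 0) ∧ ∀ x, R < ‖x‖ → fderiv ℝ H x = 0 := by
  obtain ⟨R, hR⟩ := hH.isCompact.isBounded.subset_closedBall (0 : V)
  refine ⟨max R 1, by positivity, ?_, ?_⟩
  · intro x hx
    apply image_eq_zero_of_notMem_tsupport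
    intro h
    have := mem_closedBall_zero_iff.mp (hR h)
    exact absurd hx (not_lt.mpr (this.trans (le_max_left _ _)))
  · intro x hx
    have : x ∉ tsupport (fderiv ℝ H) := by
      intro h
      have := mem_closedBall_zero_iff.mp (hR (tsupport_fderiv_subset ℝ h))
      exact absurd hx (not_lt.mpr (this.trans (le_max_left _ _)))
    exact image_eq_zero_of_notMem_tsupport this

lemma slice_fderiv {e : V} {H : V → ℝ} (hH : Differentiable ℝ H) (t : ℝ) (y : Wp e) :
    HasFDerivAt (fun y : Wp e => H (t • e + y))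
      ((fderiv ℝ H (t • e + y)).comp (Submodule.subtypeL _)) y := by
  have h1 : HasFDerivAt (fun y : Wp e => t • e + (y : V))
      (Submodule.subtypeL (Submodule.span ℝ {e})ᗮ) y :=
    ((Submodule.subtypeL (Submodule.span ℝ {e})ᗮ).hasFDerivAt).const_add (t • e)
  exact (hH _).hasFDerivAt.comp y h1

lemma slice_C1 {e : V} {H : V → ℝ} (hH : ContDiff ℝ 1 H) (t : ℝ) :
    ContDiff ℝ 1 (fun y : Wp e => H (t • e + y)) := by
  apply hH.comp
  exact contDiff_const.add (Submodule.subtypeL (Submodule.span ℝ {e})ᗮ).contDiff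

lemma norm_cont {X E F : Type*} [TopologicalSpace X] [NormedAddCommGroup E] [NormedSpace ℝ E]
    [NormedAddCommGroup F] [NormedSpace ℝ F] {f : X → E →L[ℝ] F} (hf : Continuous f) :
    Continuous fun x => ‖f x‖ := hf.norm

/-- norm of the tangential part -/
def tn (e : V) (L : V →L[ℝ] ℝ) : ℝ := ‖L.comp (Submodule.subtypeL (Submodule.span ℝ {e})ᗮ)‖

lemma tn_cont (e : V) {ρ : V → ℝ} (hfc : Continuous (fderiv ℝ ρ)) :
    Continuous (fun x => tn e (fderiv ℝ ρ x)) := by
  have hLc : Continuous (fun x =>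
      (fderiv ℝ ρ x).comp (Submodule.subtypeL (Submodule.span ℝ {e})ᗮ)) :=
    hfc.clm_comp continuous_const
  exact norm_cont (E := Wp e) (F := ℝ) hLc

lemma tn_zero (e : V) : tn e (0 : V →L[ℝ] ℝ) = 0 := by
  unfold tn
  rw [ContinuousLinearMap.zero_comp]
  exact norm_zero (E := Wp e →L[ℝ] ℝ)

/-- pointwise splitting of the gradient -/
lemma split_norm {e : V} (he : ‖e‖ = 1) (L : V →L[ℝ] ℝ) {T w : ℝ} (hw : 0 < w)
    (hTw : T ^ 2 + w ^ 2 = 1) :
    -(T * L e) + w * tn e L ≤ ‖L‖ := by
  unfold tn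
  have key : ‖L.comp (Submodule.subtypeL (Submodule.span ℝ {e})ᗮ)‖ ≤ (‖L‖ + T * L e) / w := by
    have hnn : 0 ≤ (‖L‖ + T * L e) / w := by
      apply div_nonneg _ hw.le
      have h1 : |L e| ≤ ‖L‖ := by
        have := L.le_opNorm e
        rwa [he, mul_one] at this
      have h2 : |T| ≤ 1 := by
        apply abs_le_of_sq_le_sq _ zero_le_one
        nlinarith
      have h3 : |T * L e| ≤ ‖L‖ := by
        rw [abs_mul]
        calc |T| * |L e| ≤ 1 * ‖L‖ := mul_le_mul h2 h1 (abs_nonneg _) zero_le_one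
          _ = _ := one_mul _
      linarith [(abs_le.mp h3).1]
    apply ContinuousLinearMap.opNorm_le_of_unit_norm hnn
    intro y hy
    rw [ContinuousLinearMap.comp_apply, Submodule.subtypeL_apply, Real.norm_eq_abs, abs_le]
    have h1 : ∀ z : Wp e, ‖z‖ = 1 → w * L z ≤ ‖L‖ + T * L e := by
      intro z hz
      have h2 : L ((-T) • e + ((w • z : Wp e) : V)) ≤ ‖L‖ * ‖(-T) • e + ((w • z : Wp e) : V)‖ :=
        (le_abs_self _).trans (L.le_opNorm _)
      have h3 : ‖(-T) • e + ((w • z : Wp e) : V)‖ = 1 := by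
        have : ‖(-T) • e + ((w • z : Wp e) : V)‖ ^ 2 = 1 := by
          rw [norm_slice he, norm_smul, hz, mul_one, Real.norm_eq_abs, sq_abs]
          linarith
        exact (pow_eq_one_iff_of_nonneg (norm_nonneg _) two_ne_zero).mp this
      rw [h3, mul_one, map_add, map_smul, Submodule.coe_smul, map_smul, smul_eq_mul,
        smul_eq_mul] at h2
      linarith
    constructor
    · have := h1 (-y) (by rw [norm_neg]; exact hy)
      rw [Submodule.coe_neg, map_neg] at this
      rw [neg_le, le_div_iff₀ hw]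
      linarith
    · rw [le_div_iff₀ hw]
      have := h1 y hy
      linarith
  have := mul_le_mul_of_nonneg_left key hw.le
  rw [mul_div_cancel₀ _ hw.ne'] at this
  linarith

end Pool.Agent.Helper88.Weyl
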