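import Mathlib
import Pool.Agent.Helper88.Weyl.Slice

open MeasureTheory Set Metric Filter Topology

noncomputable section

set_option linter.unusedSectionVars false

namespace Pool.Agent.Helper88.Weyl

/-- `r ^ (1 + 1/n)` -/
def pw (n : ℕ) (r : ℝ) : ℝ := r * r ^ ((n : ℝ)⁻¹)

lemma rc (n : ℕ) : Continuous (fun r : ℝ => r ^ ((n : ℝ)⁻¹)) :=
  Real.continuous_rpow_const (by positivity)

lemma pw_cont (n : ℕ) : Continuous (pw n) := continuous_id.mul (rc n)

lemma pw_zero (n : ℕ) : pw n 0 = 0 := by unfold pw; simp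

lemma pw_nonneg (n : ℕ) {r : ℝ} (hr : 0 ≤ r) : 0 ≤ pw n r := by unfold pw; positivity

lemma amgm_refined {n : ℕ} {A B C : ℝ} (hA : 0 ≤ A) (hB : 0 ≤ B) (hC : 0 ≤ C)
    (h : C ^ (n + 1) = A * B ^ n) :
    (n + 1) * C + (√A - √C) ^ 2 ≤ A + n * B := by
  have hn2 : (0:ℝ) < n + 2 := by positivity
  have h1 := Real.geom_mean_le_arith_mean2_weighted (w₁ := (n:ℝ) / (n + 2)) (w₂ := 2 / (n + 2))
    (p₁ := B) (p₂ := √(A * C)) (by positivity) (by positivity) hB (Real.sqrt_nonneg _)
    (by field_simp)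
  have h2 : B ^ ((n:ℝ) / (n + 2)) * √(A * C) ^ (2 / ((n:ℝ) + 2)) = C := by
    have e1 : B ^ ((n:ℝ) / (n + 2)) = (B ^ n) ^ (1 / ((n:ℝ) + 2)) := by
      rw [← Real.rpow_natCast, ← Real.rpow_mul hB]
      congr 1
      ring
    have e2 : √(A * C) ^ (2 / ((n:ℝ) + 2)) = (A * C) ^ (1 / ((n:ℝ) + 2)) := by
      rw [Real.sqrt_eq_rpow, ← Real.rpow_mul (by positivity)]
      congr 1
      ring
    rw [e1, e2, ← Real.mul_rpow (by positivity) (by positivity)]
    have e3 : B ^ n * (A * C) = C ^ (n + 2) := by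
      rw [pow_succ, h]
      ring
    rw [e3, ← Real.rpow_natCast, ← Real.rpow_mul hC]
    have : ((n + 2 : ℕ) : ℝ) * (1 / ((n:ℝ) + 2)) = 1 := by
      push_cast
      field_simp
    rw [this, Real.rpow_one]
  rw [h2] at h1
  have h3 : (n + 2) * C ≤ n * B + 2 * √(A * C) := by
    have := mul_le_mul_of_nonneg_left h1 hn2.le
    have e : ((n:ℝ) + 2) * ((n:ℝ) / (n + 2) * B + 2 / (n + 2) * √(A * C)) =
        n * B + 2 * √(A * C) := by
      field_simp
    rwa [e] at this
  rw [Real.sqrt_mul hA] at h3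
  nlinarith [Real.sq_sqrt hA, Real.sq_sqrt hC]

/-- the functional isoperimetric inequality in dimension `n` -/
def Star (n : ℕ) : Prop := ∀ (V : Type) [NormedAddCommGroup V] [InnerProductSpace ℝ V]
  [FiniteDimensional ℝ V] [MeasurableSpace V] [BorelSpace V], Module.finrank ℝ V = n →
  ∀ ρ : V → ℝ, ContDiff ℝ 1 ρ → HasCompactSupport ρ → (∀ x, 0 ≤ ρ x) →
    n * (om n / ∫ x, ρ x) ^ ((n : ℝ)⁻¹) * ∫ x, pw n (ρ x) ≤ ∫ x, ‖fderiv ℝ ρ x‖

variable {V : Type} [NormedAddCommGroup V] [InnerProductSpace ℝ V] [FiniteDimensional ℝ V]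
  [MeasurableSpace V] [BorelSpace V]

lemma fd_int {f : V → ℝ} (hf : ContDiff ℝ 1 f) (hc : HasCompactSupport f) :
    Integrable (fun x => ‖fderiv ℝ f x‖) := by
  apply (hf.continuous_fderiv (by simp)).norm.integrable_of_hasCompactSupport
  exact (hc.fderiv (𝕜 := ℝ)).norm

lemma pw_int {n : ℕ} {f : V → ℝ} (hf : Continuous f) (hc : HasCompactSupport f) :
    Integrable (fun x => pw n (f x)) := by
  apply ((pw_cont n).comp hf).integrable_of_hasCompactSupport
  exact hc.comp_left (pw_zero n)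

lemma cc_int {f : V → ℝ} (hf : Continuous f) (hc : HasCompactSupport f) :
    Integrable f := hf.integrable_of_hasCompactSupport hc

/-- the marginal in direction `e` -/
def marg (e : V) (ρ : V → ℝ) (t : ℝ) : ℝ := ∫ y : Wp e, ρ (t • e + y)

lemma marg_nonneg {e : V} {ρ : V → ℝ} (h0 : ∀ x, 0 ≤ ρ x) (t : ℝ) : 0 ≤ marg e ρ t :=
  integral_nonneg fun _ => h0 _

lemma marg_out {e : V} (he : ‖e‖ = 1) {ρ : V → ℝ} {R : ℝ} (hR : ∀ x, R < ‖x‖ → ρ x = 0) {t : ℝ}
    (ht : t ∉ Icc (-R) R) : marg e ρ t = 0 := by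
  unfold marg
  have : (fun y : Wp e => ρ (t • e + y)) = fun _ => 0 := by
    funext y
    apply hR
    refine lt_of_lt_of_le ?_ (abs_t_le he t y)
    by_contra h
    exact ht (abs_le.mp (not_lt.mp h))
  rw [this, integral_zero]

lemma marg_total {e : V} (he : ‖e‖ = 1) {ρ : V → ℝ} (hi : Integrable ρ) :
    ∫ t, marg e ρ t = ∫ x, ρ x := (fub he hi).symm

lemma marg_zero {e : V} (he : ‖e‖ = 1) {ρ : V → ℝ} (hc : Continuous ρ) (h0 : ∀ x, 0 ≤ ρ x)
    {R : ℝ} (hR : ∀ x, R < ‖x‖ → ρ x = 0) {t : ℝ} (ht : marg e ρ t = 0) (y : Wp e) :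
    ρ (t • e + y) = 0 := by
  have h1 : Continuous (fun y : Wp e => ρ (t • e + y)) := by fun_prop
  have h2 := (integral_eq_zero_iff_of_nonneg (fun y => h0 _)
    (slice_int he hc hR t)).mp ht
  have h3 := (h1.ae_eq_iff_eq volume continuous_const).mp h2
  exact congrFun h3 y

theorem refined {n : ℕ} (hn : 1 ≤ n) (hstar : Star n) (hV : Module.finrank ℝ V = n + 1)
    {e : V} (he : ‖e‖ = 1) {ρ : V → ℝ} (hρ : ContDiff ℝ 1 ρ) (h0 : ∀ x, 0 ≤ ρ x) {R : ℝ}
    (hR0 : 0 < R) (hR : ∀ x, R < ‖x‖ → ρ x = 0) (hR' : ∀ x, R < ‖x‖ → fderiv ℝ ρ x = 0)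
    {m : ℝ} (hm : m = ∫ x, ρ x) (hmp : 0 < m) {ε : ℝ} (hε : 0 < ε) (hε2 : ε < 1 / 2) :
    ∃ T : ℝ → ℝ, ContDiff ℝ 1 T ∧ (∀ t, T t ∈ Ioo (-1:ℝ) 1) ∧
      (∀ t, HasDerivAt T ((1 - 2 * ε) * (marg e ρ t / m) / bf n (T t)) t) ∧
      (∀ t, be n (T t) = ε + (1 - 2 * ε) * ((∫ σ in (-R)..t, marg e ρ σ) / m)) ∧
      (n + 1) * ((1 - 2 * ε) * om (n + 1) / m) ^ (((n + 1 : ℕ) : ℝ)⁻¹) *
        (∫ x, pw (n + 1) (ρ x)) +
        (∫ x, ρ x * (√(deriv T (inner ℝ e x)) -
          √(((1 - 2 * ε) * om (n + 1) / m * ρ x) ^ (((n + 1 : ℕ) : ℝ)⁻¹))) ^ 2) ≤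
        ∫ x, ‖fderiv ℝ ρ x‖ := by
  have hW := finrank_Wp he hV
  have hρc : Continuous ρ := hρ.continuous
  have hρcs : HasCompactSupport ρ := by
    apply HasCompactSupport.intro (isCompact_closedBall (0 : V) R)
    intro x hx
    apply hR
    rwa [mem_closedBall_zero_iff, not_le] at hx
  have hρi : Integrable ρ := hρc.integrable_of_hasCompactSupport hρcs
  have hMc : Continuous (marg e ρ) := marg_cont he hρc hR
  have hM0 := marg_nonneg (e := e) h0
  obtain ⟨T, hT1, hT2, hT3, hT4⟩ := exists_T hn hMc hM0 hR0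
    (fun t ht => marg_out he hR ht) (hm.trans (marg_total he hρi).symm) hmp hε hε2
  refine ⟨T, hT1, hT2, hT3, hT4, ?_⟩
  set c : ℝ := (1 - 2 * ε) * om (n + 1) / m with hc
  have hom := om_pos n
  have hom1 := om_pos (n + 1)
  have hc0 : 0 < c := by
    rw [hc]
    apply div_pos (mul_pos (by linarith) hom1) hmp
  set a : ℝ := (((n + 1 : ℕ) : ℝ)⁻¹) with ha
  have ha0 : 0 < a := by rw [ha]; positivity
  have hTc : Continuous T := hT1.continuous
  have hT'c : Continuous (deriv T) := hT1.continuous_deriv (by simp)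
  have hT'0 : ∀ t, 0 ≤ deriv T t := by
    intro t
    rw [(hT3 t).deriv]
    apply div_nonneg
    · exact mul_nonneg (by linarith) (div_nonneg (hM0 t) hmp.le)
    · exact bf_nonneg _ _
  have hfc : Continuous (fderiv ℝ ρ) := hρ.continuous_fderiv (by simp)
  have hrc := rc (n + 1)
  have hwc := wf_cont
  -- the two integrands
  set K : V → ℝ := fun x => (n + 1) * (ρ x * (c * ρ x) ^ a) +
    ρ x * (√(deriv T (inner ℝ e x)) - √((c * ρ x) ^ a)) ^ 2 with hK
  set J : V → ℝ := fun x => ρ x * deriv T (inner ℝ e x) +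
    wf (T (inner ℝ e x)) * tn e (fderiv ℝ ρ x) with hJ
  have hrc' : Continuous (fun x => (c * ρ x) ^ a) := hrc.comp (continuous_const.mul hρc)
  have hKc : Continuous K := by
    rw [hK]
    fun_prop
  have hLn : Continuous (fun x => tn e (fderiv ℝ ρ x)) := tn_cont e hfc
  have hTi : Continuous (fun x : V => wf (T (inner ℝ e x))) := by fun_prop
  have hT'i : Continuous (fun x : V => deriv T (inner ℝ e x)) := by fun_prop
  have hJc : Continuous J := (hρc.mul hT'i).add (hTi.mul hLn)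
  have hKR : ∀ x, R < ‖x‖ → K x = 0 := by
    intro x hx
    simp only [hK, hR x hx]
    ring
  have hJR : ∀ x, R < ‖x‖ → J x = 0 := by
    intro x hx
    simp only [hJ, hR x hx, hR' x hx, tn_zero, mul_zero, zero_mul, add_zero]
  have hKi := cs_int hKc hKR
  have hJi := cs_int hJc hJR
  have step : ∀ t : ℝ, ∫ y : Wp e, K (t • e + y) ≤ ∫ y : Wp e, J (t • e + y) := by
    intro t
    set f : Wp e → ℝ := fun y => ρ (t • e + y) with hf
    have hfC : ContDiff ℝ 1 f := slice_C1 hρ t
    have hfcs : HasCompactSupport f := slice_cs he hR t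
    have hfi : Integrable f := cc_int (V := Wp e) hfC.continuous hfcs
    have hff : ∀ y : Wp e, ‖fderiv ℝ f y‖ = tn e (fderiv ℝ ρ (t • e + y)) := by
      intro y
      unfold tn
      rw [(slice_fderiv (hρ.differentiable (by simp)) t y).fderiv]
    have hpi : Integrable (fun y => pw n (f y)) := pw_int (V := Wp e) hfC.continuous hfcs
    have hdi : Integrable (fun y => ‖fderiv ℝ f y‖) := fd_int (V := Wp e) hfC hfcs
    have s1 := hstar (Wp e) hW f hfC hfcs (fun y => h0 _)
    have hmf : ∫ y, f y = marg e ρ t := rfl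
    rw [hmf] at s1
    have hw := wf_pos (hT2 t)
    have hJe : ∫ y : Wp e, J (t • e + y) = marg e ρ t * deriv T t +
        wf (T t) * ∫ y, ‖fderiv ℝ f y‖ := by
      rw [← hmf, ← integral_mul_const, ← integral_const_mul, ← integral_add]
      · congr 1
        funext y
        rw [hff]
        simp only [hJ, inner_slice he, hf]
      · exact hfi.mul_const _
      · exact hdi.const_mul _
    have hKi2 : Integrable (fun y : Wp e => K (t • e + y)) := slice_int he hKc hKR t
    have hb : ∫ y : Wp e, K (t • e + y) ≤ ∫ y, (f y * deriv T t +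
        wf (T t) * (n * (om n / marg e ρ t) ^ ((n : ℝ)⁻¹)) * pw n (f y)) := by
      apply integral_mono hKi2
      · exact (hfi.mul_const _).add (hpi.const_mul _)
      · intro y
        simp only [hK, inner_slice he]
        change _ ≤ _
        rcases (hM0 t).eq_or_lt with hz | hz
        · have : ρ (t • e + y) = 0 := marg_zero he hρc h0 hR hz.symm y
          have hfy : f y = 0 := this
          rw [this, hfy, pw_zero]
          simp
        · have hr := h0 (t • e + y)
          have hfy : f y = ρ (t • e + y) := rfl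
          rw [hfy]
          set r := ρ (t • e + y) with hrdef
          have hA : 0 ≤ r * deriv T t := mul_nonneg hr (hT'0 t)
          have hqq : 0 ≤ (om n / marg e ρ t) ^ ((n : ℝ)⁻¹) := by positivity
          have hB : 0 ≤ wf (T t) * (om n / marg e ρ t) ^ ((n : ℝ)⁻¹) * pw n r :=
            mul_nonneg (mul_nonneg hw.le hqq) (pw_nonneg n hr)
          have hC : 0 ≤ r * (c * r) ^ a := by positivity
          have hid : (r * (c * r) ^ a) ^ (n + 1) = r * deriv T t *
              (wf (T t) * (om n / marg e ρ t) ^ ((n : ℝ)⁻¹) * pw n r) ^ n := by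
            have e1 : ((c * r) ^ a) ^ (n + 1) = c * r := by
              rw [ha]
              exact Real.rpow_inv_natCast_pow (by positivity) (by omega)
            have e2 : ((om n / marg e ρ t) ^ ((n : ℝ)⁻¹)) ^ n = om n / marg e ρ t :=
              Real.rpow_inv_natCast_pow (by positivity) (by omega)
            have e3 : (pw n r) ^ n = r ^ n * r := by
              unfold pw
              rw [mul_pow, Real.rpow_inv_natCast_pow hr (by omega)]
            have hwn : wf (T t) ^ n ≠ 0 := pow_ne_zero _ hw.ne'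
            rw [mul_pow, e1, mul_pow, mul_pow, e2, e3, (hT3 t).deriv, hc]
            unfold bf
            field_simp
            ring
          have := amgm_refined hA hB hC hid
          have e4 : √(r * deriv T t) = √r * √(deriv T t) := Real.sqrt_mul hr _
          have e5 : √(r * (c * r) ^ a) = √r * √((c * r) ^ a) := Real.sqrt_mul hr _
          rw [e4, e5] at this
          have e6 : (√r * √(deriv T t) - √r * √((c * r) ^ a)) ^ 2 =
              r * (√(deriv T t) - √((c * r) ^ a)) ^ 2 := by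
            rw [← mul_sub, mul_pow, Real.sq_sqrt hr]
          rw [e6] at this
          linarith
    rw [hJe]
    refine hb.trans ?_
    rw [integral_add (hfi.mul_const _) (hpi.const_mul _), integral_mul_const, hmf,
      integral_const_mul, mul_assoc (wf (T t))]
    have := mul_le_mul_of_nonneg_left s1 hw.le
    linarith
  have s2 : ∫ x, K x ≤ ∫ x, J x := by
    rw [fub he hKi, fub he hJi]
    exact integral_mono (fub_int he hKi) (fub_int he hJi) step
  have s3 : ∫ x, J x ≤ ∫ x, ‖fderiv ℝ ρ x‖ := by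
    have hinn : ContDiff ℝ 1 (fun x : V => T (inner ℝ e x)) := hT1.comp
      (contDiff_const.inner ℝ contDiff_id)
    have hfd : ∀ x, fderiv ℝ (fun x : V => T (inner ℝ e x)) x e = deriv T (inner ℝ e x) := by
      intro x
      have h1 : HasFDerivAt (fun x : V => inner ℝ e x) (innerSL ℝ e) x :=
        (innerSL ℝ e).hasFDerivAt
      have h2 : HasFDerivAt (fun x : V => T (inner ℝ e x)) (deriv T (inner ℝ e x) • innerSL ℝ e)
          x := by
        have h3 : HasDerivAt T (deriv T (inner ℝ e x)) (inner ℝ e x) :=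
          (hT3 _).differentiableAt.hasDerivAt
        exact h3.comp_hasFDerivAt x h1
      rw [h2.fderiv]
      simp [real_inner_self_eq_norm_sq, he]
    have hib := ibp hρ hρcs hinn e
    simp_rw [hfd] at hib
    have hLi : Integrable (fun x => wf (T (inner ℝ e x)) *
        tn e (fderiv ℝ ρ x)) := by
      apply cs_int (R := R) (hTi.mul hLn)
      intro x hx
      change wf (T (inner ℝ e x)) * tn e (fderiv ℝ ρ x) = 0
      rw [hR' x hx, tn_zero, mul_zero]
    have hρTi : Integrable (fun x => ρ x * deriv T (inner ℝ e x)) := by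
      apply cs_int (R := R)
      · fun_prop
      · intro x hx
        rw [hR x hx, zero_mul]
    have hdTi : Integrable (fun x => fderiv ℝ ρ x e * T (inner ℝ e x)) := by
      apply cs_int (R := R)
      · exact (hfc.clm_apply continuous_const).mul (by fun_prop)
      · intro x hx
        rw [hR' x hx]
        simp
    have hni : Integrable (fun x => ‖fderiv ℝ ρ x‖) := by
      apply cs_int (R := R) hfc.norm
      intro x hx
      rw [hR' x hx, norm_zero]
    have e7 : ∫ x, J x = ∫ x, (wf (T (inner ℝ e x)) * tn e (fderiv ℝ ρ x) -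
        fderiv ℝ ρ x e * T (inner ℝ e x)) := by
      rw [hJ, integral_add hρTi hLi, hib, integral_sub hLi hdTi]
      ring
    rw [e7]
    apply integral_mono (hLi.sub hdTi) hni
    intro x
    have hTw : T (inner ℝ e x) ^ 2 + wf (T (inner ℝ e x)) ^ 2 = 1 := by
      rw [wf_sq (hT2 _)]
      ring
    have := split_norm he (fderiv ℝ ρ x) (wf_pos (hT2 (inner ℝ e x))) hTw
    change wf (T (inner ℝ e x)) * tn e (fderiv ℝ ρ x) -
      fderiv ℝ ρ x e * T (inner ℝ e x) ≤ ‖fderiv ℝ ρ x‖
    linarith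
  have s4 : ∫ x, K x = (n + 1) * c ^ a * (∫ x, pw (n + 1) (ρ x)) +
      ∫ x, ρ x * (√(deriv T (inner ℝ e x)) - √((c * ρ x) ^ a)) ^ 2 := by
    rw [← integral_const_mul, ← integral_add]
    · congr 1
      funext x
      simp only [hK, pw]
      rw [Real.mul_rpow hc0.le (h0 x)]
      ring
    · apply Integrable.const_mul
      apply cs_int (R := R)
      · exact (pw_cont _).comp hρc
      · intro x hx
        rw [hR x hx, pw_zero]
    · apply cs_int (R := R)
      · fun_prop
      · intro x hx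
        rw [hR x hx, zero_mul]
  rw [← s4]
  exact s2.trans s3

lemma om_one : om 1 = 2 := by
  unfold om
  have : ((1 : ℕ) : ℝ) / 2 + 1 = 1 / 2 + 1 := by norm_num
  rw [this, Real.Gamma_add_one (by norm_num), Real.Gamma_one_half_eq, pow_one]
  have : √Real.pi ≠ 0 := (Real.sqrt_pos.mpr Real.pi_pos).ne'
  field_simp

lemma exists_unit {n : ℕ} (hV : Module.finrank ℝ V = n + 1) : ∃ e : V, ‖e‖ = 1 := by
  have : Nontrivial V := Module.nontrivial_of_finrank_pos (R := ℝ) (by omega)
  exact exists_norm_eq V zero_le_one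

lemma star_one : Star 1 := by
  intro V _ _ _ _ _ hV ρ hρ hc h0
  obtain ⟨e, he⟩ := exists_unit (n := 0) hV
  have he0 : e ≠ 0 := by
    rintro rfl
    simp at he
  let L : ℝ ≃ₗᵢ[ℝ] V := LinearIsometryEquiv.ofSurjective
    { toFun := fun t => t • e
      map_add' := fun a b => add_smul a b e
      map_smul' := fun a b => by simp [mul_smul]
      norm_map' := fun t => by
        change ‖t • e‖ = ‖t‖
        rw [norm_smul, he, mul_one] }
    (by
      intro x
      obtain ⟨c, hc⟩ := exists_smul_eq_of_finrank_eq_one hV he0 x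
      exact ⟨c, hc⟩)
  have hL : ∀ t, L t = t • e := fun t => rfl
  set f : ℝ → ℝ := fun t => ρ (L t) with hf
  have hfC : ContDiff ℝ 1 f := hρ.comp L.toContinuousLinearEquiv.contDiff
  have hfc : HasCompactSupport f := hc.comp_homeomorph L.toHomeomorph
  have hder : ∀ t, |deriv f t| ≤ ‖fderiv ℝ ρ (L t)‖ := by
    intro t
    have h1 : HasDerivAt (fun t : ℝ => t • e) ((1:ℝ) • e) t := (hasDerivAt_id t).smul_const e
    rw [one_smul] at h1
    have h2 : HasDerivAt f (fderiv ℝ ρ (L t) e) t :=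
      ((hρ.differentiable (by simp) (L t)).hasFDerivAt).comp_hasDerivAt t h1
    rw [h2.deriv]
    have := (fderiv ℝ ρ (L t)).le_opNorm e
    rwa [he, mul_one] at this
  have hint : ∀ g : V → ℝ, ∫ t, g (L t) = ∫ x, g x := by
    intro g
    exact L.measurePreserving.integral_comp L.toHomeomorph.measurableEmbedding g
  have hdi : Integrable (deriv f) :=
    (hfC.continuous_deriv (by simp)).integrable_of_hasCompactSupport hfc.deriv
  have hni : Integrable (fun x => ‖fderiv ℝ ρ x‖) := fd_int hρ hc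
  have hni' : Integrable (fun t => ‖fderiv ℝ ρ (L t)‖) :=
    (L.measurePreserving.integrable_comp_emb L.toHomeomorph.measurableEmbedding).mpr hni
  have hsup : ∀ b, 2 * f b ≤ ∫ x, ‖fderiv ℝ ρ x‖ := by
    intro b
    have h1 := hfc.integral_Iic_deriv_eq hfC b
    have h2 := hfc.integral_Ioi_deriv_eq hfC b
    have h3 : ∫ t in Iic b, deriv f t ≤ ∫ t in Iic b, |deriv f t| :=
      integral_mono hdi.integrableOn hdi.abs.integrableOn fun t => le_abs_self _
    have h4 : -∫ t in Ioi b, deriv f t ≤ ∫ t in Ioi b, |deriv f t| := by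
      rw [← integral_neg]
      exact integral_mono hdi.neg.integrableOn hdi.abs.integrableOn fun t => neg_le_abs _
    have h5 : (∫ t in Iic b, |deriv f t|) + ∫ t in Ioi b, |deriv f t| = ∫ t, |deriv f t| := by
      rw [← compl_Iic]
      exact integral_add_compl measurableSet_Iic hdi.abs
    have h6 : ∫ t, |deriv f t| ≤ ∫ t, ‖fderiv ℝ ρ (L t)‖ := integral_mono hdi.abs hni' hder
    have h7 := hint (fun x => ‖fderiv ℝ ρ x‖)
    linarith
  have hsup' : ∀ x, 2 * ρ x ≤ ∫ x, ‖fderiv ℝ ρ x‖ := by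
    intro x
    have := hsup (L.symm x)
    simp only [hf, L.apply_symm_apply] at this
    exact this
  have hpw : ∀ x, pw 1 (ρ x) = ρ x * ρ x := by
    intro x
    unfold pw
    simp
  simp_rw [hpw]
  have hI := cc_int hρ.continuous hc
  have hII : Integrable (fun x => ρ x * ρ x) := by
    apply cc_int (hρ.continuous.mul hρ.continuous)
    exact hc.mul_right
  have key : 2 * ∫ x, ρ x * ρ x ≤ (∫ x, ρ x) * ∫ x, ‖fderiv ℝ ρ x‖ := by
    rw [← integral_const_mul, ← integral_mul_const]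
    apply integral_mono (hII.const_mul _) (hI.mul_const _)
    intro x
    change 2 * (ρ x * ρ x) ≤ ρ x * _
    have := mul_le_mul_of_nonneg_left (hsup' x) (h0 x)
    linarith
  have hm0 : 0 ≤ ∫ x, ρ x := integral_nonneg h0
  rcases hm0.eq_or_lt with hz | hz
  · rw [← hz, div_zero]
    simp only [Nat.cast_one, inv_one, Real.rpow_one, mul_zero, zero_mul]
    exact integral_nonneg fun _ => norm_nonneg _
  · simp only [Nat.cast_one, inv_one, Real.rpow_one, one_mul, om_one]
    rw [div_mul_eq_mul_div, div_le_iff₀ hz]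
    linarith

lemma star_succ {n : ℕ} (hn : 1 ≤ n) (h : Star n) : Star (n + 1) := by
  intro V _ _ _ _ _ hV ρ hρ hc h0
  obtain ⟨e, he⟩ := exists_unit hV
  obtain ⟨R, hR0, hR, hR'⟩ := exists_R hc
  have hm0 : 0 ≤ ∫ x, ρ x := integral_nonneg h0
  rcases hm0.eq_or_lt with hz | hz
  · rw [← hz, div_zero, Real.zero_rpow (by positivity), mul_zero, zero_mul]
    exact integral_nonneg fun _ => norm_nonneg _
  · have h1 : ∀ᶠ ε in 𝓝[>] (0:ℝ), (n + 1) * ((1 - 2 * ε) * om (n + 1) / (∫ x, ρ x)) ^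
        (((n + 1 : ℕ) : ℝ)⁻¹) * (∫ x, pw (n + 1) (ρ x)) ≤ ∫ x, ‖fderiv ℝ ρ x‖ := by
      filter_upwards [Ioo_mem_nhdsGT (show (0:ℝ) < 1 / 2 by norm_num)] with ε hε
      obtain ⟨T, -, -, -, -, hT⟩ := refined hn h hV he hρ h0 hR0 hR hR' rfl hz hε.1 hε.2
      refine le_trans ?_ hT
      have : 0 ≤ ∫ x, ρ x * (√(deriv T (inner ℝ e x)) -
          √(((1 - 2 * ε) * om (n + 1) / (∫ x, ρ x) * ρ x) ^ (((n + 1 : ℕ) : ℝ)⁻¹))) ^ 2 :=
        integral_nonneg fun x => mul_nonneg (h0 x) (sq_nonneg _)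
      linarith
    have h2 : Tendsto (fun ε : ℝ => (n + 1) * ((1 - 2 * ε) * om (n + 1) / (∫ x, ρ x)) ^
        (((n + 1 : ℕ) : ℝ)⁻¹) * (∫ x, pw (n + 1) (ρ x))) (𝓝[>] (0:ℝ))
        (𝓝 ((n + 1) * ((1 - 2 * 0) * om (n + 1) / (∫ x, ρ x)) ^
        (((n + 1 : ℕ) : ℝ)⁻¹) * (∫ x, pw (n + 1) (ρ x)))) := by
      apply Tendsto.mono_left _ nhdsWithin_le_nhds
      apply Continuous.tendsto
      have hrc := rc (n + 1)
      have : Continuous (fun ε : ℝ => ((1 - 2 * ε) * om (n + 1) / (∫ x, ρ x)) ^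
        (((n + 1 : ℕ) : ℝ)⁻¹)) := hrc.comp (by fun_prop)
      fun_prop
    have h3 := le_of_tendsto h2 h1
    rw [mul_zero, sub_zero, one_mul] at h3
    push_cast at h3 ⊢
    exact h3

theorem star (n : ℕ) (hn : 1 ≤ n) : Star n := by
  induction n, hn using Nat.le_induction with
  | base => exact star_one
  | succ n hn ih => exact star_succ hn ih

end Pool.Agent.Helper88.Weyl
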