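import Mathlib
import Pool.Agent.Helper88.Weyl.Iso

open MeasureTheory Set Metric Filter Topology

noncomputable section

set_option linter.unusedSectionVars false

namespace Pool.Agent.Helper88.Weyl

/-- derivative of the cut-off profile -/
def bS (s : ℝ) : ℝ := 6 * max s 0 * max (1 - s) 0

/-- cut-off profile: `0` for `t ≤ 0`, `1` for `t ≥ 1` -/
def SS (t : ℝ) : ℝ := ∫ s in (0:ℝ)..t, bS s

lemma bS_cont : Continuous bS := by unfold bS; fun_prop
lemma bS_nonneg (s : ℝ) : 0 ≤ bS s := by unfold bS; positivity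
lemma bS_zero {s : ℝ} (hs : s ∉ Ioo (0:ℝ) 1) : bS s = 0 := by
  unfold bS
  rcases le_or_gt s 0 with h | h
  · rw [max_eq_right h]; ring
  · have : 1 ≤ s := by
      by_contra h'
      exact hs ⟨h, not_le.mp h'⟩
    rw [max_eq_right (by linarith : 1 - s ≤ 0)]; ring
lemma bS_le (s : ℝ) : bS s ≤ 2 := by
  by_cases hs : s ∈ Ioo (0:ℝ) 1
  · unfold bS
    rw [max_eq_left hs.1.le, max_eq_left (by linarith [hs.2])]
    nlinarith [sq_nonneg (2 * s - 1)]
  · rw [bS_zero hs]; norm_num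

lemma SS_deriv (t : ℝ) : HasDerivAt SS (bS t) t :=
  intervalIntegral.integral_hasDerivAt_right (bS_cont.intervalIntegrable _ _)
    (bS_cont.stronglyMeasurableAtFilter _ _) bS_cont.continuousAt

lemma SS_C1 : ContDiff ℝ 1 SS := by
  rw [contDiff_one_iff_deriv]
  refine ⟨fun t => (SS_deriv t).differentiableAt, ?_⟩
  have : deriv SS = bS := funext fun t => (SS_deriv t).deriv
  rw [this]
  exact bS_cont

lemma SS_mono : Monotone SS := by
  apply monotone_of_deriv_nonneg (fun t => (SS_deriv t).differentiableAt)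
  intro t
  rw [(SS_deriv t).deriv]
  exact bS_nonneg t

lemma SS_zero {t : ℝ} (ht : t ≤ 0) : SS t = 0 := by
  unfold SS
  rw [intervalIntegral.integral_of_ge ht, neg_eq_zero]
  apply setIntegral_eq_zero_of_forall_eq_zero
  intro s hs
  exact bS_zero fun h => absurd h.1 (not_lt.mpr hs.2)

lemma SS_at_one : SS 1 = 1 := by
  unfold SS
  have h1 : ∫ s in (0:ℝ)..1, bS s = ∫ s in (0:ℝ)..1, (6 * s - 6 * s ^ 2) := by
    apply intervalIntegral.integral_congr
    intro s hs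
    rw [uIcc_of_le zero_le_one] at hs
    simp only [bS]
    rw [max_eq_left hs.1, max_eq_left (by linarith [hs.2])]
    ring
  rw [h1, intervalIntegral.integral_sub (by apply Continuous.intervalIntegrable; fun_prop)
    (by apply Continuous.intervalIntegrable; fun_prop),
    intervalIntegral.integral_const_mul, intervalIntegral.integral_const_mul, integral_id,
    integral_pow]
  norm_num

lemma SS_one {t : ℝ} (ht : 1 ≤ t) : SS t = 1 := by
  rw [← SS_at_one]
  unfold SS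
  rw [← intervalIntegral.integral_add_adjacent_intervals (bS_cont.intervalIntegrable 0 1)
    (bS_cont.intervalIntegrable 1 t)]
  have : ∫ s in (1:ℝ)..t, bS s = 0 := by
    rw [intervalIntegral.integral_of_le ht]
    apply setIntegral_eq_zero_of_forall_eq_zero
    intro s hs
    exact bS_zero fun h => absurd h.2 (not_lt.mpr hs.1.le)
  rw [this, add_zero]

lemma SS_nonneg (t : ℝ) : 0 ≤ SS t := by
  rcases le_or_gt t 0 with h | h
  · rw [SS_zero h]
  · rw [← SS_zero le_rfl]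
    exact SS_mono h.le

lemma SS_le_one (t : ℝ) : SS t ≤ 1 := by
  rcases le_or_gt 1 t with h | h
  · rw [SS_one h]
  · rw [← SS_one le_rfl]
    exact SS_mono h.le

/-- left and right cut-offs, `σ = ±1` -/
def ch (σ t0 : ℝ) (j : ℕ) (t : ℝ) : ℝ := SS (σ * (t - t0) * (j + 1))

lemma ch_deriv (σ t0 : ℝ) (j : ℕ) (t : ℝ) :
    HasDerivAt (ch σ t0 j) (bS (σ * (t - t0) * (j + 1)) * (σ * (j + 1))) t := by
  have h1 : HasDerivAt (fun t : ℝ => σ * (t - t0) * (j + 1)) (σ * (j + 1)) t := by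
    have := (((hasDerivAt_id t).sub_const t0).const_mul σ).mul_const ((j:ℝ) + 1)
    simpa using this
  exact (SS_deriv _).comp t h1

lemma ch_C1 (σ t0 : ℝ) (j : ℕ) : ContDiff ℝ 1 (ch σ t0 j) := by
  unfold ch
  apply SS_C1.comp
  fun_prop

/-- the (absolute) derivative of the cut-off -/
def cd (σ t0 : ℝ) (j : ℕ) (t : ℝ) : ℝ := bS (σ * (t - t0) * (j + 1)) * (j + 1)

lemma cd_cont (σ t0 : ℝ) (j : ℕ) : Continuous (cd σ t0 j) := by
  have := bS_cont
  unfold cd
  fun_prop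
lemma cd_nonneg (σ t0 : ℝ) (j : ℕ) (t : ℝ) : 0 ≤ cd σ t0 j t :=
  mul_nonneg (bS_nonneg _) (by positivity)

lemma cd_zero {σ t0 : ℝ} (hσ : |σ| = 1) {j : ℕ} {t : ℝ} (ht : 1 / ((j:ℝ) + 1) < |t - t0|) :
    cd σ t0 j t = 0 := by
  unfold cd
  rw [bS_zero, zero_mul]
  intro h
  have hj : (0:ℝ) < j + 1 := by positivity
  have h1 : |σ * (t - t0) * (j + 1)| = |t - t0| * (j + 1) := by
    rw [abs_mul, abs_mul, hσ, one_mul, abs_of_pos hj]
  have h2 : 1 < |t - t0| * (j + 1) := by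
    rwa [div_lt_iff₀ hj] at ht
  rw [← h1, abs_of_pos h.1] at h2
  exact absurd h.2 (not_lt.mpr h2.le)

lemma cd_total {σ t0 : ℝ} (hσ : σ = 1 ∨ σ = -1) (j : ℕ) :
    Integrable (cd σ t0 j) ∧ ∫ t, cd σ t0 j t = 1 := by
  have hσ' : |σ| = 1 := by rcases hσ with h | h <;> simp [h]
  have hj : (0:ℝ) < j + 1 := by positivity
  have hi : Integrable (cd σ t0 j) := by
    apply (cd_cont σ t0 j).integrable_of_hasCompactSupport
    apply HasCompactSupport.intro (isCompact_closedBall t0 (1 / ((j:ℝ) + 1)))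
    intro x hx
    rw [mem_closedBall, not_le, Real.dist_eq] at hx
    exact cd_zero hσ' hx
  refine ⟨hi, ?_⟩
  rcases hσ with h | h
  · subst h
    have hd : ∀ t, HasDerivAt (ch 1 t0 j) (cd 1 t0 j t) t := by
      intro t
      have := ch_deriv 1 t0 j t
      rw [one_mul ((j:ℝ) + 1)] at this
      exact this
    have hb : Tendsto (ch 1 t0 j) atBot (𝓝 0) := by
      apply tendsto_const_nhds.congr'
      filter_upwards [eventually_le_atBot t0] with t ht
      unfold ch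
      rw [SS_zero]
      nlinarith
    have ht : Tendsto (ch 1 t0 j) atTop (𝓝 1) := by
      apply tendsto_const_nhds.congr'
      filter_upwards [eventually_ge_atTop (t0 + 1)] with t ht
      unfold ch
      rw [SS_one]
      have : (0:ℝ) ≤ j := by positivity
      nlinarith
    rw [integral_of_hasDerivAt_of_tendsto hd hi hb ht]
    ring
  · subst h
    have hd : ∀ t, HasDerivAt (fun t => -ch (-1) t0 j t) (cd (-1) t0 j t) t := by
      intro t
      have := (ch_deriv (-1) t0 j t).neg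
      have e : cd (-1) t0 j t = -(bS (-1 * (t - t0) * (j + 1)) * (-1 * (j + 1))) := by
        unfold cd
        ring
      rw [e]
      exact this
    have hb : Tendsto (fun t => -ch (-1) t0 j t) atBot (𝓝 (-1)) := by
      apply tendsto_const_nhds.congr'
      filter_upwards [eventually_le_atBot (t0 - 1)] with t ht
      unfold ch
      rw [SS_one]
      have : (0:ℝ) ≤ j := by positivity
      nlinarith
    have ht : Tendsto (fun t => -ch (-1) t0 j t) atTop (𝓝 0) := by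
      apply tendsto_const_nhds.congr'
      filter_upwards [eventually_ge_atTop t0] with t ht
      unfold ch
      rw [SS_zero, neg_zero]
      nlinarith
    rw [integral_of_hasDerivAt_of_tendsto hd hi hb ht]
    ring

variable {V : Type} [NormedAddCommGroup V] [InnerProductSpace ℝ V] [FiniteDimensional ℝ V]
  [MeasurableSpace V] [BorelSpace V]

lemma fub_mul {e : V} (he : ‖e‖ = 1) {ρ : V → ℝ} {h : ℝ → ℝ}
    (hi : Integrable (fun x => ρ x * h (inner ℝ e x))) :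
    ∫ x, ρ x * h (inner ℝ e x) = ∫ t, marg e ρ t * h t := by
  rw [fub he hi]
  congr 1
  funext t
  unfold marg
  rw [← integral_mul_const]
  congr 1
  funext y
  rw [inner_slice he]

lemma inner_C1 {e : V} {g : ℝ → ℝ} (hg : ContDiff ℝ 1 g) :
    ContDiff ℝ 1 (fun x : V => g (inner ℝ e x)) :=
  hg.comp (contDiff_const.inner ℝ contDiff_id)

lemma inner_fd {e : V} {g : ℝ → ℝ} {g' : ℝ} {x : V} (hg : HasDerivAt g g' (inner ℝ e x)) :
    HasFDerivAt (fun x : V => g (inner ℝ e x)) (g' • innerSL ℝ e) x := by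
  have h1 : HasFDerivAt (fun x : V => inner ℝ e x) (innerSL ℝ e) x := (innerSL ℝ e).hasFDerivAt
  exact hg.comp_hasFDerivAt x h1

lemma cutoff_bound {e : V} (he : ‖e‖ = 1) {ρ : V → ℝ} (hρ : ContDiff ℝ 1 ρ)
    (hc : HasCompactSupport ρ) (h0 : ∀ x, 0 ≤ ρ x) {σ t0 : ℝ} (hσ : |σ| = 1) (j : ℕ) :
    ∫ x, ‖fderiv ℝ (fun x => ρ x * ch σ t0 j (inner ℝ e x)) x‖ ≤
      (∫ x, ‖fderiv ℝ ρ x‖ * ch σ t0 j (inner ℝ e x)) + ∫ t, marg e ρ t * cd σ t0 j t := by
  have hcd := cd_cont σ t0 j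
  have hch := (ch_C1 σ t0 j).continuous
  have hρc := hρ.continuous
  have i1 : Integrable (fun x => ρ x * cd σ t0 j (inner ℝ e x)) := by
    apply cc_int
    · fun_prop
    · exact hc.mul_right
  have i2 : Integrable (fun x => ‖fderiv ℝ ρ x‖ * ch σ t0 j (inner ℝ e x)) := by
    apply cc_int
    · exact (hρ.continuous_fderiv (by simp)).norm.mul (by fun_prop)
    · exact ((hc.fderiv (𝕜 := ℝ)).norm).mul_right
  rw [← fub_mul he i1, ← integral_add i2 i1]
  apply integral_mono (fd_int (hρ.mul (inner_C1 (ch_C1 σ t0 j))) hc.mul_right) (i2.add i1)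
  intro x
  have h1 := ((hρ.differentiable (by simp) x).hasFDerivAt).mul
    (inner_fd (e := e) (ch_deriv σ t0 j (inner ℝ e x)))
  change ‖fderiv ℝ (ρ * fun x => ch σ t0 j (inner ℝ e x)) x‖ ≤
    ‖fderiv ℝ ρ x‖ * ch σ t0 j (inner ℝ e x) + ρ x * cd σ t0 j (inner ℝ e x)
  rw [h1.fderiv]
  refine (norm_add_le _ _).trans ?_
  rw [norm_smul, norm_smul, norm_smul, innerSL_apply_norm, he, mul_one, Real.norm_eq_abs,
    Real.norm_eq_abs, Real.norm_eq_abs, abs_of_nonneg (h0 x)]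
  have e1 : |ch σ t0 j (inner ℝ e x)| = ch σ t0 j (inner ℝ e x) := abs_of_nonneg (SS_nonneg _)
  have e2 : |bS (σ * (inner ℝ e x - t0) * (j + 1)) * (σ * (j + 1))| =
      cd σ t0 j (inner ℝ e x) := by
    unfold cd
    rw [abs_mul, abs_mul, hσ, one_mul, abs_of_nonneg (bS_nonneg _), abs_of_nonneg (by positivity)]
  rw [e1, e2]
  linarith

lemma ch_lim_left {t0 t : ℝ} (ht : t < t0) : ∀ᶠ j : ℕ in atTop, ch (-1) t0 j t = 1 := by
  obtain ⟨J, hJ⟩ := exists_nat_gt (1 / (t0 - t))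
  filter_upwards [eventually_ge_atTop J] with j hj
  unfold ch
  apply SS_one
  have h1 : (0:ℝ) < t0 - t := by linarith
  have h2 : 1 < J * (t0 - t) := by rwa [div_lt_iff₀ h1] at hJ
  have h3 : (J : ℝ) ≤ j := by exact_mod_cast hj
  nlinarith

lemma ch_lim_right {t0 t : ℝ} (ht : t0 < t) : ∀ᶠ j : ℕ in atTop, ch 1 t0 j t = 1 := by
  obtain ⟨J, hJ⟩ := exists_nat_gt (1 / (t - t0))
  filter_upwards [eventually_ge_atTop J] with j hj
  unfold ch
  apply SS_one
  have h1 : (0:ℝ) < t - t0 := by linarith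
  have h2 : 1 < J * (t - t0) := by rwa [div_lt_iff₀ h1] at hJ
  have h3 : (J : ℝ) ≤ j := by exact_mod_cast hj
  nlinarith

lemma ch_left_zero {t0 t : ℝ} (ht : t0 ≤ t) (j : ℕ) : ch (-1) t0 j t = 0 := by
  unfold ch
  apply SS_zero
  have : (0:ℝ) < j + 1 := by positivity
  nlinarith

lemma ch_right_zero {t0 t : ℝ} (ht : t ≤ t0) (j : ℕ) : ch 1 t0 j t = 0 := by
  unfold ch
  apply SS_zero
  have : (0:ℝ) < j + 1 := by positivity
  nlinarith

lemma ch_nonneg (σ t0 : ℝ) (j : ℕ) (t : ℝ) : 0 ≤ ch σ t0 j t := SS_nonneg _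
lemma ch_le_one (σ t0 : ℝ) (j : ℕ) (t : ℝ) : ch σ t0 j t ≤ 1 := SS_le_one _

lemma ch_sum (t0 : ℝ) (j : ℕ) (t : ℝ) : ch (-1) t0 j t + ch 1 t0 j t ≤ 1 := by
  rcases le_or_gt t t0 with h | h
  · rw [ch_right_zero h, add_zero]
    exact ch_le_one _ _ _ _
  · rw [ch_left_zero h.le, zero_add]
    exact ch_le_one _ _ _ _

/-- dominated convergence for cut-offs -/
lemma cut_lim {e : V} {σ t0 : ℝ} {S : Set ℝ} (hS : MeasurableSet S)
    (hone : ∀ t ∈ S, ∀ᶠ j : ℕ in atTop, ch σ t0 j t = 1)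
    (hzero : ∀ t ∉ S, ∀ j, ch σ t0 j t = 0) {ρ : V → ℝ} (hρ : Continuous ρ)
    (hc : HasCompactSupport ρ) {Φ : ℝ → ℝ} (hΦ : Continuous Φ) (hΦ0 : Φ 0 = 0)
    (hΦm : ∀ a b, 0 ≤ a → a ≤ b → |Φ a| ≤ |Φ b|) (h0 : ∀ x, 0 ≤ ρ x) :
    Tendsto (fun j : ℕ => ∫ x, Φ (ρ x * ch σ t0 j (inner ℝ e x))) atTop
      (𝓝 (∫ x in {x : V | inner ℝ e x ∈ S}, Φ (ρ x))) := by
  have hcont : Continuous (fun x : V => inner ℝ e x) := by fun_prop
  have hSm : MeasurableSet {x : V | inner ℝ e x ∈ S} := hcont.measurable hS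
  rw [← integral_indicator hSm]
  have hint : Integrable (fun x => |Φ (ρ x)|) := by
    apply cc_int
    · fun_prop
    · exact hc.comp_left (g := fun r => |Φ r|) (by simp [hΦ0])
  apply tendsto_integral_of_dominated_convergence (fun x => |Φ (ρ x)|)
  · intro j
    have := (ch_C1 σ t0 j).continuous
    apply Continuous.aestronglyMeasurable
    fun_prop
  · exact hint
  · intro j
    apply ae_of_all
    intro x
    rw [Real.norm_eq_abs]
    exact hΦm _ _ (mul_nonneg (h0 x) (ch_nonneg _ _ _ _))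
      (mul_le_of_le_one_right (h0 x) (ch_le_one _ _ _ _))
  · apply ae_of_all
    intro x
    by_cases hx : inner ℝ e x ∈ S
    · rw [indicator_of_mem (show x ∈ {x : V | inner ℝ e x ∈ S} from hx)]
      apply tendsto_const_nhds.congr'
      filter_upwards [hone _ hx] with j hj
      rw [hj, mul_one]
    · rw [indicator_of_notMem (show x ∉ {x : V | inner ℝ e x ∈ S} from hx)]
      apply tendsto_const_nhds.congr'
      filter_upwards with j
      rw [hzero _ hx j, mul_zero, hΦ0]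

lemma pw_mono {n : ℕ} {a b : ℝ} (ha : 0 ≤ a) (hab : a ≤ b) : pw n a ≤ pw n b := by
  unfold pw
  apply mul_le_mul hab (Real.rpow_le_rpow ha hab (by positivity)) (by positivity) (ha.trans hab)

lemma shell_lim {e : V} (he : ‖e‖ = 1) {ρ : V → ℝ} (hρ : Continuous ρ)
    {R : ℝ} (hR : ∀ x, R < ‖x‖ → ρ x = 0) {σ t0 : ℝ} (hσ : σ = 1 ∨ σ = -1)
    {η : ℝ} (hη : 0 < η) :
    ∀ᶠ j : ℕ in atTop, ∫ t, marg e ρ t * cd σ t0 j t ≤ marg e ρ t0 + η := by
  have hσ' : |σ| = 1 := by rcases hσ with h | h <;> simp [h]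
  have hMc : Continuous (marg e ρ) := marg_cont he hρ hR
  have h1 : ∀ᶠ t in 𝓝 t0, marg e ρ t < marg e ρ t0 + η :=
    hMc.continuousAt.eventually_lt_const (by linarith)
  obtain ⟨δ, hδ, hδ2⟩ := Metric.eventually_nhds_iff.mp h1
  obtain ⟨J, hJ⟩ := exists_nat_gt (1 / δ)
  filter_upwards [eventually_ge_atTop J] with j hj
  obtain ⟨hi, ht⟩ := cd_total (t0 := t0) hσ j
  have h2 : ∀ t, marg e ρ t * cd σ t0 j t ≤ (marg e ρ t0 + η) * cd σ t0 j t := by
    intro t
    rcases le_or_gt |t - t0| (1 / ((j:ℝ) + 1)) with h | h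
    · apply mul_le_mul_of_nonneg_right _ (cd_nonneg _ _ _ _)
      apply (hδ2 _).le
      rw [Real.dist_eq]
      refine h.trans_lt ?_
      have h3 : (J : ℝ) ≤ j := by exact_mod_cast hj
      rw [div_lt_iff₀ hδ] at hJ
      rw [div_lt_iff₀ (by positivity)]
      nlinarith
    · rw [cd_zero hσ' h, mul_zero, mul_zero]
  have h3 : Integrable (fun t => marg e ρ t * cd σ t0 j t) := by
    apply (hMc.mul (cd_cont σ t0 j)).integrable_of_hasCompactSupport
    apply HasCompactSupport.mul_left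
    apply HasCompactSupport.intro (isCompact_closedBall t0 (1 / ((j:ℝ) + 1)))
    intro x hx
    rw [mem_closedBall, not_le, Real.dist_eq] at hx
    exact cd_zero hσ' hx
  calc ∫ t, marg e ρ t * cd σ t0 j t ≤ ∫ t, (marg e ρ t0 + η) * cd σ t0 j t :=
        integral_mono h3 (hi.const_mul _) h2
    _ = marg e ρ t0 + η := by rw [integral_const_mul, ht, mul_one]

/-- the cut inequality -/
theorem cut {n : ℕ} (hn : 1 ≤ n) (hV : Module.finrank ℝ V = n) {e : V} (he : ‖e‖ = 1)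
    {ρ : V → ℝ} (hρ : ContDiff ℝ 1 ρ) (hc : HasCompactSupport ρ) (h0 : ∀ x, 0 ≤ ρ x) (t0 : ℝ)
    {m1 m2 : ℝ} (hm1 : m1 = ∫ x in {x : V | inner ℝ e x ∈ Iio t0}, ρ x) (h1 : 0 < m1)
    (hm2 : m2 = ∫ x in {x : V | inner ℝ e x ∈ Ioi t0}, ρ x) (h2 : 0 < m2) :
    n * (om n / m1) ^ ((n : ℝ)⁻¹) * (∫ x in {x : V | inner ℝ e x ∈ Iio t0}, pw n (ρ x)) +
      n * (om n / m2) ^ ((n : ℝ)⁻¹) * (∫ x in {x : V | inner ℝ e x ∈ Ioi t0}, pw n (ρ x)) ≤
      (∫ x, ‖fderiv ℝ ρ x‖) + 2 * marg e ρ t0 := by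
  obtain ⟨R, -, hR, -⟩ := exists_R hc
  have hone1 : ∀ t ∈ Iio t0, ∀ᶠ j : ℕ in atTop, ch (-1) t0 j t = 1 := fun t ht => ch_lim_left ht
  have hone2 : ∀ t ∈ Ioi t0, ∀ᶠ j : ℕ in atTop, ch 1 t0 j t = 1 := fun t ht => ch_lim_right ht
  have hz1 : ∀ t ∉ Iio t0, ∀ j, ch (-1) t0 j t = 0 := fun t ht j => ch_left_zero (not_lt.mp ht) j
  have hz2 : ∀ t ∉ Ioi t0, ∀ j, ch 1 t0 j t = 0 := fun t ht j => ch_right_zero (not_lt.mp ht) j
  have a1 := cut_lim (e := e) measurableSet_Iio hone1 hz1 hρ.continuous hc continuous_id rfl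
    (fun a b ha hab => by simpa only [id, abs_of_nonneg ha, abs_of_nonneg (ha.trans hab)]) h0
  have a2 := cut_lim (e := e) measurableSet_Ioi hone2 hz2 hρ.continuous hc continuous_id rfl
    (fun a b ha hab => by simpa only [id, abs_of_nonneg ha, abs_of_nonneg (ha.trans hab)]) h0
  have hpm : ∀ a b, 0 ≤ a → a ≤ b → |pw n a| ≤ |pw n b| := by
    intro a b ha hab
    rw [abs_of_nonneg (pw_nonneg n ha), abs_of_nonneg (pw_nonneg n (ha.trans hab))]
    exact pw_mono ha hab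
  have b1 := cut_lim (e := e) measurableSet_Iio hone1 hz1 hρ.continuous hc (pw_cont n)
    (pw_zero n) hpm h0
  have b2 := cut_lim (e := e) measurableSet_Ioi hone2 hz2 hρ.continuous hc (pw_cont n)
    (pw_zero n) hpm h0
  simp only [id] at a1 a2
  rw [← hm1] at a1
  rw [← hm2] at a2
  have c1 : Tendsto (fun j : ℕ => n * (om n / ∫ x, ρ x * ch (-1) t0 j (inner ℝ e x)) ^
      ((n : ℝ)⁻¹) * ∫ x, pw n (ρ x * ch (-1) t0 j (inner ℝ e x))) atTop
      (𝓝 (n * (om n / m1) ^ ((n : ℝ)⁻¹) *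
        (∫ x in {x : V | inner ℝ e x ∈ Iio t0}, pw n (ρ x)))) := by
    refine Tendsto.mul (Tendsto.mul tendsto_const_nhds ?_) b1
    exact ((rc n).tendsto _).comp (tendsto_const_nhds.div a1 h1.ne')
  have c2 : Tendsto (fun j : ℕ => n * (om n / ∫ x, ρ x * ch 1 t0 j (inner ℝ e x)) ^
      ((n : ℝ)⁻¹) * ∫ x, pw n (ρ x * ch 1 t0 j (inner ℝ e x))) atTop
      (𝓝 (n * (om n / m2) ^ ((n : ℝ)⁻¹) *
        (∫ x in {x : V | inner ℝ e x ∈ Ioi t0}, pw n (ρ x)))) := by
    refine Tendsto.mul (Tendsto.mul tendsto_const_nhds ?_) b2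
    exact ((rc n).tendsto _).comp (tendsto_const_nhds.div a2 h2.ne')
  apply le_of_forall_pos_le_add
  intro η hη
  apply le_of_tendsto (c1.add c2)
  filter_upwards [shell_lim he hρ.continuous hR (t0 := t0) (Or.inr rfl : (-1:ℝ) = 1 ∨ _)
    (show 0 < η / 2 by positivity), shell_lim he hρ.continuous hR (t0 := t0)
    (Or.inl rfl : (1:ℝ) = 1 ∨ _) (show 0 < η / 2 by positivity)] with j s1 s2
  have hC : ∀ σ : ℝ, ContDiff ℝ 1 (fun x => ρ x * ch σ t0 j (inner ℝ e x)) :=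
    fun σ => hρ.mul (inner_C1 (ch_C1 σ t0 j))
  have hS : ∀ σ : ℝ, HasCompactSupport (fun x => ρ x * ch σ t0 j (inner ℝ e x)) :=
    fun σ => hc.mul_right
  have u1 := star n hn V hV _ (hC (-1)) (hS (-1)) (fun x => mul_nonneg (h0 x) (ch_nonneg _ _ _ _))
  have u2 := star n hn V hV _ (hC 1) (hS 1) (fun x => mul_nonneg (h0 x) (ch_nonneg _ _ _ _))
  have v1 := cutoff_bound he hρ hc h0 (show |(-1:ℝ)| = 1 by simp) (t0 := t0) j
  have v2 := cutoff_bound he hρ hc h0 (show |(1:ℝ)| = 1 by simp) (t0 := t0) j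
  have w : (∫ x, ‖fderiv ℝ ρ x‖ * ch (-1) t0 j (inner ℝ e x)) +
      ∫ x, ‖fderiv ℝ ρ x‖ * ch 1 t0 j (inner ℝ e x) ≤ ∫ x, ‖fderiv ℝ ρ x‖ := by
    have i : ∀ σ : ℝ, Integrable (fun x => ‖fderiv ℝ ρ x‖ * ch σ t0 j (inner ℝ e x)) := by
      intro σ
      have := (ch_C1 σ t0 j).continuous
      apply cc_int
      · exact (hρ.continuous_fderiv (by simp)).norm.mul (by fun_prop)
      · exact ((hc.fderiv (𝕜 := ℝ)).norm).mul_right
    rw [← integral_add (i _) (i _)]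
    apply integral_mono ((i _).add (i _)) (fd_int hρ hc)
    intro x
    change ‖fderiv ℝ ρ x‖ * ch (-1) t0 j (inner ℝ e x) +
      ‖fderiv ℝ ρ x‖ * ch 1 t0 j (inner ℝ e x) ≤ ‖fderiv ℝ ρ x‖
    rw [← mul_add]
    exact mul_le_of_le_one_right (norm_nonneg _) (ch_sum _ _ _)
  linarith

end Pool.Agent.Helper88.Weyl
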