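import Mathlib
import Pool.Agent.Helper88.Weyl.Cut

open MeasureTheory Set Metric Filter Topology

noncomputable section

set_option linter.unusedSectionVars false

namespace Pool.Agent.Helper88.Weyl

lemma bf_even (n : ℕ) (s : ℝ) : bf n (-s) = bf n s := by
  unfold bf wf
  rw [neg_sq]

lemma be_symm {n : ℕ} (hn : 1 ≤ n) (s : ℝ) : be n (-s) = 1 - be n s := by
  have hd : ∀ x, HasDerivAt (fun s => be n s + be n (-s)) 0 x := by
    intro x
    have h1 := be_deriv n x
    have h2 : HasDerivAt (fun s => be n (-s)) (bf n (-x) * (-1)) x :=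
      (be_deriv n (-x)).comp x (hasDerivAt_neg x)
    have := h1.add h2
    rw [bf_even] at this
    have e : bf n x + bf n x * (-1) = 0 := by ring
    rw [e] at this
    exact this
  have hc := is_const_of_deriv_eq_zero (fun x => (hd x).differentiableAt)
    (fun x => (hd x).deriv) s 1
  rw [be_neg, be_one hn] at hc
  linarith

/-- first moment primitive -/
def Ps (n : ℕ) (s : ℝ) : ℝ := ∫ σ in (0:ℝ)..s, σ * bf n σ

lemma Ps_deriv (n : ℕ) (s : ℝ) : HasDerivAt (Ps n) (s * bf n s) s := by
  have hc : Continuous (fun σ => σ * bf n σ) := continuous_id.mul (bf_cont n)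
  exact intervalIntegral.integral_hasDerivAt_right (hc.intervalIntegrable _ _)
    (hc.stronglyMeasurableAtFilter _ _) hc.continuousAt

lemma Ps_even (n : ℕ) (s : ℝ) : Ps n (-s) = Ps n s := by
  have hd : ∀ x, HasDerivAt (fun s => Ps n s - Ps n (-s)) 0 x := by
    intro x
    have h1 := Ps_deriv n x
    have h2 : HasDerivAt (fun s => Ps n (-s)) (-x * bf n (-x) * (-1)) x :=
      (Ps_deriv n (-x)).comp x (hasDerivAt_neg x)
    have := h1.sub h2
    rw [bf_even] at this
    have e : x * bf n x - -x * bf n x * (-1) = 0 := by ring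
    rw [e] at this
    exact this
  have hc := is_const_of_deriv_eq_zero (fun x => (hd x).differentiableAt)
    (fun x => (hd x).deriv) s 0
  rw [neg_zero, sub_self] at hc
  linarith

section marg

variable {V : Type} [NormedAddCommGroup V] [InnerProductSpace ℝ V] [FiniteDimensional ℝ V]
  [MeasurableSpace V] [BorelSpace V]

lemma fub_set {e : V} (he : ‖e‖ = 1) {ρ : V → ℝ} (hρ : Integrable ρ) {S : Set ℝ}
    (hS : MeasurableSet S) :
    ∫ x in {x : V | inner ℝ e x ∈ S}, ρ x = ∫ t in S, marg e ρ t := by
  have hcont : Continuous (fun x : V => inner ℝ e x) := by fun_prop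
  have hSm : MeasurableSet {x : V | inner ℝ e x ∈ S} := hcont.measurable hS
  have e1 : ∀ x, {x : V | inner ℝ e x ∈ S}.indicator ρ x =
      ρ x * S.indicator (fun _ => (1:ℝ)) (inner ℝ e x) := by
    intro x
    by_cases hx : inner ℝ e x ∈ S
    · rw [indicator_of_mem (show x ∈ {x : V | inner ℝ e x ∈ S} from hx), indicator_of_mem hx,
        mul_one]
    · rw [indicator_of_notMem (show x ∉ {x : V | inner ℝ e x ∈ S} from hx),
        indicator_of_notMem hx, mul_zero]
  rw [← integral_indicator hSm, ← integral_indicator hS]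
  have hi : Integrable (fun x => ρ x * S.indicator (fun _ => (1:ℝ)) (inner ℝ e x)) := by
    have := hρ.indicator hSm
    exact this.congr (ae_of_all _ e1)
  calc ∫ x, {x : V | inner ℝ e x ∈ S}.indicator ρ x
      = ∫ x, ρ x * S.indicator (fun _ => (1:ℝ)) (inner ℝ e x) := integral_congr_ae (ae_of_all _ e1)
    _ = ∫ t, marg e ρ t * S.indicator (fun _ => (1:ℝ)) t := fub_mul he hi
    _ = ∫ t, S.indicator (marg e ρ) t := by
        congr 1
        funext t
        by_cases ht : t ∈ S
        · rw [indicator_of_mem ht, indicator_of_mem ht, mul_one]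
        · rw [indicator_of_notMem ht, indicator_of_notMem ht, mul_zero]

lemma marg_int {e : V} (he : ‖e‖ = 1) {ρ : V → ℝ} (hρ : Integrable ρ) :
    Integrable (marg e ρ) := fub_int he hρ

/-- the mass on the left of `t` -/
lemma left_mass {e : V} (he : ‖e‖ = 1) {ρ : V → ℝ} (hρ : Integrable ρ) {R : ℝ}
    (hR : ∀ x, R < ‖x‖ → ρ x = 0) (t : ℝ) :
    ∫ x in {x : V | inner ℝ e x ∈ Iio t}, ρ x = ∫ σ in (-R)..t, marg e ρ σ := by
  rw [fub_set he hρ measurableSet_Iio]
  have hM := marg_int he hρ
  rw [← intervalIntegral.integral_Iic_sub_Iic hM.integrableOn hM.integrableOn,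
    integral_Iic_eq_integral_Iio, integral_Iic_eq_integral_Iio]
  have : ∫ x in Iio (-R), marg e ρ x = 0 := by
    apply setIntegral_eq_zero_of_forall_eq_zero
    intro s hs
    apply marg_out he hR
    intro h
    exact absurd h.1 (not_le.mpr hs)
  rw [this, sub_zero]

lemma right_mass {e : V} (he : ‖e‖ = 1) {ρ : V → ℝ} (hρ : Integrable ρ) {R : ℝ}
    (hR : ∀ x, R < ‖x‖ → ρ x = 0) (t : ℝ) :
    ∫ x in {x : V | inner ℝ e x ∈ Ioi t}, ρ x = (∫ x, ρ x) - ∫ σ in (-R)..t, marg e ρ σ := by
  rw [← left_mass he hρ hR, fub_set he hρ measurableSet_Ioi, fub_set he hρ measurableSet_Iio]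
  have hM := marg_int he hρ
  have h1 := integral_add_compl (measurableSet_Iic : MeasurableSet (Iic t)) hM
  rw [compl_Iic, integral_Iic_eq_integral_Iio, marg_total he hρ] at h1
  linarith

end marg

variable {V : Type} [NormedAddCommGroup V] [InnerProductSpace ℝ V] [FiniteDimensional ℝ V]
  [MeasurableSpace V] [BorelSpace V]

/-- closeness of the transport map to a translation on the bulk -/
theorem bulk1 {n : ℕ} (hn : 1 ≤ n) (hV : Module.finrank ℝ V = n + 1)
    {e : V} (he : ‖e‖ = 1) {ρ : V → ℝ} (hρ : ContDiff ℝ 1 ρ) (hc : HasCompactSupport ρ)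
    (h0 : ∀ x, 0 ≤ ρ x) (h1 : ∀ x, ρ x ≤ 1)
    {m : ℝ} (hm : m = ∫ x, ρ x) (hmp : 0 < m) {ε : ℝ} (hε : 0 < ε) (hε2 : ε < 1 / 2)
    {κ : ℝ} (hκ : 0 < κ) (hκ2 : κ < 1 / 2) {cc : ℝ} (hcc : 0 < cc)
    (hM : ∀ t, κ * m ≤ ∫ x in {x : V | inner ℝ e x ∈ Iio t}, ρ x →
      κ * m ≤ ∫ x in {x : V | inner ℝ e x ∈ Ioi t}, ρ x → cc ≤ marg e ρ t)
    {a c W : ℝ} (ha : a = (((n + 1 : ℕ) : ℝ)⁻¹)) (hcdef : c = (1 - 2 * ε) * om (n + 1) / m)
    (hW : W = 2 * ((∫ x, ‖fderiv ℝ ρ x‖) - (n + 1) * c ^ a * ∫ x, pw (n + 1) (ρ x)) +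
      2 * (|c ^ a - 1| * m + (m - ∫ x, pw (n + 1) (ρ x)))) {s : ℝ} (hs : 0 < s) :
    ∃ (c0 t1 t2 : ℝ) (T : ℝ → ℝ), Continuous T ∧ (∀ t, |T t| ≤ 1) ∧
      (∀ t ∈ Icc t1 t2, |T t - (t - c0)| ≤ W / (2 * s * cc) + s / 2 * (4 + 2 * (m / cc))) ∧
      ∫ x in {x : V | inner ℝ e x ∈ (Icc t1 t2)ᶜ}, ρ x ≤ 2 * κ * m ∧
      ∫ x, ρ x * T (inner ℝ e x) = 0 := by
  obtain ⟨R, hR0, hR, hR'⟩ := exists_R hc
  obtain ⟨T, hT1, hT2, hT3, hT4, hT5⟩ := refined hn (star n hn) hV he hρ h0 hR0 hR hR' hm hmp
    hε hε2
  rw [← hcdef, ← ha] at hT5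
  have hρi : Integrable ρ := cc_int hρ.continuous hc
  have hMi := marg_int he hρi
  have hMc : Continuous (marg e ρ) := marg_cont he hρ.continuous hR
  have hM0 := marg_nonneg (e := e) h0
  have hTc : Continuous T := hT1.continuous
  have hT'c : Continuous (deriv T) := hT1.continuous_deriv (by simp)
  have hT'0 : ∀ t, 0 ≤ deriv T t := by
    intro t
    rw [(hT3 t).deriv]
    apply div_nonneg
    · exact mul_nonneg (by linarith) (div_nonneg (hM0 t) hmp.le)
    · exact bf_nonneg _ _
  set G : ℝ → ℝ := fun t => ∫ σ in (-R)..t, marg e ρ σ with hG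
  have hGd : ∀ t, HasDerivAt G (marg e ρ t) t := fun t =>
    intervalIntegral.integral_hasDerivAt_right (hMc.intervalIntegrable _ _)
      (hMc.stronglyMeasurableAtFilter _ _) hMc.continuousAt
  have hGc : Continuous G := continuous_iff_continuousAt.mpr fun t => (hGd t).continuousAt
  have hGm : Monotone G := by
    apply monotone_of_deriv_nonneg (fun t => (hGd t).differentiableAt)
    intro t
    rw [(hGd t).deriv]
    exact hM0 t
  have hGl : G (-R) = 0 := by simp [hG]
  have hGr : G R = m := by
    have := right_mass he hρi hR R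
    have h2 : ∫ x in {x : V | inner ℝ e x ∈ Ioi R}, ρ x = 0 := by
      apply setIntegral_eq_zero_of_forall_eq_zero
      intro x hx
      apply hR
      have h3 : R < inner ℝ e x := hx
      have h4 := real_inner_le_norm e x
      rw [he, one_mul] at h4
      linarith
    rw [h2] at this
    simp only [hG]
    linarith
  have ivt : ∀ y, 0 ≤ y → y ≤ m → ∃ t ∈ Icc (-R) R, G t = y := by
    intro y hy0 hym
    have := intermediate_value_Icc (by linarith : -R ≤ R) hGc.continuousOn
    rw [hGl, hGr] at this
    exact this ⟨hy0, hym⟩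
  obtain ⟨t1, -, ht1⟩ := ivt (κ * m) (by positivity) (by nlinarith)
  obtain ⟨t2, -, ht2⟩ := ivt ((1 - κ) * m) (mul_nonneg (by linarith) hmp.le) (by nlinarith)
  obtain ⟨t0, -, ht0⟩ := ivt (1 / 2 * m) (by positivity) (by nlinarith)
  have h10 : t1 ≤ t0 := by
    by_contra h
    have := hGm (not_le.mp h).le
    rw [ht1, ht0] at this
    nlinarith
  have h02 : t0 ≤ t2 := by
    by_contra h
    have := hGm (not_le.mp h).le
    rw [ht2, ht0] at this
    nlinarith
  have hbm : ∀ t ∈ Icc t1 t2, cc ≤ marg e ρ t := by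
    intro t ht
    have a1 := hGm ht.1
    have a2 := hGm ht.2
    apply hM
    · rw [left_mass he hρi hR]
      change κ * m ≤ G t
      linarith
    · rw [right_mass he hρi hR, ← hm]
      change κ * m ≤ m - G t
      linarith
  -- the weighted deficit
  have hdef : ∫ x, ρ x * (√(deriv T (inner ℝ e x)) - 1) ^ 2 ≤ W := by
    have hrc := rc (n + 1)
    have hinn : Continuous (fun x : V => deriv T (inner ℝ e x)) := by fun_prop
    have hc0 : 0 ≤ c := by
      rw [hcdef]
      exact div_nonneg (mul_nonneg (by linarith) (om_pos _).le) hmp.le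
    have hgc : Continuous (fun x => (c * ρ x) ^ a) := by
      rw [ha]
      exact hrc.comp (continuous_const.mul hρ.continuous)
    have hρcont := hρ.continuous
    have i1 : Integrable (fun x => ρ x * (√(deriv T (inner ℝ e x)) - 1) ^ 2) := by
      apply cc_int
      · fun_prop
      · exact hc.mul_right
    have i2 : Integrable (fun x => ρ x * (√(deriv T (inner ℝ e x)) - √((c * ρ x) ^ a)) ^ 2) := by
      apply cc_int
      · fun_prop
      · exact hc.mul_right
    have i3 : Integrable (fun x => |c ^ a - 1| * ρ x + (ρ x - pw (n + 1) (ρ x))) :=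
      (hρi.const_mul _).add (hρi.sub (pw_int hρ.continuous hc))
    have hpt : ∀ x, ρ x * (√(deriv T (inner ℝ e x)) - 1) ^ 2 ≤
        2 * (ρ x * (√(deriv T (inner ℝ e x)) - √((c * ρ x) ^ a)) ^ 2) +
        2 * (|c ^ a - 1| * ρ x + (ρ x - pw (n + 1) (ρ x))) := by
      intro x
      have hr0 := h0 x
      have hr1 := h1 x
      set r := ρ x
      set A := √(deriv T (inner ℝ e x))
      set g := (c * r) ^ a with hg
      have hg0 : 0 ≤ g := by positivity
      have hsg := Real.sq_sqrt hg0
      have hsg0 := Real.sqrt_nonneg g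
      have e1 : (A - 1) ^ 2 ≤ 2 * (A - √g) ^ 2 + 2 * (√g - 1) ^ 2 := by
        nlinarith [sq_nonneg (A - √g - (√g - 1))]
      have e2 : (√g - 1) ^ 2 ≤ |g - 1| := by
        have : g - 1 = (√g - 1) * (√g + 1) := by nlinarith
        rw [this, abs_mul, ← sq_abs, pow_two]
        apply mul_le_mul_of_nonneg_left _ (abs_nonneg _)
        rw [abs_of_nonneg (by linarith : 0 ≤ √g + 1), abs_le]
        constructor <;> linarith
      have hra : r ^ a ≤ 1 := Real.rpow_le_one hr0 hr1 (by rw [ha]; positivity)
      have hra0 : 0 ≤ r ^ a := by positivity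
      have e3 : |g - 1| ≤ |c ^ a - 1| + (1 - r ^ a) := by
        rw [hg, Real.mul_rpow hc0 hr0]
        have : c ^ a * r ^ a - 1 = (c ^ a - 1) * r ^ a - (1 - r ^ a) := by ring
        rw [this]
        refine (abs_sub _ _).trans ?_
        rw [abs_mul, abs_of_nonneg hra0, abs_of_nonneg (by linarith : 0 ≤ 1 - r ^ a)]
        have := mul_le_of_le_one_right (abs_nonneg (c ^ a - 1)) hra
        linarith
      have e4 : pw (n + 1) r = r * r ^ a := by unfold pw; rw [ha]
      rw [e4]
      have e5 : (A - 1) ^ 2 ≤ 2 * (A - √g) ^ 2 + 2 * (|c ^ a - 1| + (1 - r ^ a)) := by linarith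
      have := mul_le_mul_of_nonneg_left e5 hr0
      nlinarith
    have h5 : ∫ x, ρ x * (√(deriv T (inner ℝ e x)) - 1) ^ 2 ≤
        ∫ x, (2 * (ρ x * (√(deriv T (inner ℝ e x)) - √((c * ρ x) ^ a)) ^ 2) +
        2 * (|c ^ a - 1| * ρ x + (ρ x - pw (n + 1) (ρ x)))) :=
      integral_mono i1 ((i2.const_mul 2).add (i3.const_mul 2)) hpt
    have i6 : Integrable (fun x => ρ x - pw (n + 1) (ρ x)) := hρi.sub (pw_int hρ.continuous hc)
    have h6 : ∫ x, (|c ^ a - 1| * ρ x + (ρ x - pw (n + 1) (ρ x))) =
        |c ^ a - 1| * m + (m - ∫ x, pw (n + 1) (ρ x)) := by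
      rw [integral_add (hρi.const_mul _) i6, integral_const_mul,
        integral_sub hρi (pw_int hρ.continuous hc), ← hm]
    rw [integral_add (i2.const_mul 2) (i3.const_mul 2), integral_const_mul, integral_const_mul,
      h6] at h5
    rw [hW]
    linarith
  have hWm : ∫ t, marg e ρ t * (√(deriv T t) - 1) ^ 2 ≤ W := by
    rw [← fub_mul he (h := fun t => (√(deriv T t) - 1) ^ 2)]
    · exact hdef
    · have hρcont := hρ.continuous
      have hinn : Continuous (fun x : V => deriv T (inner ℝ e x)) := by fun_prop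
      apply cc_int
      · fun_prop
      · exact hc.mul_right
  have hWi : Integrable (fun t => marg e ρ t * (√(deriv T t) - 1) ^ 2) := by
    apply Continuous.integrable_of_hasCompactSupport
    · fun_prop
    · apply HasCompactSupport.mul_right
      apply HasCompactSupport.intro (isCompact_Icc : IsCompact (Icc (-R) R))
      intro t ht
      exact marg_out he hR ht
  have hosc : ∀ u v, t1 ≤ u → u ≤ v → v ≤ t2 →
      |(T v - v) - (T u - u)| ≤ W / (2 * s * cc) + s / 2 * (4 + 2 * (m / cc)) := by
    intro u v hu huv hv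
    have f1 : ∫ t in u..v, (deriv T t - 1) = (T v - v) - (T u - u) := by
      have := intervalIntegral.integral_eq_sub_of_hasDerivAt (f := fun t => T t - t)
        (f' := fun t => deriv T t - 1) (a := u) (b := v)
        (fun t _ => ((hT3 t).differentiableAt.hasDerivAt).sub (hasDerivAt_id t))
        (Continuous.intervalIntegrable (by fun_prop) _ _)
      exact this
    rw [← f1]
    have f2 : |∫ t in u..v, (deriv T t - 1)| ≤ ∫ t in u..v, |deriv T t - 1| :=
      intervalIntegral.abs_integral_le_integral_abs huv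
    refine f2.trans ?_
    have f3 : ∫ t in u..v, |deriv T t - 1| ≤ ∫ t in u..v,
        (1 / (2 * s * cc) * (marg e ρ t * (√(deriv T t) - 1) ^ 2) +
          s / 2 * (2 * deriv T t + 2)) := by
      apply intervalIntegral.integral_mono_on huv
      · apply Continuous.intervalIntegrable
        fun_prop
      · apply Continuous.intervalIntegrable
        fun_prop
      · intro t ht
        have hMt := hbm t ⟨hu.trans ht.1, ht.2.trans hv⟩
        have hd0 := hT'0 t
        have hsq := Real.sq_sqrt hd0
        have hs0 := Real.sqrt_nonneg (deriv T t)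
        set q := √(deriv T t)
        rw [← hsq]
        have g1 : |q ^ 2 - 1| = |q - 1| * (q + 1) := by
          have : q ^ 2 - 1 = (q - 1) * (q + 1) := by ring
          rw [this, abs_mul, abs_of_nonneg (by linarith : 0 ≤ q + 1)]
        rw [g1]
        have g2 : |q - 1| * (q + 1) ≤ 1 / (2 * s) * (q - 1) ^ 2 + s / 2 * (q + 1) ^ 2 := by
          have h3 : 0 ≤ (|q - 1| - s * (q + 1)) ^ 2 := sq_nonneg _
          have h4 : (|q - 1|) ^ 2 = (q - 1) ^ 2 := sq_abs _
          have h5 : 1 / (2 * s) * (q - 1) ^ 2 + s / 2 * (q + 1) ^ 2 - |q - 1| * (q + 1) =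
              1 / (2 * s) * (|q - 1| - s * (q + 1)) ^ 2 := by
            rw [← h4]
            field_simp
            ring
          have h6 : 0 ≤ 1 / (2 * s) * (|q - 1| - s * (q + 1)) ^ 2 := by positivity
          linarith
        have g3 : 1 / (2 * s) * (q - 1) ^ 2 ≤ 1 / (2 * s * cc) * (marg e ρ t * (q - 1) ^ 2) := by
          have : 1 / (2 * s) * (q - 1) ^ 2 = 1 / (2 * s * cc) * (cc * (q - 1) ^ 2) := by
            field_simp
          rw [this]
          apply mul_le_mul_of_nonneg_left _ (by positivity)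
          exact mul_le_mul_of_nonneg_right hMt (sq_nonneg _)
        have g4 : s / 2 * (q + 1) ^ 2 ≤ s / 2 * (2 * q ^ 2 + 2) := by
          apply mul_le_mul_of_nonneg_left _ (by positivity)
          nlinarith [sq_nonneg (q - 1)]
        linarith
    refine f3.trans ?_
    rw [intervalIntegral.integral_add, intervalIntegral.integral_const_mul,
      intervalIntegral.integral_const_mul]
    · have f4 : ∫ t in u..v, marg e ρ t * (√(deriv T t) - 1) ^ 2 ≤ W := by
        rw [intervalIntegral.integral_of_le huv]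
        refine le_trans ?_ hWm
        exact setIntegral_le_integral hWi (ae_of_all _ fun t =>
          mul_nonneg (hM0 t) (sq_nonneg _))
      have f5 : ∫ t in u..v, (2 * deriv T t + 2) = 2 * (T v - T u) + 2 * (v - u) := by
        rw [intervalIntegral.integral_add (by apply Continuous.intervalIntegrable; fun_prop)
          (by apply Continuous.intervalIntegrable; fun_prop),
          intervalIntegral.integral_const_mul, intervalIntegral.integral_const,
          intervalIntegral.integral_deriv_eq_sub (fun t _ => (hT3 t).differentiableAt)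
            (hT'c.intervalIntegrable _ _)]
        simp only [smul_eq_mul]
        ring
      have f6 : (v - u) * cc ≤ m := by
        have k1 : ∫ t in u..v, cc ≤ ∫ t in u..v, marg e ρ t := by
          apply intervalIntegral.integral_mono_on huv
          · exact continuous_const.intervalIntegrable _ _
          · exact hMc.intervalIntegrable _ _
          · intro t ht
            exact hbm t ⟨hu.trans ht.1, ht.2.trans hv⟩
        rw [intervalIntegral.integral_const, smul_eq_mul] at k1
        have k2 : ∫ t in u..v, marg e ρ t ≤ m := by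
          rw [intervalIntegral.integral_of_le huv, hm, ← marg_total he hρi]
          exact setIntegral_le_integral hMi (ae_of_all _ hM0)
        linarith
      have f7 : v - u ≤ m / cc := by rwa [le_div_iff₀ hcc]
      have f8 : T v - T u ≤ 2 := by
        have := (hT2 v).2
        have := (hT2 u).1
        linarith
      rw [f5]
      have k3 : 1 / (2 * s * cc) * ∫ t in u..v, marg e ρ t * (√(deriv T t) - 1) ^ 2 ≤
          W / (2 * s * cc) := by
        rw [div_mul_eq_mul_div, one_mul]
        exact div_le_div_of_nonneg_right f4 (by positivity)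
      have k4 : s / 2 * (2 * (T v - T u) + 2 * (v - u)) ≤ s / 2 * (4 + 2 * (m / cc)) := by
        apply mul_le_mul_of_nonneg_left _ (by positivity)
        linarith
      linarith
    · apply Continuous.intervalIntegrable
      fun_prop
    · apply Continuous.intervalIntegrable
      fun_prop
  refine ⟨t0 - T t0, t1, t2, T, hTc, fun t => abs_le.mpr ⟨(hT2 t).1.le, (hT2 t).2.le⟩, ?_, ?_, ?_⟩
  · intro t ht
    rcases le_total t t0 with h | h
    · have := hosc t t0 ht.1 h h02
      rw [abs_sub_comm] at this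
      have e2 : T t - (t - (t0 - T t0)) = T t - t - (T t0 - t0) := by ring
      rw [e2]
      exact this
    · have := hosc t0 t h10 h ht.2
      have e2 : T t - (t - (t0 - T t0)) = T t - t - (T t0 - t0) := by ring
      rw [e2]
      exact this
  · rw [fub_set he hρi measurableSet_Icc.compl]
    have : (Icc t1 t2)ᶜ = Iio t1 ∪ Ioi t2 := by
      ext t
      simp only [mem_compl_iff, mem_Icc, not_and_or, not_le, mem_union, mem_Iio, mem_Ioi]
    have hdisj : Disjoint (Iio t1) (Ioi t2) := by
      rw [Set.disjoint_left]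
      intro t ha hb
      have h3 : t < t1 := ha
      have h4 : t2 < t := hb
      linarith
    rw [this, setIntegral_union hdisj measurableSet_Ioi hMi.integrableOn hMi.integrableOn,
      ← fub_set he hρi measurableSet_Iio, ← fub_set he hρi measurableSet_Ioi,
      left_mass he hρi hR, right_mass he hρi hR, ← hm]
    change G t1 + (m - G t2) ≤ _
    rw [ht1, ht2]
    linarith
  · have hTR : T (-R) = -T R := by
      have b1 := hT4 (-R)
      have b2 := hT4 R
      have hGl' : (∫ σ in (-R)..(-R), marg e ρ σ) = 0 := hGl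
      have hGr' : (∫ σ in (-R)..R, marg e ρ σ) = m := hGr
      rw [hGl', zero_div, mul_zero, add_zero] at b1
      rw [hGr', div_self hmp.ne', mul_one] at b2
      have b3 : be n (-T R) = ε := by rw [be_symm hn, b2]; ring
      have m1 : T (-R) ∈ Icc (-1:ℝ) 1 := Ioo_subset_Icc_self (hT2 _)
      have m2 : -T R ∈ Icc (-1:ℝ) 1 := by
        have := hT2 R
        constructor <;> linarith [this.1, this.2]
      exact (be_smono n).injOn m1 m2 (b1.trans b3.symm)
    have i4 : Integrable (fun x => ρ x * T (inner ℝ e x)) := by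
      have hρcont := hρ.continuous
      apply cc_int
      · fun_prop
      · exact hc.mul_right
    rw [fub_mul he i4]
    have e6 : ∫ t, marg e ρ t * T t = ∫ t in (-R)..R, marg e ρ t * T t := by
      rw [intervalIntegral.integral_of_le (by linarith), ← integral_Icc_eq_integral_Ioc]
      symm
      apply setIntegral_eq_integral_of_forall_compl_eq_zero
      intro t ht
      rw [marg_out he hR ht, zero_mul]
    rw [e6]
    have hne : (1 - 2 * ε) ≠ 0 := by linarith
    have e7 : ∀ t, HasDerivAt (fun t => m / (1 - 2 * ε) * Ps n (T t)) (marg e ρ t * T t) t := by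
      intro t
      have hb := (bf_pos n (hT2 t)).ne'
      have := ((Ps_deriv n (T t)).comp t (hT3 t)).const_mul (m / (1 - 2 * ε))
      have e8 : m / (1 - 2 * ε) * (T t * bf n (T t) *
          ((1 - 2 * ε) * (marg e ρ t / m) / bf n (T t))) = marg e ρ t * T t := by
        field_simp
      rw [e8] at this
      exact this
    rw [intervalIntegral.integral_eq_sub_of_hasDerivAt (fun t _ => e7 t)
      ((hMc.mul hTc).intervalIntegrable _ _), hTR, Ps_even, sub_self]

end Pool.Agent.Helper88.Weyl
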