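import Mathlib

open MeasureTheory Set Metric Filter Topology
open scoped ENNReal NNReal

noncomputable section

namespace Pool.Agent.Helper88.Weyl

/-- Euclidean space `ℝ^N` -/
abbrev En (N : ℕ) := EuclideanSpace ℝ (Fin N)

variable {N : ℕ}

/-- divergence of a vector field -/
def dvg (T : En N → En N) (x : En N) : ℝ :=
  ∑ i : Fin N, fderiv ℝ T x (EuclideanSpace.single i 1) i

/-- the De Giorgi perimeter: supremum of `∫_E div T` over `C¹` compactly supported vector fields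
`T` with `|T| ≤ 1` -/
def perimeter (E : Set (En N)) : ℝ≥0∞ :=
  ⨆ (T : En N → En N) (_ : ContDiff ℝ 1 T) (_ : HasCompactSupport T) (_ : ∀ x, ‖T x‖ ≤ 1),
    ENNReal.ofReal (∫ x in E, dvg T x)

/-- `u ∈ H¹(ℝ^N)` with gradient `G`: both are in `L²` and there are smooth compactly supported
functions `φ k` with `φ k → u` and `∇ φ k → G` in `L²` -/
structure IsH1 (u : En N → ℝ) (G : En N → En N) : Prop where
  memu : MemLp u 2 volume
  memG : MemLp G 2 volume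
  approx : ∃ φ : ℕ → En N → ℝ, (∀ j, ContDiff ℝ (⊤ : ℕ∞) (φ j) ∧ HasCompactSupport (φ j)) ∧
    Tendsto (fun j => ∫ x, (u x - φ j x) ^ 2) atTop (𝓝 0) ∧
    Tendsto (fun j => ∫ x, ‖G x - gradient (φ j) x‖ ^ 2) atTop (𝓝 0)

/-- the (Sobolev) capacity of a set `A`: infimum of `‖u‖²_{H¹}` over `u ∈ H¹(ℝ^N)` with `u ≥ 1`
almost everywhere on an open neighbourhood of `A` -/
def cap (A : Set (En N)) : ℝ≥0∞ :=
  ⨅ (u : En N → ℝ) (G : En N → En N) (_ : IsH1 u G)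
    (_ : ∃ U : Set (En N), IsOpen U ∧ A ⊆ U ∧ ∀ᵐ x, x ∈ U → 1 ≤ u x),
    ENNReal.ofReal (∫ x, (u x ^ 2 + ‖G x‖ ^ 2))

/-- quasi-open sets -/
def QuasiOpen (Ω : Set (En N)) : Prop :=
  ∀ ε : ℝ≥0∞, 0 < ε → ∃ O : Set (En N), IsOpen O ∧ cap O < ε ∧ IsOpen (Ω ∪ O)

/-- quasi-continuous functions -/
def QuasiCont (v : En N → ℝ) : Prop :=
  ∀ ε : ℝ≥0∞, 0 < ε → ∃ O : Set (En N), IsOpen O ∧ cap O < ε ∧ ContinuousOn v Oᶜ

/-- `u ∈ H¹₀(Ω)` with gradient `G`: `u ∈ H¹(ℝ^N)` and its quasi-continuous representative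
vanishes quasi-everywhere outside `Ω` -/
def MemH10 (Ω : Set (En N)) (u : En N → ℝ) (G : En N → En N) : Prop :=
  IsH1 u G ∧ ∃ v : En N → ℝ, v =ᵐ[volume] u ∧ QuasiCont v ∧ cap {x | x ∉ Ω ∧ v x ≠ 0} = 0

/-- the `k`-th Dirichlet eigenvalue of `Ω`, by the min-max principle: the infimum of the `r` for
which `H¹₀(Ω)` has a `k`-dimensional subspace on which `∫ |∇u|² ≤ r ∫ u²` -/
def eigenvalue (k : ℕ) (Ω : Set (En N)) : ℝ≥0∞ :=
  ⨅ (r : ℝ≥0) (_ : ∃ V : Submodule ℝ (Lp ℝ 2 (volume : Measure (En N))),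
    Module.finrank ℝ V = k ∧ ∀ u ∈ V, ∃ G : En N → En N, MemH10 Ω u G ∧
      ∫ x, ‖G x‖ ^ 2 ≤ r * ∫ x, u x ^ 2), (r : ℝ≥0∞)

/-- admissible sets of the problem `(A_k)` -/
structure Admissible (P₀ : ℝ) (Ω : Set (En N)) : Prop where
  quasiOpen : QuasiOpen Ω
  finite : volume Ω < ⊤
  per : perimeter Ω ≤ ENNReal.ofReal P₀

/-- minimizers of `(A_k)` -/
def IsMinimizer (k : ℕ) (P₀ : ℝ) (Ω : Set (En N)) : Prop :=
  Admissible P₀ Ω ∧ ∀ Ω' : Set (En N), Admissible P₀ Ω' → eigenvalue k Ω ≤ eigenvalue k Ω'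

end Pool.Agent.Helper88.Weyl
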