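import Mathlib
import Pool.Agent.Helper88.Weyl.Def
import Pool.Agent.Helper88.Weyl.Cut

open MeasureTheory Set Metric Filter Topology
open scoped ENNReal NNReal Convolution

noncomputable section

set_option linter.unusedSectionVars false

namespace Pool.Agent.Helper88.Weyl

variable {N : ℕ}

/-- test fields -/
structure IsF (T : En N → En N) : Prop where
  C1 : ContDiff ℝ 1 T
  cs : HasCompactSupport T
  le : ∀ x, ‖T x‖ ≤ 1

lemma per_bound {E : Set (En N)} {P : ℝ} (hP : 0 ≤ P) (h : perimeter E ≤ ENNReal.ofReal P)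
    {T : En N → En N} (hT : IsF T) : ∫ x in E, dvg T x ≤ P := by
  have h1 : ENNReal.ofReal (∫ x in E, dvg T x) ≤ perimeter E := by
    unfold perimeter
    exact le_iSup_of_le T (le_iSup_of_le hT.C1 (le_iSup_of_le hT.cs (le_iSup_of_le hT.le le_rfl)))
  exact (ENNReal.ofReal_le_ofReal_iff hP).mp (h1.trans h)

lemma dvg_cont {T : En N → En N} (hT : ContDiff ℝ 1 T) : Continuous (dvg T) := by
  unfold dvg
  have h1 := hT.continuous_fderiv (by simp)
  apply continuous_finsetSum
  intro i _
  have h2 : Continuous (fun x => fderiv ℝ T x (EuclideanSpace.single i 1)) :=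
    h1.clm_apply continuous_const
  exact (EuclideanSpace.proj i : En N →L[ℝ] ℝ).continuous.comp h2

lemma dvg_cs {T : En N → En N} (hc : HasCompactSupport T) : HasCompactSupport (dvg T) := by
  have := hc.fderiv (𝕜 := ℝ)
  exact this.comp_left (g := fun L : En N →L[ℝ] En N =>
    ∑ i : Fin N, L (EuclideanSpace.single i 1) i) (by simp)

lemma dvg_int {T : En N → En N} (hT : ContDiff ℝ 1 T) (hc : HasCompactSupport T) :
    Integrable (dvg T) := cc_int (dvg_cont hT) (dvg_cs hc)

lemma shift_F {T : En N → En N} (hT : IsF T) (y : En N) : IsF (fun x => T (x + y)) := by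
  refine ⟨hT.C1.comp (contDiff_id.add contDiff_const), ?_, fun x => hT.le _⟩
  exact hT.cs.comp_homeomorph (Homeomorph.addRight y)

lemma shift_dvg (T : En N → En N) (y x : En N) :
    dvg (fun x => T (x + y)) x = dvg T (x + y) := by
  unfold dvg
  rw [fderiv_comp_add_right]

/-- mollified sets have total variation at most the perimeter, weak form -/
lemma moll_weak {E : Set (En N)} (hE : MeasurableSet E) {P : ℝ} (hP : 0 ≤ P)
    (h : perimeter E ≤ ENNReal.ofReal P) {η : En N → ℝ} (hη : Continuous η)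
    (hηc : HasCompactSupport η) (hη0 : ∀ x, 0 ≤ η x) (hη1 : ∫ x, η x = 1)
    {T : En N → En N} (hT : IsF T) :
    ∫ x, (∫ y, η y * E.indicator (fun _ => (1:ℝ)) (x - y)) * dvg T x ≤ P := by
  set g : En N → ℝ := E.indicator (fun _ => (1:ℝ)) with hg
  have hgm : Measurable g := measurable_const.indicator hE
  have hg1 : ∀ x, |g x| ≤ 1 := by
    intro x
    by_cases hx : x ∈ E
    · rw [hg, indicator_of_mem hx]; simp
    · rw [hg, indicator_of_notMem hx]; simp
  have hηi : Integrable η := cc_int hη hηc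
  have hdi := dvg_int hT.C1 hT.cs
  have hI : Integrable (fun p : En N × En N => η p.2 * g (p.1 - p.2) * dvg T p.1)
      (volume.prod volume) := by
    have h1 : Integrable (fun p : En N × En N => dvg T p.1 * η p.2) (volume.prod volume) :=
      hdi.mul_prod hηi
    refine h1.mono ?_ (ae_of_all _ fun p => ?_)
    · apply Measurable.aestronglyMeasurable
      have m1 : Measurable (fun p : En N × En N => η p.2) := hη.measurable.comp measurable_snd
      have m2 : Measurable (fun p : En N × En N => g (p.1 - p.2)) :=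
        hgm.comp (measurable_fst.sub measurable_snd)
      have m3 : Measurable (fun p : En N × En N => dvg T p.1) :=
        (dvg_cont hT.C1).measurable.comp measurable_fst
      exact (m1.mul m2).mul m3
    · rw [norm_mul, norm_mul, norm_mul, Real.norm_eq_abs (g _)]
      have := hg1 (p.1 - p.2)
      have h2 : ‖η p.2‖ * |g (p.1 - p.2)| ≤ ‖η p.2‖ := mul_le_of_le_one_right (norm_nonneg _) this
      calc ‖η p.2‖ * |g (p.1 - p.2)| * ‖dvg T p.1‖ ≤ ‖η p.2‖ * ‖dvg T p.1‖ :=
            mul_le_mul_of_nonneg_right h2 (norm_nonneg _)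
        _ = ‖dvg T p.1‖ * ‖η p.2‖ := mul_comm _ _
  have e1 : ∫ x, (∫ y, η y * g (x - y)) * dvg T x =
      ∫ x, ∫ y, η y * g (x - y) * dvg T x := by
    congr 1
    funext x
    rw [integral_mul_const]
  rw [e1, integral_integral_swap hI]
  have e2 : ∀ y, ∫ x, η y * g (x - y) * dvg T x ≤ η y * P := by
    intro y
    have e3 : ∫ x, η y * g (x - y) * dvg T x = η y * ∫ x, g (x - y) * dvg T x := by
      rw [← integral_const_mul]
      congr 1
      funext x
      ring
    rw [e3]
    apply mul_le_mul_of_nonneg_left _ (hη0 y)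
    have e4 : ∫ x, g (x - y) * dvg T x = ∫ x, g x * dvg T (x + y) := by
      rw [← integral_add_right_eq_self (fun x => g (x - y) * dvg T x) y]
      congr 1
      funext x
      rw [add_sub_cancel_right]
    have e5 : ∫ x, g x * dvg T (x + y) = ∫ x in E, dvg (fun x => T (x + y)) x := by
      rw [← integral_indicator hE]
      congr 1
      funext x
      by_cases hx : x ∈ E
      · rw [indicator_of_mem hx, hg, indicator_of_mem hx, one_mul, shift_dvg]
      · rw [indicator_of_notMem hx, hg, indicator_of_notMem hx, zero_mul]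
    rw [e4, e5]
    exact per_bound hP h (shift_F hT y)
  calc ∫ y, ∫ x, η y * g (x - y) * dvg T x ≤ ∫ y, η y * P := by
        apply integral_mono hI.integral_prod_right (hηi.mul_const _) e2
    _ = P := by rw [integral_mul_const, hη1, one_mul]

/-- divergence theorem against a `C¹` function -/
lemma div_ibp {f : En N → ℝ} (hf : ContDiff ℝ 1 f) {T : En N → En N} (hT : ContDiff ℝ 1 T)
    (hc : HasCompactSupport T) :
    ∫ x, f x * dvg T x = -∫ x, fderiv ℝ f x (T x) := by
  have hTi : ∀ i : Fin N, ContDiff ℝ 1 (fun x => T x i) := fun i =>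
    (EuclideanSpace.proj i : En N →L[ℝ] ℝ).contDiff.comp hT
  have hci : ∀ i : Fin N, HasCompactSupport (fun x => T x i) := fun i =>
    hc.comp_left (g := fun v : En N => v i) (by simp)
  have hd : ∀ (i : Fin N) (x v : En N), fderiv ℝ (fun x => T x i) x v = fderiv ℝ T x v i := by
    intro i x v
    have h1 := ((EuclideanSpace.proj i : En N →L[ℝ] ℝ).hasFDerivAt).comp x
      (hT.differentiable (by simp) x).hasFDerivAt
    have h2 : HasFDerivAt (fun x => T x i)
      ((EuclideanSpace.proj i : En N →L[ℝ] ℝ).comp (fderiv ℝ T x)) x := h1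
    rw [h2.fderiv]
    rfl
  have h1 : ∀ x, f x * dvg T x = ∑ i, f x * fderiv ℝ (fun x => T x i) x
      (EuclideanSpace.single i 1) := by
    intro x
    unfold dvg
    rw [Finset.mul_sum]
    apply Finset.sum_congr rfl
    intro i _
    rw [hd]
  have h2 : ∀ x, fderiv ℝ f x (T x) = ∑ i, T x i * fderiv ℝ f x (EuclideanSpace.single i 1) := by
    intro x
    have e : T x = ∑ i, T x i • EuclideanSpace.single i (1:ℝ) := by
      ext j
      simp [Finset.sum_apply, Pi.single_apply]
    conv_lhs => rw [e, map_sum]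
    apply Finset.sum_congr rfl
    intro i _
    rw [map_smul, smul_eq_mul]
  simp_rw [h1, h2]
  have hfc := hf.continuous
  have hfd := hf.continuous_fderiv (by simp)
  rw [integral_finsetSum, integral_finsetSum, ← Finset.sum_neg_distrib]
  · apply Finset.sum_congr rfl
    intro i _
    have := ibp (hTi i) (hci i) hf (EuclideanSpace.single i 1)
    rw [this, neg_neg]
    congr 1
    funext x
    ring
  · intro i _
    apply cc_int
    · exact (hTi i).continuous.mul (hfd.clm_apply continuous_const)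
    · exact (hci i).mul_right
  · intro i _
    apply cc_int
    · exact hfc.mul (((hTi i).continuous_fderiv (by simp)).clm_apply continuous_const)
    · exact ((hci i).fderiv_apply (𝕜 := ℝ) _).mul_left

lemma norm_grad {φ : En N → ℝ} (x : En N) : ‖gradient φ x‖ = ‖fderiv ℝ φ x‖ := by
  unfold gradient
  rw [LinearIsometryEquiv.norm_map]

lemma inner_grad {φ : En N → ℝ} (x v : En N) : inner ℝ (gradient φ x) v = fderiv ℝ φ x v := by
  unfold gradient
  rw [InnerProductSpace.toDual_symm_apply]

/-- from the weak form to the norm of the gradient -/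
lemma strong_of_weak {f : En N → ℝ} (hf : ContDiff ℝ 2 f) {P : ℝ}
    (hw : ∀ T : En N → En N, IsF T → ∫ x, f x * dvg T x ≤ P) {χ : En N → ℝ}
    (hχ : ContDiff ℝ 1 χ) (hc : HasCompactSupport χ) (h0 : ∀ x, 0 ≤ χ x) (h1 : ∀ x, χ x ≤ 1) :
    ∫ x, χ x * ‖fderiv ℝ f x‖ ≤ P := by
  have hf1 : ContDiff ℝ 1 f := hf.of_le (by norm_num)
  have hgC : ContDiff ℝ 1 (gradient f) := by
    unfold gradient
    apply (LinearIsometryEquiv.contDiff _).comp
    exact hf.fderiv_right (by norm_num)
  have hgc : Continuous (gradient f) := hgC.continuous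
  have hfdc : Continuous (fun x => ‖fderiv ℝ f x‖) := (hf1.continuous_fderiv (by simp)).norm
  have hχi : Integrable χ := cc_int hχ.continuous hc
  have key : ∀ δ : ℝ, 0 < δ → ∫ x, χ x * ‖fderiv ℝ f x‖ ≤ P + δ * ∫ x, χ x := by
    intro δ hδ
    set S : En N → ℝ := fun x => √(‖gradient f x‖ ^ 2 + δ ^ 2) with hS
    have hS0 : ∀ x, 0 < S x := fun x => Real.sqrt_pos.mpr (by positivity)
    have hSsq : ∀ x, S x ^ 2 = ‖gradient f x‖ ^ 2 + δ ^ 2 := fun x => Real.sq_sqrt (by positivity)
    have hSC : ContDiff ℝ 1 S := by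
      apply ContDiff.sqrt
      · exact (hgC.norm_sq ℝ).add contDiff_const
      · intro x
        positivity
    have hSn : ∀ x, ‖gradient f x‖ ≤ S x := by
      intro x
      apply Real.le_sqrt_of_sq_le
      nlinarith [sq_nonneg δ]
    have hS2 : ∀ x, S x ≤ ‖gradient f x‖ + δ := by
      intro x
      apply Real.sqrt_le_iff.mpr
      constructor
      · positivity
      · nlinarith [mul_nonneg (norm_nonneg (gradient f x)) hδ.le]
    set T : En N → En N := fun x => -((χ x * (S x)⁻¹) • gradient f x) with hT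
    have hTC : ContDiff ℝ 1 T := by
      apply ContDiff.neg
      have := (hχ.mul (hSC.inv fun x => (hS0 x).ne')).smul hgC
      exact this
    have hTF : IsF T := by
      refine ⟨hTC, ?_, ?_⟩
      · have : HasCompactSupport (fun x => (χ x * (S x)⁻¹) • gradient f x) :=
          (hc.mul_right).smul_right
        exact this.neg
      · intro x
        simp only [hT]
        rw [norm_neg, norm_smul, norm_mul, norm_inv, Real.norm_eq_abs, Real.norm_eq_abs,
          abs_of_nonneg (h0 x), abs_of_pos (hS0 x), mul_assoc]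
        have : (S x)⁻¹ * ‖gradient f x‖ ≤ 1 := by
          rw [inv_mul_le_iff₀ (hS0 x), mul_one]
          exact hSn x
        calc χ x * ((S x)⁻¹ * ‖gradient f x‖) ≤ 1 * 1 := by
              apply mul_le_mul (h1 x) this _ zero_le_one
              exact mul_nonneg (inv_nonneg.mpr (hS0 x).le) (norm_nonneg _)
          _ = 1 := one_mul 1
    have h2 := hw T hTF
    rw [div_ibp hf1 hTC hTF.cs] at h2
    have h3 : ∀ x, -fderiv ℝ f x (T x) = χ x * ((S x)⁻¹ * ‖gradient f x‖ ^ 2) := by
      intro x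
      simp only [hT]
      rw [map_neg, map_smul, neg_neg, ← inner_grad, real_inner_self_eq_norm_sq, smul_eq_mul]
      ring
    rw [← integral_neg] at h2
    simp_rw [h3] at h2
    have hSi : Continuous (fun x => (S x)⁻¹) := hSC.continuous.inv₀ fun x => (hS0 x).ne'
    have hχc := hχ.continuous
    have i1 : Integrable (fun x => χ x * ((S x)⁻¹ * ‖gradient f x‖ ^ 2)) := by
      apply cc_int
      · fun_prop
      · exact hc.mul_right
    have i2 : Integrable (fun x => χ x * ‖fderiv ℝ f x‖) := by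
      apply cc_int
      · fun_prop
      · exact hc.mul_right
    have h4 : ∫ x, χ x * ‖fderiv ℝ f x‖ ≤ ∫ x, (χ x * ((S x)⁻¹ * ‖gradient f x‖ ^ 2) +
        δ * χ x) := by
      apply integral_mono i2 (i1.add (hχi.const_mul _))
      intro x
      change χ x * ‖fderiv ℝ f x‖ ≤ χ x * ((S x)⁻¹ * ‖gradient f x‖ ^ 2) + δ * χ x
      rw [← norm_grad]
      have h5 : ‖gradient f x‖ ≤ (S x)⁻¹ * ‖gradient f x‖ ^ 2 + δ := by
        set g := ‖gradient f x‖ with hg
        have hg0 : 0 ≤ g := norm_nonneg _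
        have h6 : g - δ ≤ (S x)⁻¹ * g ^ 2 := by
          rw [inv_mul_eq_div, le_div_iff₀ (hS0 x)]
          rcases le_or_gt g δ with h | h
          · have : (g - δ) * S x ≤ 0 := mul_nonpos_of_nonpos_of_nonneg (by linarith) (hS0 x).le
            nlinarith [sq_nonneg g]
          · have := mul_le_mul_of_nonneg_left (hS2 x) (by linarith : 0 ≤ g - δ)
            nlinarith [sq_nonneg δ]
        linarith
      have := mul_le_mul_of_nonneg_left h5 (h0 x)
      linarith
    rw [integral_add i1 (hχi.const_mul _), integral_const_mul] at h4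
    linarith
  apply le_of_forall_pos_le_add
  intro τ hτ
  have hI0 : 0 ≤ ∫ x, χ x := integral_nonneg h0
  have := key (τ / ((∫ x, χ x) + 1)) (by positivity)
  have h5 : τ / ((∫ x, χ x) + 1) * (∫ x, χ x) ≤ τ := by
    rw [div_mul_eq_mul_div, div_le_iff₀ (by positivity)]
    nlinarith
  linarith

/-- the radial cut-off -/
def rad (R : ℝ) (x : En N) : ℝ := SS (2 - ‖x‖ ^ 2 / R ^ 2)

lemma rad_C1 (R : ℝ) : ContDiff ℝ 1 (rad R : En N → ℝ) := by
  unfold rad
  apply SS_C1.comp
  exact contDiff_const.sub ((contDiff_norm_sq ℝ).div_const _)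

lemma rad_one {R : ℝ} (hR : 0 < R) {x : En N} (hx : ‖x‖ ≤ R) : rad R x = 1 := by
  unfold rad
  apply SS_one
  have : ‖x‖ ^ 2 / R ^ 2 ≤ 1 := by
    rw [div_le_one (by positivity)]
    exact pow_le_pow_left₀ (norm_nonneg _) hx 2
  linarith

lemma rad_out {R : ℝ} (hR : 0 < R) {x : En N} (hx : 2 * R < ‖x‖) : 2 ≤ ‖x‖ ^ 2 / R ^ 2 := by
  rw [le_div_iff₀ (by positivity)]
  nlinarith

lemma rad_cs {R : ℝ} (hR : 0 < R) : HasCompactSupport (rad R : En N → ℝ) := by
  apply HasCompactSupport.intro (isCompact_closedBall (0 : En N) (2 * R))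
  intro x hx
  rw [mem_closedBall_zero_iff, not_le] at hx
  unfold rad
  apply SS_zero
  have := rad_out hR hx
  linarith

lemma rad_fd {R : ℝ} (hR : 0 < R) (x : En N) : ‖fderiv ℝ (rad R : En N → ℝ) x‖ ≤ 8 / R := by
  have h1 : HasFDerivAt (fun x : En N => 2 - ‖x‖ ^ 2 / R ^ 2)
      (-((R ^ 2)⁻¹ • (2 • innerSL ℝ x))) x := by
    have h2 : HasFDerivAt (fun x : En N => ‖x‖ ^ 2) (2 • innerSL ℝ x) x :=
      (hasStrictFDerivAt_norm_sq x).hasFDerivAt
    have h3 := (h2.mul_const ((R ^ 2)⁻¹)).const_sub 2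
    simpa only [div_eq_mul_inv] using h3
  have h4 : HasFDerivAt (rad R : En N → ℝ) (bS (2 - ‖x‖ ^ 2 / R ^ 2) •
      (-((R ^ 2)⁻¹ • ((2 : ℕ) • innerSL ℝ x)) : En N →L[ℝ] ℝ)) x :=
    (SS_deriv _).comp_hasFDerivAt x h1
  rw [h4.fderiv]
  rcases lt_or_ge (2 * R) ‖x‖ with hx | hx
  · rw [bS_zero, zero_smul, norm_zero]
    · positivity
    · intro h
      have := rad_out hR hx
      linarith [h.1]
  · rw [norm_smul, norm_neg, norm_smul, Real.norm_eq_abs, abs_of_nonneg (bS_nonneg _),
      Real.norm_eq_abs, abs_of_nonneg (by positivity)]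
    have h5 : ‖(2 : ℕ) • innerSL ℝ x‖ ≤ 4 * R := by
      rw [two_nsmul]
      refine (norm_add_le _ _).trans ?_
      rw [innerSL_apply_norm]
      linarith
    calc bS (2 - ‖x‖ ^ 2 / R ^ 2) * ((R ^ 2)⁻¹ * ‖(2 : ℕ) • innerSL ℝ x‖) ≤
        2 * ((R ^ 2)⁻¹ * (4 * R)) := by
          apply mul_le_mul (bS_le _) _ (by positivity) (by norm_num)
          exact mul_le_mul_of_nonneg_left h5 (by positivity)
      _ = 8 / R := by field_simp; ring

/-- L¹ convergence of mollifications -/
lemma moll_L1 {E : Set (En N)} (hE : MeasurableSet E) (hv : volume E ≠ ⊤) {ε : ℝ} (hε : 0 < ε) :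
    ∃ η : En N → ℝ, ContDiff ℝ (⊤ : ℕ∞) η ∧ HasCompactSupport η ∧ (∀ x, 0 ≤ η x) ∧
      ∫ x, η x = 1 ∧
      ContDiff ℝ (⊤ : ℕ∞) (fun x => ∫ y, η y * E.indicator (fun _ => (1:ℝ)) (x - y)) ∧
      Integrable (fun x => ∫ y, η y * E.indicator (fun _ => (1:ℝ)) (x - y)) ∧
      ∫ x, |(∫ y, η y * E.indicator (fun _ => (1:ℝ)) (x - y)) -
        E.indicator (fun _ => (1:ℝ)) x| ≤ ε := by
  set g : En N → ℝ := E.indicator (fun _ => (1:ℝ)) with hg
  have hgi : Integrable g := (integrable_indicator_iff hE).mpr (integrableOn_const hv)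
  let φ : ℕ → ContDiffBump (0 : En N) := fun j =>
    ⟨1 / ((j:ℝ) + 1) / 2, 1 / ((j:ℝ) + 1), by positivity, by
      have : (0:ℝ) < 1 / ((j:ℝ) + 1) := by positivity
      linarith⟩
  have h1 : ∀ᵐ x, Tendsto (fun j => ((φ j).normed volume ⋆[ContinuousLinearMap.lsmul ℝ ℝ,
      volume] g) x) atTop (𝓝 (g x)) := by
    apply ContDiffBump.ae_convolution_tendsto_right_of_locallyIntegrable (K := 2)
    · exact tendsto_one_div_add_atTop_nhds_zero_nat
    · apply Eventually.of_forall
      intro j
      change 1 / ((j:ℝ) + 1) ≤ 2 * (1 / ((j:ℝ) + 1) / 2)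
      linarith
    · exact hgi.locallyIntegrable
  set f : ℕ → En N → ℝ := fun j x => ∫ y, (φ j).normed volume y * g (x - y) with hf
  have hfe : ∀ j x, f j x = ((φ j).normed volume ⋆[ContinuousLinearMap.lsmul ℝ ℝ,
      volume] g) x := by
    intro j x
    rfl
  have hη0 : ∀ j x, 0 ≤ (φ j).normed volume x := fun j x => (φ j).nonneg_normed x
  have hg0 : ∀ x, 0 ≤ g x := fun x => indicator_nonneg (fun _ _ => zero_le_one) x
  have hf0 : ∀ j x, 0 ≤ f j x := fun j x => integral_nonneg fun y => mul_nonneg (hη0 j y) (hg0 _)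
  have hfi : ∀ j, Integrable (f j) := by
    intro j
    have h2 : Integrable ((φ j).normed volume : En N → ℝ) := (φ j).integrable_normed
    have := h2.integrable_convolution (ContinuousLinearMap.lsmul ℝ ℝ) hgi
    exact this
  have hfint : ∀ j, ∫ x, f j x = ∫ x, g x := by
    intro j
    have := integral_convolution (ContinuousLinearMap.lsmul ℝ ℝ) ((φ j).integrable_normed
      (μ := volume)) hgi
    rw [(φ j).integral_normed] at this
    calc ∫ x, f j x = ∫ x, ((φ j).normed volume ⋆[ContinuousLinearMap.lsmul ℝ ℝ,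
          volume] g) x := integral_congr_ae (ae_of_all _ (hfe j))
      _ = ∫ x, g x := by rw [this]; simp
  have h2 : Tendsto (fun j => ∫ x, min (f j x) (g x)) atTop (𝓝 (∫ x, g x)) := by
    apply tendsto_integral_of_dominated_convergence g
    · intro j
      exact ((hfi j).inf hgi).aestronglyMeasurable
    · exact hgi
    · intro j
      apply ae_of_all
      intro x
      rw [Real.norm_eq_abs, abs_of_nonneg (le_min (hf0 j x) (hg0 x))]
      exact min_le_right _ _
    · filter_upwards [h1] with x hx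
      have : Tendsto (fun j => min (f j x) (g x)) atTop (𝓝 (min (g x) (g x))) :=
        Tendsto.min hx tendsto_const_nhds
      rwa [min_self] at this
  have h3 : ∀ j, ∫ x, |f j x - g x| = 2 * (∫ x, g x) - 2 * ∫ x, min (f j x) (g x) := by
    intro j
    have e : ∀ x, |f j x - g x| = (f j x + g x) - 2 * min (f j x) (g x) := by
      intro x
      rcases le_total (f j x) (g x) with h | h
      · rw [min_eq_left h, abs_of_nonpos (by linarith)]; ring
      · rw [min_eq_right h, abs_of_nonneg (by linarith)]; ring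
    simp_rw [e]
    have ia : Integrable (fun x => f j x + g x) := (hfi j).add hgi
    have ib : Integrable (fun x => min (f j x) (g x)) := (hfi j).inf hgi
    rw [integral_sub ia (ib.const_mul 2), integral_add (hfi j) hgi, integral_const_mul, hfint]
    ring
  have h4 : Tendsto (fun j => ∫ x, |f j x - g x|) atTop (𝓝 0) := by
    simp_rw [h3]
    have : Tendsto (fun j => 2 * (∫ x, g x) - 2 * ∫ x, min (f j x) (g x)) atTop
        (𝓝 (2 * (∫ x, g x) - 2 * ∫ x, g x)) := tendsto_const_nhds.sub (h2.const_mul 2)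
    rwa [sub_self] at this
  obtain ⟨j, hj⟩ := (h4.eventually_lt_const hε).exists
  refine ⟨(φ j).normed volume, (φ j).contDiff_normed, (φ j).hasCompactSupport_normed, hη0 j,
    (φ j).integral_normed, ?_, hfi j, hj.le⟩
  exact (φ j).hasCompactSupport_normed.contDiff_convolution_left
    (ContinuousLinearMap.lsmul ℝ ℝ) (φ j).contDiff_normed hgi.locallyIntegrable

/-- smooth approximation of sets of finite perimeter -/
theorem per_approx {E : Set (En N)} (hE : NullMeasurableSet E) (hv : volume E ≠ ⊤) {P : ℝ}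
    (hP : 0 ≤ P) (h : perimeter E ≤ ENNReal.ofReal P) {ε : ℝ} (hε : 0 < ε) :
    ∃ ρ : En N → ℝ, ContDiff ℝ 1 ρ ∧ HasCompactSupport ρ ∧ (∀ x, 0 ≤ ρ x) ∧ (∀ x, ρ x ≤ 1) ∧
      ∫ x, |ρ x - E.indicator (fun _ => (1:ℝ)) x| ≤ ε ∧ ∫ x, ‖fderiv ℝ ρ x‖ ≤ P + ε := by
  -- reduce to a measurable set
  wlog hEm : MeasurableSet E generalizing E with H
  · obtain ⟨E', hE'm, hEE'⟩ := hE.exists_measurable_superset_ae_eq |>.imp
      fun t ht => (⟨ht.2.1, ht.2.2⟩ : MeasurableSet t ∧ t =ᵐ[volume] E)
    have hper : perimeter E' = perimeter E := by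
      unfold perimeter
      congr 1
      funext T
      simp_rw [setIntegral_congr_set hEE']
    have hv' : volume E' ≠ ⊤ := by rw [measure_congr hEE']; exact hv
    obtain ⟨ρ, r1, r2, r3, r4, r5, r6⟩ := H hE'm.nullMeasurableSet hv' (by rw [hper]; exact h) hE'm
    refine ⟨ρ, r1, r2, r3, r4, ?_, r6⟩
    have : E'.indicator (fun _ => (1:ℝ)) =ᵐ[volume] E.indicator (fun _ => (1:ℝ)) :=
      indicator_ae_eq_of_ae_eq_set hEE'
    refine le_trans (le_of_eq ?_) r5
    apply integral_congr_ae
    filter_upwards [this] with x hx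
    rw [hx]
  set g : En N → ℝ := E.indicator (fun _ => (1:ℝ)) with hg
  have hgi : Integrable g := (integrable_indicator_iff hEm).mpr (integrableOn_const hv)
  have hg0 : ∀ x, 0 ≤ g x := fun x => indicator_nonneg (fun _ _ => zero_le_one) x
  have hg1 : ∀ x, g x ≤ 1 := fun x => indicator_le' (fun _ _ => le_rfl) (fun _ _ => zero_le_one) x
  obtain ⟨η, η1, η2, η3, η4, η5, η6, η7⟩ := moll_L1 hEm hv (show 0 < ε / 2 by positivity)
  set f : En N → ℝ := fun x => ∫ y, η y * g (x - y) with hf
  have hf0 : ∀ x, 0 ≤ f x := fun x => integral_nonneg fun y => mul_nonneg (η3 y) (hg0 _)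
  have hηi : Integrable η := cc_int η1.continuous η2
  have hf1 : ∀ x, f x ≤ 1 := by
    intro x
    rw [← η4]
    apply integral_mono_of_nonneg (ae_of_all _ fun y => mul_nonneg (η3 y) (hg0 _)) hηi
    apply ae_of_all
    intro y
    exact mul_le_of_le_one_right (η3 y) (hg1 _)
  have hw : ∀ T : En N → En N, IsF T → ∫ x, f x * dvg T x ≤ P := fun T hT =>
    moll_weak hEm hP h η1.continuous η2 η3 η4 hT
  have hf2 : ContDiff ℝ 2 f := by exact_mod_cast contDiff_infty.mp η5 2
  have hfC1 : ContDiff ℝ 1 f := by exact_mod_cast contDiff_infty.mp η5 1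
  have hIf0 : 0 ≤ ∫ x, f x := integral_nonneg hf0
  -- choose the radius
  have hlim : Tendsto (fun j : ℕ => ∫ x, (1 - rad ((j:ℝ) + 1) x) * g x) atTop (𝓝 0) := by
    have h0 : (∫ x : En N, (0:ℝ)) = 0 := by simp
    rw [← h0]
    apply tendsto_integral_of_dominated_convergence g
    · intro j
      exact ((continuous_const.sub (rad_C1 _).continuous).aestronglyMeasurable).mul
        hgi.aestronglyMeasurable
    · exact hgi
    · intro j
      apply ae_of_all
      intro x
      have a1 : 0 ≤ 1 - rad ((j:ℝ) + 1) x := sub_nonneg.mpr (SS_le_one _)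
      have a2 : 1 - rad ((j:ℝ) + 1) x ≤ 1 := by
        have : 0 ≤ rad ((j:ℝ) + 1) x := SS_nonneg _
        linarith
      rw [Real.norm_eq_abs, abs_of_nonneg (mul_nonneg a1 (hg0 x))]
      exact mul_le_of_le_one_left (hg0 x) a2
    · apply ae_of_all
      intro x
      apply tendsto_const_nhds.congr'
      obtain ⟨J, hJ⟩ := exists_nat_gt ‖x‖
      filter_upwards [eventually_ge_atTop J] with j hj
      have : (J:ℝ) ≤ j := by exact_mod_cast hj
      rw [rad_one (by positivity) (by linarith), sub_self, zero_mul]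
  have hlim2 : Tendsto (fun j : ℕ => 8 / ((j:ℝ) + 1) * ∫ x, f x) atTop (𝓝 0) := by
    have h1 : Tendsto (fun j : ℕ => (8:ℝ) / ((j:ℝ) + 1)) atTop (𝓝 0) := by
      have := (tendsto_one_div_add_atTop_nhds_zero_nat (𝕜 := ℝ)).const_mul 8
      rw [mul_zero] at this
      refine this.congr fun j => ?_
      rw [mul_one_div]
    have := h1.mul_const (∫ x, f x)
    rwa [zero_mul] at this
  obtain ⟨j, hj1, hj2⟩ := ((hlim.eventually_lt_const (show 0 < ε / 2 by positivity)).and
    (hlim2.eventually_lt_const hε)).exists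
  set R : ℝ := (j:ℝ) + 1 with hRdef
  have hR : 0 < R := by positivity
  have hχ0 : ∀ x : En N, 0 ≤ rad R x := fun x => SS_nonneg _
  have hχ1 : ∀ x : En N, rad R x ≤ 1 := fun x => SS_le_one _
  have hχc : Continuous (rad R : En N → ℝ) := (rad_C1 R).continuous
  have hρC : ContDiff ℝ 1 (fun x => rad R x * f x) := (rad_C1 R).mul hfC1
  have hρS : HasCompactSupport (fun x => rad R x * f x) := (rad_cs hR).mul_right
  refine ⟨fun x => rad R x * f x, hρC, hρS, fun x => mul_nonneg (hχ0 x) (hf0 x), ?_, ?_, ?_⟩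
  · intro x
    calc rad R x * f x ≤ 1 * 1 := mul_le_mul (hχ1 x) (hf1 x) (hf0 x) zero_le_one
      _ = 1 := one_mul 1
  · have i1 : Integrable (fun x => |f x - g x|) := (η6.sub hgi).abs
    have i2 : Integrable (fun x => (1 - rad R x) * g x) := by
      refine hgi.mono' ((continuous_const.sub hχc).aestronglyMeasurable.mul
        hgi.aestronglyMeasurable) (ae_of_all _ fun x => ?_)
      have a1 : 0 ≤ 1 - rad R x := sub_nonneg.mpr (hχ1 x)
      rw [Real.norm_eq_abs, abs_of_nonneg (mul_nonneg a1 (hg0 x))]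
      exact mul_le_of_le_one_left (hg0 x) (by linarith [hχ0 x])
    have h5 : ∫ x, |rad R x * f x - g x| ≤ ∫ x, (|f x - g x| + (1 - rad R x) * g x) := by
      apply integral_mono_of_nonneg (ae_of_all _ fun x => abs_nonneg _) (i1.add i2)
      apply ae_of_all
      intro x
      change |rad R x * f x - g x| ≤ |f x - g x| + (1 - rad R x) * g x
      have e : rad R x * f x - g x = rad R x * (f x - g x) - (1 - rad R x) * g x := by ring
      rw [e]
      refine (abs_sub _ _).trans ?_
      rw [abs_mul, abs_of_nonneg (hχ0 x),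
        abs_of_nonneg (mul_nonneg (sub_nonneg.mpr (hχ1 x)) (hg0 x))]
      have := mul_le_of_le_one_left (abs_nonneg (f x - g x)) (hχ1 x)
      linarith
    rw [integral_add i1 i2] at h5
    linarith
  · have hst := strong_of_weak hf2 hw (rad_C1 R) (rad_cs hR) hχ0 hχ1
    have hfd : Continuous (fun x => ‖fderiv ℝ f x‖) := (hfC1.continuous_fderiv (by simp)).norm
    have i1 : Integrable (fun x => rad R x * ‖fderiv ℝ f x‖) := by
      apply cc_int (hχc.mul hfd)
      exact (rad_cs hR).mul_right
    have i2 : Integrable (fun x => 8 / R * f x) := η6.const_mul _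
    have h5 : ∫ x, ‖fderiv ℝ (fun x => rad R x * f x) x‖ ≤
        ∫ x, (rad R x * ‖fderiv ℝ f x‖ + 8 / R * f x) := by
      apply integral_mono (fd_int hρC hρS) (i1.add i2)
      intro x
      change ‖fderiv ℝ (fun x => rad R x * f x) x‖ ≤ rad R x * ‖fderiv ℝ f x‖ + 8 / R * f x
      have h6 : HasFDerivAt (fun x => rad R x * f x)
          (rad R x • fderiv ℝ f x + f x • fderiv ℝ (rad R) x) x :=
        (((rad_C1 R).differentiable (by simp) x).hasFDerivAt).mul
          ((hfC1.differentiable (by simp) x).hasFDerivAt)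
      rw [h6.fderiv]
      refine (norm_add_le _ _).trans ?_
      rw [norm_smul, norm_smul, Real.norm_eq_abs, Real.norm_eq_abs, abs_of_nonneg (hχ0 x),
        abs_of_nonneg (hf0 x)]
      have := mul_le_mul_of_nonneg_left (rad_fd hR x) (hf0 x)
      linarith
    rw [integral_add i1 i2, integral_const_mul] at h5
    linarith

end Pool.Agent.Helper88.Weyl
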