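import Mathlib
import Pool.Agent.Helper88.Weyl.Bulk

open MeasureTheory Set Metric Filter Topology

noncomputable section

set_option linter.unusedSectionVars false

namespace Pool.Agent.Helper88.Weyl

variable {V : Type} [NormedAddCommGroup V] [InnerProductSpace ℝ V] [FiniteDimensional ℝ V]
  [MeasurableSpace V] [BorelSpace V]

/-- an isoperimetrically optimal sequence of densities -/
structure Sq (n : ℕ) (ρ : ℕ → V → ℝ) : Prop where
  C1 : ∀ k, ContDiff ℝ 1 (ρ k)
  cs : ∀ k, HasCompactSupport (ρ k)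
  nn : ∀ k x, 0 ≤ ρ k x
  le : ∀ k x, ρ k x ≤ 1
  m : Tendsto (fun k => ∫ x, ρ k x) atTop (𝓝 (om (n + 1)))
  q : Tendsto (fun k => ∫ x, pw (n + 1) (ρ k x)) atTop (𝓝 (om (n + 1)))
  D : ∀ η > 0, ∀ᶠ k in atTop, ∫ x, ‖fderiv ℝ (ρ k) x‖ ≤ (n + 1) * om (n + 1) + η

lemma bern {N : ℕ} (hN : 1 ≤ N) {x : ℝ} (hx : 0 < x) :
    (N : ℝ) + (1 - x⁻¹) ≤ N * x ^ ((N : ℝ)⁻¹) := by
  have hN0 : (0:ℝ) < N := by exact_mod_cast hN
  have h1 := Real.one_sub_inv_le_log_of_pos hx
  have h2 := Real.add_one_le_exp (Real.log x * (N : ℝ)⁻¹)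
  rw [Real.rpow_def_of_pos hx]
  have h3 := mul_le_mul_of_nonneg_left h2 hN0.le
  have h4 : (N : ℝ) * (Real.log x * (N : ℝ)⁻¹ + 1) = Real.log x + N := by
    field_simp
  rw [h4] at h3
  linarith

lemma pw_le_self {n : ℕ} {r : ℝ} (h0 : 0 ≤ r) (h1 : r ≤ 1) : pw n r ≤ r := by
  unfold pw
  exact mul_le_of_le_one_right h0 (Real.rpow_le_one h0 h1 (by positivity))

lemma mass_lower {n : ℕ} (hV : Module.finrank ℝ V = n + 1) {ρ : ℕ → V → ℝ}
    (h : Sq n ρ) {e : V} (he : ‖e‖ = 1) {κ : ℝ} (hκ : 0 < κ) (hκ2 : κ < 1 / 2) :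
    ∀ᶠ k in atTop, ∀ t, κ * (∫ x, ρ k x) ≤ ∫ x in {x : V | inner ℝ e x ∈ Iio t}, ρ k x →
      κ * (∫ x, ρ k x) ≤ ∫ x in {x : V | inner ℝ e x ∈ Ioi t}, ρ k x →
      κ * om (n + 1) / 8 ≤ marg e (ρ k) t := by
  set ω := om (n + 1) with hω
  have hω0 : 0 < ω := om_pos _
  have e1 : ∀ᶠ k in atTop, (1 - κ) * ∫ x, ρ k x < (1 - κ / 2) * ω :=
    (h.m.const_mul (1 - κ)).eventually_lt_const (by nlinarith)
  have e2 := h.D (κ * ω / 16) (by positivity)
  have e3 : ∀ᶠ k in atTop, ((n + 1 : ℕ) + κ / 2) * ω - κ * ω / 8 <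
      ((n + 1 : ℕ) + κ / 2) * ((∫ x, ρ k x) - 2 * ((∫ x, ρ k x) -
        ∫ x, pw (n + 1) (ρ k x))) := by
    have : Tendsto (fun k => ((n + 1 : ℕ) + κ / 2) * ((∫ x, ρ k x) - 2 * ((∫ x, ρ k x) -
        ∫ x, pw (n + 1) (ρ k x)))) atTop (𝓝 (((n + 1 : ℕ) + κ / 2) * (ω - 2 * (ω - ω)))) :=
      (h.m.sub ((h.m.sub h.q).const_mul 2)).const_mul _
    rw [sub_self, mul_zero, sub_zero] at this
    apply this.eventually_const_lt
    have : 0 < κ * ω := by positivity
    linarith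
  have e4 : ∀ᶠ k in atTop, 0 < ∫ x, ρ k x := h.m.eventually_const_lt hω0
  filter_upwards [e1, e2, e3, e4] with k f1 f2 f3 f4
  intro t ht1 ht2
  set m := ∫ x, ρ k x with hm
  have hρi : Integrable (ρ k) := cc_int (h.C1 k).continuous (h.cs k)
  have hpi : Integrable (fun x => pw (n + 1) (ρ k x)) := pw_int (h.C1 k).continuous (h.cs k)
  obtain ⟨R, hR0, hR, hR'⟩ := exists_R (h.cs k)
  have hsum : (∫ x in {x : V | inner ℝ e x ∈ Iio t}, ρ k x) +
      ∫ x in {x : V | inner ℝ e x ∈ Ioi t}, ρ k x = m := by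
    rw [left_mass he hρi hR, right_mass he hρi hR]
    ring
  set m1 := ∫ x in {x : V | inner ℝ e x ∈ Iio t}, ρ k x with hm1
  set m2 := ∫ x in {x : V | inner ℝ e x ∈ Ioi t}, ρ k x with hm2
  have hκm : 0 < κ * m := by positivity
  have hm1p : 0 < m1 := by linarith
  have hm2p : 0 < m2 := by linarith
  have hcut := cut (n := n + 1) (by omega) hV he (h.C1 k) (h.cs k) (h.nn k) t hm1 hm1p hm2 hm2p
  have hp : ∀ S : Set ℝ, MeasurableSet S → 0 ≤ (∫ x in {x : V | inner ℝ e x ∈ S},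
      pw (n + 1) (ρ k x)) ∧ (∫ x in {x : V | inner ℝ e x ∈ S}, ρ k x) - (m -
      ∫ x, pw (n + 1) (ρ k x)) ≤ ∫ x in {x : V | inner ℝ e x ∈ S}, pw (n + 1) (ρ k x) := by
    intro S hS
    constructor
    · exact integral_nonneg fun x => pw_nonneg _ (h.nn k x)
    · have i1 : Integrable (fun x => ρ k x - pw (n + 1) (ρ k x)) := hρi.sub hpi
      have := setIntegral_le_integral (s := {x : V | inner ℝ e x ∈ S}) i1
        (ae_of_all _ fun x => sub_nonneg.mpr (pw_le_self (h.nn k x) (h.le k x)))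
      rw [integral_sub hρi.integrableOn hpi.integrableOn, integral_sub hρi hpi] at this
      linarith
  obtain ⟨p10, p11⟩ := hp _ measurableSet_Iio
  obtain ⟨p20, p21⟩ := hp _ measurableSet_Ioi
  rw [← hm1] at p11
  rw [← hm2] at p21
  set p1 := ∫ x in {x : V | inner ℝ e x ∈ Iio t}, pw (n + 1) (ρ k x)
  set p2 := ∫ x in {x : V | inner ℝ e x ∈ Ioi t}, pw (n + 1) (ρ k x)
  have key : ∀ mi, 0 < mi → mi ≤ (1 - κ) * m → ((n + 1 : ℕ) : ℝ) + κ / 2 ≤
      ((n + 1 : ℕ) : ℝ) * (ω / mi) ^ (((n + 1 : ℕ) : ℝ)⁻¹) := by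
    intro mi hmi hmi2
    refine le_trans ?_ (bern (by omega) (by positivity))
    have : (ω / mi)⁻¹ ≤ 1 - κ / 2 := by
      rw [inv_div, div_le_iff₀ hω0]
      linarith
    linarith
  have k1 := mul_le_mul_of_nonneg_right (key m1 hm1p (by linarith)) p10
  have k2 := mul_le_mul_of_nonneg_right (key m2 hm2p (by linarith)) p20
  have hNκ : (0:ℝ) ≤ ((n + 1 : ℕ) : ℝ) + κ / 2 := by positivity
  have k3 := mul_le_mul_of_nonneg_left p11 hNκ
  have k4 := mul_le_mul_of_nonneg_left p21 hNκ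
  have k5 : (((n + 1 : ℕ) : ℝ) + κ / 2) * (m1 - (m - ∫ x, pw (n + 1) (ρ k x))) +
      (((n + 1 : ℕ) : ℝ) + κ / 2) * (m2 - (m - ∫ x, pw (n + 1) (ρ k x))) =
      (((n + 1 : ℕ) : ℝ) + κ / 2) * (m - 2 * (m - ∫ x, pw (n + 1) (ρ k x))) := by
    rw [← hsum]
    ring
  have k6 : (((n + 1 : ℕ) : ℝ)) = n + 1 := by push_cast; ring
  have hκω : 0 < κ * ω := by positivity
  have f2' : ∫ x, ‖fderiv ℝ (ρ k) x‖ ≤ ((n + 1 : ℕ) : ℝ) * ω + κ * ω / 16 := by
    rw [k6]
    exact f2
  rw [← hω] at hcut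
  linarith

lemma bulk_seq {n : ℕ} (hn : 1 ≤ n) (hV : Module.finrank ℝ V = n + 1) {ρ : ℕ → V → ℝ}
    (h : Sq n ρ) {e : V} (he : ‖e‖ = 1) {κ : ℝ} (hκ : 0 < κ) (hκ2 : κ < 1 / 2) {δ : ℝ}
    (hδ : 0 < δ) :
    ∀ᶠ k in atTop, ∃ (c0 t1 t2 : ℝ) (T : ℝ → ℝ), Continuous T ∧ (∀ t, |T t| ≤ 1) ∧
      (∀ t ∈ Icc t1 t2, |T t - (t - c0)| ≤ δ) ∧
      ∫ x in {x : V | inner ℝ e x ∈ (Icc t1 t2)ᶜ}, ρ k x ≤ 2 * κ * ∫ x, ρ k x ∧
      ∫ x, ρ k x * T (inner ℝ e x) = 0 := by
  set ω := om (n + 1) with hω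
  have hω0 : 0 < ω := om_pos _
  set cc := κ * ω / 8 with hcc
  have hcc0 : 0 < cc := by positivity
  set s := δ / (4 + 4 * (ω / cc)) with hs
  have hs0 : 0 < s := by positivity
  set a : ℝ := (((n + 1 : ℕ) : ℝ)⁻¹) with ha
  set c : ℕ → ℝ := fun k => (1 - 2 * (1 / ((k:ℝ) + 3))) * om (n + 1) / ∫ x, ρ k x with hc
  have hcl : Tendsto c atTop (𝓝 1) := by
    have h1 : Tendsto (fun k : ℕ => (1:ℝ) / ((k:ℝ) + 3)) atTop (𝓝 0) := by
      have := tendsto_one_div_add_atTop_nhds_zero_nat (𝕜 := ℝ)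
      have h2 := this.comp (tendsto_add_atTop_nat 2)
      refine h2.congr fun k => ?_
      simp only [Function.comp]
      push_cast
      ring_nf
    have h2 : Tendsto c atTop (𝓝 ((1 - 2 * 0) * om (n + 1) / om (n + 1))) :=
      ((tendsto_const_nhds.sub (h1.const_mul 2)).mul_const _).div h.m (om_pos _).ne'
    rw [mul_zero, sub_zero, one_mul, div_self (om_pos _).ne'] at h2
    exact h2
  have hcal : Tendsto (fun k => c k ^ a) atTop (𝓝 1) := by
    have := ((rc (n + 1)).tendsto 1).comp hcl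
    simp only [Real.one_rpow] at this
    exact this
  set W : ℕ → ℝ := fun k => 2 * ((∫ x, ‖fderiv ℝ (ρ k) x‖) - (n + 1) * c k ^ a *
    ∫ x, pw (n + 1) (ρ k x)) + 2 * (|c k ^ a - 1| * (∫ x, ρ k x) + ((∫ x, ρ k x) -
    ∫ x, pw (n + 1) (ρ k x))) with hW
  have hWl : ∀ η > 0, ∀ᶠ k in atTop, W k ≤ η := by
    intro η hη
    have w1 := h.D (η / 4) (by positivity)
    have w2 : Tendsto (fun k => 2 * ((n + 1) * om (n + 1) - (n + 1) * c k ^ a *
      ∫ x, pw (n + 1) (ρ k x)) + 2 * (|c k ^ a - 1| * (∫ x, ρ k x) + ((∫ x, ρ k x) -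
      ∫ x, pw (n + 1) (ρ k x)))) atTop (𝓝 (2 * ((n + 1) * om (n + 1) - (n + 1) * 1 *
      om (n + 1)) + 2 * (|1 - 1| * om (n + 1) + (om (n + 1) - om (n + 1))))) := by
      apply Tendsto.add
      · exact (tendsto_const_nhds.sub ((hcal.const_mul _).mul h.q)).const_mul 2
      · exact ((((hcal.sub_const 1).abs).mul h.m).add (h.m.sub h.q)).const_mul 2
    have w3 : 2 * (((n:ℝ) + 1) * om (n + 1) - (n + 1) * 1 *
      om (n + 1)) + 2 * (|1 - 1| * om (n + 1) + (om (n + 1) - om (n + 1))) = 0 := by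
      simp
    rw [w3] at w2
    have w4 := w2.eventually_lt_const (show 0 < η / 4 by positivity)
    filter_upwards [w1, w4] with k g1 g2
    simp only [hW]
    linarith
  have e1 := mass_lower hV h he hκ hκ2
  have e2 := hWl (δ * s * cc) (by positivity)
  have e3 : ∀ᶠ k in atTop, ∫ x, ρ k x < 2 * ω := h.m.eventually_lt_const (by linarith)
  have e4 : ∀ᶠ k in atTop, 0 < ∫ x, ρ k x := h.m.eventually_const_lt hω0
  filter_upwards [e1, e2, e3, e4] with k f1 f2 f3 f4
  have hk3 : (0:ℝ) < (k:ℝ) + 3 := by positivity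
  obtain ⟨c0, t1, t2, T, g1, g2, g3, g4, g5⟩ := bulk1 hn hV he (h.C1 k) (h.cs k) (h.nn k)
    (h.le k) rfl f4 (ε := 1 / ((k:ℝ) + 3)) (by positivity)
    (by rw [div_lt_div_iff₀ hk3 (by norm_num)]; linarith [(Nat.cast_nonneg k : (0:ℝ) ≤ k)])
    hκ hκ2 hcc0 f1 ha (show c k = _ from rfl) (show W k = _ from rfl) hs0
  refine ⟨c0, t1, t2, T, g1, g2, fun t ht => (g3 t ht).trans ?_, g4, g5⟩
  have u1 : W k / (2 * s * cc) ≤ δ / 2 := by
    rw [div_le_iff₀ (by positivity)]
    linarith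
  have u2 : s / 2 * (4 + 2 * ((∫ x, ρ k x) / cc)) ≤ δ / 2 := by
    have : (∫ x, ρ k x) / cc ≤ 2 * (ω / cc) := by
      rw [← mul_div_assoc]
      exact div_le_div_of_nonneg_right f3.le hcc0.le
    calc s / 2 * (4 + 2 * ((∫ x, ρ k x) / cc)) ≤ s / 2 * (4 + 4 * (ω / cc)) := by
          apply mul_le_mul_of_nonneg_left _ (by positivity)
          linarith
      _ = δ / 2 := by
          rw [hs]
          field_simp
  linarith

lemma exists_net {δ : ℝ} (hδ : 0 < δ) : ∃ E : Finset V, (∀ e ∈ E, ‖e‖ = 1) ∧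
    ∀ u : V, ‖u‖ = 1 → ∃ e ∈ E, ‖u - e‖ ≤ δ := by
  obtain ⟨t, ht, htf, htc⟩ := (isCompact_sphere (0 : V) 1).finite_cover_balls hδ
  refine ⟨htf.toFinset, ?_, ?_⟩
  · intro e he
    rw [Finite.mem_toFinset] at he
    exact mem_sphere_zero_iff_norm.mp (ht he)
  · intro u hu
    have := htc (mem_sphere_zero_iff_norm.mpr hu)
    simp only [mem_iUnion, mem_ball] at this
    obtain ⟨e, he, hd⟩ := this
    refine ⟨e, by rwa [Finite.mem_toFinset], ?_⟩
    rw [← dist_eq_norm]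
    exact hd.le

theorem stab {n : ℕ} (hn : 1 ≤ n) (hV : Module.finrank ℝ V = n + 1) {ρ : ℕ → V → ℝ}
    (h : Sq n ρ) {δ : ℝ} (hδ : 0 < δ) :
    ∀ᶠ k in atTop, ∃ v : V, ∫ x in {x : V | 1 + δ < ‖x - v‖}, ρ k x ≤ δ := by
  set ω := om (n + 1) with hω
  have hω0 : 0 < ω := om_pos _
  set d := min δ 1 / 8 with hd
  have hd0 : 0 < d := by positivity
  have hd8 : 8 * d ≤ δ := by rw [hd]; linarith [min_le_left δ 1]
  have hd1 : d ≤ 1 / 8 := by rw [hd]; linarith [min_le_right δ 1]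
  obtain ⟨E, hE1, hE2⟩ := exists_net (V := V) hd0
  set M : ℝ := (E.card : ℝ) + 1 with hM
  have hM0 : 0 < M := by positivity
  set κ := min (1 / 4) (min (d / (4 * M)) (δ / (4 * M * ω))) with hκ
  have hκ0 : 0 < κ := by positivity
  have hκ1 : κ ≤ 1 / 4 := min_le_left _ _
  have hκ2 : 4 * M * κ ≤ d := by
    have : κ ≤ d / (4 * M) := (min_le_right _ _).trans (min_le_left _ _)
    rw [le_div_iff₀ (by positivity)] at this
    linarith
  have hκ3 : 4 * M * ω * κ ≤ δ := by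
    have : κ ≤ δ / (4 * M * ω) := (min_le_right _ _).trans (min_le_right _ _)
    rw [le_div_iff₀ (by positivity)] at this
    linarith
  have e1 : ∀ᶠ k in atTop, ∀ e ∈ E, ∃ (c0 t1 t2 : ℝ) (T : ℝ → ℝ), Continuous T ∧
      (∀ t, |T t| ≤ 1) ∧ (∀ t ∈ Icc t1 t2, |T t - (t - c0)| ≤ d) ∧
      ∫ x in {x : V | inner ℝ e x ∈ (Icc t1 t2)ᶜ}, ρ k x ≤ 2 * κ * ∫ x, ρ k x ∧
      ∫ x, ρ k x * T (inner ℝ e x) = 0 := by
    rw [Filter.eventually_all_finset]
    intro e he
    exact bulk_seq hn hV h (hE1 e he) hκ0 (by linarith) hd0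
  have e3 : ∀ᶠ k in atTop, ∫ x, ρ k x < 2 * ω := h.m.eventually_lt_const (by linarith)
  have e4 : ∀ᶠ k in atTop, 0 < ∫ x, ρ k x := h.m.eventually_const_lt hω0
  filter_upwards [e1, e3, e4] with k f1 f3 f4
  choose! c0 t1 t2 T g1 g2 g3 g4 g5 using f1
  set m := ∫ x, ρ k x with hm
  have hρc := (h.C1 k).continuous
  have hρi : Integrable (ρ k) := cc_int hρc (h.cs k)
  have hic : ∀ e : V, Continuous (fun x : V => inner ℝ e x) := fun e => by fun_prop
  set G : Set V := {x | ∀ e ∈ E, inner ℝ e x ∈ Icc (t1 e) (t2 e)} with hG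
  have hGm : MeasurableSet G := by
    have : G = ⋂ e ∈ E, {x : V | inner ℝ e x ∈ Icc (t1 e) (t2 e)} := by
      ext x
      simp [hG]
    rw [this]
    exact Finset.measurableSet_biInter _ fun e _ => (hic e).measurable measurableSet_Icc
  have hGc : ∫ x in Gᶜ, ρ k x ≤ 2 * κ * m * M := by
    have hS : ∀ e : V, MeasurableSet {x : V | inner ℝ e x ∈ (Icc (t1 e) (t2 e))ᶜ} :=
      fun e => (hic e).measurable measurableSet_Icc.compl
    calc ∫ x in Gᶜ, ρ k x = ∫ x, Gᶜ.indicator (ρ k) x := (integral_indicator hGm.compl).symm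
      _ ≤ ∫ x, ∑ e ∈ E, {x : V | inner ℝ e x ∈ (Icc (t1 e) (t2 e))ᶜ}.indicator (ρ k) x := by
          apply integral_mono (hρi.indicator hGm.compl)
          · exact integrable_finsetSum _ fun e _ => hρi.indicator (hS e)
          · intro x
            by_cases hx : x ∈ G
            · have : Gᶜ.indicator (ρ k) x = 0 := indicator_of_notMem (by simpa using hx) _
              rw [this]
              apply Finset.sum_nonneg
              intro e _
              exact indicator_nonneg (fun x _ => h.nn k x) x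
            · rw [indicator_of_mem (show x ∈ Gᶜ from hx)]
              simp only [hG, mem_ofPred_eq, not_forall] at hx
              obtain ⟨e, he, hx⟩ := hx
              have h2 := Finset.single_le_sum (f := fun e =>
                {x : V | inner ℝ e x ∈ (Icc (t1 e) (t2 e))ᶜ}.indicator (ρ k) x)
                (fun e _ => indicator_nonneg (fun x _ => h.nn k x) x) he
              rw [indicator_of_mem (show x ∈ {x : V | inner ℝ e x ∈ (Icc (t1 e) (t2 e))ᶜ} from
                hx)] at h2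
              exact h2
      _ = ∑ e ∈ E, ∫ x in {x : V | inner ℝ e x ∈ (Icc (t1 e) (t2 e))ᶜ}, ρ k x := by
          rw [integral_finsetSum _ fun e _ => hρi.indicator (hS e)]
          exact Finset.sum_congr rfl fun e _ => integral_indicator (hS e)
      _ ≤ ∑ e ∈ E, 2 * κ * m := Finset.sum_le_sum fun e he => g4 e he
      _ = 2 * κ * m * E.card := by rw [Finset.sum_const, nsmul_eq_mul]; ring
      _ ≤ 2 * κ * m * M := by
          apply mul_le_mul_of_nonneg_left _ (by positivity)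
          rw [hM]
          linarith
  have hGs : (∫ x in G, ρ k x) + ∫ x in Gᶜ, ρ k x = m := integral_add_compl hGm hρi
  set μ := ∫ x in G, ρ k x with hμ
  have hκM : 2 * κ * m * M ≤ m / 2 := by
    have : 2 * κ * M ≤ 1 / 2 := by linarith
    nlinarith
  have hμ2 : m ≤ 2 * μ := by linarith
  have hμ0 : 0 < μ := by linarith
  have hxi : Integrable (fun x => ρ k x • x) := by
    apply Continuous.integrable_of_hasCompactSupport
    · fun_prop
    · exact (h.cs k).smul_right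
  set v : V := μ⁻¹ • ∫ x in G, ρ k x • x with hv
  have hve : ∀ e ∈ E, |inner ℝ e v - c0 e| ≤ 2 * d := by
    intro e he
    have i1 : Integrable (fun x => ρ k x * inner ℝ e x) := by
      apply cc_int
      · fun_prop
      · exact (h.cs k).mul_right
    have hgT := g1 e he
    have i2 : Integrable (fun x => ρ k x * T e (inner ℝ e x)) := by
      apply cc_int
      · fun_prop
      · exact (h.cs k).mul_right
    have s1 : inner ℝ e v = μ⁻¹ * ∫ x in G, ρ k x * inner ℝ e x := by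
      rw [hv, inner_smul_right, ← integral_inner hxi.integrableOn]
      congr 2
      funext x
      rw [inner_smul_right]
    have s2 : inner ℝ e v - c0 e = μ⁻¹ * ((∫ x in G, ρ k x * T e (inner ℝ e x)) -
        ∫ x in G, ρ k x * (T e (inner ℝ e x) - (inner ℝ e x - c0 e))) := by
      have i3 : Integrable (fun x => ρ k x * (T e (inner ℝ e x) - (inner ℝ e x - c0 e))) := by
        apply cc_int
        · fun_prop
        · exact (h.cs k).mul_right
      rw [← integral_sub i2.integrableOn i3.integrableOn]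
      have : ∀ x, ρ k x * T e (inner ℝ e x) - ρ k x * (T e (inner ℝ e x) -
          (inner ℝ e x - c0 e)) = ρ k x * inner ℝ e x - ρ k x * c0 e := by
        intro x
        ring
      simp_rw [this]
      rw [integral_sub i1.integrableOn (hρi.mul_const _).integrableOn, integral_mul_const,
        ← hμ, s1]
      field_simp
    have s3 : |∫ x in G, ρ k x * T e (inner ℝ e x)| ≤ 2 * κ * m * M := by
      have h1 := integral_add_compl hGm i2
      rw [g5 e he] at h1
      have h2 : |∫ x in Gᶜ, ρ k x * T e (inner ℝ e x)| ≤ ∫ x in Gᶜ, ρ k x := by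
        refine (abs_integral_le_integral_abs).trans ?_
        apply integral_mono i2.integrableOn.abs hρi.integrableOn
        intro x
        change |ρ k x * T e (inner ℝ e x)| ≤ ρ k x
        rw [abs_mul, abs_of_nonneg (h.nn k x)]
        exact mul_le_of_le_one_right (h.nn k x) (g2 e he _)
      have h3 : ∫ x in G, ρ k x * T e (inner ℝ e x) = -∫ x in Gᶜ, ρ k x * T e (inner ℝ e x) := by
        linarith
      rw [h3, abs_neg]
      exact h2.trans hGc
    have s4 : |∫ x in G, ρ k x * (T e (inner ℝ e x) - (inner ℝ e x - c0 e))| ≤ d * μ := by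
      refine (abs_integral_le_integral_abs).trans ?_
      rw [hμ, ← integral_const_mul]
      have i3 : Integrable (fun x => ρ k x * (T e (inner ℝ e x) - (inner ℝ e x - c0 e))) := by
        apply cc_int
        · fun_prop
        · exact (h.cs k).mul_right
      apply setIntegral_mono_on i3.integrableOn.abs (hρi.const_mul _).integrableOn hGm
      intro x hx
      rw [abs_mul, abs_of_nonneg (h.nn k x), mul_comm]
      exact mul_le_mul_of_nonneg_right (g3 e he _ (hx e he)) (h.nn k x)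
    rw [s2, abs_mul, abs_of_pos (inv_pos.mpr hμ0), inv_mul_le_iff₀ hμ0]
    refine (abs_sub _ _).trans ?_
    have : 2 * κ * m * M ≤ d * μ := by
      have h5 : 2 * κ * M * m ≤ 2 * κ * M * (2 * μ) :=
        mul_le_mul_of_nonneg_left hμ2 (by positivity)
      nlinarith
    linarith
  have hsub : {x : V | 1 + δ < ‖x - v‖} ⊆ Gᶜ := by
    intro x hx hxG
    have hx : 1 + δ < ‖x - v‖ := hx
    have hu0 : 0 < ‖x - v‖ := by linarith
    obtain ⟨e, he, hue⟩ := hE2 (‖x - v‖⁻¹ • (x - v)) (by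
      rw [norm_smul, norm_inv, norm_norm, inv_mul_cancel₀ hu0.ne'])
    have h1 := g3 e he _ (hxG e he)
    have h2 := g2 e he (inner ℝ e x)
    have h3 := hve e he
    have h4 : inner ℝ e (x - v) ≤ 1 + 3 * d := by
      rw [inner_sub_right]
      rw [abs_le] at h1 h2 h3
      linarith [h1.1, h2.2, h3.1]
    have h5 : (1 - d) * ‖x - v‖ ≤ inner ℝ e (x - v) := by
      set u := ‖x - v‖⁻¹ • (x - v) with hu
      have hxv : x - v = ‖x - v‖ • u := by
        rw [hu, smul_smul, mul_inv_cancel₀ hu0.ne', one_smul]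
      have hun : ‖u‖ = 1 := by
        rw [hu, norm_smul, norm_inv, norm_norm, inv_mul_cancel₀ hu0.ne']
      have h6 : 1 - d ≤ inner ℝ e u := by
        have h7 : inner ℝ e u = inner ℝ u u - inner ℝ (u - e) u := by
          rw [inner_sub_left]
          ring
        have h8 := real_inner_le_norm (u - e) u
        rw [hun, mul_one] at h8
        rw [h7, real_inner_self_eq_norm_sq, hun]
        linarith
      calc (1 - d) * ‖x - v‖ ≤ inner ℝ e u * ‖x - v‖ :=
            mul_le_mul_of_nonneg_right h6 hu0.le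
        _ = inner ℝ e (x - v) := by
            conv_rhs => rw [hxv, inner_smul_right]
            ring
    nlinarith
  refine ⟨v, le_trans (setIntegral_mono_set hρi.integrableOn (ae_of_all _ fun x => h.nn k x)
    (ae_of_all _ hsub)) (hGc.trans ?_)⟩
  have h6 : 2 * κ * M * m ≤ 2 * κ * M * (2 * ω) :=
    mul_le_mul_of_nonneg_left f3.le (by positivity)
  linarith

end Pool.Agent.Helper88.Weyl
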