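import Mathlib
import Pool.Agent.Helper88.Weyl.Per
import Pool.Agent.Helper88.Weyl.Stab

open MeasureTheory Set Metric Filter Topology
open scoped ENNReal NNReal

noncomputable section

set_option linter.unusedSectionVars false

namespace Pool.Agent.Helper88.Weyl

variable {n : ℕ}

lemma pw_close {N : ℕ} (hN : 1 ≤ N) {r g : ℝ} (h0 : 0 ≤ r) (h1 : r ≤ 1)
    (hg : g = 0 ∨ g = 1) : |pw N r - g| ≤ 2 * |r - g| := by
  rcases hg with rfl | rfl
  · rw [sub_zero, sub_zero, abs_of_nonneg (pw_nonneg N h0), abs_of_nonneg h0]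
    linarith [pw_le_self (n := N) h0 h1]
  · rw [abs_of_nonpos (by linarith [pw_le_self (n := N) h0 h1]), abs_of_nonpos (by linarith)]
    have h2 : r ≤ r ^ ((N : ℝ)⁻¹) := by
      have hN' : ((N : ℝ)⁻¹) ≤ 1 := by
        apply inv_le_one_of_one_le₀
        exact_mod_cast hN
      rcases h0.eq_or_lt with h | h
      · rw [← h]
        positivity
      · calc r = r ^ (1:ℝ) := (Real.rpow_one r).symm
          _ ≤ r ^ ((N : ℝ)⁻¹) := Real.rpow_le_rpow_of_exponent_ge h h1 hN'
    have h3 : r * r ≤ pw N r := mul_le_mul_of_nonneg_left h2 h0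
    nlinarith

lemma ind01 (E : Set (En n)) (x : En n) :
    E.indicator (fun _ => (1:ℝ)) x = 0 ∨ E.indicator (fun _ => (1:ℝ)) x = 1 := by
  by_cases hx : x ∈ E
  · right; rw [indicator_of_mem hx]
  · left; rw [indicator_of_notMem hx]

lemma ind_int {E : Set (En n)} (hE : NullMeasurableSet E) (hv : volume E ≠ ⊤) :
    Integrable (E.indicator (fun _ => (1:ℝ))) :=
  (integrableOn_const hv).integrable_indicator₀ hE

lemma ind_integral {E : Set (En n)} (hE : NullMeasurableSet E) :
    ∫ x, E.indicator (fun _ => (1:ℝ)) x = volume.real E := by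
  rw [integral_indicator₀ hE, setIntegral_const, smul_eq_mul, mul_one]

/-- mass and `pw`-mass of the approximations -/
lemma approx_mass {N : ℕ} (hN : 1 ≤ N) {E : Set (En N)} (hE : NullMeasurableSet E)
    (hv : volume E ≠ ⊤) {ρ : En N → ℝ} (h1 : ContDiff ℝ 1 ρ) (h2 : HasCompactSupport ρ)
    (h3 : ∀ x, 0 ≤ ρ x) (h4 : ∀ x, ρ x ≤ 1) {ε : ℝ}
    (h5 : ∫ x, |ρ x - E.indicator (fun _ => (1:ℝ)) x| ≤ ε) :
    |(∫ x, ρ x) - volume.real E| ≤ ε ∧ |(∫ x, pw N (ρ x)) - volume.real E| ≤ 2 * ε := by
  have hi := ind_int hE hv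
  have hρ : Integrable ρ := cc_int h1.continuous h2
  have hp : Integrable (fun x => pw N (ρ x)) := pw_int h1.continuous h2
  have ha : Integrable (fun x => |ρ x - E.indicator (fun _ => (1:ℝ)) x|) := (hρ.sub hi).abs
  constructor
  · rw [← ind_integral hE, ← integral_sub hρ hi]
    exact (abs_integral_le_integral_abs).trans h5
  · rw [← ind_integral hE, ← integral_sub hp hi]
    refine (abs_integral_le_integral_abs).trans ?_
    have : ∫ x, |pw N (ρ x) - E.indicator (fun _ => (1:ℝ)) x| ≤
        ∫ x, 2 * |ρ x - E.indicator (fun _ => (1:ℝ)) x| :=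
      integral_mono (hp.sub hi).abs (ha.const_mul 2) fun x =>
        pw_close hN (h3 x) (h4 x) (ind01 E x)
    rw [integral_const_mul] at this
    linarith

/-- isoperimetric inequality for sets, in the form used here -/
theorem isoper {N : ℕ} (hN : 1 ≤ N) {E : Set (En N)} (hE : NullMeasurableSet E)
    (hv : volume E ≠ ⊤) {P : ℝ} (hP : 0 ≤ P) (h : perimeter E ≤ ENNReal.ofReal P)
    (hpos : 0 < volume.real E) :
    N * (om N / volume.real E) ^ ((N : ℝ)⁻¹) * volume.real E ≤ P := by
  have h1 : ∀ j : ℕ, ∃ ρ : En N → ℝ, ContDiff ℝ 1 ρ ∧ HasCompactSupport ρ ∧ (∀ x, 0 ≤ ρ x) ∧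
      (∀ x, ρ x ≤ 1) ∧ ∫ x, |ρ x - E.indicator (fun _ => (1:ℝ)) x| ≤ 1 / ((j:ℝ) + 1) ∧
      ∫ x, ‖fderiv ℝ ρ x‖ ≤ P + 1 / ((j:ℝ) + 1) := fun j => per_approx hE hv hP h (by positivity)
  choose ρ r1 r2 r3 r4 r5 r6 using h1
  have hz : Tendsto (fun j : ℕ => 1 / ((j:ℝ) + 1)) atTop (𝓝 0) :=
    tendsto_one_div_add_atTop_nhds_zero_nat
  have hm : Tendsto (fun j => ∫ x, ρ j x) atTop (𝓝 (volume.real E)) := by
    rw [tendsto_iff_dist_tendsto_zero]
    refine squeeze_zero (fun _ => dist_nonneg) (fun j => ?_) hz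
    rw [Real.dist_eq]
    exact (approx_mass hN hE hv (r1 j) (r2 j) (r3 j) (r4 j) (r5 j)).1
  have hq : Tendsto (fun j => ∫ x, pw N (ρ j x)) atTop (𝓝 (volume.real E)) := by
    rw [tendsto_iff_dist_tendsto_zero]
    have hz2 := hz.const_mul 2
    rw [mul_zero] at hz2
    refine squeeze_zero (fun _ => dist_nonneg) (fun j => ?_) hz2
    rw [Real.dist_eq]
    exact (approx_mass hN hE hv (r1 j) (r2 j) (r3 j) (r4 j) (r5 j)).2
  have hst := fun j => star N hN (En N) finrank_euclideanSpace_fin (ρ j) (r1 j) (r2 j) (r3 j)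
  have hl : Tendsto (fun j => N * (om N / ∫ x, ρ j x) ^ ((N : ℝ)⁻¹) * ∫ x, pw N (ρ j x)) atTop
      (𝓝 (N * (om N / volume.real E) ^ ((N : ℝ)⁻¹) * volume.real E)) := by
    refine Tendsto.mul (Tendsto.mul tendsto_const_nhds ?_) hq
    exact ((rc N).tendsto _).comp (tendsto_const_nhds.div hm hpos.ne')
  have hr : Tendsto (fun j : ℕ => P + 1 / ((j:ℝ) + 1)) atTop (𝓝 (P + 0)) :=
    tendsto_const_nhds.add hz
  rw [add_zero] at hr
  exact le_of_tendsto_of_tendsto' hl hr fun j => (hst j).trans (r6 j)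

/-- the isoperimetric inequality, volume form -/
theorem isoper_vol {n : ℕ} {E : Set (En (n + 1))} (hE : NullMeasurableSet E)
    (hn : 1 ≤ n) (hv : volume E ≠ ⊤) {R : ℝ} (hR : 0 < R)
    (h : perimeter E ≤ ENNReal.ofReal ((n + 1) * om (n + 1) * R ^ n)) :
    volume.real E ≤ om (n + 1) * R ^ (n + 1) := by
  have hom := om_pos (n + 1)
  rcases (measureReal_nonneg (μ := volume) (s := E)).eq_or_lt with h0 | h0
  · rw [← h0]
    positivity
  have h1 := isoper (by omega) hE hv (by positivity) h h0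
  set m := volume.real E with hm
  by_contra hcon
  push Not at hcon
  -- let `q = (om/m)^{1/(n+1)}`, so `q^(n+1) = om/m < 1/R^(n+1)`
  set q := (om (n + 1) / m) ^ (((n + 1 : ℕ) : ℝ)⁻¹) with hq
  have hq0 : 0 < q := by positivity
  have hqp : q ^ (n + 1) = om (n + 1) / m :=
    Real.rpow_inv_natCast_pow (by positivity) (by omega)
  have h2 : q * m ≤ om (n + 1) * R ^ n := by
    have h3 : ((n + 1 : ℕ) : ℝ) * q * m ≤ ((n + 1 : ℕ) : ℝ) * (om (n + 1) * R ^ n) := by
      refine h1.trans (le_of_eq ?_)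
      push_cast
      ring
    rw [mul_assoc] at h3
    exact le_of_mul_le_mul_left h3 (by positivity)
  have h4 : m * q ^ (n + 1) = om (n + 1) := by
    rw [hqp]
    field_simp
  -- q m ≤ m q^{n+1} R^n gives 1 ≤ (qR)^n
  have h5 : 1 ≤ (q * R) ^ n := by
    have : q * m ≤ q * m * (q * R) ^ n := by
      calc q * m ≤ om (n + 1) * R ^ n := h2
        _ = q * m * (q * R) ^ n := by rw [← h4, mul_pow]; ring
    have hqm : 0 < q * m := by positivity
    by_contra hlt
    push Not at hlt
    nlinarith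
  have h6 : 1 ≤ q * R := by
    by_contra hlt
    push Not at hlt
    have := pow_lt_one₀ (by positivity : 0 ≤ q * R) hlt (by omega : n ≠ 0)
    linarith
  have h7 : 1 ≤ (q * R) ^ (n + 1) := one_le_pow₀ h6
  rw [mul_pow, hqp] at h7
  have h8 : m ≤ om (n + 1) * R ^ (n + 1) := by
    have := mul_le_mul_of_nonneg_left h7 h0.le
    rw [mul_one] at this
    calc m ≤ m * (om (n + 1) / m * R ^ (n + 1)) := this
      _ = om (n + 1) * R ^ (n + 1) := by field_simp
  linarith

lemma symm_real {E B : Set (En n)} (hE : NullMeasurableSet E) (hB : MeasurableSet B)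
    (hvE : volume E ≠ ⊤) (hvB : volume B ≠ ⊤) :
    volume.real (symmDiff E B) = volume.real B - volume.real E + 2 * volume.real (E \ B) := by
  have hD : NullMeasurableSet (E \ B) := hE.diff hB.nullMeasurableSet
  have hS : NullMeasurableSet (symmDiff E B) := by
    rw [Set.symmDiff_def]
    exact hD.union (hB.nullMeasurableSet.diff hE)
  have hvD : volume (E \ B) ≠ ⊤ := measure_ne_top_of_subset sdiff_subset hvE
  have i1 : Integrable (fun x => B.indicator (fun _ => (1:ℝ)) x -
      E.indicator (fun _ => (1:ℝ)) x) := (ind_int hB.nullMeasurableSet hvB).sub (ind_int hE hvE)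
  have i2 : Integrable (fun x => 2 * (E \ B).indicator (fun _ => (1:ℝ)) x) :=
    (ind_int hD hvD).const_mul 2
  rw [← ind_integral hS, ← ind_integral hE, ← ind_integral hB.nullMeasurableSet,
    ← ind_integral hD, ← integral_const_mul, ← integral_sub (ind_int hB.nullMeasurableSet hvB)
    (ind_int hE hvE), ← integral_add i1 i2]
  congr 1
  funext x
  by_cases h1 : x ∈ E <;> by_cases h2 : x ∈ B <;>
    simp [indicator, Set.mem_symmDiff, h1, h2] <;> norm_num

/-- stability of the isoperimetric inequality, qualitative form -/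
theorem set_stab {n : ℕ} (hn : 1 ≤ n) {R : ℝ} (hR : 0 < R) {E : ℕ → Set (En (n + 1))}
    (hE : ∀ k, NullMeasurableSet (E k)) (hv : ∀ k, volume (E k) ≠ ⊤)
    (hper : ∀ k, perimeter (E k) ≤ ENNReal.ofReal ((n + 1) * om (n + 1) * R ^ n))
    (hvol : Tendsto (fun k => volume.real (E k)) atTop (𝓝 (om (n + 1) * R ^ (n + 1)))) {δ : ℝ}
    (hδ : 0 < δ) :
    ∀ᶠ k in atTop, ∃ v : En (n + 1), volume.real (symmDiff (E k) (ball v R)) ≤ δ := by
  have hω := om_pos (n + 1)
  set ω := om (n + 1) with hωdef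
  have hP : 0 ≤ (n + 1) * ω * R ^ n := by positivity
  have h1 : ∀ k : ℕ, ∃ ρ : En (n + 1) → ℝ, ContDiff ℝ 1 ρ ∧ HasCompactSupport ρ ∧
      (∀ x, 0 ≤ ρ x) ∧ (∀ x, ρ x ≤ 1) ∧
      ∫ x, |ρ x - (E k).indicator (fun _ => (1:ℝ)) x| ≤ 1 / ((k:ℝ) + 1) ∧
      ∫ x, ‖fderiv ℝ ρ x‖ ≤ (n + 1) * ω * R ^ n + 1 / ((k:ℝ) + 1) :=
    fun k => per_approx (hE k) (hv k) hP (hper k) (by positivity)
  choose ρ r1 r2 r3 r4 r5 r6 using h1
  have hz : Tendsto (fun j : ℕ => 1 / ((j:ℝ) + 1)) atTop (𝓝 0) :=
    tendsto_one_div_add_atTop_nhds_zero_nat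
  have hm : Tendsto (fun j => ∫ x, ρ j x) atTop (𝓝 (ω * R ^ (n + 1))) := by
    have : Tendsto (fun j => (∫ x, ρ j x) - volume.real (E j)) atTop (𝓝 0) := by
      rw [tendsto_zero_iff_abs_tendsto_zero]
      refine squeeze_zero (fun _ => abs_nonneg _) (fun j => ?_) hz
      exact (approx_mass (by omega) (hE j) (hv j) (r1 j) (r2 j) (r3 j) (r4 j) (r5 j)).1
    have h2 := this.add hvol
    simpa using h2
  have hq : Tendsto (fun j => ∫ x, pw (n + 1) (ρ j x)) atTop (𝓝 (ω * R ^ (n + 1))) := by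
    have hz2 := hz.const_mul 2
    rw [mul_zero] at hz2
    have : Tendsto (fun j => (∫ x, pw (n + 1) (ρ j x)) - volume.real (E j)) atTop (𝓝 0) := by
      rw [tendsto_zero_iff_abs_tendsto_zero]
      refine squeeze_zero (fun _ => abs_nonneg _) (fun j => ?_) hz2
      exact (approx_mass (by omega) (hE j) (hv j) (r1 j) (r2 j) (r3 j) (r4 j) (r5 j)).2
    have h2 := this.add hvol
    simpa using h2
  have hfr : Module.finrank ℝ (En (n + 1)) = n + 1 := finrank_euclideanSpace_fin
  -- rescaled densities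
  have hscale : ∀ f : En (n + 1) → ℝ, ∫ x, f (R • x) = (R ^ (n + 1))⁻¹ * ∫ x, f x := by
    intro f
    rw [Measure.integral_comp_smul_of_nonneg volume f R (hR := hR.le), hfr, smul_eq_mul]
  have hRn : (R ^ (n + 1)) ≠ 0 := by positivity
  have hfd : ∀ k (x : En (n + 1)), fderiv ℝ (fun x => ρ k (R • x)) x =
      R • fderiv ℝ (ρ k) (R • x) := by
    intro k x
    have h2 : HasFDerivAt (fun x : En (n + 1) => R • x)
        (R • ContinuousLinearMap.id ℝ (En (n + 1))) x := (hasFDerivAt_id x).const_smul R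
    have h3 := ((r1 k).differentiable (by simp) (R • x)).hasFDerivAt.comp x h2
    have h4 : HasFDerivAt (fun x => ρ k (R • x))
        ((fderiv ℝ (ρ k) (R • x)).comp (R • ContinuousLinearMap.id ℝ (En (n + 1)))) x := h3
    rw [h4.fderiv]
    ext y
    simp
  have hSq : Sq n (fun k x => ρ k (R • x)) := by
    refine ⟨fun k => (r1 k).comp (contDiff_const_smul R), fun k => ?_, fun k x => r3 k _,
      fun k x => r4 k _, ?_, ?_, ?_⟩
    · exact (r2 k).comp_homeomorph (Homeomorph.smulOfNeZero R hR.ne')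
    · have : Tendsto (fun k => (R ^ (n + 1))⁻¹ * ∫ x, ρ k x) atTop
          (𝓝 ((R ^ (n + 1))⁻¹ * (ω * R ^ (n + 1)))) := hm.const_mul _
      have e : (R ^ (n + 1))⁻¹ * (ω * R ^ (n + 1)) = ω := by field_simp
      rw [e] at this
      refine this.congr fun k => ?_
      rw [hscale (ρ k)]
    · have : Tendsto (fun k => (R ^ (n + 1))⁻¹ * ∫ x, pw (n + 1) (ρ k x)) atTop
          (𝓝 ((R ^ (n + 1))⁻¹ * (ω * R ^ (n + 1)))) := hq.const_mul _
      have e : (R ^ (n + 1))⁻¹ * (ω * R ^ (n + 1)) = ω := by field_simp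
      rw [e] at this
      refine this.congr fun k => ?_
      rw [hscale (fun x => pw (n + 1) (ρ k x))]
    · intro η hη
      have h2 : ∀ᶠ k : ℕ in atTop, 1 / ((k:ℝ) + 1) < η * R ^ n :=
        hz.eventually_lt_const (by positivity)
      filter_upwards [h2] with k hk
      have h3 : ∀ x : En (n + 1), ‖fderiv ℝ (fun x => ρ k (R • x)) x‖ =
          R * ‖fderiv ℝ (ρ k) (R • x)‖ := by
        intro x
        rw [hfd, norm_smul, Real.norm_eq_abs, abs_of_pos hR]
      simp_rw [h3]
      rw [integral_const_mul, hscale (fun x => ‖fderiv ℝ (ρ k) x‖)]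
      have h4 : ∫ x, ‖fderiv ℝ (ρ k) x‖ ≤ ((n + 1) * ω + η) * R ^ n := by
        have := r6 k
        linarith
      have h5 : R * ((R ^ (n + 1))⁻¹ * ∫ x, ‖fderiv ℝ (ρ k) x‖) =
          (R ^ n)⁻¹ * ∫ x, ‖fderiv ℝ (ρ k) x‖ := by
        rw [pow_succ]
        field_simp
      rw [h5]
      rw [inv_mul_le_iff₀ (by positivity)]
      linarith
  -- choice of the parameter
  obtain ⟨d, hd0, hd⟩ : ∃ d : ℝ, 0 < d ∧
      R ^ (n + 1) * d + (ω * (R * (1 + d)) ^ (n + 1) - ω * R ^ (n + 1)) < δ / 8 := by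
    have hc : Continuous (fun d : ℝ => R ^ (n + 1) * d + (ω * (R * (1 + d)) ^ (n + 1) -
        ω * R ^ (n + 1))) := by fun_prop
    have h0 : R ^ (n + 1) * (0:ℝ) + (ω * (R * (1 + 0)) ^ (n + 1) - ω * R ^ (n + 1)) < δ / 8 := by
      rw [mul_zero, add_zero, mul_one, sub_self, add_zero]
      positivity
    have h2 : ∀ᶠ d in 𝓝 (0:ℝ), R ^ (n + 1) * d + (ω * (R * (1 + d)) ^ (n + 1) -
        ω * R ^ (n + 1)) < δ / 8 := hc.continuousAt.eventually_lt_const h0
    have h3 := (h2.filter_mono nhdsWithin_le_nhds : ∀ᶠ d in 𝓝[>] (0:ℝ), _)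
    obtain ⟨d, hd1, hd2⟩ := (h3.and self_mem_nhdsWithin).exists
    exact ⟨d, hd2, hd1⟩
  have g1 := stab hn hfr hSq hd0
  have g2 : ∀ᶠ k : ℕ in atTop, 1 / ((k:ℝ) + 1) < δ / 8 :=
    hz.eventually_lt_const (by positivity)
  have g3 : ∀ᶠ k in atTop, ω * R ^ (n + 1) - δ / 4 < volume.real (E k) :=
    hvol.eventually_const_lt (by linarith)
  filter_upwards [g1, g2, g3] with k f1 f2 f3
  obtain ⟨v', hv'⟩ := f1
  refine ⟨R • v', ?_⟩
  set v := R • v' with hvdef
  have hballv : volume.real (ball v R) = ω * R ^ (n + 1) := by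
    rw [vol_ball hfr (by omega) v hR.le]
    ring
  have hcballv : volume.real (closedBall v (R * (1 + d))) = ω * (R * (1 + d)) ^ (n + 1) := by
    have h5 : volume.real (closedBall v (R * (1 + d))) = volume.real (ball v (R * (1 + d))) := by
      rw [measureReal_def, measureReal_def, Measure.addHaar_closedBall_eq_addHaar_ball]
    rw [h5, vol_ball hfr (by omega) v (by positivity)]
    ring
  rw [symm_real (hE k) measurableSet_ball (hv k) measure_ball_lt_top.ne, hballv]
  -- the outer part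
  set Out : Set (En (n + 1)) := {x | R * (1 + d) < ‖x - v‖} with hOut
  have hOm : MeasurableSet Out := by
    have : Continuous (fun x : En (n + 1) => ‖x - v‖) := by fun_prop
    exact measurableSet_lt measurable_const this.measurable
  have hρi : Integrable (ρ k) := cc_int (r1 k).continuous (r2 k)
  have hout : ∫ x in Out, ρ k x ≤ R ^ (n + 1) * d := by
    have h6 := hscale (Out.indicator (ρ k))
    have h7 : ∀ x, Out.indicator (ρ k) (R • x) =
        {x : En (n + 1) | 1 + d < ‖x - v'‖}.indicator (fun x => ρ k (R • x)) x := by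
      intro x
      have hiff : R • x ∈ Out ↔ x ∈ {x : En (n + 1) | 1 + d < ‖x - v'‖} := by
        simp only [hOut, mem_ofPred_eq, hvdef]
        rw [← smul_sub, norm_smul, Real.norm_eq_abs, abs_of_pos hR]
        exact mul_lt_mul_iff_of_pos_left hR
      by_cases hx : R • x ∈ Out
      · rw [indicator_of_mem hx, indicator_of_mem (hiff.mp hx)]
      · rw [indicator_of_notMem hx, indicator_of_notMem (fun h => hx (hiff.mpr h))]
    simp_rw [h7] at h6
    have hOm' : MeasurableSet {x : En (n + 1) | 1 + d < ‖x - v'‖} := by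
      have : Continuous (fun x : En (n + 1) => ‖x - v'‖) := by fun_prop
      exact measurableSet_lt measurable_const this.measurable
    rw [integral_indicator hOm', integral_indicator hOm] at h6
    rw [h6, inv_mul_le_iff₀ (by positivity)] at hv'
    exact hv'
  have hEB : volume.real (E k \ ball v R) ≤ R ^ (n + 1) * d +
      (ω * (R * (1 + d)) ^ (n + 1) - ω * R ^ (n + 1)) + 1 / ((k:ℝ) + 1) := by
    have hD : NullMeasurableSet (E k \ ball v R) := (hE k).diff measurableSet_ball.nullMeasurableSet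
    have hvD : volume (E k \ ball v R) ≠ ⊤ := measure_ne_top_of_subset sdiff_subset (hv k)
    have hSh : MeasurableSet (closedBall v (R * (1 + d)) \ ball v R) :=
      measurableSet_closedBall.diff measurableSet_ball
    have hvSh : volume (closedBall v (R * (1 + d)) \ ball v R) ≠ ⊤ :=
      measure_ne_top_of_subset sdiff_subset measure_closedBall_lt_top.ne
    have i1 : Integrable (fun x => |ρ k x - (E k).indicator (fun _ => (1:ℝ)) x|) :=
      (hρi.sub (ind_int (hE k) (hv k))).abs
    have i2 : Integrable (Out.indicator (ρ k)) := hρi.indicator hOm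
    have i3 := ind_int hSh.nullMeasurableSet hvSh
    have h8 : ∫ x, (E k \ ball v R).indicator (fun _ => (1:ℝ)) x ≤
        ∫ x, (Out.indicator (ρ k) x + (closedBall v (R * (1 + d)) \ ball v R).indicator
          (fun _ => (1:ℝ)) x + |ρ k x - (E k).indicator (fun _ => (1:ℝ)) x|) := by
      apply integral_mono (ind_int hD hvD) ((i2.add i3).add i1)
      intro x
      change (E k \ ball v R).indicator (fun _ => (1:ℝ)) x ≤ Out.indicator (ρ k) x +
        (closedBall v (R * (1 + d)) \ ball v R).indicator (fun _ => (1:ℝ)) x +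
        |ρ k x - (E k).indicator (fun _ => (1:ℝ)) x|
      have o0 : 0 ≤ Out.indicator (ρ k) x := indicator_nonneg (fun x _ => r3 k x) x
      have s0 : 0 ≤ (closedBall v (R * (1 + d)) \ ball v R).indicator (fun _ => (1:ℝ)) x :=
        indicator_nonneg (fun _ _ => zero_le_one) x
      by_cases hx : x ∈ E k \ ball v R
      · rw [indicator_of_mem hx, indicator_of_mem hx.1]
        by_cases hxo : x ∈ Out
        · rw [indicator_of_mem hxo]
          have := le_abs_self (1 - ρ k x)
          rw [abs_sub_comm] at this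
          linarith
        · have hxs : x ∈ closedBall v (R * (1 + d)) \ ball v R := by
            refine ⟨?_, hx.2⟩
            simp only [hOut, mem_ofPred_eq, not_lt] at hxo
            rw [mem_closedBall, dist_eq_norm]
            exact hxo
          rw [indicator_of_mem hxs]
          have := abs_nonneg (ρ k x - 1)
          linarith
      · rw [indicator_of_notMem hx]
        positivity
    have i23 : Integrable (fun x => Out.indicator (ρ k) x +
        (closedBall v (R * (1 + d)) \ ball v R).indicator (fun _ => (1:ℝ)) x) := i2.add i3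
    rw [ind_integral hD, integral_add i23 i1, integral_add i2 i3,
      ind_integral hSh.nullMeasurableSet, integral_indicator hOm] at h8
    have h9 : volume.real (closedBall v (R * (1 + d)) \ ball v R) =
        ω * (R * (1 + d)) ^ (n + 1) - ω * R ^ (n + 1) := by
      have hsub : ball v R ⊆ closedBall v (R * (1 + d)) :=
        ball_subset_closedBall.trans (closedBall_subset_closedBall (by nlinarith))
      have h10 := measureReal_sdiff_add_inter (μ := (volume : Measure (En (n + 1))))
        (s := closedBall v (R * (1 + d))) (t := ball v R) measurableSet_ball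
        measure_closedBall_lt_top.ne
      rw [inter_eq_self_of_subset_right hsub, hcballv, hballv] at h10
      linarith
    rw [h9] at h8
    have := r5 k
    linarith
  linarith

end Pool.Agent.Helper88.Weyl
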