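import Mathlib
import Pool.Agent.Helper88.Weyl.SetStab

open MeasureTheory Set Metric Filter Topology
open scoped ENNReal NNReal

noncomputable section

set_option linter.unusedSectionVars false

namespace Pool.Agent.Helper88.Weyl

variable {N : ℕ}

lemma trans_fun {ρ : En N → ℝ} (hρ : ContDiff ℝ 1 ρ) (z : En N) :
    ∫⁻ x, ‖ρ (x + z) - ρ x‖ₑ ≤ ‖z‖ₑ * ∫⁻ x, ‖fderiv ℝ ρ x‖ₑ := by
  have hfc := hρ.continuous_fderiv (by simp)
  have h1 : ∀ x, ‖ρ (x + z) - ρ x‖ₑ ≤ ∫⁻ t in Ioc (0:ℝ) 1, ‖fderiv ℝ ρ (x + t • z)‖ₑ * ‖z‖ₑ := by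
    intro x
    have hd : ∀ t : ℝ, HasDerivAt (fun t : ℝ => ρ (x + t • z)) (fderiv ℝ ρ (x + t • z) z) t := by
      intro t
      have h2 : HasDerivAt (fun t : ℝ => x + t • z) ((1:ℝ) • z) t :=
        ((hasDerivAt_id t).smul_const z).const_add x
      rw [one_smul] at h2
      exact ((hρ.differentiable (by simp) _).hasFDerivAt).comp_hasDerivAt t h2
    have hcont : Continuous (fun t : ℝ => fderiv ℝ ρ (x + t • z) z) :=
      (hfc.comp (by fun_prop)).clm_apply continuous_const
    have h3 := intervalIntegral.integral_eq_sub_of_hasDerivAt (a := 0) (b := 1)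
      (fun t _ => hd t) (hcont.intervalIntegrable _ _)
    rw [one_smul, zero_smul, add_zero] at h3
    rw [← h3, intervalIntegral.integral_of_le zero_le_one]
    refine (enorm_integral_le_lintegral_enorm _).trans ?_
    apply lintegral_mono
    intro t
    exact ContinuousLinearMap.le_opENorm _ _
  have hm : Measurable (fun p : En N × ℝ => ‖fderiv ℝ ρ (p.1 + p.2 • z)‖ₑ * ‖z‖ₑ) := by
    have hc : Continuous (fun p : En N × ℝ => fderiv ℝ ρ (p.1 + p.2 • z)) :=
      hfc.comp (by fun_prop)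
    exact (hc.enorm.measurable).mul_const _
  calc ∫⁻ x, ‖ρ (x + z) - ρ x‖ₑ
      ≤ ∫⁻ x, ∫⁻ t in Ioc (0:ℝ) 1, ‖fderiv ℝ ρ (x + t • z)‖ₑ * ‖z‖ₑ := lintegral_mono h1
    _ = ∫⁻ t in Ioc (0:ℝ) 1, ∫⁻ x, ‖fderiv ℝ ρ (x + t • z)‖ₑ * ‖z‖ₑ :=
        lintegral_lintegral_swap hm.aemeasurable
    _ = ∫⁻ t in Ioc (0:ℝ) 1, ‖z‖ₑ * ∫⁻ x, ‖fderiv ℝ ρ x‖ₑ := by
        apply lintegral_congr
        intro t
        have hmm : Measurable (fun x => ‖fderiv ℝ ρ (x + t • z)‖ₑ) := by
          have : Continuous (fun x : En N => fderiv ℝ ρ (x + t • z)) := hfc.comp (by fun_prop)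
          exact this.enorm.measurable
        rw [lintegral_mul_const _ hmm, mul_comm]
        congr 1
        exact lintegral_add_right_eq_self (fun x => ‖fderiv ℝ ρ x‖ₑ) (t • z)
    _ = ‖z‖ₑ * ∫⁻ x, ‖fderiv ℝ ρ x‖ₑ := by
        rw [lintegral_const, Measure.restrict_apply_univ, Real.volume_Ioc]
        simp

theorem trans_set {E : Set (En N)} (hE : NullMeasurableSet E) (hv : volume E ≠ ⊤) {P : ℝ}
    (hP : 0 ≤ P) (h : perimeter E ≤ ENNReal.ofReal P) (z : En N) :
    volume {x | x ∈ E ∧ x + z ∉ E} ≤ ENNReal.ofReal (‖z‖ * P) := by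
  have key : ∀ ε : ℝ, 0 < ε → volume {x | x ∈ E ∧ x + z ∉ E} ≤
      ENNReal.ofReal (2 * ε + ‖z‖ * (P + ε)) := by
    intro ε hε
    obtain ⟨ρ, r1, r2, r3, r4, r5, r6⟩ := per_approx hE hv hP h hε
    set g : En N → ℝ := E.indicator (fun _ => (1:ℝ)) with hg
    have hgi : Integrable g := ind_int hE hv
    have hρi : Integrable ρ := cc_int r1.continuous r2
    have hdi : Integrable (fun x => |ρ x - g x|) := (hρi.sub hgi).abs
    have hL : ∫⁻ x, ‖ρ x - g x‖ₑ ≤ ENNReal.ofReal ε := by
      have : ∫⁻ x, ‖ρ x - g x‖ₑ = ENNReal.ofReal (∫ x, |ρ x - g x|) := by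
        rw [ofReal_integral_eq_lintegral_ofReal hdi (ae_of_all _ fun x => abs_nonneg _)]
        apply lintegral_congr
        intro x
        rw [← Real.norm_eq_abs, ofReal_norm]
      rw [this]
      exact ENNReal.ofReal_le_ofReal r5
    have hDn : ∫⁻ x, ‖fderiv ℝ ρ x‖ₑ ≤ ENNReal.ofReal (P + ε) := by
      have : ∫⁻ x, ‖fderiv ℝ ρ x‖ₑ = ENNReal.ofReal (∫ x, ‖fderiv ℝ ρ x‖) := by
        rw [ofReal_integral_eq_lintegral_ofReal (fd_int r1 r2) (ae_of_all _ fun x =>
          norm_nonneg _)]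
        apply lintegral_congr
        intro x
        rw [ofReal_norm]
      rw [this]
      exact ENNReal.ofReal_le_ofReal r6
    have hgm : AEMeasurable g := hgi.aestronglyMeasurable.aemeasurable
    have hm1 : AEMeasurable (fun x => ‖ρ x - g x‖ₑ) :=
      (r1.continuous.aemeasurable.sub hgm).enorm
    have hm2 : AEMeasurable (fun x => ‖ρ (x + z) - ρ x‖ₑ) := by
      have := r1.continuous
      apply Continuous.aemeasurable
      fun_prop
    have hm3 : AEMeasurable (fun x => ‖ρ (x + z) - g (x + z)‖ₑ) := by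
      have := hm1.comp_quasiMeasurePreserving
        (measurePreserving_add_right volume z).quasiMeasurePreserving
      exact this
    set F : En N → ℝ≥0∞ := fun x => ‖ρ x - g x‖ₑ + ‖ρ (x + z) - ρ x‖ₑ +
      ‖ρ (x + z) - g (x + z)‖ₑ with hF
    have hFm : AEMeasurable F := (hm1.add hm2).add hm3
    have hsub : {x | x ∈ E ∧ x + z ∉ E} ⊆ {x | 1 ≤ F x} := by
      intro x hx
      have e1 : g x = 1 := by rw [hg, indicator_of_mem hx.1]
      have e2 : g (x + z) = 0 := by rw [hg, indicator_of_notMem hx.2]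
      change 1 ≤ F x
      have e3 : (1:ℝ) = -(ρ x - g x) - (ρ (x + z) - ρ x) + (ρ (x + z) - g (x + z)) := by
        rw [e1, e2]; ring
      calc (1 : ℝ≥0∞) = ‖(1:ℝ)‖ₑ := by simp
        _ = ‖-(ρ x - g x) - (ρ (x + z) - ρ x) + (ρ (x + z) - g (x + z))‖ₑ := by rw [← e3]
        _ ≤ ‖-(ρ x - g x) - (ρ (x + z) - ρ x)‖ₑ + ‖ρ (x + z) - g (x + z)‖ₑ := enorm_add_le _ _
        _ ≤ ‖ρ x - g x‖ₑ + ‖ρ (x + z) - ρ x‖ₑ + ‖ρ (x + z) - g (x + z)‖ₑ := by
            gcongr
            refine enorm_sub_le.trans ?_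
            rw [enorm_neg]
    have hF2 : ∫⁻ x, F x ≤ ENNReal.ofReal ε + ENNReal.ofReal (‖z‖ * (P + ε)) +
        ENNReal.ofReal ε := by
      rw [hF, lintegral_add_right' _ hm3, lintegral_add_right' _ hm2]
      gcongr
      · refine (trans_fun r1 z).trans ?_
        rw [ENNReal.ofReal_mul (norm_nonneg _), ofReal_norm]
        gcongr
      · rw [lintegral_add_right_eq_self (fun x => ‖ρ x - g x‖ₑ) z]
        exact hL
    have hM := mul_meas_ge_le_lintegral₀ hFm 1
    rw [one_mul] at hM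
    refine (measure_mono hsub).trans (hM.trans (hF2.trans ?_))
    rw [← ENNReal.ofReal_add hε.le (by positivity), ← ENNReal.ofReal_add (by positivity) hε.le]
    apply ENNReal.ofReal_le_ofReal
    linarith
  have hlim : Tendsto (fun ε : ℝ => ENNReal.ofReal (2 * ε + ‖z‖ * (P + ε))) (𝓝[>] 0)
      (𝓝 (ENNReal.ofReal (‖z‖ * P))) := by
    have hc : Continuous (fun ε : ℝ => ENNReal.ofReal (2 * ε + ‖z‖ * (P + ε))) := by
      apply ENNReal.continuous_ofReal.comp
      fun_prop
    have := hc.tendsto 0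
    simp only [mul_zero, add_zero, zero_add] at this
    exact this.mono_left nhdsWithin_le_nhds
  apply ge_of_tendsto hlim
  filter_upwards [self_mem_nhdsWithin] with ε hε
  exact key ε hε

/-- upper bound for the perimeter of a ball -/
theorem per_ball (hN : 1 ≤ N) {R : ℝ} (hR : 0 < R) :
    perimeter (ball (0 : En N) R) ≤ ENNReal.ofReal (N * om N * R ^ (N - 1)) := by
  have hfr : Module.finrank ℝ (En N) = N := finrank_euclideanSpace_fin
  have : Nontrivial (En N) := Module.nontrivial_of_finrank_pos (R := ℝ) (by omega)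
  unfold perimeter
  refine iSup_le fun T => iSup_le fun hT => iSup_le fun hc => iSup_le fun hle => ?_
  apply ENNReal.ofReal_le_ofReal
  -- radial cut-offs
  set χ : ℕ → En N → ℝ := fun j x => SS ((R ^ 2 - ‖x‖ ^ 2) * (j + 1)) with hχ
  have hχC : ∀ j, ContDiff ℝ 1 (χ j) := by
    intro j
    apply SS_C1.comp
    exact (contDiff_const.sub (contDiff_norm_sq ℝ)).mul contDiff_const
  have hχS : ∀ j, HasCompactSupport (χ j) := by
    intro j
    apply HasCompactSupport.intro (isCompact_closedBall (0 : En N) R)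
    intro x hx
    rw [mem_closedBall_zero_iff, not_le] at hx
    simp only [hχ]
    apply SS_zero
    apply mul_nonpos_of_nonpos_of_nonneg _ (by positivity)
    nlinarith
  have hχ01 : ∀ j x, 0 ≤ χ j x ∧ χ j x ≤ 1 := fun j x => ⟨SS_nonneg _, SS_le_one _⟩
  have hdi := dvg_int hT hc
  have hlim : Tendsto (fun j => ∫ x, χ j x * dvg T x) atTop (𝓝 (∫ x in ball 0 R, dvg T x)) := by
    rw [← integral_indicator measurableSet_ball]
    apply tendsto_integral_of_dominated_convergence (fun x => |dvg T x|)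
    · intro j
      exact ((hχC j).continuous.mul (dvg_cont hT)).aestronglyMeasurable
    · exact hdi.abs
    · intro j
      apply ae_of_all
      intro x
      rw [Real.norm_eq_abs, abs_mul, abs_of_nonneg (hχ01 j x).1]
      exact mul_le_of_le_one_left (abs_nonneg _) (hχ01 j x).2
    · apply ae_of_all
      intro x
      by_cases hx : x ∈ ball (0 : En N) R
      · rw [indicator_of_mem hx]
        apply tendsto_const_nhds.congr'
        rw [mem_ball_zero_iff] at hx
        have hpos : 0 < R ^ 2 - ‖x‖ ^ 2 := by nlinarith [norm_nonneg x]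
        obtain ⟨J, hJ⟩ := exists_nat_gt (1 / (R ^ 2 - ‖x‖ ^ 2))
        filter_upwards [eventually_ge_atTop J] with j hj
        have hj' : (J:ℝ) ≤ j := by exact_mod_cast hj
        rw [div_lt_iff₀ hpos] at hJ
        simp only [hχ]
        rw [SS_one (by nlinarith), one_mul]
      · rw [indicator_of_notMem hx]
        apply tendsto_const_nhds.congr'
        filter_upwards with j
        rw [mem_ball_zero_iff, not_lt] at hx
        simp only [hχ]
        rw [SS_zero, zero_mul]
        apply mul_nonpos_of_nonpos_of_nonneg _ (by positivity)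
        nlinarith
  apply le_of_tendsto hlim
  filter_upwards with j
  rw [div_ibp (hχC j) hT hc, ← integral_neg]
  set f : ℝ → ℝ := fun r => 2 * (j + 1) * r * bS ((R ^ 2 - r ^ 2) * (j + 1)) with hf
  have hfd : ∀ x, ‖fderiv ℝ (χ j) x‖ = f ‖x‖ := by
    intro x
    have h1 : HasFDerivAt (fun x : En N => (R ^ 2 - ‖x‖ ^ 2) * ((j:ℝ) + 1))
        (((j:ℝ) + 1) • (-((2 : ℕ) • innerSL ℝ x)) : En N →L[ℝ] ℝ) x := by
      have h2 : HasFDerivAt (fun x : En N => ‖x‖ ^ 2) (2 • innerSL ℝ x) x :=
        (hasStrictFDerivAt_norm_sq x).hasFDerivAt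
      exact (h2.const_sub (R ^ 2)).mul_const ((j:ℝ) + 1)
    have h4 : HasFDerivAt (χ j) (bS ((R ^ 2 - ‖x‖ ^ 2) * ((j:ℝ) + 1)) •
        (((j:ℝ) + 1) • (-((2 : ℕ) • innerSL ℝ x)) : En N →L[ℝ] ℝ)) x :=
      (SS_deriv _).comp_hasFDerivAt x h1
    rw [h4.fderiv, norm_smul, norm_smul, norm_neg, Real.norm_eq_abs, Real.norm_eq_abs,
      abs_of_nonneg (bS_nonneg _), abs_of_nonneg (by positivity)]
    have h5 : ‖((2 : ℕ) • innerSL ℝ x : En N →L[ℝ] ℝ)‖ = 2 * ‖x‖ := by
      rw [← Nat.cast_smul_eq_nsmul ℝ, norm_smul, innerSL_apply_norm]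
      simp
    rw [h5]
    simp only [hf]
    ring
  have hfc : Continuous f := by
    have := bS_cont
    simp only [hf]
    fun_prop
  have hf0 : ∀ r, 0 ≤ r → 0 ≤ f r := by
    intro r hr
    simp only [hf]
    exact mul_nonneg (by positivity) (bS_nonneg _)
  have hfz : ∀ r, R ≤ r → f r = 0 := by
    intro r hr
    simp only [hf]
    rw [bS_zero, mul_zero]
    intro h
    have : (R ^ 2 - r ^ 2) * ((j:ℝ) + 1) ≤ 0 :=
      mul_nonpos_of_nonpos_of_nonneg (by nlinarith) (by positivity)
    linarith [h.1]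
  have hb1 : ∫ x, -fderiv ℝ (χ j) x (T x) ≤ ∫ x : En N, f ‖x‖ := by
    have hi : Integrable (fun x => ‖fderiv ℝ (χ j) x‖) := fd_int (hχC j) (hχS j)
    simp_rw [← hfd]
    apply integral_mono _ hi
    · intro x
      change -fderiv ℝ (χ j) x (T x) ≤ ‖fderiv ℝ (χ j) x‖
      calc -fderiv ℝ (χ j) x (T x) ≤ |fderiv ℝ (χ j) x (T x)| := neg_le_abs _
        _ ≤ ‖fderiv ℝ (χ j) x‖ * ‖T x‖ := (fderiv ℝ (χ j) x).le_opNorm _
        _ ≤ ‖fderiv ℝ (χ j) x‖ := mul_le_of_le_one_right (norm_nonneg _) (hle x)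
    · apply Integrable.neg
      apply cc_int
      · exact ((hχC j).continuous_fderiv (by simp)).clm_apply hT.continuous
      · apply HasCompactSupport.intro (hχS j).isCompact
        intro x hx
        have : fderiv ℝ (χ j) x = 0 := by
          have h' : x ∉ tsupport (fderiv ℝ (χ j)) := fun h => hx (tsupport_fderiv_subset ℝ h)
          exact image_eq_zero_of_notMem_tsupport h'
        rw [this]
        rfl
  refine hb1.trans ?_
  rw [integral_fun_norm_addHaar, hfr]
  have hball : (volume : Measure (En N)).real (ball 0 1) = om N := by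
    have := vol_ball hfr hN (0 : En N) zero_le_one
    rw [this, one_pow, one_mul]
  have hom := om_pos N
  have hint : ∫ r in Ioi (0:ℝ), r ^ (N - 1) • f r ≤ R ^ (N - 1) := by
    have hcs : HasCompactSupport (fun r => (Ici (0:ℝ)).indicator f r) := by
      apply HasCompactSupport.intro (isCompact_Icc : IsCompact (Icc 0 R))
      intro r hr
      by_cases h0 : r ∈ Ici (0:ℝ)
      · rw [indicator_of_mem h0]
        apply hfz
        by_contra h
        exact hr ⟨h0, (not_le.mp h).le⟩
      · rw [indicator_of_notMem h0]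
    have hfi : IntegrableOn f (Ioi 0) := by
      have h1 : IntegrableOn f (Ioc 0 R) := (hfc.integrableOn_Icc).mono_set Ioc_subset_Icc_self
      have h2 : IntegrableOn f (Ioi R) := by
        apply (integrableOn_zero : IntegrableOn (fun _ => (0:ℝ)) (Ioi R) volume).congr_fun _
          measurableSet_Ioi
        intro r hr
        exact (hfz r (le_of_lt hr)).symm
      have := h1.union h2
      rwa [Ioc_union_Ioi_eq_Ioi hR.le] at this
    have h3 : ∫ r in Ioi (0:ℝ), r ^ (N - 1) • f r ≤ ∫ r in Ioi (0:ℝ), R ^ (N - 1) * f r := by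
      apply integral_mono_of_nonneg
      · filter_upwards [ae_restrict_mem measurableSet_Ioi] with r hr
        have : (0:ℝ) < r := hr
        exact mul_nonneg (by positivity) (hf0 r this.le)
      · exact hfi.const_mul _
      · filter_upwards [ae_restrict_mem measurableSet_Ioi] with r hr
        have hr0 : (0:ℝ) < r := hr
        rw [smul_eq_mul]
        rcases le_or_gt R r with h | h
        · rw [hfz r h, mul_zero, mul_zero]
        · exact mul_le_mul_of_nonneg_right (pow_le_pow_left₀ hr0.le h.le _) (hf0 r hr0.le)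
    rw [integral_const_mul] at h3
    have h4 : ∫ r in Ioi (0:ℝ), f r = SS (R ^ 2 * (j + 1)) := by
      have hd : ∀ r ∈ Ici (0:ℝ), HasDerivAt (fun r => -SS ((R ^ 2 - r ^ 2) * (j + 1))) (f r) r := by
        intro r _
        have h5 : HasDerivAt (fun r : ℝ => (R ^ 2 - r ^ 2) * ((j:ℝ) + 1))
            (-(2 * r) * ((j:ℝ) + 1)) r := by
          have := (((hasDerivAt_pow 2 r).const_sub (R ^ 2)).mul_const ((j:ℝ) + 1))
          simpa using this
        have h6 := ((SS_deriv _).comp r h5).neg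
        have e : -(bS ((R ^ 2 - r ^ 2) * (j + 1)) * (-(2 * r) * (j + 1))) = f r := by
          simp only [hf]
          ring
        rw [e] at h6
        exact h6
      have ht : Tendsto (fun r => -SS ((R ^ 2 - r ^ 2) * (j + 1))) atTop (𝓝 0) := by
        apply tendsto_const_nhds.congr'
        filter_upwards [eventually_ge_atTop R] with r hr
        rw [SS_zero, neg_zero]
        apply mul_nonpos_of_nonpos_of_nonneg _ (by positivity)
        nlinarith
      have := integral_Ioi_of_hasDerivAt_of_tendsto' hd hfi ht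
      rw [this]
      simp
    rw [h4] at h3
    refine h3.trans ?_
    exact mul_le_of_le_one_right (by positivity) (SS_le_one _)
  rw [hball]
  simp only [nsmul_eq_mul, smul_eq_mul] at hint ⊢
  calc (N:ℝ) * (om N * ∫ r in Ioi (0:ℝ), r ^ (N - 1) * f r) ≤ N * (om N * R ^ (N - 1)) := by
        gcongr
    _ = N * om N * R ^ (N - 1) := by ring

end Pool.Agent.Helper88.Weyl
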