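import Mathlib
import Pool.Agent.Helper88.Weyl.Trans

open MeasureTheory Set Metric Filter Topology
open scoped ENNReal NNReal

noncomputable section

set_option linter.unusedSectionVars false

namespace Pool.Agent.Helper88.Weyl

variable {N : ℕ}

/-- closed box -/
def Bx (a : Fin N → ℝ) (s : ℝ) : Set (En N) := {x | ∀ i, a i ≤ x i ∧ x i ≤ a i + s}

/-- half-open box -/
def Hx (a : Fin N → ℝ) (s : ℝ) : Set (En N) := {x | ∀ i, a i ≤ x i ∧ x i < a i + s}

/-- the corner of the lattice cube -/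
def co (s : ℝ) (z : Fin N → ℤ) : Fin N → ℝ := fun i => s * z i

lemma Bx_pre (a : Fin N → ℝ) (s : ℝ) :
    Bx a s = (WithLp.ofLp : En N → (Fin N → ℝ)) ⁻¹' (Icc a (fun i => a i + s)) := by
  ext x
  simp only [Bx, mem_ofPred_eq, mem_preimage, mem_Icc, Pi.le_def]
  exact forall_and

lemma Hx_pre (a : Fin N → ℝ) (s : ℝ) :
    Hx a s = (WithLp.ofLp : En N → (Fin N → ℝ)) ⁻¹' (pi univ fun i => Ico (a i) (a i + s)) := by
  ext x
  simp only [Hx, mem_ofPred_eq, mem_preimage, mem_univ_pi, mem_Ico]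

lemma ofLp_mp : MeasurePreserving (WithLp.ofLp : En N → (Fin N → ℝ)) :=
  PiLp.volume_preserving_ofLp (Fin N)

lemma Bx_closed (a : Fin N → ℝ) (s : ℝ) : IsClosed (Bx a s) := by
  rw [Bx_pre]
  exact isClosed_Icc.preimage (PiLp.continuous_ofLp 2 _)

lemma Bx_meas (a : Fin N → ℝ) (s : ℝ) : MeasurableSet (Bx a s) := (Bx_closed a s).measurableSet

lemma Hx_meas (a : Fin N → ℝ) (s : ℝ) : MeasurableSet (Hx a s) := by
  rw [Hx_pre]
  exact ofLp_mp.measurable (MeasurableSet.univ_pi fun i => measurableSet_Ico)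

lemma Bx_compact (a : Fin N → ℝ) (s : ℝ) : IsCompact (Bx a s) := by
  rw [Bx_pre]
  exact (PiLp.homeomorph 2 (fun _ : Fin N => ℝ)).isClosedEmbedding.isCompact_preimage
    isCompact_Icc

lemma Hx_sub (a : Fin N → ℝ) (s : ℝ) : Hx a s ⊆ Bx a s := fun _ hx i => ⟨(hx i).1, (hx i).2.le⟩

lemma Hx_ae (a : Fin N → ℝ) (s : ℝ) : Hx a s =ᵐ[volume] Bx a s := by
  rw [Hx_pre, Bx_pre]
  exact ofLp_mp.quasiMeasurePreserving.preimage_ae_eq Measure.univ_pi_Ico_ae_eq_Icc

lemma vol_Hx (a : Fin N → ℝ) {s : ℝ} (hs : 0 ≤ s) : volume (Hx a s) = ENNReal.ofReal (s ^ N) := by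
  rw [Hx_pre, ofLp_mp.measure_preimage
    (MeasurableSet.univ_pi fun i => measurableSet_Ico).nullMeasurableSet, Real.volume_pi_Ico]
  simp only [add_sub_cancel_left, Finset.prod_const, Finset.card_univ, Fintype.card_fin]
  rw [ENNReal.ofReal_pow hs]

lemma vol_Bx (a : Fin N → ℝ) {s : ℝ} (hs : 0 ≤ s) : volume (Bx a s) = ENNReal.ofReal (s ^ N) := by
  rw [← measure_congr (Hx_ae a s), vol_Hx a hs]

lemma Bx_fin (a : Fin N → ℝ) (s : ℝ) : volume (Bx a s) < ⊤ := (Bx_compact a s).measure_lt_top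

lemma Hx_fin (a : Fin N → ℝ) (s : ℝ) : volume (Hx a s) < ⊤ :=
  (measure_mono (Hx_sub a s)).trans_lt (Bx_fin a s)

lemma int_HB (a : Fin N → ℝ) (s : ℝ) (f : En N → ℝ) : ∫ x in Hx a s, f x = ∫ x in Bx a s, f x :=
  setIntegral_congr_set (Hx_ae a s)

/-- the boundary term vanishes -/
lemma green {n : ℕ} {a : Fin (n + 1) → ℝ} {s : ℝ} (hs : 0 ≤ s) {F : En (n + 1) → ℝ}
    (hF : ContDiff ℝ 1 F) (i : Fin (n + 1)) (h0 : ∀ x : En (n + 1), x i = a i → F x = 0)
    (h1 : ∀ x : En (n + 1), x i = a i + s → F x = 0) :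
    ∫ x in Bx a s, fderiv ℝ F x (EuclideanSpace.single i 1) = 0 := by
  set L := (EuclideanSpace.equiv (Fin (n + 1)) ℝ).symm with hL
  have hLe : ∀ y, L y = WithLp.toLp 2 y := fun y => rfl
  have hmp : MeasurePreserving (fun y : Fin (n + 1) → ℝ => L y) :=
    PiLp.volume_preserving_toLp (Fin (n + 1))
  have hemb : MeasurableEmbedding (fun y : Fin (n + 1) → ℝ => L y) :=
    L.toHomeomorph.measurableEmbedding
  have hle : a ≤ (fun i => a i + s) := fun i => by simp [hs]
  have htr : ∫ x in Bx a s, fderiv ℝ F x (EuclideanSpace.single i 1) =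
      ∫ y in Icc a (fun i => a i + s), fderiv ℝ F (L y) (EuclideanSpace.single i 1) := by
    rw [← hmp.setIntegral_preimage_emb hemb]
    have hpre : (fun y : Fin (n + 1) → ℝ => L y) ⁻¹' Bx a s = Icc a (fun i => a i + s) := by
      rw [Bx_pre]
      rfl
    rw [hpre]
  set f : Fin (n + 1) → (Fin (n + 1) → ℝ) → ℝ := fun j y => if j = i then F (L y) else 0 with hf
  set f' : Fin (n + 1) → (Fin (n + 1) → ℝ) → (Fin (n + 1) → ℝ) →L[ℝ] ℝ := fun j y =>
    if j = i then (fderiv ℝ F (L y)).comp (L : (Fin (n + 1) → ℝ) →L[ℝ] En (n + 1)) else 0 with hf'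
  have hsum : ∀ y, ∑ j, f' j y (Pi.single j 1) = fderiv ℝ F (L y) (EuclideanSpace.single i 1) := by
    intro y
    rw [Finset.sum_eq_single i]
    · simp only [hf', if_true]
      rfl
    · intro j _ hj
      simp only [hf', if_neg hj]
      rfl
    · intro h
      exact absurd (Finset.mem_univ i) h
  have hfc : ∀ j, Continuous (f j) := by
    intro j
    by_cases hj : j = i
    · simp only [hf, if_pos hj]
      exact hF.continuous.comp L.continuous
    · simp only [hf, if_neg hj]
      exact continuous_const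
  have key := integral_divergence_of_hasFDerivAt_off_countable' a (fun i => a i + s) hle f f' ∅
    countable_empty (fun j => (hfc j).continuousOn) (by
      intro x _ j
      by_cases hj : j = i
      · simp only [hf, hf', if_pos hj]
        exact ((hF.differentiable (by simp)) (L x)).hasFDerivAt.comp x L.hasFDerivAt
      · simp only [hf, hf', if_neg hj]
        exact hasFDerivAt_const 0 x) (by
      simp_rw [hsum]
      apply Continuous.integrableOn_Icc
      exact ((hF.continuous_fderiv (by simp)).comp L.continuous).clm_apply continuous_const)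
  rw [htr]
  simp_rw [hsum] at key
  rw [key]
  apply Finset.sum_eq_zero
  intro j _
  by_cases hj : j = i
  · subst hj
    have e1 : ∀ y, f j (j.insertNth (a j + s) y) = 0 := by
      intro y
      simp only [hf, if_true]
      apply h1
      rw [hLe]
      change (j.insertNth (a j + s) y : Fin (n + 1) → ℝ) j = a j + s
      simp
    have e2 : ∀ y, f j (j.insertNth (a j) y) = 0 := by
      intro y
      simp only [hf, if_true]
      apply h0
      rw [hLe]
      change (j.insertNth (a j) y : Fin (n + 1) → ℝ) j = a j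
      simp
    simp_rw [e1, e2]
    simp
  · simp only [hf, if_neg hj]
    simp

end Pool.Agent.Helper88.Weyl
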