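import Mathlib
import Pool.Agent.Helper88.Weyl.Cube

open MeasureTheory Set Metric Filter Topology
open scoped ENNReal NNReal

noncomputable section

set_option linter.unusedSectionVars false

namespace Pool.Agent.Helper88.Weyl

variable {N : ℕ}

/-- product function -/
def tp (f : Fin N → ℝ → ℝ) (x : En N) : ℝ := ∏ i, f i (x i)

/-- partial derivative -/
def Di (F : En N → ℝ) (i : Fin N) (x : En N) : ℝ := fderiv ℝ F x (EuclideanSpace.single i 1)

/-- product without the `i`-th factor -/
def pr (f : Fin N → ℝ → ℝ) (i : Fin N) (x : En N) : ℝ := ∏ j ∈ Finset.univ.erase i, f j (x j)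

lemma tp_eq (f : Fin N → ℝ → ℝ) (i : Fin N) (x : En N) : tp f x = f i (x i) * pr f i x :=
  (Finset.mul_prod_erase _ _ (Finset.mem_univ i)).symm

lemma tp_upd (f : Fin N → ℝ → ℝ) (i : Fin N) (g : ℝ → ℝ) (x : En N) :
    tp (Function.update f i g) x = g (x i) * pr f i x := by
  rw [tp_eq _ i, Function.update_self]
  congr 1
  unfold pr
  apply Finset.prod_congr rfl
  intro j hj
  rw [Function.update_of_ne (Finset.ne_of_mem_erase hj)]

lemma tp_CD {k : WithTop ℕ∞} {f : Fin N → ℝ → ℝ} (hf : ∀ i, ContDiff ℝ k (f i)) :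
    ContDiff ℝ k (tp f) := by
  unfold tp
  apply contDiff_prod
  intro i _
  exact (hf i).comp (EuclideanSpace.proj i : En N →L[ℝ] ℝ).contDiff

lemma Di_tp {f : Fin N → ℝ → ℝ} (hf : ∀ i, Differentiable ℝ (f i)) (i : Fin N) (x : En N) :
    Di (tp f) i x = tp (Function.update f i (deriv (f i))) x := by
  have h1 : HasFDerivAt (fun x : En N => ∏ j, f j (x j))
      (∑ j, (∏ l ∈ Finset.univ.erase j, f l (x l)) •
        (deriv (f j) (x j) • (EuclideanSpace.proj j : En N →L[ℝ] ℝ))) x := by
    apply HasFDerivAt.finsetProd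
    intro j _
    exact (hf j (x j)).hasDerivAt.comp_hasFDerivAt x
      (EuclideanSpace.proj j : En N →L[ℝ] ℝ).hasFDerivAt
  unfold Di
  have h2 : HasFDerivAt (tp f) _ x := h1
  rw [h2.fderiv, tp_upd]
  simp only [_root_.sum_apply, _root_.smul_apply, smul_eq_mul]
  rw [Finset.sum_eq_single i]
  · unfold pr
    simp
    ring
  · intro j _ hj
    simp [hj.symm, hj]
  · intro h
    exact absurd (Finset.mem_univ i) h

lemma Di_cont {F : En N → ℝ} (hF : ContDiff ℝ 1 F) (i : Fin N) : Continuous (Di F i) :=
  (hF.continuous_fderiv (by simp)).clm_apply continuous_const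

lemma on_Bx {f : En N → ℝ} (hf : Continuous f) (a : Fin N → ℝ) (s : ℝ) :
    IntegrableOn f (Bx a s) := hf.continuousOn.integrableOn_compact (Bx_compact a s)

/-- Green's formula against products -/
lemma green_prod {n : ℕ} {a : Fin (n + 1) → ℝ} {s : ℝ} (hs : 0 ≤ s) {φ : En (n + 1) → ℝ}
    (hφ : ContDiff ℝ 1 φ) {f : Fin (n + 1) → ℝ → ℝ} (hf : ∀ j, ContDiff ℝ 1 (f j))
    (i : Fin (n + 1)) {g : ℝ → ℝ} (hg : ContDiff ℝ 1 g) (hg0 : g (a i) = 0)
    (hg1 : g (a i + s) = 0) :
    ∫ x in Bx a s, Di φ i x * tp (Function.update f i g) x =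
      -∫ x in Bx a s, φ x * tp (Function.update f i (deriv g)) x := by
  have hu : ∀ j, ContDiff ℝ 1 (Function.update f i g j) := by
    intro j
    by_cases hj : j = i
    · subst hj
      rw [Function.update_self]
      exact hg
    · rw [Function.update_of_ne hj]
      exact hf j
  have hT : ContDiff ℝ 1 (tp (Function.update f i g)) := tp_CD hu
  have hg' : Continuous (deriv g) := hg.continuous_deriv (by simp)
  have hTd : Continuous (tp (Function.update f i (deriv g))) := by
    unfold tp
    apply continuous_finsetProd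
    intro j _
    have hpj : Continuous (fun x : En (n + 1) => x j) :=
      (EuclideanSpace.proj j : En (n + 1) →L[ℝ] ℝ).continuous
    by_cases hj : j = i
    · subst hj
      rw [Function.update_self]
      exact hg'.comp hpj
    · rw [Function.update_of_ne hj]
      exact (hf j).continuous.comp hpj
  have h := green hs (hφ.mul hT) i
    (fun x hx => by rw [tp_upd, hx, hg0, zero_mul, mul_zero])
    (fun x hx => by rw [tp_upd, hx, hg1, zero_mul, mul_zero])
  have h2 : ∀ x, fderiv ℝ (fun x => φ x * tp (Function.update f i g) x) x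
      (EuclideanSpace.single i 1) = Di φ i x * tp (Function.update f i g) x +
        φ x * tp (Function.update f i (deriv g)) x := by
    intro x
    have h3 : HasFDerivAt (fun x => φ x * tp (Function.update f i g) x)
        (φ x • fderiv ℝ (tp (Function.update f i g)) x +
          tp (Function.update f i g) x • fderiv ℝ φ x) x :=
      ((hφ.differentiable (by simp)) x).hasFDerivAt.mul
        ((hT.differentiable (by simp)) x).hasFDerivAt
    rw [h3.fderiv]
    have h4 := Di_tp (fun j => (hu j).differentiable (by simp)) i x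
    rw [Function.update_idem, Function.update_self] at h4
    unfold Di at h4
    simp only [_root_.add_apply, _root_.smul_apply, smul_eq_mul]
    rw [h4]
    unfold Di
    ring
  simp_rw [h2] at h
  rw [integral_add] at h
  · linarith
  · exact on_Bx ((Di_cont hφ i).mul hT.continuous) a s
  · exact on_Bx (hφ.continuous.mul hTd) a s

section trig

/-- frequency -/
def fr (s : ℝ) (m : Fin N → ℕ) (i : Fin N) : ℝ := Real.pi * m i / s

def cs (a : Fin N → ℝ) (s : ℝ) (m : Fin N → ℕ) (i : Fin N) (t : ℝ) : ℝ :=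
  Real.cos (fr s m i * (t - a i))
def sn (a : Fin N → ℝ) (s : ℝ) (m : Fin N → ℕ) (i : Fin N) (t : ℝ) : ℝ :=
  Real.sin (fr s m i * (t - a i))

variable {a : Fin N → ℝ} {s : ℝ} {m : Fin N → ℕ}

lemma cs_CD (k : WithTop ℕ∞) (i : Fin N) : ContDiff ℝ k (cs a s m i) := by
  unfold cs
  exact Real.contDiff_cos.comp (contDiff_const.mul (contDiff_id.sub contDiff_const))
lemma sn_CD (k : WithTop ℕ∞) (i : Fin N) : ContDiff ℝ k (sn a s m i) := by
  unfold sn
  exact Real.contDiff_sin.comp (contDiff_const.mul (contDiff_id.sub contDiff_const))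

lemma lin_deriv (i : Fin N) (t : ℝ) : HasDerivAt (fun t : ℝ => fr s m i * (t - a i)) (fr s m i) t := by
  have := ((hasDerivAt_id t).sub_const (a i)).const_mul (fr s m i)
  rwa [mul_one] at this

lemma cs_deriv (i : Fin N) : deriv (cs a s m i) = fun t => -(fr s m i * sn a s m i t) := by
  funext t
  have h1 := (Real.hasDerivAt_cos _).comp t (lin_deriv (a := a) (s := s) (m := m) i t)
  have h2 : HasDerivAt (cs a s m i) (-Real.sin (fr s m i * (t - a i)) * fr s m i) t := h1
  rw [h2.deriv]
  unfold sn
  ring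

lemma sn_deriv (i : Fin N) : deriv (sn a s m i) = fun t => fr s m i * cs a s m i t := by
  funext t
  have h1 := (Real.hasDerivAt_sin _).comp t (lin_deriv (a := a) (s := s) (m := m) i t)
  have h2 : HasDerivAt (sn a s m i) (Real.cos (fr s m i * (t - a i)) * fr s m i) t := h1
  rw [h2.deriv]
  unfold cs
  ring

lemma cs_deriv2 (i : Fin N) : deriv (deriv (cs a s m i)) =
    fun t => -(fr s m i ^ 2 * cs a s m i t) := by
  rw [cs_deriv]
  funext t
  have h1 : HasDerivAt (sn a s m i) (fr s m i * cs a s m i t) t := by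
    have := ((sn_CD 1 i).differentiable (by simp) t : DifferentiableAt ℝ (sn a s m i) t).hasDerivAt
    rwa [sn_deriv] at this
  rw [((h1.const_mul (fr s m i)).fun_neg).deriv]
  ring

lemma sn_deriv2 (i : Fin N) : deriv (deriv (sn a s m i)) =
    fun t => -(fr s m i ^ 2 * sn a s m i t) := by
  rw [sn_deriv]
  funext t
  have h1 : HasDerivAt (cs a s m i) (-(fr s m i * sn a s m i t)) t := by
    have := ((cs_CD 1 i).differentiable (by simp) t : DifferentiableAt ℝ (cs a s m i) t).hasDerivAt
    rwa [cs_deriv] at this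
  rw [(h1.const_mul (fr s m i)).deriv]
  ring

lemma sn_left (i : Fin N) : sn a s m i (a i) = 0 := by unfold sn; simp
lemma sn_right (hs : s ≠ 0) (i : Fin N) : sn a s m i (a i + s) = 0 := by
  unfold sn fr
  have : Real.pi * m i / s * (a i + s - a i) = m i * Real.pi := by field_simp; ring
  rw [this, Real.sin_nat_mul_pi]

/-- cosine products -/
def em (a : Fin N → ℝ) (s : ℝ) (m : Fin N → ℕ) : En N → ℝ := tp (cs a s m)
/-- sine products -/
def wm (a : Fin N → ℝ) (s : ℝ) (m : Fin N → ℕ) : En N → ℝ := tp (sn a s m)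

lemma em_CD (k : WithTop ℕ∞) : ContDiff ℝ k (em a s m) := tp_CD (cs_CD k)
lemma wm_CD (k : WithTop ℕ∞) : ContDiff ℝ k (wm a s m) := tp_CD (sn_CD k)

lemma abs_em (x : En N) : |em a s m x| ≤ 1 := by
  unfold em tp
  rw [Finset.abs_prod]
  apply Finset.prod_le_one
  · intro i _; exact abs_nonneg _
  · intro i _; exact Real.abs_cos_le_one _

lemma abs_wm (x : En N) : |wm a s m x| ≤ 1 := by
  unfold wm tp
  rw [Finset.abs_prod]
  apply Finset.prod_le_one
  · intro i _; exact abs_nonneg _
  · intro i _; exact Real.abs_sin_le_one _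

lemma Di_em (i : Fin N) (x : En N) :
    Di (em a s m) i x = tp (Function.update (cs a s m) i (deriv (cs a s m i))) x :=
  Di_tp (fun j => (cs_CD 1 j).differentiable (by simp)) i x

lemma Di_wm (i : Fin N) (x : En N) :
    Di (wm a s m) i x = tp (Function.update (sn a s m) i (deriv (sn a s m i))) x :=
  Di_tp (fun j => (sn_CD 1 j).differentiable (by simp)) i x

end trig

/-- Green's formula for cosines -/
lemma green_cos {n : ℕ} {a : Fin (n + 1) → ℝ} {s : ℝ} (hs : 0 < s) {φ : En (n + 1) → ℝ}
    (hφ : ContDiff ℝ 1 φ) (m : Fin (n + 1) → ℕ) (i : Fin (n + 1)) :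
    ∫ x in Bx a s, Di φ i x * Di (em a s m) i x = fr s m i ^ 2 * ∫ x in Bx a s, φ x * em a s m x := by
  have hg : ContDiff ℝ 1 (deriv (cs a s m i)) := by
    rw [cs_deriv]
    exact (contDiff_const.mul (sn_CD 1 i)).neg
  have h := green_prod (a := a) hs.le hφ (f := cs a s m) (fun j => cs_CD 1 j) i hg
    (by rw [cs_deriv]; simp only [sn_left, mul_zero, neg_zero])
    (by rw [cs_deriv]; simp only [sn_right hs.ne', mul_zero, neg_zero])
  simp_rw [Di_em]
  rw [h, ← integral_const_mul, ← integral_neg]
  congr 1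
  funext x
  rw [tp_upd, cs_deriv2]
  unfold em
  rw [tp_eq (cs a s m) i]
  ring

/-- Green's formula for sines -/
lemma green_sin {n : ℕ} {a : Fin (n + 1) → ℝ} {s : ℝ} (hs : 0 < s) (m m' : Fin (n + 1) → ℕ)
    (i : Fin (n + 1)) :
    ∫ x in Bx a s, Di (wm a s m) i x * Di (wm a s m') i x =
      fr s m i ^ 2 * ∫ x in Bx a s, wm a s m x * wm a s m' x := by
  have hu : ∀ j, ContDiff ℝ 1 (Function.update (sn a s m) i (deriv (sn a s m i)) j) := by
    intro j
    by_cases hj : j = i
    · subst hj
      rw [Function.update_self, sn_deriv]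
      exact contDiff_const.mul (cs_CD 1 j)
    · rw [Function.update_of_ne hj]
      exact sn_CD 1 j
  have hφ : ContDiff ℝ 1 (Di (wm a s m) i) := by
    have : Di (wm a s m) i = tp (Function.update (sn a s m) i (deriv (sn a s m i))) :=
      funext fun x => Di_wm i x
    rw [this]
    exact tp_CD hu
  have h := green_prod (a := a) hs.le hφ (f := sn a s m') (fun j => sn_CD 1 j) i
    (g := sn a s m' i) (sn_CD 1 i) (sn_left i) (sn_right hs.ne' i)
  rw [Function.update_eq_self] at h
  have h2 : ∀ x, Di (Di (wm a s m) i) i x = -(fr s m i ^ 2 * wm a s m x) := by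
    intro x
    have : Di (wm a s m) i = tp (Function.update (sn a s m) i (deriv (sn a s m i))) :=
      funext fun x => Di_wm i x
    rw [this, Di_tp (fun j => (hu j).differentiable (by simp)) i x, Function.update_idem,
      Function.update_self, tp_upd, sn_deriv2]
    unfold wm
    rw [tp_eq (sn a s m) i]
    ring
  simp_rw [h2, ← Di_wm] at h
  have h3 : ∫ x in Bx a s, -(fr s m i ^ 2 * wm a s m x) * tp (sn a s m') x =
      -(fr s m i ^ 2 * ∫ x in Bx a s, wm a s m x * wm a s m' x) := by
    rw [← integral_const_mul, ← integral_neg]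
    congr 1
    funext x
    unfold wm
    ring
  rw [h3] at h
  linarith

end Pool.Agent.Helper88.Weyl
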