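import Mathlib
import Pool.Agent.Helper88.Weyl.Trig
import Pool.Agent.Helper88.Sup.L2

open MeasureTheory Set Metric Filter Topology
open scoped ENNReal NNReal

noncomputable section

set_option linter.unusedSectionVars false

namespace Pool.Agent.Helper88.Weyl

open Pool.Agent.Helper88.Sup (mul_tendsto' mul_int' cs' sq_tendsto')

section abs

variable {X : Type*} [MeasurableSpace X] {μ : Measure X} {ι : Type*}

lemma sum_mem {F : Finset ι} {g : ι → X → ℝ} (hg : ∀ m, MemLp (g m) 2 μ) (α : ι → ℝ) :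
    MemLp (fun x => ∑ m ∈ F, α m * g m x) 2 μ := by
  apply memLp_finsetSum
  intro m _
  exact (hg m).const_mul (α m)

lemma int_mul_sum {F : Finset ι} {h : X → ℝ} {g : ι → X → ℝ} (hh : MemLp h 2 μ)
    (hg : ∀ m, MemLp (g m) 2 μ) (α : ι → ℝ) :
    ∫ x, h x * ∑ m ∈ F, α m * g m x ∂μ = ∑ m ∈ F, α m * ∫ x, h x * g m x ∂μ := by
  have : ∀ x, h x * ∑ m ∈ F, α m * g m x = ∑ m ∈ F, α m * (h x * g m x) := by
    intro x
    rw [Finset.mul_sum]
    apply Finset.sum_congr rfl
    intro m _
    ring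
  simp_rw [this]
  rw [integral_finsetSum _ fun m _ => (mul_int' hh (hg m)).const_mul (α m)]
  apply Finset.sum_congr rfl
  intro m _
  rw [integral_const_mul]

lemma sq_expand {F : Finset ι} {f : X → ℝ} {g : ι → X → ℝ} (hf : MemLp f 2 μ)
    (hg : ∀ m, MemLp (g m) 2 μ) (α : ι → ℝ) {c n : ι → ℝ}
    (hc : ∀ m, ∫ x, f x * g m x ∂μ = c m) (hn : ∀ m, ∫ x, g m x * g m x ∂μ = n m)
    (ho : ∀ m m', m ≠ m' → ∫ x, g m x * g m' x ∂μ = 0) :
    ∫ x, (f x - ∑ m ∈ F, α m * g m x) ^ 2 ∂μ =
      ∫ x, f x ^ 2 ∂μ - 2 * ∑ m ∈ F, α m * c m + ∑ m ∈ F, α m ^ 2 * n m := by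
  classical
  have hS := sum_mem (F := F) hg α
  have e1 : ∀ x, (f x - ∑ m ∈ F, α m * g m x) ^ 2 =
      (f x ^ 2 - 2 * (f x * ∑ m ∈ F, α m * g m x)) +
      (∑ m ∈ F, α m * g m x) * ∑ m ∈ F, α m * g m x := by
    intro x
    ring
  simp_rw [e1]
  have i1 : Integrable (fun x => f x ^ 2) μ := by
    have := mul_int' hf hf
    simpa only [← pow_two] using this
  have i2 : Integrable (fun x => 2 * (f x * ∑ m ∈ F, α m * g m x)) μ :=
    (mul_int' hf hS).const_mul 2
  have i3 : Integrable (fun x => (∑ m ∈ F, α m * g m x) * ∑ m ∈ F, α m * g m x) μ :=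
    mul_int' hS hS
  have i12 : Integrable (fun x => f x ^ 2 - 2 * (f x * ∑ m ∈ F, α m * g m x)) μ := i1.sub i2
  rw [integral_add i12 i3, integral_sub i1 i2, integral_const_mul, int_mul_sum hf hg,
    int_mul_sum hS hg]
  congr 1
  · simp_rw [hc]
  · apply Finset.sum_congr rfl
    intro m hm
    have e2 : ∫ x, (∑ m ∈ F, α m * g m x) * g m x ∂μ = ∫ x, g m x * ∑ m ∈ F, α m * g m x ∂μ := by
      congr 1
      funext x
      ring
    rw [e2, int_mul_sum (hg m) hg, Finset.sum_eq_single m]
    · rw [hn]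
      ring
    · intro m' _ hne
      rw [ho m m' hne.symm, mul_zero]
    · intro h
      exact absurd hm h

end abs

section box

variable {N : ℕ} {a : Fin N → ℝ} {s : ℝ}

lemma cont_mem {f : En N → ℝ} (hf : Continuous f) (a : Fin N → ℝ) (s : ℝ) :
    MemLp f 2 (volume.restrict (Bx a s)) := by
  have : IsFiniteMeasure (volume.restrict (Bx a s)) :=
    ⟨by rw [Measure.restrict_apply_univ]; exact Bx_fin a s⟩
  obtain ⟨C, hC⟩ := (Bx_compact a s).exists_bound_of_continuousOn hf.continuousOn
  apply MemLp.of_bound hf.aestronglyMeasurable C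
  filter_upwards [ae_restrict_mem (Bx_meas a s)] with x hx
  exact hC x hx

/-- Fourier coefficient -/
def cu (a : Fin N → ℝ) (s : ℝ) (u : En N → ℝ) (m : Fin N → ℕ) : ℝ :=
  ∫ x in Bx a s, u x * em a s m x

/-- normalisation -/
def nn (a : Fin N → ℝ) (s : ℝ) (m : Fin N → ℕ) : ℝ := ∫ x in Bx a s, em a s m x * em a s m x

lemma em_zero (x : En N) : em a s 0 x = 1 := by
  unfold em tp cs fr
  simp

lemma em_cont (m : Fin N → ℕ) : Continuous (em a s m) := (em_CD 0).continuous
lemma wm_cont (m : Fin N → ℕ) : Continuous (wm a s m) := (wm_CD 0).continuous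

/-- product-to-sum index -/
def kk (t : Finset (Fin N)) (m m' : Fin N → ℕ) (i : Fin N) : ℕ :=
  if i ∈ t then m i + m' i else (m i - m' i) + (m' i - m i)

lemma em_mul (m m' : Fin N → ℕ) (x : En N) :
    em a s m x * em a s m' x = ∑ t ∈ (Finset.univ : Finset (Fin N)).powerset,
      (1 / 2 : ℝ) ^ N * em a s (kk t m m') x := by
  unfold em tp
  rw [← Finset.prod_mul_distrib]
  have h1 : ∀ i, cs a s m i (x i) * cs a s m' i (x i) =
      1 / 2 * Real.cos (fr s m i * (x i - a i) + fr s m' i * (x i - a i)) +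
      1 / 2 * Real.cos (fr s m i * (x i - a i) - fr s m' i * (x i - a i)) := by
    intro i
    unfold cs
    rw [Real.cos_add, Real.cos_sub]
    ring
  simp_rw [h1]
  rw [Finset.prod_add]
  apply Finset.sum_congr rfl
  intro t _
  have h2 : (1 / 2 : ℝ) ^ N = ∏ _i : Fin N, (1 / 2 : ℝ) := by simp
  rw [h2, ← Finset.prod_mul_distrib]
  have h3 : ∀ i, (1 / 2 : ℝ) * cs a s (kk t m m') i (x i) = t.piecewise
      (fun i => 1 / 2 * Real.cos (fr s m i * (x i - a i) + fr s m' i * (x i - a i)))
      (fun i => 1 / 2 * Real.cos (fr s m i * (x i - a i) - fr s m' i * (x i - a i))) i := by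
    intro i
    by_cases hi : i ∈ t
    · rw [Finset.piecewise_eq_of_mem _ _ _ hi]
      unfold cs fr kk
      rw [if_pos hi]
      push_cast
      congr 2
      ring
    · rw [Finset.piecewise_eq_of_notMem _ _ _ hi]
      unfold cs fr kk
      rw [if_neg hi]
      rcases le_total (m i) (m' i) with h | h
      · rw [Nat.sub_eq_zero_of_le h, zero_add, Nat.cast_sub h, ← Real.cos_neg]
        congr 2
        ring
      · rw [Nat.sub_eq_zero_of_le h, add_zero, Nat.cast_sub h]
        congr 2
        ring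
  simp_rw [h3]
  rw [Finset.prod_piecewise, Finset.univ_inter]

end box

section box1

variable {n : ℕ} {a : Fin (n + 1) → ℝ} {s : ℝ}

lemma em_orth (hs : 0 < s) {m m' : Fin (n + 1) → ℕ} (hne : m ≠ m') :
    ∫ x in Bx a s, em a s m x * em a s m' x = 0 := by
  obtain ⟨i, hi⟩ := Function.ne_iff.mp hne
  have h1 := green_cos (a := a) hs (φ := em a s m') (em_CD 1) m i
  have h2 := green_cos (a := a) hs (φ := em a s m) (em_CD 1) m' i
  have e1 : ∫ x in Bx a s, Di (em a s m') i x * Di (em a s m) i x =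
      ∫ x in Bx a s, Di (em a s m) i x * Di (em a s m') i x := by
    congr 1
    funext x
    ring
  have e2 : ∫ x in Bx a s, em a s m' x * em a s m x =
      ∫ x in Bx a s, em a s m x * em a s m' x := by
    congr 1
    funext x
    ring
  rw [e1, h2, e2] at h1
  have h3 : (fr s m' i ^ 2 - fr s m i ^ 2) * ∫ x in Bx a s, em a s m x * em a s m' x = 0 := by
    linarith
  rcases mul_eq_zero.mp h3 with h | h
  · exfalso
    apply hi
    have h4 : fr s m' i = fr s m i := by
      have p1 : 0 ≤ fr s m i := by unfold fr; positivity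
      have p2 : 0 ≤ fr s m' i := by unfold fr; positivity
      exact (pow_left_inj₀ p2 p1 two_ne_zero).mp (by linarith)
    unfold fr at h4
    have hpi := Real.pi_pos.ne'
    field_simp at h4
    exact_mod_cast h4.symm
  · exact h

lemma int_em_nonneg (hs : 0 < s) (k : Fin (n + 1) → ℕ) : 0 ≤ ∫ x in Bx a s, em a s k x := by
  by_cases hk : k = 0
  · subst hk
    simp_rw [em_zero]
    rw [setIntegral_const, smul_eq_mul, mul_one]
    exact measureReal_nonneg
  · have := em_orth (a := a) hs hk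
    simp_rw [em_zero, mul_one] at this
    rw [this]

lemma nn_lower (hs : 0 < s) (m : Fin (n + 1) → ℕ) : (s / 2) ^ (n + 1) ≤ nn a s m := by
  unfold nn
  simp_rw [em_mul]
  rw [integral_finsetSum]
  · have h0 : (s / 2) ^ (n + 1) = ∫ x in Bx a s, (1 / 2 : ℝ) ^ (n + 1) *
        em a s (kk ∅ m m) x := by
      have : kk ∅ m m = 0 := by
        funext i
        simp [kk]
      rw [integral_const_mul, this]
      simp_rw [em_zero]
      rw [setIntegral_const, smul_eq_mul, mul_one, measureReal_def, vol_Bx a hs.le,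
        ENNReal.toReal_ofReal (by positivity)]
      rw [div_pow, one_div, inv_pow]
      field_simp
    rw [h0]
    apply Finset.single_le_sum (f := fun t => ∫ x in Bx a s, (1 / 2 : ℝ) ^ (n + 1) *
        em a s (kk t m m) x)
    · intro t _
      rw [integral_const_mul]
      exact mul_nonneg (by positivity) (int_em_nonneg hs _)
    · simp
  · intro t _
    exact on_Bx (continuous_const.mul (em_cont _)) a s

lemma nn_pos (hs : 0 < s) (m : Fin (n + 1) → ℕ) : 0 < nn a s m :=
  lt_of_lt_of_le (by positivity) (nn_lower hs m)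

/-- the trigonometric polynomials are dense in `C(box)` -/
lemma dense_em (hs : 0 < s) {g : En (n + 1) → ℝ} (hg : Continuous g) {ε : ℝ} (hε : 0 < ε) :
    ∃ (F : Finset (Fin (n + 1) → ℕ)) (β : (Fin (n + 1) → ℕ) → ℝ), ∀ x ∈ Bx a s,
      |(∑ m ∈ F, β m * em a s m x) - g x| < ε := by
  haveI : CompactSpace (Bx a s) := isCompact_iff_compactSpace.mp (Bx_compact a s)
  let e' : (Fin (n + 1) → ℕ) → C(Bx a s, ℝ) := fun m =>
    ⟨fun x => em a s m x, (em_cont m).comp continuous_subtype_val⟩
  let p : Submodule ℝ C(Bx a s, ℝ) := Submodule.span ℝ (range e')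
  have h_one : (1 : C(Bx a s, ℝ)) ∈ p := by
    apply Submodule.subset_span
    refine ⟨0, ?_⟩
    ext x
    exact em_zero _
  have h_mul : ∀ x y, x ∈ p → y ∈ p → x * y ∈ p := by
    intro x y hx hy
    have h1 : x * y ∈ p * p := Submodule.mul_mem_mul hx hy
    have h2 : p * p ≤ p := by
      rw [Submodule.span_mul_span, Submodule.span_le]
      rintro z ⟨_, ⟨m, rfl⟩, _, ⟨m', rfl⟩, rfl⟩
      have : e' m * e' m' = ∑ t ∈ (Finset.univ : Finset (Fin (n + 1))).powerset,
          (1 / 2 : ℝ) ^ (n + 1) • e' (kk t m m') := by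
        ext x
        simp only [ContinuousMap.mul_apply, ContinuousMap.sum_apply, ContinuousMap.smul_apply,
          smul_eq_mul]
        exact em_mul m m' _
      change e' m * e' m' ∈ p
      rw [this]
      apply Submodule.sum_mem
      intro t _
      apply Submodule.smul_mem
      exact Submodule.subset_span ⟨_, rfl⟩
    exact h2 h1
  let A : Subalgebra ℝ C(Bx a s, ℝ) := p.toSubalgebra h_one h_mul
  have hsep : A.SeparatesPoints := by
    intro x y hxy
    have : ∃ i, (x : En (n + 1)) i ≠ (y : En (n + 1)) i := by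
      by_contra hcon
      push Not at hcon
      apply hxy
      ext i
      exact hcon i
    obtain ⟨i, hi⟩ := this
    refine ⟨_, ⟨e' (Pi.single i 1), Submodule.subset_span ⟨_, rfl⟩, rfl⟩, ?_⟩
    have hval : ∀ z : En (n + 1), em a s (Pi.single i 1) z =
        Real.cos (Real.pi / s * (z i - a i)) := by
      intro z
      unfold em
      rw [tp_eq _ i]
      have h1 : pr (cs a s (Pi.single i 1)) i z = 1 := by
        unfold pr
        apply Finset.prod_eq_one
        intro j hj
        have : j ≠ i := Finset.ne_of_mem_erase hj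
        unfold cs fr
        simp [this]
      rw [h1, mul_one]
      unfold cs fr
      simp
    change em a s (Pi.single i 1) x ≠ em a s (Pi.single i 1) y
    rw [hval, hval]
    intro heq
    have hrange : ∀ z ∈ Bx a s, Real.pi / s * (z i - a i) ∈ Icc 0 Real.pi := by
      intro z hz
      have h2 := hz i
      constructor
      · apply mul_nonneg (by positivity)
        linarith [h2.1]
      · have : Real.pi / s * (z i - a i) ≤ Real.pi / s * s :=
          mul_le_mul_of_nonneg_left (by linarith [h2.2]) (by positivity)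
        rwa [div_mul_cancel₀ _ hs.ne'] at this
    have h3 := Real.injOn_cos (hrange x x.2) (hrange y y.2) heq
    apply hi
    have hpi := Real.pi_pos
    have h4 : (x : En (n + 1)) i - a i = (y : En (n + 1)) i - a i :=
      mul_left_cancel₀ (by positivity : Real.pi / s ≠ 0) h3
    linarith
  obtain ⟨h, hh⟩ := ContinuousMap.exists_mem_subalgebra_near_continuous_of_separatesPoints A hsep
    (fun x : Bx a s => g x) (hg.comp continuous_subtype_val) ε hε
  have hmem : (h : C(Bx a s, ℝ)) ∈ p := h.2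
  obtain ⟨c, hc⟩ := Finsupp.mem_span_range_iff_exists_finsupp.mp hmem
  refine ⟨c.support, c, ?_⟩
  intro x hx
  have h1 := hh ⟨x, hx⟩
  rw [Real.norm_eq_abs] at h1
  have h2 : (h : C(Bx a s, ℝ)) ⟨x, hx⟩ = ∑ m ∈ c.support, c m * em a s m x := by
    rw [← hc]
    unfold Finsupp.sum
    simp only [ContinuousMap.sum_apply, ContinuousMap.smul_apply, smul_eq_mul]
    rfl
  rw [h2] at h1
  exact h1

/-- density in `L²` -/
lemma dense_L2 (hs : 0 < s) {u : En (n + 1) → ℝ} (hu : MemLp u 2 volume) {ε : ℝ} (hε : 0 < ε) :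
    ∃ (F : Finset (Fin (n + 1) → ℕ)) (β : (Fin (n + 1) → ℕ) → ℝ),
      ∫ x in Bx a s, (u x - ∑ m ∈ F, β m * em a s m x) ^ 2 ≤ ε := by
  set v := volume.real (Bx a s) with hv
  have hv0 : 0 ≤ v := measureReal_nonneg
  obtain ⟨g, -, hg1, hg2, hg3⟩ := hu.exists_hasCompactSupport_eLpNorm_sub_le (by norm_num)
    (ε := ENNReal.ofReal (√(ε / 4))) (by
      have : 0 < √(ε / 4) := Real.sqrt_pos.mpr (by positivity)
      simpa using this)
  have hd : MemLp (u - g) 2 volume := hu.sub hg3
  have h1 : ∫ x, (u x - g x) ^ 2 ≤ ε / 4 := by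
    have h2 := Pool.Agent.Helper88.Sup.normsq_toLp hd
    have h3 : ‖hd.toLp (u - g)‖ ≤ √(ε / 4) := by
      rw [Lp.norm_toLp]
      exact ENNReal.toReal_le_of_le_ofReal (Real.sqrt_nonneg _) hg1
    have h4 : ‖hd.toLp (u - g)‖ ^ 2 ≤ ε / 4 := by
      have := pow_le_pow_left₀ (norm_nonneg _) h3 2
      rwa [Real.sq_sqrt (by positivity)] at this
    rw [h2] at h4
    simpa only [Real.norm_eq_abs, sq_abs, Pi.sub_apply] using h4
  obtain ⟨F, β, hF⟩ := dense_em (a := a) hs hg2 (ε := √(ε / (4 * (v + 1))))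
    (Real.sqrt_pos.mpr (by positivity))
  refine ⟨F, β, ?_⟩
  have hum : MemLp u 2 (volume.restrict (Bx a s)) := hu.restrict _
  have hgm : MemLp g 2 (volume.restrict (Bx a s)) := hg3.restrict _
  have hSm : MemLp (fun x => ∑ m ∈ F, β m * em a s m x) 2 (volume.restrict (Bx a s)) :=
    sum_mem (fun m => cont_mem (em_cont m) a s) β
  have sqi : ∀ {f : En (n + 1) → ℝ}, MemLp f 2 (volume.restrict (Bx a s)) →
      IntegrableOn (fun x => f x ^ 2) (Bx a s) := by
    intro f hf
    have := mul_int' hf hf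
    simp only [← pow_two] at this
    exact this
  have i1 := sqi (hum.sub hgm)
  have i2 := sqi (hgm.sub hSm)
  have i3 := sqi (hum.sub hSm)
  simp only [Pi.sub_apply] at i1 i2 i3
  have h5 : ∫ x in Bx a s, (u x - ∑ m ∈ F, β m * em a s m x) ^ 2 ≤
      ∫ x in Bx a s, (2 * (u x - g x) ^ 2 + 2 * (g x - ∑ m ∈ F, β m * em a s m x) ^ 2) := by
    apply integral_mono i3 ((i1.const_mul 2).add (i2.const_mul 2))
    intro x
    change (u x - ∑ m ∈ F, β m * em a s m x) ^ 2 ≤
      2 * (u x - g x) ^ 2 + 2 * (g x - ∑ m ∈ F, β m * em a s m x) ^ 2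
    nlinarith [sq_nonneg ((u x - g x) - (g x - ∑ m ∈ F, β m * em a s m x))]
  rw [integral_add (i1.const_mul 2) (i2.const_mul 2), integral_const_mul,
    integral_const_mul] at h5
  have h6 : ∫ x in Bx a s, (u x - g x) ^ 2 ≤ ε / 4 := by
    refine le_trans ?_ h1
    apply setIntegral_le_integral
    · have := mul_int' hd hd
      simpa only [← pow_two, Pi.sub_apply] using this
    · exact ae_of_all _ fun x => sq_nonneg _
  have h7 : ∫ x in Bx a s, (g x - ∑ m ∈ F, β m * em a s m x) ^ 2 ≤ ε / 4 := by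
    have : ∫ x in Bx a s, (g x - ∑ m ∈ F, β m * em a s m x) ^ 2 ≤
        ∫ x in Bx a s, ε / (4 * (v + 1)) := by
      apply setIntegral_mono_on i2 _ (Bx_meas a s)
      · intro x hx
        have h8 := (hF x hx).le
        rw [abs_sub_comm] at h8
        have h9 := pow_le_pow_left₀ (abs_nonneg _) h8 2
        rwa [sq_abs, Real.sq_sqrt (by positivity)] at h9
      · exact integrableOn_const (Bx_fin a s).ne
    rw [setIntegral_const, smul_eq_mul, ← hv] at this
    refine this.trans ?_
    rw [mul_div_assoc', div_le_div_iff₀ (by positivity) (by norm_num)]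
    nlinarith
  linarith

end box1

end Pool.Agent.Helper88.Weyl
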