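import Mathlib
import Pool.Agent.Helper88.Weyl.Neu

open MeasureTheory Set Metric Filter Topology
open scoped ENNReal NNReal

noncomputable section

set_option linter.unusedSectionVars false

namespace Pool.Agent.Helper88.Weyl

open Pool.Agent.Helper88.Sup (mul_tendsto' mul_int' cs' sq_tendsto')

variable {n : ℕ} {a : Fin (n + 1) → ℝ} {s : ℝ}

lemma Di_grad {N : ℕ} {φ : En N → ℝ} (i : Fin N) (x : En N) : Di φ i x = gradient φ x i := by
  unfold Di
  rw [← inner_grad, real_inner_comm]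
  rw [EuclideanSpace.inner_single_left]
  simp

lemma comp_mem {N : ℕ} {G : En N → En N} (hG : MemLp G 2 volume) (i : Fin N) :
    MemLp (fun x => G x i) 2 volume :=
  hG.of_le ((EuclideanSpace.proj i : En N →L[ℝ] ℝ).continuous.comp_aestronglyMeasurable
    hG.aestronglyMeasurable) (ae_of_all _ fun x => PiLp.norm_apply_le (G x) i)

lemma sqm {N : ℕ} {f : En N → ℝ} {μ : Measure (En N)} (hf : MemLp f 2 μ) :
    Integrable (fun x => f x ^ 2) μ := by
  have := mul_int' hf hf
  simp only [← pow_two] at this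
  exact this

/-- convergence of the approximants on a box -/
lemma H1_tendsto {N : ℕ} {u : En N → ℝ} {G : En N → En N} (h : IsH1 u G) :
    ∃ φ : ℕ → En N → ℝ, (∀ j, ContDiff ℝ 1 (φ j)) ∧ (∀ j, Continuous (φ j)) ∧
      (∀ (S : Set (En N)) (g : En N → ℝ), MemLp g 2 (volume.restrict S) →
        Tendsto (fun j => ∫ x in S, φ j x * g x) atTop (𝓝 (∫ x in S, u x * g x))) ∧
      (∀ (S : Set (En N)) (i : Fin N) (g : En N → ℝ), MemLp g 2 (volume.restrict S) →
        Tendsto (fun j => ∫ x in S, Di (φ j) i x * g x) atTop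
          (𝓝 (∫ x in S, G x i * g x))) := by
  obtain ⟨φ, hφ, hu, hG⟩ := h.approx
  have hC1 : ∀ j, ContDiff ℝ 1 (φ j) := fun j => by
    exact_mod_cast contDiff_infty.mp (hφ j).1 1
  have hm : ∀ j, MemLp (φ j) 2 volume := fun j =>
    (hC1 j).continuous.memLp_of_hasCompactSupport (hφ j).2
  have hDm : ∀ j i, MemLp (Di (φ j) i) 2 volume := fun j i =>
    (Di_cont (hC1 j) i).memLp_of_hasCompactSupport ((hφ j).2.fderiv_apply (𝕜 := ℝ) _)
  have hGi : ∀ i : Fin N, Tendsto (fun j => ∫ x, (G x i - Di (φ j) i x) ^ 2) atTop (𝓝 0) := by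
    intro i
    refine squeeze_zero (fun j => integral_nonneg fun x => sq_nonneg _) (fun j => ?_) hG
    have hgm : MemLp (gradient (φ j)) 2 volume := by
      have hc : Continuous (gradient (φ j)) := by
        unfold gradient
        exact (LinearIsometryEquiv.continuous _).comp ((hC1 j).continuous_fderiv (by simp))
      have hcs : HasCompactSupport (gradient (φ j)) := by
        have := (hφ j).2.fderiv (𝕜 := ℝ)
        unfold gradient
        exact this.comp_left (g := (InnerProductSpace.toDual ℝ (En N)).symm) (map_zero _)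
      exact hc.memLp_of_hasCompactSupport hcs
    apply integral_mono
    · have := sqm ((comp_mem h.memG i).sub (hDm j i))
      simpa only [Pi.sub_apply] using this
    · exact Pool.Agent.Helper88.Sup.sq_int (h.memG.sub hgm)
    · intro x
      change (G x i - Di (φ j) i x) ^ 2 ≤ ‖G x - gradient (φ j) x‖ ^ 2
      rw [Di_grad]
      have := PiLp.norm_apply_le (G x - gradient (φ j) x) i
      have e : (G x - gradient (φ j) x) i = G x i - gradient (φ j) x i := rfl
      rw [e, Real.norm_eq_abs] at this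
      have h2 := pow_le_pow_left₀ (abs_nonneg _) this 2
      rwa [sq_abs] at h2
  have hrestr : ∀ (S : Set (En N)) (f : En N → ℝ) (fj : ℕ → En N → ℝ), MemLp f 2 volume →
      (∀ j, MemLp (fj j) 2 volume) → Tendsto (fun j => ∫ x, (f x - fj j x) ^ 2) atTop (𝓝 0) →
      Tendsto (fun j => ∫ x in S, (f x - fj j x) ^ 2) atTop (𝓝 0) := by
    intro S f fj hf hfj ht
    refine squeeze_zero (fun j => integral_nonneg fun x => sq_nonneg _) (fun j => ?_) ht
    apply setIntegral_le_integral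
    · have := sqm (hf.sub (hfj j))
      simpa only [Pi.sub_apply] using this
    · exact ae_of_all _ fun x => sq_nonneg _
  refine ⟨φ, hC1, fun j => (hC1 j).continuous, ?_, ?_⟩
  · intro S g hg
    apply mul_tendsto' (h.memu.restrict S) (fun j => (hm j).restrict S) hg (fun _ => hg)
      (hrestr S u φ h.memu hm hu)
    simp
  · intro S i g hg
    apply mul_tendsto' ((comp_mem h.memG i).restrict S) (fun j => (hDm j i).restrict S) hg
      (fun _ => hg) (hrestr S _ _ (comp_mem h.memG i) (fun j => hDm j i) (hGi i))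
    simp

lemma coef (hs : 0 < s) {u : En (n + 1) → ℝ} {G : En (n + 1) → En (n + 1)} (h : IsH1 u G)
    (m : Fin (n + 1) → ℕ) (i : Fin (n + 1)) :
    ∫ x in Bx a s, G x i * Di (em a s m) i x = fr s m i ^ 2 * cu a s u m := by
  obtain ⟨φ, h1, h2, h3, h4⟩ := H1_tendsto h
  have t1 := h3 (Bx a s) (em a s m) (cont_mem (em_cont m) a s)
  have t2 := h4 (Bx a s) i (Di (em a s m) i) (cont_mem (Di_cont (em_CD 1) i) a s)
  have t3 := t1.const_mul (fr s m i ^ 2)
  refine tendsto_nhds_unique t2 (t3.congr fun j => ?_)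
  rw [green_cos hs (h1 j) m i]

lemma norm_sq_sum {N : ℕ} (v : En N) : ‖v‖ ^ 2 = ∑ i, v i ^ 2 := by
  rw [EuclideanSpace.norm_sq_eq]
  simp

lemma bessel_grad (hs : 0 < s) {u : En (n + 1) → ℝ} {G : En (n + 1) → En (n + 1)} (h : IsH1 u G)
    (F : Finset (Fin (n + 1) → ℕ)) :
    ∑ m ∈ F, (∑ i, fr s m i ^ 2) * (cu a s u m ^ 2 / nn a s m) ≤ ∫ x in Bx a s, ‖G x‖ ^ 2 := by
  have hi : ∀ i : Fin (n + 1), ∑ m ∈ F, fr s m i ^ 2 * (cu a s u m ^ 2 / nn a s m) ≤
      ∫ x in Bx a s, (G x i) ^ 2 := by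
    intro i
    have hnn : ∀ m, ∫ x in Bx a s, Di (em a s m) i x * Di (em a s m) i x =
        fr s m i ^ 2 * nn a s m := by
      intro m
      rw [green_cos hs (em_CD 1) m i]
      rfl
    have ho : ∀ m m', m ≠ m' → ∫ x in Bx a s, Di (em a s m) i x * Di (em a s m') i x = 0 := by
      intro m m' hne
      rw [green_cos hs (em_CD 1) m' i, em_orth hs hne, mul_zero]
    have key := sq_expand (F := F) ((comp_mem h.memG i).restrict (Bx a s))
      (fun m => cont_mem (Di_cont (em_CD 1 (m := m)) i) a s)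
      (fun m => cu a s u m / nn a s m) (fun m => coef hs h m i) hnn ho
    have h0 : 0 ≤ ∫ x in Bx a s, (G x i - ∑ m ∈ F, cu a s u m / nn a s m *
        Di (em a s m) i x) ^ 2 := integral_nonneg fun x => sq_nonneg _
    rw [key] at h0
    have e1 : ∑ m ∈ F, cu a s u m / nn a s m * (fr s m i ^ 2 * cu a s u m) =
        ∑ m ∈ F, fr s m i ^ 2 * (cu a s u m ^ 2 / nn a s m) := by
      apply Finset.sum_congr rfl
      intro m _
      ring
    have e2 : ∑ m ∈ F, (cu a s u m / nn a s m) ^ 2 * (fr s m i ^ 2 * nn a s m) =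
        ∑ m ∈ F, fr s m i ^ 2 * (cu a s u m ^ 2 / nn a s m) := by
      apply Finset.sum_congr rfl
      intro m _
      have := (nn_pos (a := a) hs m).ne'
      field_simp
    rw [e1, e2] at h0
    linarith
  have hsum : ∫ x in Bx a s, ‖G x‖ ^ 2 = ∑ i, ∫ x in Bx a s, (G x i) ^ 2 := by
    simp_rw [norm_sq_sum]
    apply integral_finsetSum
    intro i _
    exact sqm ((comp_mem h.memG i).restrict (Bx a s))
  rw [hsum]
  calc ∑ m ∈ F, (∑ i, fr s m i ^ 2) * (cu a s u m ^ 2 / nn a s m)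
      = ∑ i, ∑ m ∈ F, fr s m i ^ 2 * (cu a s u m ^ 2 / nn a s m) := by
        rw [Finset.sum_comm]
        apply Finset.sum_congr rfl
        intro m _
        rw [Finset.sum_mul]
    _ ≤ _ := Finset.sum_le_sum fun i _ => hi i

lemma parseval (hs : 0 < s) {u : En (n + 1) → ℝ} (hu : MemLp u 2 volume) {ε : ℝ} (hε : 0 < ε) :
    ∃ F : Finset (Fin (n + 1) → ℕ), ∀ F', F ⊆ F' →
      (∫ x in Bx a s, u x ^ 2) - ∑ m ∈ F', cu a s u m ^ 2 / nn a s m ≤ ε := by
  obtain ⟨F, β, hF⟩ := dense_L2 (a := a) hs hu hε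
  refine ⟨F, fun F' hFF' => ?_⟩
  have key := sq_expand (F := F) (hu.restrict (Bx a s)) (fun m => cont_mem (em_cont m) a s) β
    (c := cu a s u) (n := nn a s) (fun m => rfl) (fun m => rfl) (fun m m' h => em_orth hs h)
  rw [key] at hF
  have h1 : ∑ m ∈ F, (2 * (β m * cu a s u m) - β m ^ 2 * nn a s m) ≤
      ∑ m ∈ F, cu a s u m ^ 2 / nn a s m := by
    apply Finset.sum_le_sum
    intro m _
    have hn := nn_pos (a := a) hs m
    rw [le_div_iff₀ hn]
    nlinarith [sq_nonneg (cu a s u m - β m * nn a s m)]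
  rw [Finset.sum_sub_distrib, ← Finset.mul_sum] at h1
  have h2 : ∑ m ∈ F, cu a s u m ^ 2 / nn a s m ≤ ∑ m ∈ F', cu a s u m ^ 2 / nn a s m := by
    apply Finset.sum_le_sum_of_subset_of_nonneg hFF'
    intro m _ _
    exact div_nonneg (sq_nonneg _) (nn_pos hs m).le
  linarith

/-- the Neumann inequality on a box -/
theorem neumann (hs : 0 < s) {u : En (n + 1) → ℝ} {G : En (n + 1) → En (n + 1)} (h : IsH1 u G)
    {F0 : Finset (Fin (n + 1) → ℕ)} {L : ℝ} (hL : 0 ≤ L)
    (hF : ∀ m ∉ F0, L ≤ ∑ i, fr s m i ^ 2) :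
    L * ((∫ x in Bx a s, u x ^ 2) - ∑ m ∈ F0, cu a s u m ^ 2 / nn a s m) ≤
      ∫ x in Bx a s, ‖G x‖ ^ 2 := by
  classical
  apply le_of_forall_pos_le_add
  intro τ hτ
  obtain ⟨F, hF'⟩ := parseval (a := a) hs h.memu (ε := τ / (L + 1)) (by positivity)
  have h1 := hF' (F ∪ F0) Finset.subset_union_left
  have h2 : ∑ m ∈ F ∪ F0, cu a s u m ^ 2 / nn a s m =
      (∑ m ∈ (F ∪ F0) \ F0, cu a s u m ^ 2 / nn a s m) +
      ∑ m ∈ F0, cu a s u m ^ 2 / nn a s m :=
    (Finset.sum_sdiff Finset.subset_union_right).symm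
  have h3 : L * ∑ m ∈ (F ∪ F0) \ F0, cu a s u m ^ 2 / nn a s m ≤ ∫ x in Bx a s, ‖G x‖ ^ 2 := by
    refine le_trans ?_ (bessel_grad hs h ((F ∪ F0) \ F0))
    rw [Finset.mul_sum]
    apply Finset.sum_le_sum
    intro m hm
    exact mul_le_mul_of_nonneg_right (hF m (Finset.mem_sdiff.mp hm).2)
      (div_nonneg (sq_nonneg _) (nn_pos hs m).le)
  have h4 : L * (τ / (L + 1)) ≤ τ := by
    rw [mul_div_assoc', div_le_iff₀ (by positivity)]
    nlinarith
  have h5 := mul_le_mul_of_nonneg_left h1 hL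
  rw [h2] at h5
  nlinarith

end Pool.Agent.Helper88.Weyl
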