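import Mathlib
import Pool.Agent.Helper88.Weyl.Neu2

open MeasureTheory Set Metric Filter Topology
open scoped ENNReal NNReal

noncomputable section

set_option linter.unusedSectionVars false

namespace Pool.Agent.Helper88.Weyl

variable {N : ℕ}

/-- the lattice cube -/
def Qz (s : ℝ) (z : Fin N → ℤ) : Set (En N) := Hx (co s z) s

lemma mem_Qz {s : ℝ} (hs : 0 < s) (z : Fin N → ℤ) (x : En N) :
    x ∈ Qz s z ↔ (fun i => ⌊x i / s⌋) = z := by
  constructor
  · intro hx
    funext i
    have := hx i
    simp only [co] at this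
    rw [Int.floor_eq_iff]
    constructor
    · rw [le_div_iff₀ hs]
      linarith [this.1]
    · rw [div_lt_iff₀ hs]
      linarith [this.2]
  · intro h i
    have := congrFun h i
    simp only at this
    rw [Int.floor_eq_iff, le_div_iff₀ hs, div_lt_iff₀ hs] at this
    simp only [co]
    constructor
    · linarith [this.1]
    · linarith [this.2]

lemma Qz_meas (s : ℝ) (z : Fin N → ℤ) : MeasurableSet (Qz s z : Set (En N)) := Hx_meas _ _

lemma Qz_disj {s : ℝ} (hs : 0 < s) : Pairwise (Function.onFun Disjoint (Qz (N := N) s)) := by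
  intro z z' hne
  rw [Function.onFun, Set.disjoint_left]
  intro x h1 h2
  apply hne
  rw [← (mem_Qz hs z x).mp h1, ← (mem_Qz hs z' x).mp h2]

lemma Qz_union {s : ℝ} (hs : 0 < s) : (⋃ z, Qz (N := N) s z) = univ := by
  ext x
  simp only [mem_iUnion, mem_univ, iff_true]
  exact ⟨_, (mem_Qz hs _ x).mpr rfl⟩

lemma Qz_vol {s : ℝ} (hs : 0 < s) (z : Fin N → ℤ) : volume (Qz (N := N) s z) =
    ENNReal.ofReal (s ^ N) := vol_Hx _ hs.le

lemma Qz_fin (s : ℝ) (z : Fin N → ℤ) : volume (Qz (N := N) s z) < ⊤ := Hx_fin _ _

lemma Hx_diam {a : Fin N → ℝ} {s : ℝ} (hs : 0 ≤ s) {x h : En N} (hx : x ∈ Bx a s)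
    (hxh : x + h ∈ Bx a s) : ‖h‖ ≤ s * √N := by
  have h1 : ‖h‖ ^ 2 ≤ (s * √N) ^ 2 := by
    rw [norm_sq_sum, mul_pow, Real.sq_sqrt (Nat.cast_nonneg N)]
    calc ∑ i, h i ^ 2 ≤ ∑ _i : Fin N, s ^ 2 := by
          apply Finset.sum_le_sum
          intro i _
          have h2 := hx i
          have h3 := hxh i
          have e : (x + h) i = x i + h i := rfl
          rw [e] at h3
          nlinarith [h2.1, h2.2, h3.1, h3.2]
      _ = s ^ 2 * N := by simp; ring
  exact le_of_sq_le_sq h1 (by positivity) 

/-- the relative isoperimetric sum over lattice cubes -/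
lemma cube_sum {E : Set (En N)} (hE : MeasurableSet E) (hv : volume E ≠ ⊤) {P : ℝ}
    (hP : 0 ≤ P) (hper : perimeter E ≤ ENNReal.ofReal P) {s : ℝ} (hs : 0 < s)
    (Z : Finset (Fin N → ℤ)) :
    ∑ z ∈ Z, volume (E ∩ Qz s z) * volume (Qz s z \ E) ≤
      volume (closedBall (0 : En N) (s * √N)) * ENNReal.ofReal (s * √N * P) := by
  set H : Set (En N) := closedBall 0 (s * √N) with hH
  have hHm : MeasurableSet H := measurableSet_closedBall
  set g : En N → ℝ≥0∞ := Eᶜ.indicator (fun _ => 1) with hg
  have hgm : Measurable g := measurable_const.indicator hE.compl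
  set Φ : En N → ℝ≥0∞ := fun x => ∫⁻ h in H, g (x + h) with hΦ
  have hgm2 : Measurable (fun p : En N × En N => g (p.1 + p.2)) :=
    hgm.comp (measurable_fst.add measurable_snd)
  have h1 : ∀ z, volume (E ∩ Qz s z) * volume (Qz s z \ E) ≤ ∫⁻ x in E ∩ Qz s z, Φ x := by
    intro z
    have h2 : ∀ x ∈ E ∩ Qz s z, volume (Qz s z \ E) ≤ Φ x := by
      intro x hx
      have hD : MeasurableSet (Qz s z \ E) := (Qz_meas s z).diff hE
      calc volume (Qz s z \ E) = ∫⁻ y, (Qz s z \ E).indicator (fun _ => (1:ℝ≥0∞)) y := by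
            rw [lintegral_indicator hD]; simp
        _ = ∫⁻ h, (Qz s z \ E).indicator (fun _ => (1:ℝ≥0∞)) (x + h) :=
            (lintegral_add_left_eq_self _ x).symm
        _ ≤ ∫⁻ h, H.indicator (fun h => g (x + h)) h := by
            apply lintegral_mono
            intro h
            by_cases hh : x + h ∈ Qz s z \ E
            · have hhH : h ∈ H := by
                rw [hH, mem_closedBall_zero_iff]
                exact Hx_diam hs.le (Hx_sub _ _ hx.2) (Hx_sub _ _ hh.1)
              simp only
              rw [indicator_of_mem hh, indicator_of_mem hhH, hg,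
                indicator_of_mem (show x + h ∈ Eᶜ from hh.2)]
            · simp only
              rw [indicator_of_notMem hh]
              exact bot_le
        _ = Φ x := lintegral_indicator hHm _
    calc volume (E ∩ Qz s z) * volume (Qz s z \ E)
        = ∫⁻ x in E ∩ Qz s z, volume (Qz s z \ E) := by
          rw [lintegral_const, Measure.restrict_apply_univ, mul_comm]
      _ ≤ ∫⁻ x in E ∩ Qz s z, Φ x :=
          setLIntegral_mono' (hE.inter (Qz_meas s z)) h2
  have hdisj : Set.PairwiseDisjoint (Z : Set (Fin N → ℤ)) (fun z => E ∩ Qz s z) := by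
    intro z _ z' _ hne
    exact (Qz_disj hs hne).mono inter_subset_right inter_subset_right
  calc ∑ z ∈ Z, volume (E ∩ Qz s z) * volume (Qz s z \ E)
      ≤ ∑ z ∈ Z, ∫⁻ x in E ∩ Qz s z, Φ x := Finset.sum_le_sum fun z _ => h1 z
    _ = ∫⁻ x in ⋃ z ∈ Z, (E ∩ Qz s z), Φ x :=
        (lintegral_biUnion_finset hdisj (fun z _ => hE.inter (Qz_meas s z)) Φ).symm
    _ ≤ ∫⁻ x in E, Φ x := by
        apply lintegral_mono_set
        exact iUnion₂_subset fun z _ => inter_subset_left
    _ = ∫⁻ h in H, ∫⁻ x in E, g (x + h) := lintegral_lintegral_swap hgm2.aemeasurable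
    _ ≤ ∫⁻ h in H, ENNReal.ofReal (s * √N * P) := by
        apply setLIntegral_mono' hHm
        intro h hh
        have h3 : ∫⁻ x in E, g (x + h) = volume {x | x ∈ E ∧ x + h ∉ E} := by
          have hS : MeasurableSet {x : En N | x + h ∉ E} := (measurable_add_const h) hE.compl
          have e : ∀ x, g (x + h) = {x : En N | x + h ∉ E}.indicator (fun _ => (1:ℝ≥0∞)) x := by
            intro x
            by_cases hx : x + h ∈ E
            · rw [hg, indicator_of_notMem (show x + h ∉ Eᶜ from fun hc => hc hx),
                indicator_of_notMem (show x ∉ {x : En N | x + h ∉ E} from fun hc => hc hx)]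
            · rw [hg, indicator_of_mem (show x + h ∈ Eᶜ from hx),
                indicator_of_mem (show x ∈ {x : En N | x + h ∉ E} from hx)]
          simp_rw [e]
          rw [lintegral_indicator hS, lintegral_one, Measure.restrict_restrict hS,
            Measure.restrict_apply_univ]
          congr 1
          ext x
          simp only [mem_inter_iff, mem_ofPred_eq]
          exact and_comm
        rw [h3]
        refine (trans_set hE.nullMeasurableSet hv hP hper h).trans ?_
        apply ENNReal.ofReal_le_ofReal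
        apply mul_le_mul_of_nonneg_right _ hP
        rwa [hH, mem_closedBall_zero_iff] at hh
    _ = volume (closedBall (0 : En N) (s * √N)) * ENNReal.ofReal (s * √N * P) := by
        rw [lintegral_const, Measure.restrict_apply_univ, mul_comm]

end Pool.Agent.Helper88.Weyl
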