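import Mathlib
import Pool.Agent.Helper88.Weyl.Lat

open MeasureTheory Set Metric Filter Topology
open scoped ENNReal NNReal

noncomputable section

set_option linter.unusedSectionVars false

namespace Pool.Agent.Helper88.Weyl

open Pool.Agent.Helper88.Sup (mul_tendsto' mul_int' cs' sq_tendsto')

variable {N : ℕ}

/-- the Neumann modes below `L` -/
def Fs (N : ℕ) (L : ℝ) : Finset (Fin N → ℕ) :=
  (Fintype.piFinset fun _ => Finset.range (⌊L⌋₊ + 1)).filter
    fun m => Real.pi ^ 2 * ∑ i, (m i : ℝ) ^ 2 < L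

lemma mem_Fs {L : ℝ} (m : Fin N → ℕ) : m ∈ Fs N L ↔ Real.pi ^ 2 * ∑ i, (m i : ℝ) ^ 2 < L := by
  unfold Fs
  rw [Finset.mem_filter, Fintype.mem_piFinset]
  refine ⟨fun h => h.2, fun h => ⟨fun i => ?_, h⟩⟩
  rw [Finset.mem_range, Nat.lt_succ_iff]
  apply Nat.le_floor
  have h1 : (m i : ℝ) ≤ (m i : ℝ) ^ 2 := by
    rcases Nat.eq_zero_or_pos (m i) with h0 | h0
    · rw [h0]; simp
    · have : (1:ℝ) ≤ m i := by exact_mod_cast h0
      nlinarith
  have h2 : (m i : ℝ) ^ 2 ≤ ∑ i, (m i : ℝ) ^ 2 :=
    Finset.single_le_sum (f := fun i => (m i : ℝ) ^ 2) (fun i _ => sq_nonneg _)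
      (Finset.mem_univ i)
  have h3 : (1:ℝ) ≤ Real.pi ^ 2 := by nlinarith [Real.pi_gt_three]
  have h4 : 0 ≤ ∑ i, (m i : ℝ) ^ 2 := Finset.sum_nonneg fun i _ => sq_nonneg _
  nlinarith

lemma fr_sum (s : ℝ) (m : Fin N → ℕ) :
    ∑ i, fr s m i ^ 2 = Real.pi ^ 2 * (∑ i, (m i : ℝ) ^ 2) / s ^ 2 := by
  unfold fr
  rw [Finset.mul_sum, Finset.sum_div]
  apply Finset.sum_congr rfl
  intro i _
  ring

lemma fr_out {s : ℝ} (hs : 0 < s) {L : ℝ} {m : Fin N → ℕ} (hm : m ∉ Fs N L) :
    L / s ^ 2 ≤ ∑ i, fr s m i ^ 2 := by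
  rw [mem_Fs, not_lt] at hm
  rw [fr_sum]
  exact div_le_div_of_nonneg_right hm (by positivity)

/-- threshold parameter -/
def th (N : ℕ) (L : ℝ) : ℝ := 1 / (2 ^ (N + 1) * ((Fs N (2 * L)).card + 1))

lemma th_pos (N : ℕ) (L : ℝ) : 0 < th N L := by unfold th; positivity
lemma th_le (N : ℕ) (L : ℝ) : th N L ≤ 1 := by
  unfold th
  rw [div_le_one (by positivity)]
  have h1 : (1:ℝ) ≤ 2 ^ (N + 1) := one_le_pow₀ (by norm_num)
  have h2 : (1:ℝ) ≤ (Fs N (2 * L)).card + 1 := by
    have : (0:ℝ) ≤ (Fs N (2 * L)).card := Nat.cast_nonneg _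
    linarith
  nlinarith

/-- volume constant -/
def kc (N : ℕ) : ℝ := √N ^ N * om N * √N

/-- count of heavy cubes -/
lemma heavy_count (hN : 1 ≤ N) {E : Set (En N)} (hE : MeasurableSet E) (hv : volume E ≠ ⊤)
    {P : ℝ} (hP : 0 ≤ P) (hper : perimeter E ≤ ENNReal.ofReal P) {s : ℝ} (hs : 0 < s) {θ : ℝ}
    (hθ : 0 < θ) :
    ∃ B : Finset (Fin N → ℤ), (∀ z ∉ B, volume.real (E ∩ Qz s z) < θ * s ^ N) ∧
      (B.card : ℝ) * s ^ N ≤ volume.real E + 2 / θ * kc N * (s * P) := by
  have hsN : 0 < s ^ N := by positivity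
  have hdisj : Pairwise (Function.onFun Disjoint (fun z => E ∩ Qz (N := N) s z)) := by
    intro z z' hne
    exact (Qz_disj hs hne).mono inter_subset_right inter_subset_right
  have hfin : Set.Finite {z | ENNReal.ofReal (θ * s ^ N) ≤ volume (E ∩ Qz (N := N) s z)} := by
    apply Measure.finite_const_le_meas_of_disjoint_iUnion volume
    · rw [ENNReal.ofReal_pos]
      positivity
    · exact fun z => hE.inter (Qz_meas s z)
    · exact hdisj
    · exact measure_ne_top_of_subset (iUnion_subset fun z => inter_subset_left) hv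
  set B := hfin.toFinset with hB
  have hEf : ∀ z, volume (E ∩ Qz (N := N) s z) ≠ ⊤ := fun z =>
    measure_ne_top_of_subset inter_subset_left hv
  have hQf : ∀ z, volume (Qz (N := N) s z \ E) ≠ ⊤ := fun z =>
    measure_ne_top_of_subset sdiff_subset (Qz_fin s z).ne
  refine ⟨B, ?_, ?_⟩
  · intro z hz
    rw [hB, Finite.mem_toFinset, mem_ofPred_eq, not_le] at hz
    rw [measureReal_def]
    exact (ENNReal.lt_ofReal_iff_toReal_lt (hEf z)).mp hz
  · have hBm : ∀ z ∈ B, θ * s ^ N ≤ volume.real (E ∩ Qz s z) := by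
      intro z hz
      rw [hB, Finite.mem_toFinset, mem_ofPred_eq] at hz
      rw [measureReal_def]
      exact (ENNReal.ofReal_le_iff_le_toReal (hEf z)).mp hz
    have hab : ∀ z, volume.real (E ∩ Qz (N := N) s z) + volume.real (Qz (N := N) s z \ E) =
        s ^ N := by
      intro z
      have h1 := measureReal_inter_add_sdiff (μ := (volume : Measure (En N))) (s := Qz s z)
        (t := E) hE (Qz_fin s z).ne
      rw [inter_comm, h1, measureReal_def, Qz_vol hs, ENNReal.toReal_ofReal hsN.le]
    have hsumE : ∑ z ∈ B, volume.real (E ∩ Qz s z) ≤ volume.real E := by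
      have hd : Set.PairwiseDisjoint (B : Set (Fin N → ℤ)) (fun z => E ∩ Qz (N := N) s z) :=
        fun z _ z' _ hne => hdisj hne
      rw [← measureReal_biUnion_finset hd (fun z _ => hE.inter (Qz_meas s z)) (fun z _ => hEf z)]
      exact measureReal_mono (iUnion₂_subset fun z _ => inter_subset_left) hv
    have hsumab : ∑ z ∈ B, volume.real (E ∩ Qz s z) * volume.real (Qz s z \ E) ≤
        kc N * s ^ N * (s * P) := by
      have h1 := cube_sum hE hv hP hper hs B
      have hcb : volume (closedBall (0 : En N) (s * √N)) ≠ ⊤ := measure_closedBall_lt_top.ne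
      have h2 := ENNReal.toReal_mono (ENNReal.mul_ne_top hcb ENNReal.ofReal_ne_top) h1
      rw [ENNReal.toReal_sum (fun z _ => ENNReal.mul_ne_top (hEf z) (hQf z)),
        ENNReal.toReal_mul, ENNReal.toReal_ofReal (by positivity)] at h2
      simp only [ENNReal.toReal_mul] at h2
      have hnt : Nontrivial (En N) := Module.nontrivial_of_finrank_pos (R := ℝ)
        (by rw [finrank_euclideanSpace_fin]; omega)
      have h3 : (volume (closedBall (0 : En N) (s * √N))).toReal = (s * √N) ^ N * om N := by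
        rw [Measure.addHaar_closedBall_eq_addHaar_ball, ← measureReal_def,
          vol_ball finrank_euclideanSpace_fin hN (0 : En N) (by positivity)]
      rw [h3] at h2
      refine h2.trans (le_of_eq ?_)
      unfold kc
      rw [mul_pow]
      ring
    have hpt : ∀ z ∈ B, s ^ N ≤ volume.real (E ∩ Qz s z) + 2 / (θ * s ^ N) *
        (volume.real (E ∩ Qz s z) * volume.real (Qz s z \ E)) := by
      intro z hz
      have ha := hBm z hz
      have hs2 := hab z
      set α := volume.real (E ∩ Qz s z)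
      set β := volume.real (Qz s z \ E)
      have hα : 0 ≤ α := measureReal_nonneg
      have hβ : 0 ≤ β := measureReal_nonneg
      have hθs : 0 < θ * s ^ N := by positivity
      rcases le_or_gt β (s ^ N / 2) with hc | hc
      · have h1 : s ^ N / 2 ≤ α := by linarith
        have hθ1 : θ ≤ 1 := by
          by_contra hcon
          push Not at hcon
          nlinarith
        have h2 : β ≤ 2 / (θ * s ^ N) * (α * β) := by
          have h3 : 1 ≤ 2 / (θ * s ^ N) * α := by
            rw [div_mul_eq_mul_div, le_div_iff₀ hθs]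
            nlinarith
          nlinarith
        linarith
      · have h3 : 1 ≤ 1 / (θ * s ^ N) * α := by
          rw [div_mul_eq_mul_div, le_div_iff₀ hθs]
          linarith
        have h4 : 2 / (θ * s ^ N) * (α * β) = 2 * β * (1 / (θ * s ^ N) * α) := by ring
        rw [h4]
        nlinarith
    calc (B.card : ℝ) * s ^ N = ∑ z ∈ B, s ^ N := by rw [Finset.sum_const, nsmul_eq_mul]
      _ ≤ ∑ z ∈ B, (volume.real (E ∩ Qz s z) + 2 / (θ * s ^ N) *
          (volume.real (E ∩ Qz s z) * volume.real (Qz s z \ E))) :=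
          Finset.sum_le_sum hpt
      _ = (∑ z ∈ B, volume.real (E ∩ Qz s z)) + 2 / (θ * s ^ N) *
          ∑ z ∈ B, volume.real (E ∩ Qz s z) * volume.real (Qz s z \ E) := by
          rw [Finset.sum_add_distrib, ← Finset.mul_sum]
      _ ≤ volume.real E + 2 / (θ * s ^ N) * (kc N * s ^ N * (s * P)) := by
          gcongr
      _ = volume.real E + 2 / θ * kc N * (s * P) := by
          field_simp

section small

variable {n : ℕ} {a : Fin (n + 1) → ℝ} {s : ℝ}

/-- Poincaré inequality for functions with small support in the box -/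
lemma small_support (hs : 0 < s) {u : En (n + 1) → ℝ} {G : En (n + 1) → En (n + 1)}
    (h : IsH1 u G) {E : Set (En (n + 1))} (hE : MeasurableSet E) (hu : ∀ᵐ x, x ∉ E → u x = 0)
    {L : ℝ} (hL : 0 ≤ L) (hsmall : volume.real (E ∩ Bx a s) ≤ th (n + 1) L * s ^ (n + 1)) :
    L / s ^ 2 * ∫ x in Bx a s, u x ^ 2 ≤ ∫ x in Bx a s, ‖G x‖ ^ 2 := by
  set U := ∫ x in Bx a s, u x ^ 2 with hU
  have hU0 : 0 ≤ U := integral_nonneg fun x => sq_nonneg _
  have hnm := neumann (a := a) hs h (F0 := Fs (n + 1) (2 * L)) (L := 2 * L / s ^ 2)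
    (by positivity) (fun m hm => fr_out hs hm)
  have hum : MemLp u 2 (volume.restrict (Bx a s)) := h.memu.restrict _
  have hcu : ∀ m, cu a s u m ^ 2 ≤ th (n + 1) L * s ^ (n + 1) * U := by
    intro m
    have e1 : cu a s u m = ∫ x in Bx a s, u x * E.indicator (em a s m) x := by
      unfold cu
      apply integral_congr_ae
      filter_upwards [ae_restrict_of_ae hu] with x hx
      by_cases hxE : x ∈ E
      · rw [indicator_of_mem hxE]
      · rw [hx hxE, zero_mul, zero_mul]
    have hem : MemLp (E.indicator (em a s m)) 2 (volume.restrict (Bx a s)) :=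
      (cont_mem (em_cont m) a s).indicator hE
    have h1 := cs' hum hem
    rw [← e1] at h1
    have h2 : ∫ x in Bx a s, E.indicator (em a s m) x ^ 2 ≤ volume.real (E ∩ Bx a s) := by
      have : ∫ x in Bx a s, E.indicator (em a s m) x ^ 2 ≤
          ∫ x in Bx a s, E.indicator (fun _ => (1:ℝ)) x := by
        apply integral_mono (sqm hem)
        · have : IsFiniteMeasure (volume.restrict (Bx a s)) :=
            ⟨by rw [Measure.restrict_apply_univ]; exact Bx_fin a s⟩
          exact (integrable_const (1:ℝ)).indicator hE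
        · intro x
          simp only
          by_cases hxE : x ∈ E
          · rw [indicator_of_mem hxE, indicator_of_mem hxE]
            have := abs_em (a := a) (s := s) (m := m) x
            rw [← sq_abs]
            exact pow_le_one₀ (abs_nonneg _) this
          · rw [indicator_of_notMem hxE, indicator_of_notMem hxE]
            simp
      refine this.trans (le_of_eq ?_)
      rw [integral_indicator hE, setIntegral_const, smul_eq_mul, mul_one, measureReal_restrict_apply hE]
    have h3 : |cu a s u m| ^ 2 ≤ (√U * √(∫ x in Bx a s, E.indicator (em a s m) x ^ 2)) ^ 2 :=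
      pow_le_pow_left₀ (abs_nonneg _) h1 2
    rw [sq_abs, mul_pow, Real.sq_sqrt hU0,
      Real.sq_sqrt (integral_nonneg fun x => sq_nonneg _)] at h3
    have h4 := mul_le_mul_of_nonneg_left (h2.trans hsmall) hU0
    linarith
  have hsum : ∑ m ∈ Fs (n + 1) (2 * L), cu a s u m ^ 2 / nn a s m ≤ U / 2 := by
    have h5 : ∀ m ∈ Fs (n + 1) (2 * L), cu a s u m ^ 2 / nn a s m ≤
        2 ^ (n + 1) * th (n + 1) L * U := by
      intro m _
      rw [div_le_iff₀ (nn_pos hs m)]
      refine (hcu m).trans ?_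
      have h6 := mul_le_mul_of_nonneg_left (nn_lower (a := a) hs m)
        (show 0 ≤ 2 ^ (n + 1) * th (n + 1) L * U by have := th_pos (n + 1) L; positivity)
      refine le_trans (le_of_eq ?_) h6
      rw [div_pow]
      field_simp
    refine (Finset.sum_le_sum h5).trans ?_
    rw [Finset.sum_const, nsmul_eq_mul]
    have h7 : ((Fs (n + 1) (2 * L)).card : ℝ) * (2 ^ (n + 1) * th (n + 1) L) ≤ 1 / 2 := by
      unfold th
      set c : ℝ := ((Fs (n + 1) (2 * L)).card : ℝ)
      have hc : 0 ≤ c := Nat.cast_nonneg _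
      have e : c * (2 ^ (n + 1) * (1 / (2 ^ (n + 1 + 1) * (c + 1)))) = c / (2 * (c + 1)) := by
        rw [pow_succ (2:ℝ) (n + 1)]
        field_simp
      rw [e, div_le_div_iff₀ (by positivity) (by norm_num)]
      linarith
    nlinarith
  have h8 : L / s ^ 2 * U = 2 * L / s ^ 2 * (U / 2) := by ring
  rw [h8]
  refine le_trans ?_ hnm
  apply mul_le_mul_of_nonneg_left _ (by positivity)
  linarith

end small

/-- the lower bound for the eigenvalues -/
theorem lower {n : ℕ} {E : Set (En (n + 1))} (hE : MeasurableSet E) (hv : volume E ≠ ⊤)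
    {P : ℝ} (hP : 0 ≤ P) (hper : perimeter E ≤ ENNReal.ofReal P) {s : ℝ} (hs : 0 < s) {L : ℝ}
    (hL : 0 < L) {k : ℕ} (hk : 0 < k) {r : ℝ} (hr : r < L / s ^ 2)
    {V : Submodule ℝ (Lp ℝ 2 (volume : Measure (En (n + 1))))} (hV : Module.finrank ℝ V = k)
    (hrep : ∀ f ∈ V, ∃ G : En (n + 1) → En (n + 1), IsH1 f G ∧ (∀ᵐ x, x ∉ E → f x = 0) ∧
      ∫ x, ‖G x‖ ^ 2 ≤ r * ∫ x, f x ^ 2) :
    (k : ℝ) * s ^ (n + 1) ≤ (Fs (n + 1) L).card *
      (volume.real E + 2 / th (n + 1) L * kc (n + 1) * (s * P)) := by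
  obtain ⟨B, hB1, hB2⟩ := heavy_count (by omega) hE hv hP hper hs (th_pos (n + 1) L)
  have hkB : k ≤ B.card * (Fs (n + 1) L).card := by
    by_contra hcon
    push Not at hcon
    have hmemL : ∀ f : Lp ℝ 2 (volume : Measure (En (n + 1))), ∀ (S : Set (En (n + 1))),
        MemLp f 2 (volume.restrict S) := fun f S => (Lp.memLp f).restrict S
    -- the linear map of Fourier coefficients
    let T : V →ₗ[ℝ] ((B × Fs (n + 1) L : Type) → ℝ) :=
      { toFun := fun f p => cu (co s p.1.1) s ((f : Lp ℝ 2 (volume : Measure (En (n + 1)))) :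
          En (n + 1) → ℝ) p.2.1
        map_add' := by
          intro f g
          funext p
          simp only [Pi.add_apply]
          unfold cu
          have i1 := mul_int' (hmemL f (Bx (co s p.1.1) s)) (cont_mem (em_cont (a := co s p.1.1)
            (s := s) p.2.1) (co s p.1.1) s)
          have i2 := mul_int' (hmemL g (Bx (co s p.1.1) s)) (cont_mem (em_cont (a := co s p.1.1)
            (s := s) p.2.1) (co s p.1.1) s)
          rw [← integral_add i1 i2]
          apply integral_congr_ae
          filter_upwards [ae_restrict_of_ae (Lp.coeFn_add (f : Lp ℝ 2 (volume : Measure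
            (En (n + 1)))) g)] with x hx
          rw [Submodule.coe_add, hx, Pi.add_apply]
          ring
        map_smul' := by
          intro c f
          funext p
          simp only [RingHom.id_apply, Pi.smul_apply, smul_eq_mul]
          unfold cu
          rw [← integral_const_mul]
          apply integral_congr_ae
          filter_upwards [ae_restrict_of_ae (Lp.coeFn_smul c (f : Lp ℝ 2 (volume : Measure
            (En (n + 1)))))] with x hx
          rw [Submodule.coe_smul, hx, Pi.smul_apply, smul_eq_mul]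
          ring }
    have : FiniteDimensional ℝ V := Module.finite_of_finrank_pos (by rw [hV]; exact hk)
    have hfr : Module.finrank ℝ ((B × Fs (n + 1) L : Type) → ℝ) < Module.finrank ℝ V := by
      rw [Module.finrank_fintype_fun_eq_card, Fintype.card_prod, Fintype.card_coe,
        Fintype.card_coe, hV]
      exact hcon
    have hker := LinearMap.ker_ne_bot_of_finrank_lt (f := T) hfr
    obtain ⟨f, hfker, hf0⟩ := (Submodule.ne_bot_iff _).mp hker
    have hfT : T f = 0 := hfker
    obtain ⟨G, hG1, hG2, hG3⟩ := hrep f f.2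
    set u : En (n + 1) → ℝ := ((f : Lp ℝ 2 (volume : Measure (En (n + 1)))) : En (n + 1) → ℝ)
      with hu
    have hlocal : ∀ z, L / s ^ 2 * ∫ x in Qz s z, u x ^ 2 ≤ ∫ x in Qz s z, ‖G x‖ ^ 2 := by
      intro z
      have e1 : ∫ x in Qz s z, u x ^ 2 = ∫ x in Bx (co s z) s, u x ^ 2 := int_HB _ _ _
      have e2 : ∫ x in Qz s z, ‖G x‖ ^ 2 = ∫ x in Bx (co s z) s, ‖G x‖ ^ 2 := int_HB _ _ _
      rw [e1, e2]
      by_cases hz : z ∈ B
      · have hnm := neumann (a := co s z) hs hG1 (F0 := Fs (n + 1) L) (L := L / s ^ 2)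
          (by positivity) (fun m hm => fr_out hs hm)
        have h0 : ∑ m ∈ Fs (n + 1) L, cu (co s z) s u m ^ 2 / nn (co s z) s m = 0 := by
          apply Finset.sum_eq_zero
          intro m hm
          have := congrFun hfT (⟨z, hz⟩, ⟨m, hm⟩)
          have h1 : cu (co s z) s u m = 0 := this
          rw [h1]
          simp
        rwa [h0, sub_zero] at hnm
      · apply small_support hs hG1 hE hG2 hL.le
        have h1 := (hB1 z hz).le
        have h2 : volume.real (E ∩ Bx (co s z) s) = volume.real (E ∩ Qz s z) := by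
          rw [measureReal_def, measureReal_def]
          congr 1
          apply measure_congr
          exact (ae_eq_refl E).inter (Hx_ae (co s z) s).symm
        rw [h2]
        exact h1
    have hui : Integrable (fun x => u x ^ 2) := sqm hG1.memu
    have hGi : Integrable (fun x => ‖G x‖ ^ 2) := Pool.Agent.Helper88.Sup.sq_int hG1.memG
    have s1 := hasSum_integral_iUnion (f := fun x => u x ^ 2) (fun z => Qz_meas s z)
      (Qz_disj (N := n + 1) hs) hui.integrableOn
    have s2 := hasSum_integral_iUnion (f := fun x => ‖G x‖ ^ 2) (fun z => Qz_meas s z)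
      (Qz_disj (N := n + 1) hs) hGi.integrableOn
    rw [Qz_union hs, setIntegral_univ] at s1 s2
    have h3 := hasSum_le hlocal (s1.mul_left (L / s ^ 2)) s2
    have h4 : 0 < ∫ x, u x ^ 2 := by
      have h5 := Pool.Agent.Helper88.Sup.normsq_toLp hG1.memu
      have h6 : hG1.memu.toLp u = (f : Lp ℝ 2 (volume : Measure (En (n + 1)))) := Lp.toLp_coeFn _ _
      rw [h6] at h5
      have h7 : ∫ x, u x ^ 2 = ‖(f : Lp ℝ 2 (volume : Measure (En (n + 1))))‖ ^ 2 := by
        rw [h5]
        simp only [Real.norm_eq_abs, sq_abs]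
      rw [h7]
      have : (f : Lp ℝ 2 (volume : Measure (En (n + 1)))) ≠ 0 := by
        intro h8
        exact hf0 (Subtype.ext h8)
      positivity
    nlinarith
  have hkR : (k : ℝ) ≤ B.card * (Fs (n + 1) L).card := by exact_mod_cast hkB
  calc (k : ℝ) * s ^ (n + 1) ≤ (B.card * (Fs (n + 1) L).card) * s ^ (n + 1) := by gcongr
    _ = (Fs (n + 1) L).card * (B.card * s ^ (n + 1)) := by ring
    _ ≤ _ := by gcongr

end Pool.Agent.Helper88.Weyl
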