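import Mathlib
import Pool.Agent.Helper88.Weyl.Low

open MeasureTheory Set Metric Filter Topology
open scoped ENNReal NNReal

noncomputable section

set_option linter.unusedSectionVars false

namespace Pool.Agent.Helper88.Weyl

open Pool.Agent.Helper88.Sup (mul_tendsto' mul_int' cs' sq_tendsto')

variable {N : ℕ}

lemma hyper_null (i : Fin N) (c : ℝ) : volume {x : En N | x i = c} = 0 := by
  have h1 : {x : En N | x i = c} = (WithLp.ofLp : En N → (Fin N → ℝ)) ⁻¹' {y | y i = c} := rfl
  have hm : MeasurableSet {y : Fin N → ℝ | y i = c} := by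
    apply measurableSet_eq_fun (measurable_pi_apply i) measurable_const
  rw [h1, ofLp_mp.measure_preimage hm.nullMeasurableSet]
  exact Measure.pi_hyperplane (fun _ : Fin N => (volume : Measure ℝ)) i c

lemma countable_null (i : Fin N) {C : Set ℝ} (hC : C.Countable) :
    volume {x : En N | x i ∈ C} = 0 := by
  have : {x : En N | x i ∈ C} = ⋃ c ∈ C, {x : En N | x i = c} := by
    ext x
    simp
  rw [this, measure_biUnion_null_iff hC]
  exact fun c _ => hyper_null i c

lemma sin_zero_countable {ω a : ℝ} (hω : ω ≠ 0) : {t : ℝ | Real.sin (ω * (t - a)) = 0}.Countable := by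
  have : {t : ℝ | Real.sin (ω * (t - a)) = 0} ⊆ range (fun k : ℤ => a + k * Real.pi / ω) := by
    intro t ht
    obtain ⟨k, hk⟩ := Real.sin_eq_zero_iff.mp ht
    refine ⟨k, ?_⟩
    simp only
    rw [hk]
    field_simp
    ring
  exact (countable_range _).mono this

lemma wm_zero_null {a : Fin N → ℝ} {s : ℝ} (hs : 0 < s) {m : Fin N → ℕ} (hm : ∀ i, 1 ≤ m i) :
    volume {x : En N | wm a s m x = 0} = 0 := by
  have hsub : {x : En N | wm a s m x = 0} ⊆
      ⋃ i, {x : En N | x i ∈ {t : ℝ | Real.sin (fr s m i * (t - a i)) = 0}} := by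
    intro x hx
    have hx : ∏ i, sn a s m i (x i) = 0 := hx
    rw [Finset.prod_eq_zero_iff] at hx
    obtain ⟨i, -, hi⟩ := hx
    exact mem_iUnion.mpr ⟨i, hi⟩
  apply measure_mono_null hsub
  rw [measure_iUnion_null_iff]
  intro i
  apply countable_null
  apply sin_zero_countable
  unfold fr
  have : (1:ℝ) ≤ m i := by exact_mod_cast hm i
  have := Real.pi_pos
  positivity

/-- open box -/
def Ox (a : Fin N → ℝ) (s : ℝ) : Set (En N) := {x | ∀ i, a i < x i ∧ x i < a i + s}

lemma Ox_open (a : Fin N → ℝ) (s : ℝ) : IsOpen (Ox a s) := by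
  have : Ox a s = ⋂ i, {x : En N | a i < x i ∧ x i < a i + s} := by
    ext x
    simp [Ox]
  rw [this]
  apply isOpen_iInter_of_finite
  intro i
  have hc : Continuous (fun x : En N => x i) := (EuclideanSpace.proj i : En N →L[ℝ] ℝ).continuous
  exact (isOpen_lt continuous_const hc).inter (isOpen_lt hc continuous_const)

lemma Ox_sub (a : Fin N → ℝ) (s : ℝ) : Ox a s ⊆ Hx a s := fun _ hx i => ⟨(hx i).1.le, (hx i).2⟩

lemma Hx_Ox_null (a : Fin N → ℝ) (s : ℝ) : volume (Hx a s \ Ox a s) = 0 := by
  have hsub : Hx a s \ Ox a s ⊆ ⋃ i, {x : En N | x i = a i} := by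
    intro x hx
    have h1 := hx.2
    simp only [Ox, mem_ofPred_eq, not_forall, not_and_or, not_lt] at h1
    obtain ⟨i, hi⟩ := h1
    refine mem_iUnion.mpr ⟨i, ?_⟩
    rcases hi with hi | hi
    · exact le_antisymm hi (hx.1 i).1
    · exact absurd (hx.1 i).2 (not_lt.mpr hi)
  apply measure_mono_null hsub
  rw [measure_iUnion_null_iff]
  exact fun i => hyper_null i _

lemma wm_bdry {a : Fin N → ℝ} {s : ℝ} (hs : 0 < s) (m : Fin N → ℕ) {x : En N}
    (hx : x ∈ Bx a s) (hx' : x ∉ Ox a s) : wm a s m x = 0 := by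
  simp only [Ox, mem_ofPred_eq, not_forall, not_and_or, not_lt] at hx'
  obtain ⟨i, hi⟩ := hx'
  unfold wm tp
  apply Finset.prod_eq_zero (Finset.mem_univ i)
  rcases hi with hi | hi
  · have : x i = a i := le_antisymm hi (hx i).1
    rw [this, sn_left]
  · have : x i = a i + s := le_antisymm (hx i).2 hi
    rw [this, sn_right hs.ne']

/-- truncation of small values -/
def hj (j : ℕ) (t : ℝ) : ℝ := t * Real.smoothTransition (((j:ℝ) + 1) ^ 2 * t ^ 2 - 1)

lemma hj_CD (j : ℕ) : ContDiff ℝ (⊤ : ℕ∞) (hj j) := by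
  unfold hj
  exact contDiff_id.mul (Real.smoothTransition.contDiff.comp
    ((contDiff_const.mul (contDiff_id.pow 2)).sub contDiff_const))

lemma hj_small {j : ℕ} {t : ℝ} (ht : |t| < 1 / ((j:ℝ) + 1)) : hj j t = 0 := by
  unfold hj
  rw [Real.smoothTransition.zero_of_nonpos, mul_zero]
  have hj0 : (0:ℝ) < j + 1 := by positivity
  rw [lt_div_iff₀ hj0] at ht
  have h1 : (|t| * (j + 1)) ^ 2 ≤ 1 := pow_le_one₀ (by positivity) ht.le
  rw [mul_pow, sq_abs] at h1
  linarith

lemma hj_large {j : ℕ} {t : ℝ} (ht : 2 ≤ ((j:ℝ) + 1) ^ 2 * t ^ 2) : hj j t = t := by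
  unfold hj
  rw [Real.smoothTransition.one_of_one_le (by linarith), mul_one]

lemma hj_ev {t : ℝ} (ht : t ≠ 0) : ∀ᶠ j : ℕ in atTop, hj j =ᶠ[𝓝 t] id := by
  have ht2 : 0 < t ^ 2 := by positivity
  obtain ⟨J, hJ⟩ := exists_nat_gt (4 / t ^ 2)
  filter_upwards [eventually_ge_atTop J] with j hj'
  have h1 : (4:ℝ) < J * t ^ 2 := by rwa [div_lt_iff₀ ht2] at hJ
  have h2 : (J:ℝ) ≤ j := by exact_mod_cast hj'
  have h3 : (2:ℝ) < ((j:ℝ) + 1) ^ 2 * t ^ 2 := by
    have : (j:ℝ) * t ^ 2 ≤ ((j:ℝ) + 1) ^ 2 * t ^ 2 := by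
      apply mul_le_mul_of_nonneg_right _ ht2.le
      have : (0:ℝ) ≤ j := Nat.cast_nonneg j
      nlinarith
    nlinarith
  have hc : Continuous (fun t : ℝ => ((j:ℝ) + 1) ^ 2 * t ^ 2) := by fun_prop
  filter_upwards [hc.continuousAt.eventually_const_lt h3] with u hu
  exact hj_large hu.le

/-- uniform bound for the derivatives -/
lemma hj_bound : ∃ C : ℝ, 0 ≤ C ∧ ∀ j t, |deriv (hj j) t| ≤ C := by
  have hcont : Continuous (deriv Real.smoothTransition) :=
    (Real.smoothTransition.contDiff (n := 1)).continuous_deriv (by simp)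
  obtain ⟨K, hK⟩ := isCompact_Icc.exists_bound_of_continuousOn (s := Icc (0:ℝ) 1)
    hcont.continuousOn
  have hK0 : 0 ≤ K := (norm_nonneg _).trans (hK 0 ⟨le_rfl, zero_le_one⟩)
  refine ⟨1 + 4 * K, by positivity, ?_⟩
  intro j t
  set τ := ((j:ℝ) + 1) ^ 2 * t ^ 2 - 1 with hτ
  have hd : HasDerivAt (hj j) (1 * Real.smoothTransition τ +
      t * (deriv Real.smoothTransition τ * (((j:ℝ) + 1) ^ 2 * (2 * t)))) t := by
    have h1 : HasDerivAt (fun t : ℝ => ((j:ℝ) + 1) ^ 2 * t ^ 2 - 1)
        (((j:ℝ) + 1) ^ 2 * (2 * t)) t := by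
      have := ((hasDerivAt_pow 2 t).const_mul (((j:ℝ) + 1) ^ 2)).sub_const 1
      simpa using this
    have h2 : HasDerivAt Real.smoothTransition (deriv Real.smoothTransition τ) τ :=
      ((Real.smoothTransition.contDiff (n := 1)).differentiable (by simp) τ).hasDerivAt
    have h2' : HasDerivAt Real.smoothTransition (deriv Real.smoothTransition τ)
        ((fun t : ℝ => ((j:ℝ) + 1) ^ 2 * t ^ 2 - 1) t) := h2
    have h3 : HasDerivAt (fun t : ℝ => Real.smoothTransition (((j:ℝ) + 1) ^ 2 * t ^ 2 - 1))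
        (deriv Real.smoothTransition τ * (((j:ℝ) + 1) ^ 2 * (2 * t))) t :=
      HasDerivAt.comp (h := fun t : ℝ => ((j:ℝ) + 1) ^ 2 * t ^ 2 - 1)
        (h₂ := Real.smoothTransition) t h2' h1
    exact (hasDerivAt_id t).mul h3
  rw [hd.deriv]
  have e : 1 * Real.smoothTransition τ +
      t * (deriv Real.smoothTransition τ * (((j:ℝ) + 1) ^ 2 * (2 * t))) =
      Real.smoothTransition τ + 2 * (τ + 1) * deriv Real.smoothTransition τ := by
    rw [hτ]
    ring
  rw [e]
  have h3 : |2 * (τ + 1) * deriv Real.smoothTransition τ| ≤ 4 * K := by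
    by_cases h : τ ∈ Icc (0:ℝ) 1
    · have h4 := hK τ h
      rw [Real.norm_eq_abs] at h4
      rw [abs_mul]
      have h5 : |2 * (τ + 1)| ≤ 4 := by
        rw [abs_of_nonneg (by linarith [h.1])]
        linarith [h.2]
      exact mul_le_mul h5 h4 (abs_nonneg _) (by norm_num)
    · have h6 : deriv Real.smoothTransition τ = 0 := by
        have : Real.smoothTransition =ᶠ[𝓝 τ] fun _ => Real.smoothTransition τ := by
          rcases lt_or_gt_of_ne (show τ ≠ 0 from fun h0 => h ⟨h0.ge, by rw [h0]; norm_num⟩)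
            with h0 | h0
          · filter_upwards [gt_mem_nhds h0] with u hu
            rw [Real.smoothTransition.zero_of_nonpos hu.le,
              Real.smoothTransition.zero_of_nonpos h0.le]
          · have h1 : 1 < τ := by
              by_contra hcon
              exact h ⟨h0.le, not_lt.mp hcon⟩
            filter_upwards [lt_mem_nhds h1] with u hu
            rw [Real.smoothTransition.one_of_one_le hu.le,
              Real.smoothTransition.one_of_one_le h1.le]
        rw [this.deriv_eq]
        simp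
      rw [h6, mul_zero, abs_zero]
      positivity
  have h7 : |Real.smoothTransition τ| ≤ 1 := by
    rw [abs_of_nonneg (Real.smoothTransition.nonneg _)]
    exact Real.smoothTransition.le_one _
  exact (abs_add_le _ _).trans (add_le_add h7 h3)

lemma hj_abs (j : ℕ) (t : ℝ) : |t - hj j t| ≤ |t| := by
  unfold hj
  have h0 := Real.smoothTransition.nonneg (((j:ℝ) + 1) ^ 2 * t ^ 2 - 1)
  have h1 := Real.smoothTransition.le_one (((j:ℝ) + 1) ^ 2 * t ^ 2 - 1)
  set σ := Real.smoothTransition (((j:ℝ) + 1) ^ 2 * t ^ 2 - 1)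
  have : t - t * σ = t * (1 - σ) := by ring
  rw [this, abs_mul, abs_of_nonneg (by linarith : 0 ≤ 1 - σ)]
  exact mul_le_of_le_one_right (abs_nonneg _) (by linarith)

variable {a : Fin N → ℝ} {s : ℝ} {m : Fin N → ℕ}

/-- the Dirichlet eigenfunction of the cube, extended by zero -/
def ps (a : Fin N → ℝ) (s : ℝ) (m : Fin N → ℕ) : En N → ℝ := (Hx a s).indicator (wm a s m)

/-- its gradient -/
def pg (a : Fin N → ℝ) (s : ℝ) (m : Fin N → ℕ) : En N → En N :=
  (Hx a s).indicator (gradient (wm a s m))

/-- the approximants -/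
def pj (a : Fin N → ℝ) (s : ℝ) (m : Fin N → ℕ) (j : ℕ) : En N → ℝ :=
  (Ox a s).indicator (fun x => hj j (wm a s m x))

lemma pj_out (hs : 0 < s) (j : ℕ) {x : En N} (hx : x ∉ Ox a s) : pj a s m j =ᶠ[𝓝 x] 0 := by
  by_cases hxB : x ∈ Bx a s
  · have hw := wm_bdry hs m hxB hx
    have hc : Continuous (fun y : En N => |wm a s m y|) := (wm_cont m).abs
    have : ∀ᶠ y in 𝓝 x, |wm a s m y| < 1 / ((j:ℝ) + 1) := by
      apply hc.continuousAt.eventually_lt_const
      change |wm a s m x| < 1 / ((j:ℝ) + 1)
      rw [hw, abs_zero]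
      positivity
    filter_upwards [this] with y hy
    unfold pj
    by_cases hyO : y ∈ Ox a s
    · rw [indicator_of_mem hyO, hj_small hy]
      rfl
    · rw [indicator_of_notMem hyO]
      rfl
  · have hopen : IsOpen (Bx a s)ᶜ := (Bx_closed a s).isOpen_compl
    filter_upwards [hopen.mem_nhds hxB] with y hy
    unfold pj
    rw [indicator_of_notMem (fun h => hy (Hx_sub a s (Ox_sub a s h)))]
    rfl

lemma pj_in (j : ℕ) {x : En N} (hx : x ∈ Ox a s) :
    pj a s m j =ᶠ[𝓝 x] fun y => hj j (wm a s m y) := by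
  filter_upwards [(Ox_open a s).mem_nhds hx] with y hy
  unfold pj
  rw [indicator_of_mem hy]

lemma pj_CD (hs : 0 < s) (j : ℕ) : ContDiff ℝ (⊤ : ℕ∞) (pj a s m j) := by
  rw [contDiff_iff_contDiffAt]
  intro x
  by_cases hx : x ∈ Ox a s
  · exact (((hj_CD j).comp (wm_CD _)).contDiffAt).congr_of_eventuallyEq (pj_in j hx)
  · exact (contDiffAt_const (c := (0:ℝ))).congr_of_eventuallyEq (pj_out hs j hx)

lemma pj_cs (j : ℕ) : HasCompactSupport (pj a s m j) := by
  apply HasCompactSupport.intro (Bx_compact a s)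
  intro x hx
  unfold pj
  rw [indicator_of_notMem (fun h => hx (Hx_sub a s (Ox_sub a s h)))]

lemma pj_grad_in (j : ℕ) {x : En N} (hx : x ∈ Ox a s) :
    gradient (pj a s m j) x = deriv (hj j) (wm a s m x) • gradient (wm a s m) x := by
  have h1 : HasFDerivAt (fun y => hj j (wm a s m y))
      (deriv (hj j) (wm a s m x) • fderiv ℝ (wm a s m) x) x := by
    have h2 : HasDerivAt (hj j) (deriv (hj j) (wm a s m x)) (wm a s m x) :=
      ((hj_CD j).differentiable (by simp) _).hasDerivAt
    have h3 : HasFDerivAt (wm a s m) (fderiv ℝ (wm a s m) x) x :=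
      ((wm_CD 1 (a := a) (s := s) (m := m)).differentiable (by simp) x).hasFDerivAt
    exact h2.comp_hasFDerivAt x h3
  unfold gradient
  rw [(pj_in j hx).fderiv_eq, h1.fderiv, map_smul]

lemma pj_grad_out (hs : 0 < s) (j : ℕ) {x : En N} (hx : x ∉ Ox a s) :
    gradient (pj a s m j) x = 0 := by
  unfold gradient
  rw [(pj_out hs j hx).fderiv_eq]
  have : fderiv ℝ (0 : En N → ℝ) x = 0 := by
    exact fderiv_const_apply (0:ℝ)
  rw [this, map_zero]

lemma wgrad_cont : Continuous (gradient (wm a s m)) := by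
  unfold gradient
  exact (LinearIsometryEquiv.continuous _).comp ((wm_CD 1).continuous_fderiv (by simp))

lemma ps_mem : MemLp (ps a s m) 2 volume := by
  unfold ps
  rw [memLp_indicator_iff_restrict (Hx_meas a s)]
  exact (cont_mem (wm_cont m) a s).mono_measure (Measure.restrict_mono (Hx_sub a s) le_rfl)

lemma pg_mem : MemLp (pg a s m) 2 volume := by
  unfold pg
  rw [memLp_indicator_iff_restrict (Hx_meas a s)]
  have : IsFiniteMeasure (volume.restrict (Hx a s)) :=
    ⟨by rw [Measure.restrict_apply_univ]; exact Hx_fin a s⟩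
  obtain ⟨C, hC⟩ := (Bx_compact a s).exists_bound_of_continuousOn
    (wgrad_cont (a := a) (s := s) (m := m)).continuousOn
  apply MemLp.of_bound wgrad_cont.aestronglyMeasurable C
  filter_upwards [ae_restrict_mem (Hx_meas a s)] with x hx
  exact hC x (Hx_sub a s hx)

theorem ps_H1 (hs : 0 < s) (hm : ∀ i, 1 ≤ m i) : IsH1 (ps a s m) (pg a s m) := by
  obtain ⟨C, hC0, hC⟩ := hj_bound
  obtain ⟨D, hD⟩ := (Bx_compact a s).exists_bound_of_continuousOn
    (wgrad_cont (a := a) (s := s) (m := m)).continuousOn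
  have hnull1 : ∀ᵐ x : En N, x ∉ Hx a s \ Ox a s := by
    rw [ae_iff]
    simp only [not_not]
    exact Hx_Ox_null a s
  have hnull2 : ∀ᵐ x : En N, wm a s m x ≠ 0 := by
    rw [ae_iff]
    simp only [ne_eq, not_not]
    exact wm_zero_null hs hm
  refine ⟨ps_mem, pg_mem, pj a s m, fun j => ⟨pj_CD hs j, pj_cs j⟩, ?_, ?_⟩
  · have h0 : (∫ _x : En N, (0:ℝ)) = 0 := by simp
    rw [← h0]
    apply tendsto_integral_of_dominated_convergence ((Bx a s).indicator (fun _ => (1:ℝ)))
    · intro j
      have h1 := (ps_mem (a := a) (s := s) (m := m)).aestronglyMeasurable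
      exact (h1.sub (pj_CD hs j).continuous.aestronglyMeasurable).pow 2
    · exact (integrable_indicator_iff (Bx_meas a s)).mpr (integrableOn_const (Bx_fin a s).ne)
    · intro j
      filter_upwards [hnull1] with x hx
      rw [Real.norm_eq_abs, abs_of_nonneg (sq_nonneg _)]
      by_cases hxO : x ∈ Ox a s
      · have hxH := Ox_sub a s hxO
        unfold ps pj
        rw [indicator_of_mem hxH, indicator_of_mem hxO, indicator_of_mem (Hx_sub a s hxH)]
        rw [← sq_abs]
        exact pow_le_one₀ (abs_nonneg _) ((hj_abs _ _).trans (abs_wm x))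
      · have hxH : x ∉ Hx a s := fun h => hx ⟨h, hxO⟩
        unfold ps pj
        rw [indicator_of_notMem hxH, indicator_of_notMem hxO]
        simp only [sub_zero, ne_eq, OfNat.ofNat_ne_zero, not_false_eq_true, zero_pow]
        exact indicator_nonneg (fun _ _ => zero_le_one) x
    · filter_upwards [hnull1, hnull2] with x hx hw
      apply tendsto_const_nhds.congr'
      filter_upwards [hj_ev hw] with j hj'
      by_cases hxO : x ∈ Ox a s
      · have hxH := Ox_sub a s hxO
        unfold ps pj
        rw [indicator_of_mem hxH, indicator_of_mem hxO, hj'.eq_of_nhds]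
        simp
      · have hxH : x ∉ Hx a s := fun h => hx ⟨h, hxO⟩
        unfold ps pj
        rw [indicator_of_notMem hxH, indicator_of_notMem hxO]
        simp
  · have h0 : (∫ _x : En N, (0:ℝ)) = 0 := by simp
    rw [← h0]
    apply tendsto_integral_of_dominated_convergence
      ((Bx a s).indicator (fun _ => ((1 + C) * D) ^ 2))
    · intro j
      have h1 := (pg_mem (a := a) (s := s) (m := m)).aestronglyMeasurable
      have h2 : Continuous (gradient (pj a s m j)) := by
        unfold gradient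
        exact (LinearIsometryEquiv.continuous _).comp ((pj_CD hs j).continuous_fderiv (by simp))
      exact ((h1.sub h2.aestronglyMeasurable).norm).pow 2
    · exact (integrable_indicator_iff (Bx_meas a s)).mpr (integrableOn_const (Bx_fin a s).ne)
    · intro j
      filter_upwards [hnull1] with x hx
      rw [Real.norm_eq_abs, abs_of_nonneg (sq_nonneg _)]
      by_cases hxO : x ∈ Ox a s
      · have hxH := Ox_sub a s hxO
        unfold pg
        rw [indicator_of_mem hxH, indicator_of_mem (Hx_sub a s hxH), pj_grad_in j hxO]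
        apply pow_le_pow_left₀ (norm_nonneg _)
        have e : gradient (wm a s m) x - deriv (hj j) (wm a s m x) • gradient (wm a s m) x =
            (1 - deriv (hj j) (wm a s m x)) • gradient (wm a s m) x := by
          rw [sub_smul, one_smul]
        rw [e, norm_smul, Real.norm_eq_abs]
        apply mul_le_mul _ (hD x (Hx_sub a s hxH)) (norm_nonneg _) (by positivity)
        refine (abs_sub _ _).trans ?_
        rw [abs_one]
        linarith [hC j (wm a s m x)]
      · have hxH : x ∉ Hx a s := fun h => hx ⟨h, hxO⟩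
        unfold pg
        rw [indicator_of_notMem hxH, pj_grad_out hs j hxO]
        simp only [sub_zero, norm_zero, ne_eq, OfNat.ofNat_ne_zero, not_false_eq_true, zero_pow]
        exact indicator_nonneg (fun _ _ => sq_nonneg _) x
    · filter_upwards [hnull1, hnull2] with x hx hw
      apply tendsto_const_nhds.congr'
      filter_upwards [hj_ev hw] with j hj'
      by_cases hxO : x ∈ Ox a s
      · have hxH := Ox_sub a s hxO
        unfold pg
        rw [indicator_of_mem hxH, pj_grad_in j hxO, hj'.deriv_eq, deriv_id, one_smul, sub_self,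
          norm_zero]
        simp
      · have hxH : x ∉ Hx a s := fun h => hx ⟨h, hxO⟩
        unfold pg
        rw [indicator_of_notMem hxH, pj_grad_out hs j hxO]
        simp

lemma ps_cont (hs : 0 < s) : Continuous (ps a s m) := by
  have h1 : ps a s m = (Bx a s).indicator (wm a s m) := by
    funext x
    unfold ps
    by_cases hx : x ∈ Hx a s
    · rw [indicator_of_mem hx, indicator_of_mem (Hx_sub a s hx)]
    · rw [indicator_of_notMem hx]
      by_cases hxB : x ∈ Bx a s
      · rw [indicator_of_mem hxB, wm_bdry hs m hxB (fun h => hx (Ox_sub a s h))]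
      · rw [indicator_of_notMem hxB]
  rw [h1, continuous_iff_continuousAt]
  intro x
  by_cases hx : x ∈ Ox a s
  · apply (wm_cont m).continuousAt.congr
    filter_upwards [(Ox_open a s).mem_nhds hx] with y hy
    rw [indicator_of_mem (Hx_sub a s (Ox_sub a s hy))]
  · have hval : (Bx a s).indicator (wm a s m) x = 0 := by
      by_cases hxB : x ∈ Bx a s
      · rw [indicator_of_mem hxB, wm_bdry hs m hxB hx]
      · rw [indicator_of_notMem hxB]
    by_cases hxB : x ∈ Bx a s
    · have hw := wm_bdry hs m hxB hx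
      have hc : Tendsto (fun y => |wm a s m y|) (𝓝 x) (𝓝 0) := by
        have := (wm_cont (a := a) (s := s) m).abs.continuousAt (x := x)
        have h2 := this.tendsto
        rwa [hw, abs_zero] at h2
      rw [ContinuousAt, hval]
      apply squeeze_zero_norm _ hc
      intro y
      rw [Real.norm_eq_abs]
      by_cases hy : y ∈ Bx a s
      · rw [indicator_of_mem hy]
      · rw [indicator_of_notMem hy, abs_zero]
        exact abs_nonneg _
    · have hopen : IsOpen (Bx a s)ᶜ := (Bx_closed a s).isOpen_compl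
      apply (continuousAt_const (y := (0:ℝ))).congr
      filter_upwards [hopen.mem_nhds hxB] with y hy
      rw [indicator_of_notMem hy]

end Pool.Agent.Helper88.Weyl
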