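import Mathlib
import Pool.Agent.Helper88.Weyl.Up1

open MeasureTheory Set Metric Filter Topology
open scoped ENNReal NNReal

noncomputable section

set_option linter.unusedSectionVars false

namespace Pool.Agent.Helper88.Weyl

open Pool.Agent.Helper88.Sup (mul_tendsto' mul_int' cs' sq_tendsto' sq_int)

variable {N : ℕ}

lemma grad_add {φ ψ : En N → ℝ} {x : En N} (h1 : DifferentiableAt ℝ φ x)
    (h2 : DifferentiableAt ℝ ψ x) :
    gradient (fun x => φ x + ψ x) x = gradient φ x + gradient ψ x := by
  unfold gradient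
  rw [fderiv_fun_add h1 h2, map_add]

lemma grad_smul {φ : En N → ℝ} (c : ℝ) (x : En N) (h1 : DifferentiableAt ℝ φ x) :
    gradient (fun x => c * φ x) x = c • gradient φ x := by
  unfold gradient
  have : fderiv ℝ (fun x => c * φ x) x = c • fderiv ℝ φ x := fderiv_const_mul h1 c
  rw [this, map_smul]

lemma test_mem {φ : En N → ℝ} (h : ContDiff ℝ (⊤ : ℕ∞) φ ∧ HasCompactSupport φ) :
    MemLp φ 2 volume := h.1.continuous.memLp_of_hasCompactSupport h.2

lemma test_grad_mem {φ : En N → ℝ} (h : ContDiff ℝ (⊤ : ℕ∞) φ ∧ HasCompactSupport φ) :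
    MemLp (gradient φ) 2 volume := by
  have hc : Continuous (gradient φ) := by
    unfold gradient
    exact (LinearIsometryEquiv.continuous _).comp (h.1.continuous_fderiv (by simp))
  have hcs : HasCompactSupport (gradient φ) := by
    have := h.2.fderiv (𝕜 := ℝ)
    unfold gradient
    exact this.comp_left (g := (InnerProductSpace.toDual ℝ (En N)).symm) (map_zero _)
  exact hc.memLp_of_hasCompactSupport hcs

lemma H1_zero : IsH1 (fun _ : En N => (0:ℝ)) (fun _ => 0) := by
  have hg : ∀ x : En N, gradient (fun _ : En N => (0:ℝ)) x = 0 := by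
    intro x
    unfold gradient
    rw [fderiv_const_apply, map_zero]
  refine ⟨MemLp.zero, MemLp.zero, fun _ _ => 0, fun _ => ⟨contDiff_const,
    HasCompactSupport.zero⟩, ?_, ?_⟩
  · simp
  · simp_rw [hg]
    simp

lemma H1_add {u v : En N → ℝ} {G H : En N → En N} (h1 : IsH1 u G) (h2 : IsH1 v H) :
    IsH1 (fun x => u x + v x) (fun x => G x + H x) := by
  obtain ⟨φ, p1, p2, p3⟩ := h1.approx
  obtain ⟨ψ, q1, q2, q3⟩ := h2.approx
  refine ⟨h1.memu.add h2.memu, h1.memG.add h2.memG, fun j x => φ j x + ψ j x,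
    fun j => ⟨(p1 j).1.add (q1 j).1, (p1 j).2.add (q1 j).2⟩, ?_, ?_⟩
  · have ht : Tendsto (fun j => 2 * (∫ x, (u x - φ j x) ^ 2) + 2 * ∫ x, (v x - ψ j x) ^ 2)
        atTop (𝓝 (2 * 0 + 2 * 0)) := (p2.const_mul 2).add (q2.const_mul 2)
    rw [mul_zero, add_zero] at ht
    refine squeeze_zero (fun j => integral_nonneg fun x => sq_nonneg _) (fun j => ?_) ht
    have i1 := sqm (h1.memu.sub (test_mem (p1 j)))
    have i2 := sqm (h2.memu.sub (test_mem (q1 j)))
    simp only [Pi.sub_apply] at i1 i2
    rw [← integral_const_mul, ← integral_const_mul,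
      ← integral_add (i1.const_mul 2) (i2.const_mul 2)]
    apply integral_mono_of_nonneg (ae_of_all _ fun x => sq_nonneg _)
      ((i1.const_mul 2).add (i2.const_mul 2))
    apply ae_of_all
    intro x
    change (u x + v x - (φ j x + ψ j x)) ^ 2 ≤ 2 * (u x - φ j x) ^ 2 + 2 * (v x - ψ j x) ^ 2
    nlinarith [sq_nonneg ((u x - φ j x) - (v x - ψ j x))]
  · have ht : Tendsto (fun j => 2 * (∫ x, ‖G x - gradient (φ j) x‖ ^ 2) +
        2 * ∫ x, ‖H x - gradient (ψ j) x‖ ^ 2) atTop (𝓝 (2 * 0 + 2 * 0)) :=
      (p3.const_mul 2).add (q3.const_mul 2)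
    rw [mul_zero, add_zero] at ht
    refine squeeze_zero (fun j => integral_nonneg fun x => sq_nonneg _) (fun j => ?_) ht
    have i1 := sq_int (h1.memG.sub (test_grad_mem (p1 j)))
    have i2 := sq_int (h2.memG.sub (test_grad_mem (q1 j)))
    simp only [Pi.sub_apply] at i1 i2
    rw [← integral_const_mul, ← integral_const_mul,
      ← integral_add (i1.const_mul 2) (i2.const_mul 2)]
    apply integral_mono_of_nonneg (ae_of_all _ fun x => sq_nonneg _)
      ((i1.const_mul 2).add (i2.const_mul 2))
    apply ae_of_all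
    intro x
    change ‖G x + H x - gradient (fun x => φ j x + ψ j x) x‖ ^ 2 ≤
      2 * ‖G x - gradient (φ j) x‖ ^ 2 + 2 * ‖H x - gradient (ψ j) x‖ ^ 2
    rw [grad_add ((p1 j).1.differentiable (by simp) x) ((q1 j).1.differentiable (by simp) x)]
    have e : G x + H x - (gradient (φ j) x + gradient (ψ j) x) =
        (G x - gradient (φ j) x) + (H x - gradient (ψ j) x) := by abel
    rw [e]
    have h3 := norm_add_le (G x - gradient (φ j) x) (H x - gradient (ψ j) x)
    have h4 := norm_nonneg ((G x - gradient (φ j) x) + (H x - gradient (ψ j) x))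
    nlinarith [sq_nonneg (‖G x - gradient (φ j) x‖ - ‖H x - gradient (ψ j) x‖)]

lemma H1_smul {u : En N → ℝ} {G : En N → En N} (h1 : IsH1 u G) (c : ℝ) :
    IsH1 (fun x => c * u x) (fun x => c • G x) := by
  obtain ⟨φ, p1, p2, p3⟩ := h1.approx
  refine ⟨h1.memu.const_mul c, h1.memG.const_smul c, fun j x => c * φ j x,
    fun j => ⟨contDiff_const.mul (p1 j).1, (p1 j).2.mul_left⟩, ?_, ?_⟩
  · have := p2.const_mul (c ^ 2)
    rw [mul_zero] at this
    refine this.congr fun j => ?_
    rw [← integral_const_mul]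
    congr 1
    funext x
    ring
  · have := p3.const_mul (c ^ 2)
    rw [mul_zero] at this
    refine this.congr fun j => ?_
    rw [← integral_const_mul]
    congr 1
    funext x
    rw [grad_smul c x ((p1 j).1.differentiable (by simp) x), ← smul_sub, norm_smul, mul_pow,
      Real.norm_eq_abs, sq_abs]

lemma H1_sum {ι : Type*} (I : Finset ι) {u : ι → En N → ℝ} {G : ι → En N → En N}
    (h : ∀ i, IsH1 (u i) (G i)) (c : ι → ℝ) :
    IsH1 (fun x => ∑ i ∈ I, c i * u i x) (fun x => ∑ i ∈ I, c i • G i x) := by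
  classical
  induction I using Finset.induction_on with
  | empty => simpa using H1_zero
  | insert i I hi ih =>
    have := H1_add (H1_smul (h i) (c i)) ih
    simp_rw [Finset.sum_insert hi]
    exact this

lemma H1_congr {u v : En N → ℝ} {G : En N → En N} (h : IsH1 u G) (huv : u =ᵐ[volume] v) :
    IsH1 v G := by
  obtain ⟨φ, p1, p2, p3⟩ := h.approx
  refine ⟨(memLp_congr_ae huv).mp h.memu, h.memG, φ, p1, ?_, p3⟩
  refine p2.congr fun j => ?_
  apply integral_congr_ae
  filter_upwards [huv] with x hx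
  rw [hx]

lemma cap_empty : cap (∅ : Set (En N)) = 0 := by
  apply le_antisymm _ bot_le
  unfold cap
  apply iInf_le_of_le (fun _ => 0)
  apply iInf_le_of_le (fun _ => 0)
  apply iInf_le_of_le H1_zero
  apply iInf_le_of_le ⟨∅, isOpen_empty, subset_rfl, by simp⟩
  simp

lemma quasiOpen_of_open {Ω : Set (En N)} (h : IsOpen Ω) : QuasiOpen Ω := by
  intro ε hε
  refine ⟨∅, isOpen_empty, ?_, ?_⟩
  · rw [cap_empty]
    exact hε
  · rwa [union_empty]

lemma quasiCont_of_cont {v : En N → ℝ} (h : Continuous v) : QuasiCont v := by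
  intro ε hε
  refine ⟨∅, isOpen_empty, ?_, h.continuousOn⟩
  rw [cap_empty]
  exact hε

section modes

variable {a : Fin N → ℝ} {s : ℝ} {m : Fin N → ℕ}

/-- normalisation of the Dirichlet modes -/
def np (a : Fin N → ℝ) (s : ℝ) (m : Fin N → ℕ) : ℝ := ∫ x in Bx a s, wm a s m x * wm a s m x

lemma np_pos (hs : 0 < s) (hm : ∀ i, 1 ≤ m i) : 0 < np a s m := by
  have h0 : 0 ≤ np a s m := integral_nonneg fun x => mul_self_nonneg _
  rcases h0.eq_or_lt with h | h
  · exfalso
    have hi : IntegrableOn (fun x => wm a s m x * wm a s m x) (Bx a s) :=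
      on_Bx ((wm_cont m).mul (wm_cont m)) a s
    have h1 := (integral_eq_zero_iff_of_nonneg (fun x => mul_self_nonneg (wm a s m x)) hi).mp
      h.symm
    have h2 : ∀ᵐ x : En N, wm a s m x ≠ 0 := by
      rw [ae_iff]
      simp only [ne_eq, not_not]
      exact wm_zero_null hs hm
    have h3 : ∀ᵐ _x ∂(volume.restrict (Bx a s)), False := by
      filter_upwards [h1, ae_restrict_of_ae h2] with x hx1 hx2
      have : wm a s m x * wm a s m x = 0 := hx1
      exact hx2 (mul_self_eq_zero.mp this)
    rw [ae_iff] at h3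
    simp only [not_false_eq_true] at h3
    have h4 : volume (Bx a s) = 0 := by
      have : {_x : En N | True} = univ := by ext; simp
      rw [this, Measure.restrict_apply_univ] at h3
      exact h3
    rw [vol_Bx a hs.le, ENNReal.ofReal_eq_zero] at h4
    have : 0 < s ^ N := by positivity
    linarith
  · exact h

lemma ps_self : ∫ x, ps a s m x * ps a s m x = np a s m := by
  unfold np
  rw [← int_HB, ← integral_indicator (Hx_meas a s)]
  congr 1
  funext x
  unfold ps
  by_cases hx : x ∈ Hx a s
  · rw [indicator_of_mem hx, indicator_of_mem hx]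
  · rw [indicator_of_notMem hx, indicator_of_notMem hx, zero_mul]

lemma pg_comp (i : Fin N) (x : En N) : pg a s m x i = (Hx a s).indicator (Di (wm a s m) i) x := by
  unfold pg
  by_cases hx : x ∈ Hx a s
  · rw [indicator_of_mem hx, indicator_of_mem hx, Di_grad]
  · rw [indicator_of_notMem hx, indicator_of_notMem hx]
    rfl

end modes

section modes1

variable {n : ℕ} {s : ℝ}

lemma wm_orth {a : Fin (n + 1) → ℝ} (hs : 0 < s) {m m' : Fin (n + 1) → ℕ} (hne : m ≠ m') :
    ∫ x in Bx a s, wm a s m x * wm a s m' x = 0 := by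
  obtain ⟨i, hi⟩ := Function.ne_iff.mp hne
  have h1 := green_sin (a := a) hs m m' i
  have h2 := green_sin (a := a) hs m' m i
  have e1 : ∫ x in Bx a s, Di (wm a s m') i x * Di (wm a s m) i x =
      ∫ x in Bx a s, Di (wm a s m) i x * Di (wm a s m') i x := by
    congr 1
    funext x
    ring
  have e2 : ∫ x in Bx a s, wm a s m' x * wm a s m x =
      ∫ x in Bx a s, wm a s m x * wm a s m' x := by
    congr 1
    funext x
    ring
  rw [e1, h1, e2] at h2
  have h3 : (fr s m' i ^ 2 - fr s m i ^ 2) * ∫ x in Bx a s, wm a s m x * wm a s m' x = 0 := by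
    linarith
  rcases mul_eq_zero.mp h3 with h | h
  · exfalso
    apply hi
    have h4 : fr s m' i = fr s m i := by
      have p1 : 0 ≤ fr s m i := by unfold fr; positivity
      have p2 : 0 ≤ fr s m' i := by unfold fr; positivity
      exact (pow_left_inj₀ p2 p1 two_ne_zero).mp (by linarith)
    unfold fr at h4
    have hpi := Real.pi_pos.ne'
    field_simp at h4
    exact_mod_cast h4.symm
  · exact h

/-- mode indexed by a pair -/
def mo (s : ℝ) (p : (Fin (n + 1) → ℤ) × (Fin (n + 1) → ℕ)) : En (n + 1) → ℝ :=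
  ps (co s p.1) s p.2
def mg (s : ℝ) (p : (Fin (n + 1) → ℤ) × (Fin (n + 1) → ℕ)) : En (n + 1) → En (n + 1) :=
  pg (co s p.1) s p.2

lemma ind_prod {a : Fin (n + 1) → ℝ} {f g : En (n + 1) → ℝ} :
    ∫ x, (Hx a s).indicator f x * (Hx a s).indicator g x = ∫ x in Bx a s, f x * g x := by
  rw [← int_HB, ← integral_indicator (Hx_meas a s)]
  congr 1
  funext x
  by_cases hx : x ∈ Hx a s
  · rw [indicator_of_mem hx, indicator_of_mem hx, indicator_of_mem hx]
  · rw [indicator_of_notMem hx, indicator_of_notMem hx, indicator_of_notMem hx, zero_mul]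

lemma ind_disj (hs : 0 < s) {z z' : Fin (n + 1) → ℤ} (hne : z ≠ z') {f g : En (n + 1) → ℝ} :
    ∫ x, (Hx (co s z) s).indicator f x * (Hx (co s z') s).indicator g x = 0 := by
  have h0 : ∀ x, (Hx (co s z) s).indicator f x * (Hx (co s z') s).indicator g x = 0 := by
    intro x
    by_cases hx : x ∈ Hx (co s z) s
    · have : x ∉ Hx (co s z') s := Set.disjoint_left.mp (Qz_disj hs hne) hx
      rw [indicator_of_notMem this, mul_zero]
    · rw [indicator_of_notMem hx, zero_mul]
  simp_rw [h0]
  simp

lemma mo_orth (hs : 0 < s) {p q : (Fin (n + 1) → ℤ) × (Fin (n + 1) → ℕ)} (hne : p ≠ q) :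
    ∫ x, mo s p x * mo s q x = 0 := by
  unfold mo ps
  by_cases hz : p.1 = q.1
  · rw [hz, ind_prod]
    apply wm_orth hs
    intro hm
    exact hne (Prod.ext hz hm)
  · exact ind_disj hs hz

lemma mg_orth (hs : 0 < s) {p q : (Fin (n + 1) → ℤ) × (Fin (n + 1) → ℕ)} (hne : p ≠ q)
    (i : Fin (n + 1)) : ∫ x, mg s p x i * mg s q x i = 0 := by
  unfold mg
  simp_rw [pg_comp]
  by_cases hz : p.1 = q.1
  · rw [hz, ind_prod, green_sin hs, wm_orth hs, mul_zero]
    intro hm
    exact hne (Prod.ext hz hm)
  · exact ind_disj hs hz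

lemma mg_self (hs : 0 < s) (p : (Fin (n + 1) → ℤ) × (Fin (n + 1) → ℕ)) (i : Fin (n + 1)) :
    ∫ x, mg s p x i * mg s p x i = fr s p.2 i ^ 2 * np (co s p.1) s p.2 := by
  unfold mg
  simp_rw [pg_comp]
  rw [ind_prod, green_sin hs]
  rfl

/-- upper bound for the eigenvalues -/
theorem upper {Ω : Set (En (n + 1))} (hs : 0 < s) {L : ℝ} (hL : 0 ≤ L) {k : ℕ}
    (p : Fin k → (Fin (n + 1) → ℤ) × (Fin (n + 1) → ℕ)) (hp : Function.Injective p)
    (hp1 : ∀ j, Bx (co s (p j).1) s ⊆ Ω) (hp2 : ∀ j i, 1 ≤ (p j).2 i)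
    (hp3 : ∀ j, Real.pi ^ 2 * ∑ i, ((p j).2 i : ℝ) ^ 2 ≤ L) :
    eigenvalue k Ω ≤ ENNReal.ofReal (L / s ^ 2) := by
  have hr0 : 0 ≤ L / s ^ 2 := by positivity
  have hmm : ∀ j, MemLp (mo s (p j)) 2 volume := fun j => ps_mem
  set b : Fin k → Lp ℝ 2 (volume : Measure (En (n + 1))) := fun j => (hmm j).toLp (mo s (p j))
    with hb
  have hbpos : ∀ j, 0 < np (co s (p j).1) s (p j).2 := fun j => np_pos hs (hp2 j)
  have hin : ∀ i j, inner ℝ (b i) (b j) = ∫ x, mo s (p i) x * mo s (p j) x := by
    intro i j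
    rw [hb]
    simp only
    rw [Pool.Agent.Helper88.Sup.inner_toLp (hmm i) (hmm j)]
    congr 1
    funext x
    simp [mul_comm]
  have hli : LinearIndependent ℝ b := by
    apply linearIndependent_of_ne_zero_of_inner_eq_zero
    · intro j h0
      have h1 := hin j j
      rw [h0, inner_zero_left] at h1
      have h2 : ∫ x, mo s (p j) x * mo s (p j) x = np (co s (p j).1) s (p j).2 := ps_self
      rw [h2] at h1
      linarith [hbpos j]
    · intro i j hij
      change inner ℝ (b i) (b j) = 0
      rw [hin]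
      exact mo_orth hs fun h => hij (hp h)
  unfold eigenvalue
  apply iInf_le_of_le (Real.toNNReal (L / s ^ 2))
  apply iInf_le_of_le _ le_rfl
  refine ⟨Submodule.span ℝ (range b), ?_, ?_⟩
  · rw [finrank_span_eq_card hli, Fintype.card_fin]
  · intro u hu
    obtain ⟨c, hc⟩ := (Submodule.mem_span_range_iff_exists_fun ℝ).mp hu
    set v : En (n + 1) → ℝ := fun x => ∑ j, c j * mo s (p j) x with hv
    set G : En (n + 1) → En (n + 1) := fun x => ∑ j, c j • mg s (p j) x with hG
    have huv : v =ᵐ[volume] u := by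
      rw [← hc]
      have h1 : ∀ᵐ x, ∀ j, b j x = mo s (p j) x := by
        rw [ae_all_iff]
        intro j
        exact (hmm j).coeFn_toLp
      have h2 : (∑ j, c j • b j : Lp ℝ 2 (volume : Measure (En (n + 1)))) =ᵐ[volume]
          fun x => ∑ j, c j * b j x := by
        have h3 := Lp.coeFn_finsetSum (Finset.univ) (fun j => c j • b j)
        have h4 : ∀ᵐ x, ∀ j, (c j • b j : Lp ℝ 2 (volume : Measure (En (n + 1)))) x =
            c j * b j x := by
          rw [ae_all_iff]
          intro j
          filter_upwards [Lp.coeFn_smul (c j) (b j)] with x hx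
          rw [hx, Pi.smul_apply, smul_eq_mul]
        filter_upwards [h3, h4] with x hx3 hx4
        rw [hx3]
        simp only [Finset.sum_apply]
        exact Finset.sum_congr rfl fun j _ => hx4 j
      filter_upwards [h1, h2] with x hx1 hx2
      rw [hx2, hv]
      simp only
      exact Finset.sum_congr rfl fun j _ => by rw [hx1]
    have hH1v : IsH1 v G := H1_sum Finset.univ (fun j => ps_H1 hs (hp2 j)) c
    have hvc : Continuous v := by
      rw [hv]
      apply continuous_finsetSum
      intro j _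
      exact continuous_const.mul (ps_cont hs)
    refine ⟨G, ⟨H1_congr hH1v huv, v, huv, quasiCont_of_cont hvc, ?_⟩, ?_⟩
    · have : {x | x ∉ Ω ∧ v x ≠ 0} = ∅ := by
        ext x
        simp only [mem_ofPred_eq, mem_empty_iff_false, iff_false, not_and, not_not]
        intro hx
        rw [hv]
        apply Finset.sum_eq_zero
        intro j _
        have hxH : x ∉ Hx (co s (p j).1) s := fun h => hx (hp1 j (Hx_sub _ _ h))
        unfold mo ps
        rw [indicator_of_notMem hxH, mul_zero]
      rw [this, cap_empty]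
    · rw [Real.coe_toNNReal _ hr0]
      have e1 : ∫ x, u x ^ 2 = ∫ x, v x ^ 2 := by
        apply integral_congr_ae
        filter_upwards [huv] with x hx
        rw [hx]
      have hself : ∀ j, ∫ x, mo s (p j) x * mo s (p j) x = np (co s (p j).1) s (p j).2 :=
        fun j => ps_self
      have e2 : ∫ x, v x ^ 2 = ∑ j, c j ^ 2 * np (co s (p j).1) s (p j).2 := by
        have := sq_expand (F := Finset.univ) (f := fun _ : En (n + 1) => (0:ℝ)) MemLp.zero
          hmm c (c := fun _ => 0) (by simp) hself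
          (fun i j hij => mo_orth hs fun h => hij (hp h))
        simp only [zero_sub, neg_sq, mul_zero, Finset.sum_const_zero, ne_eq, OfNat.ofNat_ne_zero,
          not_false_eq_true, zero_pow, integral_zero, sub_zero, zero_add] at this
        exact this
      have hgm : ∀ j i, MemLp (fun x => mg s (p j) x i) 2 volume := fun j i =>
        comp_mem pg_mem i
      have e3 : ∀ i, ∫ x, (G x i) ^ 2 = ∑ j, c j ^ 2 * (fr s (p j).2 i ^ 2 *
          np (co s (p j).1) s (p j).2) := by
        intro i
        have := sq_expand (F := Finset.univ) (f := fun _ : En (n + 1) => (0:ℝ)) MemLp.zero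
          (fun j => hgm j i) c (c := fun _ => 0) (by simp) (fun j => mg_self hs (p j) i)
          (fun j l hjl => mg_orth hs (fun h => hjl (hp h)) i)
        simp only [zero_sub, neg_sq, mul_zero, Finset.sum_const_zero, ne_eq, OfNat.ofNat_ne_zero,
          not_false_eq_true, zero_pow, integral_zero, sub_zero, zero_add] at this
        rw [← this]
        congr 1
        funext x
        congr 1
        rw [hG]
        simp [Finset.sum_apply]
      have e4 : ∫ x, ‖G x‖ ^ 2 = ∑ i, ∫ x, (G x i) ^ 2 := by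
        simp_rw [norm_sq_sum]
        apply integral_finsetSum
        intro i _
        exact sqm (comp_mem hH1v.memG i)
      rw [e1, e2, e4, Finset.mul_sum]
      simp_rw [e3]
      rw [Finset.sum_comm]
      apply Finset.sum_le_sum
      intro j _
      have e5 : ∑ i, c j ^ 2 * (fr s (p j).2 i ^ 2 * np (co s (p j).1) s (p j).2) =
          (∑ i, fr s (p j).2 i ^ 2) * (c j ^ 2 * np (co s (p j).1) s (p j).2) := by
        rw [Finset.sum_mul]
        apply Finset.sum_congr rfl
        intro i _
        ring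
      rw [e5, fr_sum]
      apply mul_le_mul_of_nonneg_right _ (mul_nonneg (sq_nonneg _) (hbpos j).le)
      exact div_le_div_of_nonneg_right (hp3 j) (by positivity)

end modes1

end Pool.Agent.Helper88.Weyl
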