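import Mathlib
import Pool.Agent.Helper88.Weyl.Up2

open MeasureTheory Set Metric Filter Topology
open scoped ENNReal NNReal

noncomputable section

set_option linter.unusedSectionVars false

namespace Pool.Agent.Helper88.Weyl

variable {N : ℕ}

/-- the Dirichlet modes up to `L` -/
def Ds (N : ℕ) (L : ℝ) : Finset (Fin N → ℕ) :=
  (Fintype.piFinset fun _ => Finset.range (⌊L⌋₊ + 1)).filter
    fun m => (∀ i, 1 ≤ m i) ∧ Real.pi ^ 2 * ∑ i, (m i : ℝ) ^ 2 ≤ L

lemma mem_Ds {L : ℝ} (m : Fin N → ℕ) : m ∈ Ds N L ↔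
    (∀ i, 1 ≤ m i) ∧ Real.pi ^ 2 * ∑ i, (m i : ℝ) ^ 2 ≤ L := by
  unfold Ds
  rw [Finset.mem_filter, Fintype.mem_piFinset]
  refine ⟨fun h => h.2, fun h => ⟨fun i => ?_, h⟩⟩
  rw [Finset.mem_range, Nat.lt_succ_iff]
  apply Nat.le_floor
  have h1 : (m i : ℝ) ≤ (m i : ℝ) ^ 2 := by
    have : (1:ℝ) ≤ m i := by exact_mod_cast h.1 i
    nlinarith
  have h2 : (m i : ℝ) ^ 2 ≤ ∑ i, (m i : ℝ) ^ 2 :=
    Finset.single_le_sum (f := fun i => (m i : ℝ) ^ 2) (fun i _ => sq_nonneg _)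
      (Finset.mem_univ i)
  have h3 : (1:ℝ) ≤ Real.pi ^ 2 := by nlinarith [Real.pi_gt_three]
  have h4 : 0 ≤ ∑ i, (m i : ℝ) ^ 2 := Finset.sum_nonneg fun i _ => sq_nonneg _
  nlinarith [h.2]

/-- the spectral parameters -/
def Lj (N j : ℕ) : ℝ := Real.pi ^ 2 * (N * (j:ℝ) ^ 2)

lemma Fs_le_Ds (N j : ℕ) : (Fs N (Lj N j)).card ≤ (Ds N (Lj N (j + 1))).card := by
  have hpi : 0 < Real.pi ^ 2 := by positivity
  apply Finset.card_le_card_of_injOn (fun m i => m i + 1)
  · intro m hm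
    rw [Finset.mem_coe, mem_Fs] at hm
    rw [Finset.mem_coe, mem_Ds]
    unfold Lj at *
    have hm' : ∑ i, (m i : ℝ) ^ 2 < N * (j:ℝ) ^ 2 := lt_of_mul_lt_mul_left hm hpi.le
    refine ⟨fun i => by simp, ?_⟩
    apply mul_le_mul_of_nonneg_left _ hpi.le
    have h1 : (∑ i, (m i : ℝ)) ^ 2 ≤ N * ∑ i, (m i : ℝ) ^ 2 := by
      have := sq_sum_le_card_mul_sum_sq (s := Finset.univ) (f := fun i => (m i : ℝ))
      rwa [Finset.card_univ, Fintype.card_fin] at this
    have h2 : ∑ i, (m i : ℝ) ≤ N * j := by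
      have h3 : (∑ i, (m i : ℝ)) ^ 2 ≤ ((N:ℝ) * j) ^ 2 := by
        refine h1.trans ?_
        have : (N:ℝ) * ∑ i, (m i : ℝ) ^ 2 ≤ N * (N * (j:ℝ) ^ 2) :=
          mul_le_mul_of_nonneg_left hm'.le (Nat.cast_nonneg _)
        refine this.trans (le_of_eq ?_)
        ring
      exact le_of_sq_le_sq h3 (by positivity)
    push_cast
    have h4 : ∑ i, ((m i : ℝ) + 1) ^ 2 = ∑ i, (m i : ℝ) ^ 2 + 2 * ∑ i, (m i : ℝ) + N := by
      have : ∀ i, ((m i : ℝ) + 1) ^ 2 = (m i : ℝ) ^ 2 + 2 * (m i : ℝ) + 1 := fun i => by ring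
      simp_rw [this]
      rw [Finset.sum_add_distrib, Finset.sum_add_distrib, ← Finset.mul_sum]
      simp
    rw [h4]
    nlinarith
  · intro m _ m' _ h
    funext i
    have := congrFun h i
    simp only at this
    omega

lemma Ds_card_le (N : ℕ) (L : ℝ) : (Ds N L).card ≤ (⌊L⌋₊ + 1) ^ N := by
  unfold Ds
  refine (Finset.card_filter_le _ _).trans ?_
  rw [Fintype.card_piFinset]
  simp

lemma Ds_one_pos (N : ℕ) : 1 ≤ (Ds N (Lj N 1)).card := by
  rw [Nat.one_le_iff_ne_zero, ← Nat.pos_iff_ne_zero, Finset.card_pos]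
  refine ⟨fun _ => 1, ?_⟩
  rw [mem_Ds]
  refine ⟨fun _ => le_rfl, ?_⟩
  unfold Lj
  simp

/-- there is a spectral parameter for which the two counting functions are close -/
theorem ratio (hN : 1 ≤ N) {ε : ℝ} (hε : 0 < ε) : ∃ L : ℝ, 0 < L ∧ 1 ≤ (Ds N L).card ∧
    ((Fs N L).card : ℝ) ≤ (1 + ε) * (Ds N L).card := by
  set D : ℕ → ℝ := fun j => ((Ds N (Lj N (j + 1))).card : ℝ) with hD
  have hex : ∃ j, 1 ≤ D j ∧ D (j + 1) ≤ (1 + ε) * D j := by
    by_contra hcon
    push Not at hcon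
    have hgrow : ∀ j, (1 + ε) ^ j ≤ D j ∧ 1 ≤ D j := by
      intro j
      induction j with
      | zero =>
        have : (1:ℝ) ≤ D 0 := by
          simp only [hD]
          exact_mod_cast Ds_one_pos N
        exact ⟨by rw [pow_zero]; exact this, this⟩
      | succ j ih =>
        have h1 := hcon j ih.2
        constructor
        · rw [pow_succ]
          nlinarith [ih.1]
        · nlinarith [ih.2]
    have hpoly : ∀ j : ℕ, D j ≤ (Real.pi ^ 2 * N + 1) ^ N * ((j:ℝ) + 1) ^ (2 * N) := by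
      intro j
      have h1 : D j ≤ (((⌊Lj N (j + 1)⌋₊ + 1) ^ N : ℕ) : ℝ) := by
        simp only [hD]
        exact_mod_cast Ds_card_le N (Lj N (j + 1))
      refine h1.trans ?_
      push_cast
      have h2 : (⌊Lj N (j + 1)⌋₊ : ℝ) ≤ Lj N (j + 1) := Nat.floor_le (by unfold Lj; positivity)
      have h3 : (⌊Lj N (j + 1)⌋₊ : ℝ) + 1 ≤ (Real.pi ^ 2 * N + 1) * ((j:ℝ) + 1) ^ 2 := by
        unfold Lj at h2 ⊢
        push_cast at h2 ⊢
        have : (1:ℝ) ≤ ((j:ℝ) + 1) ^ 2 := one_le_pow₀ (by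
          have : (0:ℝ) ≤ j := Nat.cast_nonneg j
          linarith)
        nlinarith
      calc ((⌊Lj N (j + 1)⌋₊ : ℝ) + 1) ^ N ≤ ((Real.pi ^ 2 * N + 1) * ((j:ℝ) + 1) ^ 2) ^ N :=
            pow_le_pow_left₀ (by positivity) h3 N
        _ = (Real.pi ^ 2 * N + 1) ^ N * ((j:ℝ) + 1) ^ (2 * N) := by
            rw [mul_pow, ← pow_mul]
    have ht := tendsto_pow_const_div_const_pow_of_one_lt (2 * N) (show 1 < 1 + ε by linarith)
    have ht2 := ht.comp (tendsto_add_atTop_nat 1)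
    have hK : 0 < (Real.pi ^ 2 * N + 1) ^ N * (1 + ε) := by positivity
    have h5 := ht2.eventually_lt_const (show 0 < 1 / ((Real.pi ^ 2 * N + 1) ^ N * (1 + ε)) by
      positivity)
    obtain ⟨j, hj⟩ := h5.exists
    simp only [Function.comp] at hj
    push_cast at hj
    rw [div_lt_div_iff₀ (by positivity) hK, one_mul, pow_succ (1 + ε) j] at hj
    have h6 := (hgrow j).1.trans (hpoly j)
    have h7 := mul_le_mul_of_nonneg_right h6 (by linarith : 0 ≤ 1 + ε)
    linarith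
  obtain ⟨j, hj1, hj2⟩ := hex
  refine ⟨Lj N (j + 1), ?_, ?_, ?_⟩
  · unfold Lj
    have : (0:ℝ) < N := by exact_mod_cast hN
    push_cast
    positivity
  · simp only [hD] at hj1
    exact_mod_cast hj1
  · have h1 := Fs_le_Ds N (j + 1)
    have h2 : ((Fs N (Lj N (j + 1))).card : ℝ) ≤ D (j + 1) := by
      simp only [hD]
      exact_mod_cast h1
    exact h2.trans hj2

/-- number of lattice cubes inside a ball -/
lemma cube_count {s : ℝ} (hs : 0 < s) (R : ℝ) : ∃ Z : Finset (Fin N → ℤ),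
    (∀ z ∈ Z, Bx (co s z) s ⊆ ball (0 : En N) R) ∧
      volume.real (ball (0 : En N) (R - s * √N)) ≤ Z.card * s ^ N := by
  have hfin : Set.Finite {z : Fin N → ℤ | Bx (co s z) s ⊆ ball (0 : En N) R} := by
    have h1 : Set.Finite {z : Fin N → ℤ | ENNReal.ofReal (s ^ N) ≤
        volume (Qz s z ∩ ball (0 : En N) R)} := by
      apply Measure.finite_const_le_meas_of_disjoint_iUnion volume
      · rw [ENNReal.ofReal_pos]
        positivity
      · exact fun z => (Qz_meas s z).inter measurableSet_ball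
      · intro z z' hne
        exact (Qz_disj hs hne).mono inter_subset_left inter_subset_left
      · exact measure_ne_top_of_subset (iUnion_subset fun z => inter_subset_right)
          measure_ball_lt_top.ne
    apply h1.subset
    intro z hz
    have hz : Bx (co s z) s ⊆ ball (0 : En N) R := hz
    have h2 : Qz s z ∩ ball (0 : En N) R = Qz s z :=
      inter_eq_left.mpr ((Hx_sub _ _).trans hz)
    simp only [mem_ofPred_eq]
    rw [h2, Qz_vol hs]
  refine ⟨hfin.toFinset, fun z hz => by simpa using hz, ?_⟩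
  have hcov : ball (0 : En N) (R - s * √N) ⊆ ⋃ z ∈ hfin.toFinset, Qz s z := by
    intro x hx
    rw [mem_ball_zero_iff] at hx
    have hxQ : x ∈ Qz s (fun i => ⌊x i / s⌋) := (mem_Qz hs _ x).mpr rfl
    refine mem_iUnion₂.mpr ⟨_, ?_, hxQ⟩
    rw [Finite.mem_toFinset]
    intro y hy
    rw [mem_ball_zero_iff]
    have h1 : x + (y - x) = y := by abel
    have h2 := Hx_diam hs.le (Hx_sub _ _ hxQ) (h := y - x) (by rw [h1]; exact hy)
    calc ‖y‖ = ‖x + (y - x)‖ := by rw [h1]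
      _ ≤ ‖x‖ + ‖y - x‖ := norm_add_le _ _
      _ < R := by linarith
  have hne : volume (⋃ z ∈ hfin.toFinset, Qz (N := N) s z) ≠ ⊤ := by
    apply ne_of_lt
    refine (measure_biUnion_finset_le _ _).trans_lt ?_
    exact ENNReal.sum_lt_top.mpr fun z _ => Qz_fin s z
  refine (measureReal_mono hcov hne).trans ?_
  refine (measureReal_biUnion_finset_le _ _).trans (le_of_eq ?_)
  have : ∀ z, volume.real (Qz (N := N) s z) = s ^ N := by
    intro z
    rw [measureReal_def, Qz_vol hs, ENNReal.toReal_ofReal (by positivity)]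
  simp_rw [this]
  rw [Finset.sum_const, nsmul_eq_mul]

end Pool.Agent.Helper88.Weyl
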