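import Mathlib
import Pool.Agent.Helper88.Weyl.Count

open MeasureTheory Set Metric Filter Topology
open scoped ENNReal NNReal

noncomputable section

set_option linter.unusedSectionVars false

namespace Pool.Agent.Helper88.Weyl

open Pool.Agent.Helper88.Sup (mul_tendsto' mul_int' cs' sq_tendsto' sq_int)

variable {N : ℕ}

lemma vol_le_cap (A : Set (En N)) : volume A ≤ cap A := by
  unfold cap
  refine le_iInf fun u => le_iInf fun G => le_iInf fun h => le_iInf fun hU => ?_
  obtain ⟨U, hUo, hAU, hu⟩ := hU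
  have i1 := sqm h.memu
  have i2 := sq_int h.memG
  have i3 : Integrable (fun x => u x ^ 2 + ‖G x‖ ^ 2) := i1.add i2
  rw [ofReal_integral_eq_lintegral_ofReal i3 (ae_of_all _ fun x => by positivity)]
  calc volume A ≤ volume U := measure_mono hAU
    _ = ∫⁻ _x in U, 1 := by simp
    _ ≤ ∫⁻ x in U, ENNReal.ofReal (u x ^ 2 + ‖G x‖ ^ 2) := by
        apply lintegral_mono_ae
        rw [ae_restrict_iff' hUo.measurableSet]
        filter_upwards [hu] with x hx hxU
        have h1 := hx hxU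
        rw [← ENNReal.ofReal_one]
        apply ENNReal.ofReal_le_ofReal
        nlinarith [sq_nonneg ‖G x‖]
    _ ≤ ∫⁻ x, ENNReal.ofReal (u x ^ 2 + ‖G x‖ ^ 2) := setLIntegral_le_lintegral _ _

lemma quasi_null {Ω : Set (En N)} (h : QuasiOpen Ω) : NullMeasurableSet Ω := by
  have h1 : ∀ j : ℕ, ∃ O : Set (En N), IsOpen O ∧ cap O < ENNReal.ofReal (1 / ((j:ℝ) + 1)) ∧
      IsOpen (Ω ∪ O) := fun j => h _ (by rw [ENNReal.ofReal_pos]; positivity)
  choose O hO1 hO2 hO3 using h1
  set T : Set (En N) := ⋂ j, (Ω ∪ O j) with hT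
  have hTm : MeasurableSet T := MeasurableSet.iInter fun j => (hO3 j).measurableSet
  have hsub : Ω ⊆ T := subset_iInter fun j => subset_union_left
  have hnull : volume (T \ Ω) = 0 := by
    have hle : ∀ j : ℕ, volume (T \ Ω) ≤ ENNReal.ofReal (1 / ((j:ℝ) + 1)) := by
      intro j
      have h2 : T \ Ω ⊆ O j := by
        intro x hx
        have := mem_iInter.mp hx.1 j
        rcases this with h3 | h3
        · exact absurd h3 hx.2
        · exact h3
      exact (measure_mono h2).trans ((vol_le_cap _).trans (hO2 j).le)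
    have hlim : Tendsto (fun j : ℕ => ENNReal.ofReal (1 / ((j:ℝ) + 1))) atTop (𝓝 0) := by
      have := (ENNReal.continuous_ofReal.tendsto 0).comp
        (tendsto_one_div_add_atTop_nhds_zero_nat (𝕜 := ℝ))
      rwa [ENNReal.ofReal_zero] at this
    exact le_antisymm (ge_of_tendsto' hlim hle) bot_le
  have hae : T =ᵐ[volume] Ω := by
    apply (ae_eq_set).mpr
    refine ⟨hnull, ?_⟩
    rw [sdiff_eq_empty.mpr hsub, measure_empty]
  exact hTm.nullMeasurableSet.congr hae

lemma zero_out {Ω : Set (En N)} {u : En N → ℝ} {G : En N → En N} (h : MemH10 Ω u G) :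
    ∀ᵐ x, x ∉ Ω → u x = 0 := by
  obtain ⟨-, v, hv, -, hc⟩ := h
  have h0 : volume {x | x ∉ Ω ∧ v x ≠ 0} = 0 :=
    le_antisymm ((vol_le_cap _).trans hc.le) bot_le
  have h1 : ∀ᵐ x, ¬ (x ∉ Ω ∧ v x ≠ 0) := by
    rw [ae_iff]
    simpa only [not_not] using h0
  filter_upwards [hv, h1] with x hx1 hx2 hx3
  rw [← hx1]
  by_contra hne
  exact hx2 ⟨hx3, hne⟩

lemma per_congr {E F : Set (En N)} (h : E =ᵐ[volume] F) : perimeter E = perimeter F := by
  unfold perimeter
  congr 1
  funext T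
  simp_rw [setIntegral_congr_set h]

/-- the isoperimetric equality for balls -/
theorem per_ball_eq {n : ℕ} {R : ℝ} (hR : 0 < R) :
    perimeter (ball (0 : En (n + 1)) R) = ENNReal.ofReal ((n + 1) * om (n + 1) * R ^ n) := by
  have hω := om_pos (n + 1)
  apply le_antisymm
  · have := per_ball (N := n + 1) (by omega) hR
    push_cast at this
    exact this
  · by_contra hcon
    push Not at hcon
    set P := (perimeter (ball (0 : En (n + 1)) R)).toReal with hP
    have hne : perimeter (ball (0 : En (n + 1)) R) ≠ ⊤ := hcon.ne_top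
    have hle : perimeter (ball (0 : En (n + 1)) R) ≤ ENNReal.ofReal P := by
      rw [hP, ENNReal.ofReal_toReal hne]
    have hvol : volume.real (ball (0 : En (n + 1)) R) = R ^ (n + 1) * om (n + 1) :=
      vol_ball finrank_euclideanSpace_fin (by omega) _ hR.le
    have h1 := isoper (N := n + 1) (by omega) measurableSet_ball.nullMeasurableSet
      measure_ball_lt_top.ne ENNReal.toReal_nonneg hle (by rw [hvol]; positivity)
    rw [hvol] at h1
    have h2 : (om (n + 1) / (R ^ (n + 1) * om (n + 1))) ^ (((n + 1 : ℕ) : ℝ)⁻¹) = R⁻¹ := by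
      have e : om (n + 1) / (R ^ (n + 1) * om (n + 1)) = (R⁻¹) ^ (n + 1) := by
        rw [inv_pow]
        field_simp
      rw [e]
      exact Real.pow_rpow_inv_natCast (by positivity) (by omega)
    rw [h2] at h1
    have h3 : ((n + 1 : ℕ) : ℝ) * R⁻¹ * (R ^ (n + 1) * om (n + 1)) =
        (n + 1) * om (n + 1) * R ^ n := by
      push_cast
      rw [pow_succ]
      field_simp
    rw [h3] at h1
    have h4 := ENNReal.ofReal_le_ofReal h1
    rw [ENNReal.ofReal_toReal hne] at h4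
    exact absurd hcon (not_lt.mpr h4)

/-- lower bound for the volumes of the minimizers -/
theorem vol_lower {n : ℕ} {P : ℝ} (hP : 0 ≤ P) {R : ℝ} (hR : 0 < R) {Ω : ℕ → Set (En (n + 1))}
    (hq : ∀ k, 1 ≤ k → QuasiOpen (Ω k)) (hf : ∀ k, 1 ≤ k → volume (Ω k) < ⊤)
    (hper : ∀ k, 1 ≤ k → perimeter (Ω k) ≤ ENNReal.ofReal P)
    (hmin : ∀ k, 1 ≤ k → eigenvalue k (Ω k) ≤ eigenvalue k (ball (0 : En (n + 1)) R))
    {τ : ℝ} (hτ : 0 < τ) :
    ∀ᶠ k in atTop, (1 - τ) * (om (n + 1) * R ^ (n + 1)) ≤ volume.real (Ω k) := by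
  have hω := om_pos (n + 1)
  set v := om (n + 1) * R ^ (n + 1) with hv
  have hv0 : 0 < v := by positivity
  -- choice of ε
  obtain ⟨ε, hε0, hε1, hε2⟩ : ∃ ε : ℝ, 0 < ε ∧ ε < 1 ∧
      1 - τ < (1 - ε) ^ (n + 2) / (1 + ε) - ε := by
    have hc : ContinuousAt (fun ε : ℝ => (1 - ε) ^ (n + 2) / (1 + ε) - ε) 0 := by
      apply ContinuousAt.sub _ continuousAt_id
      apply ContinuousAt.div
      · fun_prop
      · fun_prop
      · norm_num
    have h0 : 1 - τ < (fun ε : ℝ => (1 - ε) ^ (n + 2) / (1 + ε) - ε) 0 := by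
      simp only [sub_zero, one_pow, add_zero, div_one]
      linarith
    have h1 := hc.eventually_const_lt h0
    have h2 : ∀ᶠ ε : ℝ in 𝓝 0, ε < 1 := gt_mem_nhds one_pos
    have h3 := ((h1.and h2).filter_mono nhdsWithin_le_nhds : ∀ᶠ ε in 𝓝[>] (0:ℝ), _)
    obtain ⟨ε, ⟨hε1, hε2⟩, hε3⟩ := (h3.and self_mem_nhdsWithin).exists
    exact ⟨ε, hε3, hε2, hε1⟩
  obtain ⟨L, hL, hD1, hFD⟩ := ratio (N := n + 1) (by omega) hε0
  set D : ℝ := ((Ds (n + 1) L).card : ℝ) with hD
  have hD0 : 1 ≤ D := by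
    rw [hD]
    exact_mod_cast hD1
  -- the scales
  set σ : ℕ → ℝ := fun k => ((1 - ε) * D * v / k) ^ (((n + 1 : ℕ) : ℝ)⁻¹) with hσ
  have hAv : 0 < (1 - ε) * D * v := mul_pos (mul_pos (by linarith) (by linarith)) hv0
  have hσlim : Tendsto σ atTop (𝓝 0) := by
    have h1 : Tendsto (fun k : ℕ => (1 - ε) * D * v / (k:ℝ)) atTop (𝓝 0) :=
      tendsto_const_div_atTop_nhds_zero_nat _
    have h2 := ((rc (n + 1)).tendsto 0).comp h1
    have h3 : (0:ℝ) ^ (((n + 1 : ℕ) : ℝ)⁻¹) = 0 := Real.zero_rpow (by positivity)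
    rw [h3] at h2
    exact h2
  set C := 2 / th (n + 1) L * kc (n + 1) with hC
  have hvolball : Tendsto (fun k => volume.real (ball (0 : En (n + 1)) (R - σ k * √((n + 1 : ℕ) : ℝ))))
      atTop (𝓝 v) := by
    have h1 : Tendsto (fun k => (R - σ k * √((n + 1 : ℕ) : ℝ)) ^ (n + 1) * om (n + 1)) atTop
        (𝓝 ((R - 0 * √((n + 1 : ℕ) : ℝ)) ^ (n + 1) * om (n + 1))) :=
      ((tendsto_const_nhds.sub (hσlim.mul_const _)).pow (n + 1)).mul_const _
    have e : (R - 0 * √((n + 1 : ℕ) : ℝ)) ^ (n + 1) * om (n + 1) = v := by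
      rw [hv]
      ring
    rw [e] at h1
    have h2 : Tendsto (fun k => R - σ k * √((n + 1 : ℕ) : ℝ)) atTop (𝓝 R) := by
      have := (tendsto_const_nhds (x := R)).sub (hσlim.mul_const (√((n + 1 : ℕ) : ℝ)))
      rwa [zero_mul, sub_zero] at this
    refine h1.congr' ?_
    filter_upwards [h2.eventually_const_lt hR] with k hk
    rw [vol_ball finrank_euclideanSpace_fin (by omega) _ hk.le]
  have e1 : ∀ᶠ k in atTop, (1 - ε) * v <
      volume.real (ball (0 : En (n + 1)) (R - σ k * √((n + 1 : ℕ) : ℝ))) :=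
    hvolball.eventually_const_lt (by nlinarith)
  have e2 : ∀ᶠ k in atTop, C * ((1 - ε) * σ k * P) < ε * v := by
    have h1 : Tendsto (fun k => C * ((1 - ε) * σ k * P)) atTop (𝓝 (C * ((1 - ε) * 0 * P))) :=
      (((hσlim.const_mul (1 - ε)).mul_const P)).const_mul C
    rw [mul_zero, zero_mul, mul_zero] at h1
    exact h1.eventually_lt_const (by positivity)
  filter_upwards [e1, e2, eventually_ge_atTop 1] with k f1 f2 hk
  have hk0 : (0:ℝ) < k := by exact_mod_cast hk
  have hs0 : 0 < σ k := by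
    simp only [hσ]
    positivity
  have hspow : k * σ k ^ (n + 1) = (1 - ε) * D * v := by
    have : σ k ^ (n + 1) = (1 - ε) * D * v / k := by
      simp only [hσ]
      exact Real.rpow_inv_natCast_pow (by positivity) (by omega)
    rw [this]
    field_simp
  -- upper bound for the ball
  obtain ⟨Z, hZ1, hZ2⟩ := cube_count (N := n + 1) hs0 R
  have hcard : k ≤ Z.card * (Ds (n + 1) L).card := by
    have h1 : (1 - ε) * v < Z.card * σ k ^ (n + 1) := lt_of_lt_of_le f1 hZ2
    have h2 : (k:ℝ) * σ k ^ (n + 1) ≤ (Z.card * D) * σ k ^ (n + 1) := by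
      rw [hspow]
      have := mul_le_mul_of_nonneg_right h1.le (by linarith : 0 ≤ D)
      linarith
    have h3 : (k:ℝ) ≤ Z.card * D := le_of_mul_le_mul_right h2 (by positivity)
    rw [hD] at h3
    exact_mod_cast h3
  obtain ⟨ι⟩ : Nonempty (Fin k ↪ (Z × Ds (n + 1) L : Type)) := by
    apply Function.Embedding.nonempty_of_card_le
    rw [Fintype.card_fin, Fintype.card_prod, Fintype.card_coe, Fintype.card_coe]
    exact hcard
  have hup : eigenvalue k (ball (0 : En (n + 1)) R) ≤ ENNReal.ofReal (L / σ k ^ 2) := by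
    apply upper hs0 hL.le (fun j => ((ι j).1.1, (ι j).2.1))
    · intro i j hij
      apply ι.injective
      have h1 := Prod.ext_iff.mp hij
      exact Prod.ext (Subtype.ext h1.1) (Subtype.ext h1.2)
    · intro j
      exact hZ1 _ (ι j).1.2
    · intro j i
      exact ((mem_Ds _).mp (ι j).2.2).1 i
    · intro j
      exact ((mem_Ds _).mp (ι j).2.2).2
  -- lower bound for the minimizer
  set s' := (1 - ε) * σ k with hs'
  have hs'0 : 0 < s' := mul_pos (by linarith) hs0
  have hs'lt : s' < σ k := by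
    rw [hs']
    nlinarith
  have hlt : eigenvalue k (Ω k) < ENNReal.ofReal (L / s' ^ 2) := by
    refine lt_of_le_of_lt ((hmin k hk).trans hup) ?_
    rw [ENNReal.ofReal_lt_ofReal_iff (by positivity)]
    apply div_lt_div_of_pos_left hL (by positivity)
    exact pow_lt_pow_left₀ hs'lt hs'0.le two_ne_zero
  unfold eigenvalue at hlt
  rw [iInf_lt_iff] at hlt
  obtain ⟨r, hr⟩ := hlt
  rw [iInf_lt_iff] at hr
  obtain ⟨⟨V, hV1, hV2⟩, hr⟩ := hr
  have hrlt : (r : ℝ) < L / s' ^ 2 := by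
    have h1 : ENNReal.ofReal (r : ℝ) < ENNReal.ofReal (L / s' ^ 2) := by
      rwa [ENNReal.ofReal_coe_nnreal]
    exact (ENNReal.ofReal_lt_ofReal_iff (by positivity)).mp h1
  have hΩn := quasi_null (hq k hk)
  obtain ⟨E, hEm, hEae⟩ : ∃ E, MeasurableSet E ∧ E =ᵐ[volume] Ω k := by
    obtain ⟨t, -, ht1, ht2⟩ := hΩn.exists_measurable_superset_ae_eq
    exact ⟨t, ht1, ht2⟩
  have hEv : volume E ≠ ⊤ := by
    rw [measure_congr hEae]
    exact (hf k hk).ne
  have hEper : perimeter E ≤ ENNReal.ofReal P := by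
    rw [per_congr hEae]
    exact hper k hk
  have hmain := lower hEm hEv hP hEper hs'0 hL (k := k) (by omega) hrlt hV1 (by
    intro f hfV
    obtain ⟨G, hG1, hG2⟩ := hV2 f hfV
    refine ⟨G, hG1.1, ?_, hG2⟩
    filter_upwards [zero_out hG1, hEae.mem_iff] with x hx1 hx2 hx3
    exact hx1 fun h => hx3 (hx2.mpr h))
  have hvolE : volume.real E = volume.real (Ω k) := by
    rw [measureReal_def, measureReal_def, measure_congr hEae]
  rw [hvolE] at hmain
  have hkpow : (k:ℝ) * s' ^ (n + 1) = (1 - ε) ^ (n + 2) * D * v := by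
    rw [hs', mul_pow]
    calc (k:ℝ) * ((1 - ε) ^ (n + 1) * σ k ^ (n + 1)) =
        (1 - ε) ^ (n + 1) * (k * σ k ^ (n + 1)) := by ring
      _ = (1 - ε) ^ (n + 2) * D * v := by
          rw [hspow]
          ring
  rw [hkpow] at hmain
  set X := volume.real (Ω k) + C * (s' * P) with hX
  have hX0 : 0 ≤ X := by
    have h1 : 0 ≤ volume.real (Ω k) := measureReal_nonneg
    have h2 : 0 ≤ C := by
      rw [hC]
      have := th_pos (n + 1) L
      unfold kc
      positivity
    positivity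
  have h1 : (1 - ε) ^ (n + 2) * D * v ≤ (1 + ε) * D * X := by
    refine hmain.trans ?_
    exact mul_le_mul_of_nonneg_right hFD hX0
  have h2 : (1 - ε) ^ (n + 2) * v ≤ (1 + ε) * X := by
    have h3 : D * ((1 - ε) ^ (n + 2) * v) ≤ D * ((1 + ε) * X) := by linarith
    exact le_of_mul_le_mul_left h3 (by linarith)
  have h3 : (1 - ε) ^ (n + 2) / (1 + ε) * v ≤ X := by
    rw [div_mul_eq_mul_div, div_le_iff₀ (by linarith)]
    linarith
  have h4 : C * (s' * P) < ε * v := f2
  have h5 : (1 - τ) * v < ((1 - ε) ^ (n + 2) / (1 + ε) - ε) * v :=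
    mul_lt_mul_of_pos_right hε2 hv0
  rw [hX] at h3
  linarith

lemma shift_symm (a : En N) (R : ℝ) (Ω : Set (En N)) :
    volume (symmDiff ((fun y => a + y) '' Ω) (ball 0 R)) =
      volume (symmDiff Ω (ball (-a) R)) := by
  have h1 : (fun y => a + y) '' Ω = (fun y => -a + y) ⁻¹' Ω := Set.image_add_left
  have h2 : ball (0 : En N) R = (fun y => -a + y) ⁻¹' ball (-a) R := by
    ext y
    rw [mem_preimage, mem_ball, mem_ball, dist_eq_norm, dist_eq_norm]
    have : -a + y - -a = y - 0 := by abel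
    rw [this]
  rw [h1, h2]
  have h3 : symmDiff ((fun y => -a + y) ⁻¹' Ω) ((fun y => -a + y) ⁻¹' ball (-a) R) =
      (fun y => -a + y) ⁻¹' (symmDiff Ω (ball (-a) R)) := rfl
  rw [h3, measure_preimage_add]

/-- the minimizers converge to the ball, up to translations -/
theorem main_conv {n : ℕ} (hn : 1 ≤ n) {P₀ : ℝ} (hP₀ : 0 < P₀) {R : ℝ} (hR : 0 < R)
    (hPR : perimeter (ball (0 : En (n + 1)) R) = ENNReal.ofReal P₀) {Ω : ℕ → Set (En (n + 1))}
    (h : ∀ k, 1 ≤ k → IsMinimizer k P₀ (Ω k)) :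
    Tendsto (fun k => ⨅ x : En (n + 1), volume (symmDiff ((fun y => x + y) '' Ω k) (ball 0 R)))
      atTop (𝓝 0) := by
  have hω := om_pos (n + 1)
  set v := om (n + 1) * R ^ (n + 1) with hv
  have hP : P₀ = (n + 1) * om (n + 1) * R ^ n := by
    rw [per_ball_eq hR] at hPR
    exact ((ENNReal.ofReal_eq_ofReal_iff (by positivity) hP₀.le).mp hPR).symm
  have hball : Admissible P₀ (ball (0 : En (n + 1)) R) :=
    ⟨quasiOpen_of_open isOpen_ball, measure_ball_lt_top, hPR.le⟩
  have hq : ∀ k, 1 ≤ k → QuasiOpen (Ω k) := fun k hk => (h k hk).1.quasiOpen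
  have hf : ∀ k, 1 ≤ k → volume (Ω k) < ⊤ := fun k hk => (h k hk).1.finite
  have hper : ∀ k, 1 ≤ k → perimeter (Ω k) ≤ ENNReal.ofReal P₀ := fun k hk => (h k hk).1.per
  have hmin : ∀ k, 1 ≤ k → eigenvalue k (Ω k) ≤ eigenvalue k (ball (0 : En (n + 1)) R) :=
    fun k hk => (h k hk).2 _ hball
  have hvol : Tendsto (fun k => volume.real (Ω k)) atTop (𝓝 v) := by
    rw [Metric.tendsto_atTop']
    intro ε hε
    have h1 := vol_lower hP₀.le hR hq hf hper hmin (τ := ε / (2 * v)) (by positivity)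
    obtain ⟨K, hK⟩ := eventually_atTop.mp h1
    refine ⟨max K 1, fun k hk => ?_⟩
    have hk1 : 1 ≤ k := (le_max_right K 1).trans hk.le
    have hk2 := hK k ((le_max_left K 1).trans hk.le)
    have hk3 : volume.real (Ω k) ≤ v :=
      isoper_vol (quasi_null (hq k hk1)) hn (hf k hk1).ne hR (by rw [← hP]; exact hper k hk1)
    rw [Real.dist_eq, abs_of_nonpos (by linarith)]
    have e : (1 - ε / (2 * v)) * v = v - ε / 2 := by
      have : v ≠ 0 := by positivity
      field_simp
    rw [e] at hk2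
    linarith
  have hst : ∀ δ : ℝ, 0 < δ → ∀ᶠ k in atTop, ∃ w : En (n + 1),
      volume.real (symmDiff (Ω (k + 1)) (ball w R)) ≤ δ := by
    intro δ hδ
    apply set_stab hn hR (E := fun k => Ω (k + 1)) (fun k => quasi_null (hq _ (by omega)))
      (fun k => (hf _ (by omega)).ne) _ _ hδ
    · intro k
      rw [← hP]
      exact hper _ (by omega)
    · exact hvol.comp (tendsto_add_atTop_nat 1)
  rw [← tendsto_add_atTop_iff_nat 1, ENNReal.tendsto_nhds_zero]
  intro ε hε
  rcases eq_or_ne ε ⊤ with rfl | hεt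
  · exact Eventually.of_forall fun _ => le_top
  filter_upwards [hst ε.toReal (ENNReal.toReal_pos hε.ne' hεt)] with k hk
  obtain ⟨w, hw⟩ := hk
  apply iInf_le_of_le (-w)
  rw [shift_symm, neg_neg]
  have hfin : volume (symmDiff (Ω (k + 1)) (ball w R)) ≠ ⊤ := by
    apply ne_of_lt
    refine lt_of_le_of_lt (measure_mono symmDiff_subset_union) ?_
    exact (measure_union_le _ _).trans_lt
      (ENNReal.add_lt_top.mpr ⟨hf _ (by omega), measure_ball_lt_top⟩)
  rw [measureReal_def] at hw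
  exact (ENNReal.toReal_le_toReal hfin hεt).mp hw

/-- every prescribed perimeter is attained by a ball -/
theorem exists_ball {n : ℕ} (hn : 1 ≤ n) {P₀ : ℝ} (hP₀ : 0 < P₀) : ∃ R : ℝ, 0 < R ∧
    perimeter (ball (0 : En (n + 1)) R) = ENNReal.ofReal P₀ := by
  have hω := om_pos (n + 1)
  have hc : 0 < ((n:ℝ) + 1) * om (n + 1) := by positivity
  refine ⟨(P₀ / ((n + 1) * om (n + 1))) ^ (((n : ℕ) : ℝ)⁻¹), by positivity, ?_⟩
  rw [per_ball_eq (by positivity), Real.rpow_inv_natCast_pow (by positivity) (by omega)]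
  congr 1
  field_simp

end Pool.Agent.Helper88.Weyl
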