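import Mathlib
import Pool.Agent.Helper88.Weyl.Fin

open MeasureTheory Set Metric Filter Topology
open scoped ENNReal NNReal

noncomputable section

namespace Pool.Agent.Helper88.Weyl

variable {N : ℕ}

/-- `k`-dimensional space of functions in `H¹₀(Ω)` with Rayleigh quotient at most `r` -/
def FunSpace (k : ℕ) (Ω : Set (En N)) (r : ℝ) : Prop :=
  ∃ V : Submodule ℝ (En N → ℝ), Module.finrank ℝ V = k ∧ (∀ u ∈ V, u =ᵐ[volume] 0 → u = 0) ∧
    ∀ u ∈ V, ∃ G : En N → En N, MemH10 Ω u G ∧ ∫ x, ‖G x‖ ^ 2 ≤ r * ∫ x, u x ^ 2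

lemma mem_congr {Ω : Set (En N)} {u v : En N → ℝ} {G : En N → En N} (h : MemH10 Ω u G)
    (huv : u =ᵐ[volume] v) : MemH10 Ω v G := by
  obtain ⟨h1, w, hw, hq, hc⟩ := h
  exact ⟨H1_congr h1 huv, w, hw.trans huv, hq, hc⟩

lemma sq_congr {u v : En N → ℝ} (huv : u =ᵐ[volume] v) : ∫ x, u x ^ 2 = ∫ x, v x ^ 2 := by
  apply integral_congr_ae
  filter_upwards [huv] with x hx
  rw [hx]

lemma funSpace_iff (k : ℕ) (Ω : Set (En N)) (r : ℝ) : FunSpace k Ω r ↔
    ∃ V : Submodule ℝ (Lp ℝ 2 (volume : Measure (En N))),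
    Module.finrank ℝ V = k ∧ ∀ u ∈ V, ∃ G : En N → En N, MemH10 Ω u G ∧
      ∫ x, ‖G x‖ ^ 2 ≤ r * ∫ x, u x ^ 2 := by
  constructor
  · rintro ⟨V, hk, h0, hV⟩
    have hm : ∀ u : V, MemLp (u : En N → ℝ) 2 volume := by
      intro u
      obtain ⟨G, hG, -⟩ := hV u.1 u.2
      exact hG.1.memu
    let L : V →ₗ[ℝ] Lp ℝ 2 (volume : Measure (En N)) :=
      { toFun := fun u => (hm u).toLp
        map_add' := fun u v => by
          rw [← MemLp.toLp_add (hm u) (hm v)]
          rfl
        map_smul' := fun c u => by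
          rw [RingHom.id_apply, ← MemLp.toLp_const_smul c (hm u)]
          rfl }
    have hL : Function.Injective L := by
      rw [← LinearMap.ker_eq_bot, LinearMap.ker_eq_bot']
      intro u hu
      have h2 : (u : En N → ℝ) =ᵐ[volume] 0 := by
        have h3 : ((hm u).toLp : En N → ℝ) =ᵐ[volume] (u : En N → ℝ) := MemLp.coeFn_toLp _
        have h4 : (hm u).toLp = 0 := hu
        rw [h4] at h3
        exact h3.symm.trans (Lp.coeFn_zero _ _ _)
      exact Subtype.ext (h0 u.1 u.2 h2)
    refine ⟨LinearMap.range L, ?_, ?_⟩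
    · rw [LinearMap.finrank_range_of_inj hL, hk]
    · rintro _ ⟨u, rfl⟩
      obtain ⟨G, hG, hr⟩ := hV u.1 u.2
      have h3 : (u : En N → ℝ) =ᵐ[volume] ((hm u).toLp : En N → ℝ) := (MemLp.coeFn_toLp _).symm
      refine ⟨G, mem_congr hG h3, ?_⟩
      rw [sq_congr h3] at hr
      exact hr
  · rintro ⟨V, hk, hV⟩
    rcases Nat.eq_zero_or_pos k with rfl | hkp
    · refine ⟨⊥, by simp, ?_, ?_⟩
      · intro u hu _
        simpa using hu
      · intro u hu
        have hu0 : u = 0 := by simpa using hu
        subst hu0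
        obtain ⟨G, hG, hr⟩ := hV 0 V.zero_mem
        have h3 : ((0 : Lp ℝ 2 (volume : Measure (En N))) : En N → ℝ) =ᵐ[volume] 0 :=
          Lp.coeFn_zero _ _ _
        refine ⟨G, mem_congr hG h3, ?_⟩
        rw [sq_congr h3] at hr
        exact hr
    · have hfd : Module.Finite ℝ V := Module.finite_of_finrank_pos (by rw [hk]; exact hkp)
      let b := Module.finBasisOfFinrankEq ℝ V hk
      let g : Fin k → En N → ℝ := fun i => ((b i : Lp ℝ 2 (volume : Measure (En N))) : En N → ℝ)
      have hrep : ∀ c : Fin k → ℝ, (∑ i, c i • g i) =ᵐ[volume]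
          (((∑ i, c i • b i : V) : Lp ℝ 2 (volume : Measure (En N))) : En N → ℝ) := by
        intro c
        have h5 : ∀ I : Finset (Fin k), (((∑ i ∈ I, c i • b i : V) :
            Lp ℝ 2 (volume : Measure (En N))) : En N → ℝ) =ᵐ[volume] (∑ i ∈ I, c i • g i) := by
          intro I
          induction I using Finset.induction_on with
          | empty =>
            simp only [Finset.sum_empty]
            exact Lp.coeFn_zero _ _ _
          | insert i I hi ih =>
            rw [Finset.sum_insert hi, Finset.sum_insert hi]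
            rw [Submodule.coe_add]
            refine (Lp.coeFn_add _ _).trans ?_
            refine EventuallyEq.add ?_ ih
            rw [Submodule.coe_smul]
            exact Lp.coeFn_smul _ _
        exact (h5 Finset.univ).symm
      have hli : LinearIndependent ℝ g := by
        rw [Fintype.linearIndependent_iff]
        intro c hc
        have h6 : (∑ i, c i • b i : V) = 0 := by
          apply Subtype.ext
          apply Lp.ext
          refine (hrep c).symm.trans ?_
          rw [hc]
          exact (Lp.coeFn_zero _ _ _).symm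
        exact Fintype.linearIndependent_iff.mp b.linearIndependent c h6
      refine ⟨Submodule.span ℝ (range g), ?_, ?_, ?_⟩
      · rw [finrank_span_eq_card hli, Fintype.card_fin]
      · intro u hu hu0
        obtain ⟨c, rfl⟩ := (Submodule.mem_span_range_iff_exists_fun ℝ).mp hu
        have h6 : (∑ i, c i • b i : V) = 0 := by
          apply Subtype.ext
          apply Lp.ext
          refine (hrep c).symm.trans ?_
          exact hu0.trans (Lp.coeFn_zero _ _ _).symm
        have h7 := Fintype.linearIndependent_iff.mp b.linearIndependent c h6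
        simp [h7]
      · intro u hu
        obtain ⟨c, rfl⟩ := (Submodule.mem_span_range_iff_exists_fun ℝ).mp hu
        obtain ⟨G, hG, hr⟩ := hV _ (∑ i, c i • b i : V).2
        refine ⟨G, mem_congr hG (hrep c).symm, ?_⟩
        rw [sq_congr (hrep c).symm] at hr
        exact hr

lemma eigenvalue_eq (k : ℕ) (Ω : Set (En N)) :
    eigenvalue k Ω = ⨅ (r : ℝ≥0) (_ : FunSpace k Ω r), (r : ℝ≥0∞) := by
  unfold eigenvalue
  simp_rw [funSpace_iff]

end Pool.Agent.Helper88.Weyl
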